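import Pool.Agent.R907.AllFieldsDefs
import Pool.Agent.Y137.HD.Main

/-!
# The numerical Hodge standard conjecture over arbitrary fields by specialization
-/

set_option autoImplicit false
set_option linter.unusedSectionVars false
set_option linter.unusedVariables false

namespace Pool.Agent.R907

open NumberField Pool.Agent.H204R3.CM Pool.Agent.W547.KB Pool.Agent.W547.LD Pool.Agent.W547.HR
  Pool.Agent.W495.TA Pool.Agent.TH117.PO Module Equiv Pool.Agent.Y137.HS Pool.Agent.Y137.HD
open scoped TensorProduct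

universe u

variable {p : ℕ} [Fact p.Prime] {ν : PadicAlgCl p ≃+* ℂ} {Ω : Type} [Field Ω] [CharZero Ω]
  {C : (Y : RedAV p ν) → (κ : Type) → ((TM Ω Y) [⋀^κ]→ₗ[Ω] Ω) → Prop}
  {A : Type u} [CommRing A] [Algebra ℚ A] {n : ℕ} {gr : ℕ → Submodule ℚ A} {deg : A →ₗ[ℚ] ℚ} {D : A}
  {Y : RedAV p ν} {α : Y.X.H1} {sp : ∀ r : ℕ, A → Form Ω Y r}

/-- The self-intersections of primitive classes are positive. -/
theorem self_pos (h : Specializes C n gr D Y α sp) (hR : IsCycleRing n gr deg D)
    (hpos : ∀ (r m : ℕ), 2 * (2 * r + m) = finrank ℚ Y.X.H1 →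
      ∀ z : (TM Ω Y) [⋀^Fin r × Fin 2]→ₗ[Ω] Ω, C Y (Fin r × Fin 2) z → z ≠ 0 → IsPrim α m z →
        IsPosClass α m z) {j m : ℕ} (hjm : 2 * j + m = n) {a : A} (ha : a ∈ gr j)
    (hprim : D ^ (m + 1) * a = 0) (ha0 : a ≠ 0) : 0 < (-1 : ℚ) ^ j * deg (a * (a * D ^ m)) := by
  have hf0 : (show (TM Ω Y) [⋀^Fin j × Fin 2]→ₗ[Ω] Ω from sp j a) ≠ 0 := fun h1 =>
    ha0 (h.inj j a ha fun v => by
      change res (show (TM Ω Y) [⋀^Fin j × Fin 2]→ₗ[Ω] Ω from sp j a) v = 0
      rw [h1]
      rfl)
  have hzero : ∀ i v, res (sp i (0 : A)) v = 0 := by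
    intro i v
    have h1 := h.smul i 0 0 (gr i).zero_mem v
    rw [smul_zero, Rat.cast_zero, zero_mul] at h1
    exact h1
  have hfp : IsPrim α m (show (TM Ω Y) [⋀^Fin j × Fin 2]→ₗ[Ω] Ω from sp j a) := by
    intro v
    obtain ⟨c, hc, h1⟩ := h.mul_pow hR ha (m + 1)
    have h3 := h1 (fun k => v ((join j (m + 1)).symm k))
    rw [mul_comm a, hprim, hzero] at h3
    have h5 : (fun k => (fun k => v ((join j (m + 1)).symm k)) (join j (m + 1) k)) = v := by
      funext k
      simp
    rw [h5] at h3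
    have hc' : (c : Ω) ≠ 0 := by exact_mod_cast hc.ne'
    exact (mul_eq_zero.1 h3.symm).resolve_left hc'
  obtain ⟨c, hc, h1⟩ := hpos j m (by rw [← h.dim, hjm]) _ (h.cycle j a ha) hf0 hfp
  obtain ⟨c1, hc1, h2⟩ := h.sq_mul_pow hR ha m
  obtain ⟨c2, hc2, h3⟩ := h.pow hR (j + (j + m))
  have haa : a * (a * D ^ m) ∈ gr (j + (j + m)) := hR.mul_mem ha (hR.mul_mem ha (hR.pow_mem m))
  have hDn := hR.pow_mem (j + (j + m))
  have key : (-1 : ℚ) ^ j • (a * (a * D ^ m)) + (-(c1 * c / c2)) • D ^ (j + (j + m)) = 0 := by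
    refine h.inj (j + (j + m)) _ ((gr _).add_mem ((gr _).smul_mem _ haa)
      ((gr _).smul_mem _ hDn)) fun v => ?_
    rw [h.add _ _ ((gr _).smul_mem _ haa) _ ((gr _).smul_mem _ hDn), h.smul _ _ _ haa,
      h.smul _ _ _ hDn]
    have e1 : (sp (j + (j + m)) (a * (a * D ^ m))).val v = (c1 : Ω) * altSum (times (res (sp j a))
      (times (res (sp j a)) (powE (castE Ω (riemannForm Y.X α)) m)))
        (fun k => v (join j (j + m) (Sum.map id (join j m) k))) := h2 v
    have e2 : (sp (j + (j + m)) (D ^ (j + (j + m)))).val v = (c2 : Ω) *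
      altSum (times (powE (castE Ω (riemannForm Y.X α)) j)
        (times (powE (castE Ω (riemannForm Y.X α)) j)
          (powE (castE Ω (riemannForm Y.X α)) m)))
        (fun k => v (join j (j + m) (Sum.map id (join j m) k))) := by
      refine (h3 v).trans ?_
      rw [pow_split]
    have e3 : (-1) ^ j * altSum (times (res (sp j a)) (times (res (sp j a))
        (powE (castE Ω (riemannForm Y.X α)) m)))
        (fun k => v (join j (j + m) (Sum.map id (join j m) k))) =
      (c : Ω) * altSum (times (powE (castE Ω (riemannForm Y.X α)) j)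
        (times (powE (castE Ω (riemannForm Y.X α)) j)
          (powE (castE Ω (riemannForm Y.X α)) m)))
        (fun k => v (join j (j + m) (Sum.map id (join j m) k))) := h1 _
    have hc2' : (c2 : Ω) ≠ 0 := by exact_mod_cast hc2.ne'
    rw [e1, e2]
    push_cast
    have e4 : -((c1 : Ω) * c / c2) * ((c2 : Ω) *
        altSum (times (powE (castE Ω (riemannForm Y.X α)) j)
        (times (powE (castE Ω (riemannForm Y.X α)) j)
          (powE (castE Ω (riemannForm Y.X α)) m)))
        (fun k => v (join j (j + m) (Sum.map id (join j m) k)))) = -(c1 * ((c : Ω) *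
        altSum (times (powE (castE Ω (riemannForm Y.X α)) j)
        (times (powE (castE Ω (riemannForm Y.X α)) j)
          (powE (castE Ω (riemannForm Y.X α)) m)))
        (fun k => v (join j (j + m) (Sum.map id (join j m) k))))) := by
      field_simp
    rw [e4, ← e3]
    ring
  have h4 := congrArg deg key
  rw [map_add, map_smul, map_smul, map_zero, smul_eq_mul, smul_eq_mul,
    show j + (j + m) = n by omega] at h4
  have h5 : (-1 : ℚ) ^ j * deg (a * (a * D ^ m)) = c1 * c / c2 * deg (D ^ n) := by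
    linear_combination h4
  rw [h5]
  exact mul_pos (div_pos (mul_pos hc1 hc) hc2) hR.ample

/-- **The numerical Hodge standard conjecture for the varieties that specialize to `Y`.** -/
theorem numHodge_of_specializes [IsAlgClosed Ω] (hC : IsCycleSystemS Ω C)
    (hRos : IsRosatiPositive Ω C) (hT : AreTate Ω C)
    (hY : finrank ℚ Y.X.H1 ≤ 10 ∨ ∃ Z : RedAV p ν, Pool.Agent.Y137.SF.HasElementaryRelationsS Z ∧
      Pool.Agent.TH117.BL.IsPowersTimesSupersingular Z Y)
    (hα : IsPolar Y.X α) (h : Specializes C n gr D Y α sp) (hR : IsCycleRing n gr deg D)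
    (hA : LefschetzA n gr D) : NumHodgeRing n gr deg D := by
  have hN := numEqHom_of_specializes hC hRos hT hY hα h hR hA
  intro r m hrm z hz hprim hz0
  refine self_pos h hR (fun _ _ hrm _ hz hz0 hprim =>
    hodgeStandard hC hRos hT hY hα hrm hz hz0 hprim) hrm hz ?_ ?_
  · rcases Nat.eq_zero_or_pos r with h0 | h0
    · subst h0
      exact hR.bound (by omega) (hR.pow_mul_mem (m + 1) hz)
    · have hmem := hR.pow_mul_mem (m + 1) hz
      refine hN (m + 1 + r) (by omega) _ hmem fun w hw => hprim (r - 1) (by omega) w ?_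
      rwa [show n - (m + 1 + r) = r - 1 by omega] at hw
  · rintro rfl
    obtain ⟨w, _, hw⟩ := hz0
    rw [zero_mul, map_zero] at hw
    exact hw rfl

end Pool.Agent.R907
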