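import Pool.Agent.Y137.HD.Defs

/-!
# The numerical Hodge standard conjecture for a ring of algebraic cycles
-/

set_option autoImplicit false

namespace Pool.Agent.R907

universe u

/-- The numerical Hodge standard conjecture. Let `A` be the ring of algebraic cycles, with rational
coefficients, modulo homological equivalence on a variety `X` of dimension `n`, `gr i` the subspace of
cycles of codimension `i`, `deg` the degree of zero-cycles and `D` an ample divisor. For `n = 2 r + m`
and `z` in `gr r`: if `z` is primitive modulo numerical equivalence (that is, the intersection numbers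
of `D ^ (m + 1) z` with all cycles of codimension `r - 1` are zero; no condition for `r = 0`) and not
numerically equivalent to zero, then `(-1) ^ r z · z · D ^ m` is positive. -/
def NumHodgeRing {A : Type u} [CommRing A] [Algebra ℚ A] (n : ℕ) (gr : ℕ → Submodule ℚ A)
    (deg : A →ₗ[ℚ] ℚ) (D : A) : Prop :=
  ∀ r m, 2 * r + m = n → ∀ z ∈ gr r,
    (∀ i, i + 1 = r → ∀ w ∈ gr i, deg (D ^ (m + 1) * z * w) = 0) →
    (∃ w ∈ gr (n - r), deg (z * w) ≠ 0) → 0 < (-1 : ℚ) ^ r * deg (z * (z * D ^ m))

end Pool.Agent.R907
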