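import Pool.Agent.R907.AllFieldsDefs
import Pool.Agent.Y137.HS.Defs
import Pool.Agent.TH170.GS.Defs

/-!
# The numerical Hodge standard conjecture over arbitrary fields: slope types, definitions
-/

set_option autoImplicit false

namespace Pool.Agent.R907

open Pool.Agent.W547.KB Pool.Agent.W495.TA Pool.Agent.TH117.PO Pool.Agent.Y137.HS
  Pool.Agent.Y137.HD Module

/-- The numerical Hodge standard conjecture for all abelian varieties, over all fields of
characteristic `p`, that specialize to an abelian variety with the slope types `Φ`. -/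
def HodgeHolds {p : ℕ} [Fact p.Prime] (ν : PadicAlgCl p ≃+* ℂ) {I : Type} (K : I → Type)
    [∀ i, Field (K i)] (M : ∀ i, (K i →+* ℂ) → ℤ) (Φ : ∀ i, Set (K i →+* ℂ)) : Prop :=
  ∀ (Ω : Type) [Field Ω] [CharZero Ω] [IsAlgClosed Ω]
    (C : (Y : RedAV p ν) → (κ : Type) → ((TM Ω Y) [⋀^κ]→ₗ[Ω] Ω) → Prop),
    IsCycleSystemS Ω C → IsRosatiPositive Ω C → AreTate Ω C →
    ∀ (A : Type) [CommRing A] [Algebra ℚ A] (n : ℕ) (gr : ℕ → Submodule ℚ A) (deg : A →ₗ[ℚ] ℚ)
      (D : A), IsCycleRing n gr deg D → LefschetzA n gr D →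
    ∀ Y : RedAV p ν, Pool.Agent.TH170.GS.OfTypes K M Φ Y → ∀ α : Y.X.H1, IsPolar Y.X α →
      ∀ sp : ∀ r : ℕ, A → Form Ω Y r, Specializes C n gr D Y α sp → NumHodgeRing n gr deg D

end Pool.Agent.R907
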