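import Pool.Agent.R907.AllFields
import Pool.Agent.TH117.BL.Main
import Pool.Agent.R907.AllFieldsTypesDefs

/-!
# The numerical Hodge standard conjecture over arbitrary fields: slope types
-/

set_option autoImplicit false
set_option linter.unusedSectionVars false
set_option linter.unusedVariables false

namespace Pool.Agent.R907

open NumberField Pool.Agent.H204R3.CM Pool.Agent.W547.KB Pool.Agent.W547.LD Pool.Agent.W547.HR
  Pool.Agent.W495.TA Pool.Agent.TH117.PO Module Equiv Pool.Agent.Y137.HS Pool.Agent.Y137.HD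
  Pool.Agent.Y137.SF
open scoped TensorProduct

universe u

variable {p : ℕ} [Fact p.Prime] {ν : PadicAlgCl p ≃+* ℂ} {Ω : Type} [Field Ω] [CharZero Ω]
  {C : (Y : RedAV p ν) → (κ : Type) → ((TM Ω Y) [⋀^κ]→ₗ[Ω] Ω) → Prop}
  {A : Type u} [CommRing A] [Algebra ℚ A] {n : ℕ} {gr : ℕ → Submodule ℚ A} {deg : A →ₗ[ℚ] ℚ} {D : A}
  {Y : RedAV p ν} {α : Y.X.H1} {sp : ∀ r : ℕ, A → Form Ω Y r}

/-- The numerical Hodge standard conjecture by specialization, if all Tate classes on `Y` are in the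
system generated by the known algebraic classes. -/
theorem numHodge_of_tate [IsAlgClosed Ω] (hC : IsCycleSystemS Ω C)
    (hRos : IsRosatiPositive Ω C) (hT : AreTate Ω C)
    (hY : ∀ (r s : ℕ) (f : (TM Ω Y) [⋀^Fin (2 * r)]→ₗ[Ω] Ω), 0 < s → IsTateClass Ω Y s r f →
      AlgS Ω {4, 6} Y (Fin (2 * r)) f)
    (hα : IsPolar Y.X α) (h : Specializes C n gr D Y α sp) (hR : IsCycleRing n gr deg D)
    (hA : LefschetzA n gr D) : NumHodgeRing n gr deg D := by
  have hpos : ∀ (r m : ℕ), 2 * (2 * r + m) = finrank ℚ Y.X.H1 →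
      ∀ z : (TM Ω Y) [⋀^Fin r × Fin 2]→ₗ[Ω] Ω, C Y (Fin r × Fin 2) z → z ≠ 0 → IsPrim α m z →
        IsPosClass α m z := fun r m hrm z hz hz0 hprim =>
    positiveS hC hRos hα hrm hz (algS_of_tate hC.toIsCycleSystem hT (hY r) hz) hz0 hprim
  have hN : NumEqHom n gr deg := numEqHom hR hA fun _ _ hjm _ hz hp h0 =>
    h.self_ne_zero hR hpos hjm hz hp h0
  intro r m hrm z hz hprim hz0
  refine self_pos h hR hpos hrm hz ?_ ?_
  · rcases Nat.eq_zero_or_pos r with h0 | h0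
    · subst h0
      exact hR.bound (by omega) (hR.pow_mul_mem (m + 1) hz)
    · have hmem := hR.pow_mul_mem (m + 1) hz
      refine hN (m + 1 + r) (by omega) _ hmem fun w hw => hprim (r - 1) (by omega) w ?_
      rwa [show n - (m + 1 + r) = r - 1 by omega] at hw
  · rintro rfl
    obtain ⟨w, _, hw⟩ := hz0
    rw [zero_mul, map_zero] at hw
    exact hw rfl

theorem hodgeHolds_of {p : ℕ} [Fact p.Prime] {ν : PadicAlgCl p ≃+* ℂ} {I : Type} (K : I → Type)
    [∀ i, Field (K i)] (M : ∀ i, (K i →+* ℂ) → ℤ) (Φ : ∀ i, Set (K i →+* ℂ))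
    (h : ∀ Y : RedAV p ν, Pool.Agent.TH170.GS.OfTypes K M Φ Y → ∃ Z : RedAV p ν,
      Pool.Agent.TH117.BL.HasElementaryRelations Z ∧
        Pool.Agent.TH117.BL.IsPowersTimesSupersingular Z Y) :
    HodgeHolds ν K M Φ := by
  intro Ω _ _ _ C hC hR hT A _ _ n gr deg D hcr hA Y hY α hα sp hsp
  obtain ⟨Z, h1, h2⟩ := h Y hY
  refine numHodge_of_tate hC hR hT (fun r s f hs hf => ?_) hα hsp hcr hA
  exact AlgS.of_alg (W := {4, 6}) (by simp) (by simp)
    (Pool.Agent.TH117.BL.elementary Z h1 Ω Y h2 s r hs f hf)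

end Pool.Agent.R907
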