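import Pool.Agent.H281R3.HT.Defs

/-!
# Numerically primitive classes and their self-intersections: definitions
-/

open CategoryTheory AlgebraicGeometry

universe u v

namespace Pool.Agent.R907

open Pool.Agent.H914 Pool.Agent.H281R3.HT VarClass Obj

variable {k : Type u} [Field k] {𝒱 : VarClass k}

/-- The cycle `z` of codimension `j` is numerically equivalent to zero: its intersection numbers with
all cycles of codimension `dim X - j` are zero. -/
def NumZero (ops : CycleOps 𝒱) (X : 𝒱.Obj) (j : ℕ) (z : X.Cycles) : Prop :=
  ∀ w, X.IsCyc (X.dim - j) w → X.V.degCycle (ops.mul z w) = 0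

/-- `z` is a cycle of codimension `j` on the polarized variety `P = (X, D)` of dimension `g`, and its
class modulo numerical equivalence is primitive: `D ^ (g - 2 j + 1) z` is numerically equivalent to
zero, that is, its intersection numbers with all cycles of codimension `j - 1` are zero. (For `j = 0`
the cycle `D ^ (g + 1) z` has codimension greater than the dimension, and this is no condition.) -/
def NumPrimitive (ops : CycleOps 𝒱) (P : Polarized 𝒱) (j : ℕ) (z : P.X.Cycles) : Prop :=
  P.X.IsCyc j z ∧ ∀ i w, i + 1 = j → P.X.IsCyc i w →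
    P.X.V.degCycle (ops.mul (divPow ops P.D (P.X.dim + 1 - 2 * j) z) w) = 0

/-- The numerical Hodge standard conjecture for the polarized variety `P = (X, D)` of dimension `g`:
for `2 j ≤ g` and every cycle `z` of codimension `j` whose class modulo numerical equivalence is
primitive and not zero, `(-1) ^ j z · z · D ^ (g - 2 j)` is positive. -/
def NumHodge (ops : CycleOps 𝒱) (P : Polarized 𝒱) : Prop :=
  ∀ j, 2 * j ≤ P.X.dim → ∀ z, NumPrimitive ops P j z → ¬ NumZero ops P.X j z →
    0 < (-1 : ℚ) ^ j * P.X.V.degCycle (ops.mul z (divPow ops P.D (P.X.dim - 2 * j) z))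

/-- No primitive class `z ≠ 0` modulo numerical equivalence, of codimension `n` on the polarized
variety `P` (of dimension `2 n` in the intended use), has the self-intersection number `z · z = 0`. -/
def NoIsotropic (ops : CycleOps 𝒱) (P : Polarized 𝒱) (n : ℕ) : Prop :=
  ∀ z, NumPrimitive ops P n z → P.X.V.degCycle (ops.mul z z) = 0 → NumZero ops P.X n z

/-- The class `𝓟` of polarized varieties `(X, D)` is closed under products, with the divisors
`D × Y + X × D'`, contains a curve, and `D` is a divisor with positive top self-intersection number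
for all its members. -/
structure IsPolarizedClass (ops : CycleOps 𝒱) (𝓟 : Set (Polarized 𝒱)) : Prop where
  divisor : ∀ P ∈ 𝓟, P.X.IsCyc 1 P.D
  degree : ∀ P ∈ 𝓟, 0 < P.X.V.degCycle (divPow ops P.D P.X.dim P.X.V.fundCycle)
  prod : ∀ P ∈ 𝓟, ∀ Q ∈ 𝓟, P.prod ops Q ∈ 𝓟
  curve : ∃ E ∈ 𝓟, E.X.dim = 1

end Pool.Agent.R907
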