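import Pool.Agent.H914R2.CPart
import Pool.Agent.R907.AniDefs

/-!
# Isotropic primitive classes on products
-/

open CategoryTheory AlgebraicGeometry Finset

set_option linter.unusedSectionVars false

universe u v

namespace Pool.Agent.R907

open Pool.Agent.H914 Pool.Agent.H281R3.HT VarClass Obj WeilCohomology

variable {k : Type u} [Field k] {𝒱 : VarClass k} {ops : CycleOps 𝒱}
  {W : WeilCohomology.{u, v} ops}

/-- An adequate equivalence relation which is coarser than homological equivalence; `Z X` are the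
classes which are equivalent to zero. -/
structure Adeq (W : WeilCohomology.{u, v} ops) (Z : ∀ X : 𝒱.Obj, AddSubgroup (W.H X)) : Prop where
  mul_alg : ∀ {X : 𝒱.Obj} {x c : W.H X} {i : ℕ}, x ∈ Z X → c ∈ algClasses W X i → c * x ∈ Z X
  map : ∀ {X Y : 𝒱.Obj} (f : X ⟶ Y) {x : W.H Y}, x ∈ Z Y → W.map f x ∈ Z X
  push : ∀ {X Y : 𝒱.Obj} (f : X ⟶ Y) {x : W.H X}, x ∈ Z X → W.push f x ∈ Z Y
  tr : ∀ {X : 𝒱.Obj} {x : W.H X}, x ∈ Z X → W.tr X x = 0
  smul : ∀ {X : 𝒱.Obj} {x : W.H X} (q : ℚ), x ∈ Z X → (q : W.K) • x ∈ Z X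

/-- Homological equivalence. -/
lemma adeq_hom : Adeq W fun _ => ⊥ where
  mul_alg hx _ := by rw [AddSubgroup.mem_bot] at hx ⊢; rw [hx, mul_zero]
  map f _ hx := by rw [AddSubgroup.mem_bot] at hx ⊢; rw [hx, map_zero]
  push f _ hx := by rw [AddSubgroup.mem_bot] at hx ⊢; rw [hx, map_zero]
  tr hx := by rw [AddSubgroup.mem_bot] at hx; rw [hx, map_zero]
  smul q hx := by rw [AddSubgroup.mem_bot] at hx ⊢; rw [hx, smul_zero]

/-- The classes which are orthogonal to all algebraic classes. -/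
def numZ (W : WeilCohomology.{u, v} ops) (X : 𝒱.Obj) : AddSubgroup (W.H X) where
  carrier := {x | ∀ i, ∀ w ∈ algClasses W X i, W.tr X (x * w) = 0}
  zero_mem' := fun i w _ => by rw [zero_mul, map_zero]
  add_mem' := fun {a b} ha hb i w hw => by
    rw [add_mul, map_add, ha i w hw, hb i w hw, add_zero]
  neg_mem' := fun {a} ha i w hw => by rw [neg_mul, map_neg, ha i w hw, neg_zero]

lemma mem_numZ {X : 𝒱.Obj} {x : W.H X} :
    x ∈ numZ W X ↔ ∀ i, ∀ w ∈ algClasses W X i, W.tr X (x * w) = 0 := Iff.rfl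

lemma alg_mul {X : 𝒱.Obj} {i j : ℕ} {a b : W.H X} (ha : a ∈ algClasses W X i)
    (hb : b ∈ algClasses W X j) : a * b ∈ algClasses W X (i + j) := by
  obtain ⟨z, hz, rfl⟩ := ha
  obtain ⟨w, hw, rfl⟩ := hb
  exact ⟨ops.mul z w, ops.mul_mem hz hw, W.cl_mul z w⟩

lemma alg_map {X Y : 𝒱.Obj} (f : X ⟶ Y) {i : ℕ} {a : W.H Y} (ha : a ∈ algClasses W Y i) :
    W.map f a ∈ algClasses W X i := by
  obtain ⟨z, hz, rfl⟩ := ha
  exact ⟨ops.pull f z, ops.pull_mem f hz, W.cl_pull f z⟩

lemma alg_one (X : 𝒱.Obj) : (1 : W.H X) ∈ algClasses W X 0 :=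
  ⟨X.V.fundCycle, X.V.fundCycle_mem, W.cl_fund X⟩

lemma alg_central {X : 𝒱.Obj} {i : ℕ} {c : W.H X} (hc : c ∈ algClasses W X i) (a : W.H X) :
    c * a = a * c := W.even_comm (alg_gr hc) a

/-- The push-forward of an algebraic class is algebraic, or zero for reasons of degree. -/
lemma alg_push {X Y : 𝒱.Obj} (f : X ⟶ Y) {i : ℕ} {a : W.H X} (ha : a ∈ algClasses W X i) :
    W.push f a = 0 ∨ ∃ j, W.push f a ∈ algClasses W Y j := by
  by_cases h : X.dim ≤ i + Y.dim
  · right
    obtain ⟨z, hz, rfl⟩ := ha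
    exact ⟨i + Y.dim - X.dim, ops.push f z, ops.push_mem f hz (by omega), W.cl_push f z⟩
  · left
    apply W.nondeg
    intro b
    rw [W.tr_push]
    refine gr_induction (W.isInternal Y) (p := fun b => W.tr X (a * W.map f b) = 0) ?_ ?_ b
    · intro j b hb
      by_cases hj : 2 * i + j = 2 * X.dim
      · have h0 : b = 0 := by
          have h1 : W.gr Y j = ⊥ := W.gr_eq_bot Y j (by omega)
          rw [h1] at hb
          exact hb
        rw [h0, map_zero, mul_zero, map_zero]
      · exact W.tr_eq_zero (W.mul_mem (alg_gr ha) (W.map_mem f hb)) hj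
    · intro b b' h1 h2
      rw [map_add, mul_add, map_add, h1, h2, add_zero]

/-- Numerical equivalence. -/
lemma adeq_num : Adeq W (numZ W) where
  mul_alg := by
    intro X x c i hx hc j w hw
    rw [alg_central hc x, mul_assoc]
    exact hx _ _ (alg_mul hc hw)
  map := by
    intro X Y f x hx i w hw
    have h1 : W.tr X (W.map f x * w) = W.tr Y (x * W.push f w) := by
      rw [← alg_central hw, ← W.tr_push]
      rcases alg_push f hw with h | ⟨j, h⟩
      · rw [h, zero_mul, mul_zero]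
      · rw [alg_central h]
    rw [h1]
    rcases alg_push f hw with h | ⟨j, h⟩
    · rw [h, mul_zero, map_zero]
    · exact hx _ _ h
  push := by
    intro X Y f x hx i w hw
    rw [W.tr_push]
    exact hx _ _ (alg_map f hw)
  tr := by
    intro X x hx
    have := hx _ _ (alg_one X)
    rwa [mul_one] at this
  smul := by
    intro X x q hx i w hw
    rw [smul_mul_assoc, map_smul, hx i w hw, smul_zero]

/-- The class of the divisor. -/
noncomputable abbrev lef (W : WeilCohomology.{u, v} ops) (P : Polarized 𝒱) : W.H P.X :=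
  W.cl P.X P.D

/-- Divisors with positive degree. -/
structure Good (ops : CycleOps 𝒱) (P : Polarized 𝒱) : Prop where
  divisor : P.X.IsCyc 1 P.D
  degree : 0 < P.X.V.degCycle (divPow ops P.D P.X.dim P.X.V.fundCycle)

/-- The degree of the polarization. -/
noncomputable def dg (ops : CycleOps 𝒱) (P : Polarized 𝒱) : ℚ :=
  P.X.V.degCycle (divPow ops P.D P.X.dim P.X.V.fundCycle)

lemma cl_divPow' (P : Polarized 𝒱) (i : ℕ) (z : P.X.Cycles) :
    W.cl P.X (divPow ops P.D i z) = lef W P ^ i * W.cl P.X z := by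
  rw [cl_divPow]
  induction i with
  | zero => rw [pow_zero, pow_zero, one_mul]; rfl
  | succ i ih => rw [pow_succ', Module.End.mul_apply, ih, LinearMap.mulLeft_apply, pow_succ',
      mul_assoc]

lemma lef_alg {P : Polarized 𝒱} (hP : Good ops P) : lef W P ∈ algClasses W P.X 1 :=
  ⟨_, hP.divisor, rfl⟩

lemma lef_pow_alg {P : Polarized 𝒱} (hP : Good ops P) (i : ℕ) :
    lef W P ^ i ∈ algClasses W P.X i := by
  induction i with
  | zero => rw [pow_zero]; exact alg_one _
  | succ i ih => rw [pow_succ]; exact alg_mul ih (lef_alg hP)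

lemma tr_lef {P : Polarized 𝒱} (hP : Good ops P) :
    W.tr P.X (lef W P ^ P.X.dim) = ((dg ops P : ℚ) : W.K) := by
  have h1 := W.tr_cl (X := P.X) (z := divPow ops P.D P.X.dim P.X.V.fundCycle) (by
    have := divPow_mem (ops := ops) hP.divisor P.X.dim P.X.V.fundCycle_mem
    rwa [zero_add] at this)
  rw [cl_divPow', W.cl_fund, mul_one] at h1
  exact h1

lemma alg_eq_zero {X : 𝒱.Obj} {i : ℕ} {a : W.H X} (ha : a ∈ algClasses W X i)
    (hi : X.dim < i) : a = 0 := by
  have h := alg_gr ha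
  rw [W.gr_eq_bot X _ (by omega)] at h
  exact h

lemma alg_rat' {X : 𝒱.Obj} {i : ℕ} {a : W.H X} (ha : a ∈ algClasses W X i) :
    ∃ q : ℚ, W.tr X a = q := by
  obtain ⟨q, hq⟩ := alg_rat ha (alg_one X)
  rw [bil_apply, mul_one] at hq
  exact ⟨q, hq⟩

/-- The class of the divisor on the product. -/
noncomputable def lp (W : WeilCohomology.{u, v} ops) (P Q : Polarized 𝒱) :
    W.H (P.X.prod Q.X) :=
  W.map (fst P.X Q.X) (lef W P) + W.map (snd P.X Q.X) (lef W Q)

lemma lef_prod (P Q : Polarized 𝒱) : (lef W (P.prod ops Q) : W.H (P.X.prod Q.X)) =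
    lp W P Q := by
  change W.cl _ (ops.pull (fst P.X Q.X) P.D + ops.pull (snd P.X Q.X) Q.D) = _
  rw [map_add, W.cl_pull, W.cl_pull, lp]

lemma lp_commute {P Q : Polarized 𝒱} (hP : Good ops P) :
    Commute (W.map (fst P.X Q.X) (lef W P)) (W.map (snd P.X Q.X) (lef W Q)) :=
  alg_central (alg_map _ (lef_alg hP)) _

/-- The trace of an external product with a power of the divisor class of the product. -/
lemma tr_ext_pow {P Q : Polarized 𝒱} (hP : Good ops P) {a b M : ℕ}
    {x : W.H P.X} {y : W.H Q.X} (hx : x ∈ algClasses W P.X a)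
    (ha : a ≤ P.X.dim) (hM : a + b + M = P.X.dim + Q.X.dim) :
    W.tr (P.X.prod Q.X) (W.map (fst P.X Q.X) x * W.map (snd P.X Q.X) y * lp W P Q ^ M) =
    (M.choose (P.X.dim - a) : W.K) * (W.tr P.X (x * lef W P ^ (P.X.dim - a)) *
      W.tr Q.X (y * lef W Q ^ (M - (P.X.dim - a)))) := by
  have key : ∀ m, W.tr (P.X.prod Q.X) (W.map (fst P.X Q.X) x * W.map (snd P.X Q.X) y *
      (W.map (fst P.X Q.X) (lef W P) ^ m * W.map (snd P.X Q.X) (lef W Q) ^ (M - m) *
        (M.choose m : W.H (P.X.prod Q.X)))) =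
      (M.choose m : W.K) * (W.tr P.X (x * lef W P ^ m) * W.tr Q.X (y * lef W Q ^ (M - m))) := by
    intro m
    have h1 : W.map (fst P.X Q.X) x * W.map (snd P.X Q.X) y *
      (W.map (fst P.X Q.X) (lef W P) ^ m * W.map (snd P.X Q.X) (lef W Q) ^ (M - m) *
        (M.choose m : W.H (P.X.prod Q.X))) = (M.choose m : W.K) •
        (W.map (fst P.X Q.X) (x * lef W P ^ m) *
          W.map (snd P.X Q.X) (y * lef W Q ^ (M - m))) := by
      rw [map_mul, map_mul, map_pow, map_pow]
      have h2 : W.map (snd P.X Q.X) y * W.map (fst P.X Q.X) (lef W P) ^ m =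
          W.map (fst P.X Q.X) (lef W P) ^ m * W.map (snd P.X Q.X) y := by
        rw [← map_pow]
        exact (alg_central (alg_map _ (lef_pow_alg hP m)) _).symm
      rw [← Nat.cast_comm, ← nsmul_eq_mul, Nat.cast_smul_eq_nsmul, mul_smul_comm]
      congr 1
      simp only [mul_assoc]
      rw [← mul_assoc (W.map (snd P.X Q.X) y), h2]
      simp only [mul_assoc]
    rw [h1, map_smul, smul_eq_mul]
    congr 1
    exact W.tr_prod _ _
  rw [lp, (lp_commute hP).add_pow, mul_sum, map_sum, Finset.sum_eq_single (P.X.dim - a)]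
  · exact key _
  · intro m _ hm
    rw [key]
    have h1 : W.tr P.X (x * lef W P ^ m) = 0 :=
      W.tr_eq_zero (alg_gr (alg_mul hx (lef_pow_alg hP m))) (by omega)
    rw [h1, zero_mul, mul_zero]
  · intro hm
    rw [Finset.mem_range, not_lt] at hm
    rw [key, Nat.choose_eq_zero_of_lt (by omega), Nat.cast_zero, zero_mul]

end Pool.Agent.R907
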