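import Pool.Agent.R907.Ani

/-!
# Isotropic primitive classes on products: primitive classes and their form
-/

open CategoryTheory AlgebraicGeometry Finset

set_option linter.unusedSectionVars false

universe u v

namespace Pool.Agent.R907

open Pool.Agent.H914 Pool.Agent.H281R3.HT VarClass Obj WeilCohomology

variable {k : Type u} [Field k] {𝒱 : VarClass k} {ops : CycleOps 𝒱}
  {W : WeilCohomology.{u, v} ops} {Z : ∀ X : 𝒱.Obj, AddSubgroup (W.H X)}

/-- The primitive classes of codimension `j` modulo the relation `Z`. -/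
def Prm (W : WeilCohomology.{u, v} ops) (Z : ∀ X : 𝒱.Obj, AddSubgroup (W.H X))
    (P : Polarized 𝒱) (j : ℕ) (x : W.H P.X) : Prop :=
  x ∈ algClasses W P.X j ∧ lef W P ^ (P.X.dim + 1 - 2 * j) * x ∈ Z P.X

/-- The form on the classes of codimension `j`. -/
noncomputable def frm (W : WeilCohomology.{u, v} ops) (P : Polarized 𝒱) (j : ℕ)
    (x y : W.H P.X) : W.K :=
  (-1) ^ j * W.tr P.X (x * y * lef W P ^ (P.X.dim - 2 * j))

lemma nsmul_Z {X : 𝒱.Obj} (n : ℕ) {x : W.H X} (hx : x ∈ Z X) :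
    x * (n : W.H X) ∈ Z X := by
  rw [← Nat.cast_comm, ← nsmul_eq_mul]
  exact AddSubgroup.nsmul_mem _ hx n

lemma Adeq.ext_left (hZ : Adeq W Z) {X Y : 𝒱.Obj} {x : W.H X} {y : W.H Y} {i : ℕ}
    (hx : x ∈ Z X) (hy : y ∈ algClasses W Y i) :
    W.map (fst X Y) x * W.map (snd X Y) y ∈ Z (X.prod Y) := by
  rw [← alg_central (alg_map (snd X Y) hy)]
  exact hZ.mul_alg (hZ.map _ hx) (alg_map _ hy)

lemma Adeq.ext_right (hZ : Adeq W Z) {X Y : 𝒱.Obj} {x : W.H X} {y : W.H Y} {i : ℕ}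
    (hx : x ∈ algClasses W X i) (hy : y ∈ Z Y) :
    W.map (fst X Y) x * W.map (snd X Y) y ∈ Z (X.prod Y) :=
  hZ.mul_alg (hZ.map _ hy) (alg_map _ hx)

lemma Prm.kill (hZ : Adeq W Z) {P : Polarized 𝒱} (hP : Good ops P) {j : ℕ} {x : W.H P.X}
    (hx : Prm W Z P j x) {m : ℕ} (hm : P.X.dim + 1 ≤ 2 * j + m) : lef W P ^ m * x ∈ Z P.X := by
  have h1 : m = (m - (P.X.dim + 1 - 2 * j)) + (P.X.dim + 1 - 2 * j) := by omega
  rw [h1, pow_add, mul_assoc]
  exact hZ.mul_alg hx.2 (lef_pow_alg hP _)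

lemma prm_one {P : Polarized 𝒱} (hP : Good ops P) : Prm W Z P 0 1 := by
  refine ⟨alg_one _, ?_⟩
  rw [mul_one, alg_eq_zero (lef_pow_alg hP _) (by omega)]
  exact (Z P.X).zero_mem

/-- Products of an external product with the powers of the divisor class. -/
lemma ext_mul_lp {P Q : Polarized 𝒱} (hP : Good ops P) {a : ℕ}
    {x : W.H P.X} {y : W.H Q.X} (hx : x ∈ algClasses W P.X a) (N : ℕ) :
    lp W P Q ^ N * (W.map (fst P.X Q.X) x * W.map (snd P.X Q.X) y) =
      ∑ m ∈ range (N + 1), (W.map (fst P.X Q.X) (lef W P ^ m * x) *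
        W.map (snd P.X Q.X) (lef W Q ^ (N - m) * y)) * (N.choose m : W.H (P.X.prod Q.X)) := by
  rw [lp, (lp_commute hP).add_pow, sum_mul]
  refine Finset.sum_congr rfl fun m _ => ?_
  rw [map_mul, map_mul, map_pow, map_pow]
  have h2 : W.map (snd P.X Q.X) (lef W Q) ^ (N - m) * W.map (fst P.X Q.X) x =
      W.map (fst P.X Q.X) x * W.map (snd P.X Q.X) (lef W Q) ^ (N - m) :=
    (alg_central (alg_map _ hx) _).symm
  rw [mul_assoc _ (N.choose m : W.H (P.X.prod Q.X)), Nat.cast_comm, ← mul_assoc]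
  congr 1
  simp only [mul_assoc]
  rw [← mul_assoc (W.map (snd P.X Q.X) (lef W Q) ^ (N - m)), h2]
  simp only [mul_assoc]

lemma good_prod {P Q : Polarized 𝒱} (hP : Good ops P) (hQ : Good ops Q)
    (W : WeilCohomology.{u, v} ops) : Good ops (P.prod ops Q) := by
  have hdiv : (P.prod ops Q).X.IsCyc 1 (P.prod ops Q).D :=
    (ops.pull_mem _ hP.divisor).add (ops.pull_mem _ hQ.divisor)
  refine ⟨hdiv, ?_⟩
  have h1 := W.tr_cl (X := P.X.prod Q.X)
    (z := divPow ops (P.prod ops Q).D (P.prod ops Q).X.dim (P.prod ops Q).X.V.fundCycle) (by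
    have := divPow_mem (ops := ops) hdiv (P.prod ops Q).X.dim (P.prod ops Q).X.V.fundCycle_mem
    rwa [zero_add] at this)
  have h2 : W.cl (P.X.prod Q.X) (divPow ops (P.prod ops Q).D (P.prod ops Q).X.dim
      (P.prod ops Q).X.V.fundCycle) = lp W P Q ^ (P.X.dim + Q.X.dim) := by
    have := cl_divPow' (W := W) (P.prod ops Q) (P.prod ops Q).X.dim (P.prod ops Q).X.V.fundCycle
    rw [W.cl_fund] at this
    refine this.trans ?_
    refine (mul_one _).trans ?_
    exact congrArg (fun t : W.H (P.X.prod Q.X) => t ^ (P.X.dim + Q.X.dim)) (lef_prod P Q)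
  have h3 := tr_ext_pow (W := W) (Q := Q) hP (a := 0) (b := 0) (M := P.X.dim + Q.X.dim)
    (x := 1) (y := 1) (alg_one _) (Nat.zero_le _) (by omega)
  rw [map_one, map_one, one_mul, one_mul, Nat.sub_zero, one_mul, one_mul, tr_lef hP,
    Nat.add_sub_cancel_left, tr_lef hQ] at h3
  rw [h2, h3] at h1
  have h4 : (((P.X.dim + Q.X.dim).choose P.X.dim : ℚ) * (dg ops P * dg ops Q)) =
      (P.prod ops Q).X.V.degCycle (divPow ops (P.prod ops Q).D (P.prod ops Q).X.dim
      (P.prod ops Q).X.V.fundCycle) := by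
    have : (((((P.X.dim + Q.X.dim).choose P.X.dim : ℚ) * (dg ops P * dg ops Q) : ℚ)) : W.K) =
      (((P.prod ops Q).X.V.degCycle (divPow ops (P.prod ops Q).D (P.prod ops Q).X.dim
      (P.prod ops Q).X.V.fundCycle) : ℚ) : W.K) := by
      refine Eq.trans ?_ h1
      push_cast
      rfl
    exact_mod_cast this
  rw [← h4]
  refine mul_pos ?_ (mul_pos hP.degree hQ.degree)
  exact_mod_cast Nat.choose_pos (Nat.le_add_right _ _)

/-- External products of primitive classes are primitive. -/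
lemma Prm.ext (hZ : Adeq W Z) {P Q : Polarized 𝒱} (hP : Good ops P) (hQ : Good ops Q) {j j' : ℕ}
    {x : W.H P.X} {y : W.H Q.X} (hx : Prm W Z P j x) (hy : Prm W Z Q j' y)
    (hj : 2 * j ≤ P.X.dim) (hj' : 2 * j' ≤ Q.X.dim) :
    Prm W Z (P.prod ops Q) (j + j') (W.map (fst P.X Q.X) x * W.map (snd P.X Q.X) y) := by
  have key : ∀ L : W.H (P.X.prod Q.X), L = lp W P Q →
      L ^ (P.X.dim + Q.X.dim + 1 - 2 * (j + j')) *
        (W.map (fst P.X Q.X) x * W.map (snd P.X Q.X) y) ∈ Z (P.X.prod Q.X) := by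
    rintro _ rfl
    rw [ext_mul_lp hP hx.1]
    refine AddSubgroup.sum_mem _ fun m hm => nsmul_Z _ ?_
    rw [Finset.mem_range] at hm
    by_cases h : P.X.dim + 1 ≤ 2 * j + m
    · exact hZ.ext_left (hx.kill hZ hP h) (alg_mul (lef_pow_alg hQ _) hy.1)
    · exact hZ.ext_right (alg_mul (lef_pow_alg hP _) hx.1) (hy.kill hZ hQ (by omega))
  exact ⟨alg_mul (alg_map _ hx.1) (alg_map _ hy.1), key _ (lef_prod P Q)⟩

/-- The form on external products. -/
lemma frm_ext {P Q : Polarized 𝒱} (hP : Good ops P) {j j' : ℕ}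
    {x x' : W.H P.X} {y y' : W.H Q.X} (hx : x ∈ algClasses W P.X j) (hx' : x' ∈ algClasses W P.X j)
    (hy : y ∈ algClasses W Q.X j') (hj : 2 * j ≤ P.X.dim) (hj' : 2 * j' ≤ Q.X.dim) :
    frm W (P.prod ops Q) (j + j') (W.map (fst P.X Q.X) x * W.map (snd P.X Q.X) y)
      (W.map (fst P.X Q.X) x' * W.map (snd P.X Q.X) y') =
    ((P.X.dim + Q.X.dim - 2 * (j + j')).choose (P.X.dim - 2 * j) : W.K) *
      (frm W P j x x' * frm W Q j' y y') := by
  have h0 : W.map (fst P.X Q.X) x * W.map (snd P.X Q.X) y *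
      (W.map (fst P.X Q.X) x' * W.map (snd P.X Q.X) y') =
      W.map (fst P.X Q.X) (x * x') * W.map (snd P.X Q.X) (y * y') := by
    rw [map_mul, map_mul]
    have h2 : W.map (snd P.X Q.X) y * W.map (fst P.X Q.X) x' =
      W.map (fst P.X Q.X) x' * W.map (snd P.X Q.X) y := alg_central (alg_map _ hy) _
    simp only [mul_assoc]
    rw [← mul_assoc (W.map (snd P.X Q.X) y), h2]
    simp only [mul_assoc]
  have h2 := tr_ext_pow (W := W) (Q := Q) hP (a := j + j) (b := j' + j')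
    (M := P.X.dim + Q.X.dim - 2 * (j + j')) (y := y * y') (alg_mul hx hx') (by omega) (by omega)
  have key : ∀ L : W.H (P.X.prod Q.X), L = lp W P Q →
      (-1) ^ (j + j') * W.tr (P.X.prod Q.X) (W.map (fst P.X Q.X) x * W.map (snd P.X Q.X) y *
        (W.map (fst P.X Q.X) x' * W.map (snd P.X Q.X) y') *
          L ^ (P.X.dim + Q.X.dim - 2 * (j + j'))) =
      ((P.X.dim + Q.X.dim - 2 * (j + j')).choose (P.X.dim - 2 * j) : W.K) *
        (frm W P j x x' * frm W Q j' y y') := by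
    rintro _ rfl
    rw [h0, h2, frm, frm, show P.X.dim - (j + j) = P.X.dim - 2 * j by omega,
      show P.X.dim + Q.X.dim - 2 * (j + j') - (P.X.dim - 2 * j) = Q.X.dim - 2 * j' by omega,
      pow_add]
    ring
  exact key _ (lef_prod P Q)

/-- Classes from the two factors are orthogonal. -/
lemma frm_cross (hZ : Adeq W Z) {P Q : Polarized 𝒱} (hP : Good ops P) {j : ℕ}
    {x : W.H P.X} {y : W.H Q.X} (hx : Prm W Z P j x)
    (hj0 : 1 ≤ j) (hj : 2 * j ≤ P.X.dim) (hj' : 2 * j ≤ Q.X.dim) :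
    W.tr (P.X.prod Q.X) (W.map (fst P.X Q.X) x * W.map (snd P.X Q.X) y *
      lp W P Q ^ (P.X.dim + Q.X.dim - 2 * j)) = 0 := by
  rw [tr_ext_pow (W := W) (Q := Q) hP (a := j) (b := j) hx.1 (by omega) (by omega)]
  have h1 : W.tr P.X (x * lef W P ^ (P.X.dim - j)) = 0 := by
    rw [alg_central hx.1]
    exact hZ.tr (hx.kill hZ hP (by omega))
  rw [h1, zero_mul, mul_zero]

end Pool.Agent.R907
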