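import Pool.Agent.R907.Ani2

/-!
# Isotropic primitive classes on products: the reduction to the middle codimension
-/

open CategoryTheory AlgebraicGeometry Finset

set_option linter.unusedSectionVars false

universe u v

namespace Pool.Agent.R907

open Pool.Agent.H914 Pool.Agent.H281R3.HT VarClass Obj WeilCohomology

variable {k : Type u} [Field k] {𝒱 : VarClass k} {ops : CycleOps 𝒱}
  {W : WeilCohomology.{u, v} ops} {Z : ∀ X : 𝒱.Obj, AddSubgroup (W.H X)}

lemma push_fst_ext {X Y : 𝒱.Obj} (x : W.H X) {y : W.H Y} {i : ℕ} (hy : y ∈ algClasses W Y i) :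
    W.push (fst X Y) (W.map (fst X Y) x * W.map (snd X Y) y) = W.tr Y y • x := by
  apply W.tr_ext
  intro c
  rw [W.tr_push, mul_assoc, alg_central (alg_map _ hy), ← mul_assoc, ← map_mul, W.tr_prod,
    smul_mul_assoc, map_smul, smul_eq_mul, mul_comm]

lemma alg_smul' {X : 𝒱.Obj} {l : ℕ} (q : ℚ) {a : W.H X} (ha : a ∈ algClasses W X l) :
    (q : W.K) • a ∈ algClasses W X l := alg_smul q ha

lemma alg_sum' {X : 𝒱.Obj} {κ : Type*} (s : Finset κ) {j : ℕ} (c : κ → W.H X)
    (h : ∀ i ∈ s, c i ∈ algClasses W X j) : ∑ i ∈ s, c i ∈ algClasses W X j := by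
  classical
  induction s using Finset.induction_on with
  | empty => rw [sum_empty]; exact alg_zero _
  | insert a s ha ih =>
    rw [sum_insert ha]
    exact alg_add (h a (mem_insert_self a s)) (ih fun i hi => h i (mem_insert_of_mem hi))

lemma alg_sign {X : 𝒱.Obj} {l : ℕ} (i : ℕ) {a : W.H X} (ha : a ∈ algClasses W X l) :
    (-1) ^ i * a ∈ algClasses W X l := by
  rcases neg_one_pow_eq_or (W.H X) i with h | h
  · rw [h, one_mul]; exact ha
  · rw [h, neg_one_mul]
    have := alg_smul (-1) ha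
    rwa [Rat.cast_neg, Rat.cast_one, neg_one_smul] at this

lemma sign_Z {X : 𝒱.Obj} (i : ℕ) {a : W.H X} (ha : a ∈ Z X) : (-1) ^ i * a ∈ Z X := by
  rcases neg_one_pow_eq_or (W.H X) i with h | h
  · rw [h, one_mul]; exact ha
  · rw [h, neg_one_mul]; exact (Z X).neg_mem ha

/-- The class `∑ (-1) ^ i D ^ i x × D' ^ (m - i)` on `X × Y`, with `m = dim Y`. -/
noncomputable def mid (W : WeilCohomology.{u, v} ops) (P Q : Polarized 𝒱) (x : W.H P.X) :
    W.H (P.X.prod Q.X) :=
  ∑ i ∈ range (Q.X.dim + 1), (-1) ^ i * (W.map (fst P.X Q.X) (lef W P ^ i * x) *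
    W.map (snd P.X Q.X) (lef W Q ^ (Q.X.dim - i)))

lemma mid_alg {P Q : Polarized 𝒱} (hP : Good ops P) (hQ : Good ops Q) {j : ℕ} {x : W.H P.X}
    (hx : x ∈ algClasses W P.X j) :
    mid W P Q x ∈ algClasses W (P.X.prod Q.X) (j + Q.X.dim) := by
  refine alg_sum' _ _ fun i hi => alg_sign _ ?_
  rw [Finset.mem_range] at hi
  have h1 := alg_mul (alg_map (fst P.X Q.X) (alg_mul (lef_pow_alg hP i) hx))
    (alg_map (snd P.X Q.X) (lef_pow_alg (W := W) hQ (Q.X.dim - i)))
  rwa [show i + j + (Q.X.dim - i) = j + Q.X.dim by omega] at h1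

lemma telescope {R : Type*} [Ring R] (t : ℕ → R) (n : ℕ) :
    ∑ i ∈ range n, (-1) ^ i * (t i + t (i + 1)) = t 0 - (-1) ^ n * t n := by
  induction n with
  | zero => simp
  | succ n ih => rw [sum_range_succ, ih, pow_succ]; noncomm_ring

lemma lp_mid {P Q : Polarized 𝒱} (hP : Good ops P) (hQ : Good ops Q) {x : W.H P.X} :
    lp W P Q * mid W P Q x = W.map (fst P.X Q.X) x * W.map (snd P.X Q.X) (lef W Q ^
      (Q.X.dim + 1)) - (-1) ^ (Q.X.dim + 1) * W.map (fst P.X Q.X)
        (lef W P ^ (Q.X.dim + 1) * x) := by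
  set t : ℕ → W.H (P.X.prod Q.X) := fun i => W.map (fst P.X Q.X) (lef W P ^ i * x) *
    W.map (snd P.X Q.X) (lef W Q ^ (Q.X.dim + 1 - i)) with ht
  have h1 : lp W P Q * mid W P Q x = ∑ i ∈ range (Q.X.dim + 1),
      (-1) ^ i * (t i + t (i + 1)) := by
    rw [mid, mul_sum]
    refine sum_congr rfl fun i hi => ?_
    rw [Finset.mem_range] at hi
    have hs : lp W P Q * ((-1) ^ i * (W.map (fst P.X Q.X) (lef W P ^ i * x) *
      W.map (snd P.X Q.X) (lef W Q ^ (Q.X.dim - i)))) = (-1) ^ i * (lp W P Q *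
      (W.map (fst P.X Q.X) (lef W P ^ i * x) *
        W.map (snd P.X Q.X) (lef W Q ^ (Q.X.dim - i)))) := by
      rcases neg_one_pow_eq_or (W.H (P.X.prod Q.X)) i with h | h <;> rw [h] <;> simp
    rw [hs, lp, add_mul, add_comm (t i)]
    congr 2
    · rw [ht]
      beta_reduce
      rw [← mul_assoc, ← map_mul, ← mul_assoc, ← pow_succ', Nat.add_sub_add_right]
    · rw [ht]
      beta_reduce
      rw [← mul_assoc, alg_central (alg_map (snd P.X Q.X) (lef_alg hQ)), mul_assoc, ← map_mul,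
        ← pow_succ', show Q.X.dim - i + 1 = Q.X.dim + 1 - i by omega]
  rw [h1, telescope, ht]
  beta_reduce
  rw [pow_zero, one_mul, Nat.sub_zero, Nat.sub_self, pow_zero, map_one, mul_one]

/-- **The reduction to the middle codimension.** -/
lemma Prm.mid (hZ : Adeq W Z) {P Q : Polarized 𝒱} (hP : Good ops P) (hQ : Good ops Q) {j : ℕ}
    {x : W.H P.X} (hx : Prm W Z P j x) (hd : P.X.dim = 2 * j + Q.X.dim) :
    Prm W Z (P.prod ops Q) (j + Q.X.dim) (mid W P Q x) := by
  have key : ∀ L : W.H (P.X.prod Q.X), L = lp W P Q → ∀ N, N = 1 →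
      L ^ N * R907.mid W P Q x ∈ Z (P.X.prod Q.X) := by
    rintro _ rfl _ rfl
    rw [pow_one, lp_mid hP hQ, alg_eq_zero (lef_pow_alg hQ _) (Nat.lt_succ_self _), map_zero,
      mul_zero, zero_sub]
    refine (Z _).neg_mem (sign_Z _ (hZ.map _ (hx.kill hZ hP (by omega))))
  exact ⟨mid_alg hP hQ hx.1, key _ (lef_prod P Q) _ (by
    change P.X.dim + Q.X.dim + 1 - 2 * (j + Q.X.dim) = 1
    omega)⟩

lemma push_mid {P Q : Polarized 𝒱} (hQ : Good ops Q) (x : W.H P.X) :
    W.push (fst P.X Q.X) (mid W P Q x) = ((dg ops Q : ℚ) : W.K) • x := by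
  rw [mid, map_sum, Finset.sum_eq_single 0]
  · rw [pow_zero, one_mul, pow_zero, one_mul, Nat.sub_zero, push_fst_ext x (lef_pow_alg hQ _),
      tr_lef hQ]
  · intro i hi hi0
    rw [Finset.mem_range] at hi
    have h0 : W.tr Q.X (lef W Q ^ (Q.X.dim - i)) = 0 :=
      W.tr_eq_zero (alg_gr (lef_pow_alg hQ _)) (by omega)
    have h1 : W.push (fst P.X Q.X) (W.map (fst P.X Q.X) (lef W P ^ i * x) *
        W.map (snd P.X Q.X) (lef W Q ^ (Q.X.dim - i))) = 0 := by
      rw [push_fst_ext _ (lef_pow_alg hQ _), h0, zero_smul]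
    rcases neg_one_pow_eq_or (W.H (P.X.prod Q.X)) i with h | h
    · rw [h, one_mul, h1]
    · rw [h, neg_one_mul, map_neg, h1, neg_zero]
  · intro h
    exact absurd (Finset.mem_range.2 (Nat.succ_pos _)) h

lemma mid_mul_mid {P Q : Polarized 𝒱} (hP : Good ops P) (hQ : Good ops Q) {j : ℕ}
    {x y : W.H P.X} (hx : x ∈ algClasses W P.X j) (hy : y ∈ algClasses W P.X j)
    (hd : P.X.dim = 2 * j + Q.X.dim) :
    W.tr (P.X.prod Q.X) (mid W P Q x * mid W P Q y) =
      (-1) ^ Q.X.dim * (((Q.X.dim + 1 : ℕ) : W.K) * ((dg ops Q : ℚ) : W.K) *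
        W.tr P.X (x * y * lef W P ^ Q.X.dim)) := by
  have key : ∀ i i', W.tr (P.X.prod Q.X) ((-1) ^ i * (W.map (fst P.X Q.X) (lef W P ^ i * x) *
      W.map (snd P.X Q.X) (lef W Q ^ (Q.X.dim - i))) * ((-1) ^ i' *
      (W.map (fst P.X Q.X) (lef W P ^ i' * y) * W.map (snd P.X Q.X) (lef W Q ^ (Q.X.dim - i'))))) =
      (-1) ^ (i + i') * (W.tr P.X (x * y * lef W P ^ (i + i')) *
        W.tr Q.X (lef W Q ^ (Q.X.dim - i + (Q.X.dim - i')))) := by
    intro i i'
    have h1 : (-1) ^ i * (W.map (fst P.X Q.X) (lef W P ^ i * x) *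
      W.map (snd P.X Q.X) (lef W Q ^ (Q.X.dim - i))) * ((-1) ^ i' *
      (W.map (fst P.X Q.X) (lef W P ^ i' * y) *
        W.map (snd P.X Q.X) (lef W Q ^ (Q.X.dim - i')))) =
      ((-1 : W.K) ^ (i + i')) • (W.map (fst P.X Q.X) (x * y * lef W P ^ (i + i')) *
        W.map (snd P.X Q.X) (lef W Q ^ (Q.X.dim - i + (Q.X.dim - i')))) := by
      have h2 : lef W P ^ i * x * (lef W P ^ i' * y) = x * y * lef W P ^ (i + i') := by
        rw [alg_central (lef_pow_alg hP i) x, mul_assoc, ← mul_assoc (lef W P ^ i), ← pow_add,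
          alg_central (lef_pow_alg hP _) y, mul_assoc]
      have h3 : W.map (snd P.X Q.X) (lef W Q ^ (Q.X.dim - i)) *
          W.map (fst P.X Q.X) (lef W P ^ i' * y) = W.map (fst P.X Q.X) (lef W P ^ i' * y) *
          W.map (snd P.X Q.X) (lef W Q ^ (Q.X.dim - i)) :=
        alg_central (alg_map _ (lef_pow_alg hQ _)) _
      have h4 : W.map (fst P.X Q.X) (lef W P ^ i * x) *
          W.map (snd P.X Q.X) (lef W Q ^ (Q.X.dim - i)) *
          (W.map (fst P.X Q.X) (lef W P ^ i' * y) *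
            W.map (snd P.X Q.X) (lef W Q ^ (Q.X.dim - i'))) =
          W.map (fst P.X Q.X) (x * y * lef W P ^ (i + i')) *
          W.map (snd P.X Q.X) (lef W Q ^ (Q.X.dim - i + (Q.X.dim - i'))) := by
        rw [← h2, map_mul (W.map (fst P.X Q.X)) (lef W P ^ i * x), pow_add,
          map_mul (W.map (snd P.X Q.X))]
        simp only [mul_assoc]
        rw [← mul_assoc (W.map (snd P.X Q.X) (lef W Q ^ (Q.X.dim - i))), h3]
        simp only [mul_assoc]
      rw [← h4]
      rcases neg_one_pow_eq_or (W.H (P.X.prod Q.X)) i with h | h <;>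
        rcases neg_one_pow_eq_or (W.H (P.X.prod Q.X)) i' with h' | h' <;>
        rcases neg_one_pow_eq_or W.K i with g | g <;>
        rcases neg_one_pow_eq_or W.K i' with g' | g' <;>
        rcases Nat.even_or_odd i with e | e <;>
        rcases Nat.even_or_odd i' with e' | e' <;>
        simp only [pow_add, e.neg_one_pow, e'.neg_one_pow] <;> simp
    rw [h1, map_smul, smul_eq_mul, W.tr_prod]
  rw [mid, mid, sum_mul, map_sum]
  have h1 : ∀ i ∈ range (Q.X.dim + 1), W.tr (P.X.prod Q.X) ((-1) ^ i *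
      (W.map (fst P.X Q.X) (lef W P ^ i * x) * W.map (snd P.X Q.X) (lef W Q ^ (Q.X.dim - i))) *
      ∑ i' ∈ range (Q.X.dim + 1), (-1) ^ i' * (W.map (fst P.X Q.X) (lef W P ^ i' * y) *
        W.map (snd P.X Q.X) (lef W Q ^ (Q.X.dim - i')))) = (-1) ^ Q.X.dim *
        (((dg ops Q : ℚ) : W.K) * W.tr P.X (x * y * lef W P ^ Q.X.dim)) := by
    intro i hi
    rw [Finset.mem_range] at hi
    rw [mul_sum, map_sum, Finset.sum_eq_single (Q.X.dim - i)]
    · rw [key, show i + (Q.X.dim - i) = Q.X.dim by omega,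
        show Q.X.dim - i + (Q.X.dim - (Q.X.dim - i)) = Q.X.dim by omega, tr_lef hQ]
      ring
    · intro i' hi' hne
      rw [Finset.mem_range] at hi'
      rw [key]
      have h0 : W.tr P.X (x * y * lef W P ^ (i + i')) = 0 :=
        W.tr_eq_zero (alg_gr (alg_mul (alg_mul hx hy) (lef_pow_alg hP _))) (by omega)
      rw [h0, zero_mul, mul_zero]
    · intro h
      exact absurd (Finset.mem_range.2 (by omega)) h
  rw [Finset.sum_congr rfl h1, Finset.sum_const, Finset.card_range, nsmul_eq_mul]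
  ring

/-- The form and the reduction to the middle codimension. -/
lemma frm_mid {P Q : Polarized 𝒱} (hP : Good ops P) (hQ : Good ops Q) {j : ℕ}
    {x y : W.H P.X} (hx : x ∈ algClasses W P.X j) (hy : y ∈ algClasses W P.X j)
    (hd : P.X.dim = 2 * j + Q.X.dim) :
    frm W (P.prod ops Q) (j + Q.X.dim) (mid W P Q x) (mid W P Q y) =
      ((Q.X.dim + 1 : ℕ) : W.K) * ((dg ops Q : ℚ) : W.K) * frm W P j x y := by
  have key : ∀ L : W.H (P.X.prod Q.X), ∀ N, N = 0 →
      (-1) ^ (j + Q.X.dim) * W.tr (P.X.prod Q.X) (mid W P Q x * mid W P Q y * L ^ N) =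
      ((Q.X.dim + 1 : ℕ) : W.K) * ((dg ops Q : ℚ) : W.K) * frm W P j x y := by
    rintro L _ rfl
    rw [pow_zero, mul_one, mid_mul_mid hP hQ hx hy hd, frm,
      show P.X.dim - 2 * j = Q.X.dim by omega, pow_add]
    have h1 : ((-1 : W.K) ^ Q.X.dim) * (-1) ^ Q.X.dim = 1 := by
      rw [← mul_pow]; simp
    linear_combination ((-1) ^ j * (((Q.X.dim + 1 : ℕ) : W.K) * ((dg ops Q : ℚ) : W.K) *
        W.tr P.X (x * y * lef W P ^ Q.X.dim))) * h1
  exact key _ _ (by
    change P.X.dim + Q.X.dim - 2 * (j + Q.X.dim) = 0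
    omega)

end Pool.Agent.R907
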