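import Pool.Agent.R907.Ani3
import Mathlib.NumberTheory.SumFourSquares

/-!
# Isotropic primitive classes on products: orthogonal families
-/

open CategoryTheory AlgebraicGeometry Finset

set_option linter.unusedSectionVars false

universe u v

namespace Pool.Agent.R907

open Pool.Agent.H914 Pool.Agent.H281R3.HT VarClass Obj WeilCohomology

variable {k : Type u} [Field k] {𝒱 : VarClass k} {ops : CycleOps 𝒱}
  {W : WeilCohomology.{u, v} ops} {Z : ∀ X : 𝒱.Obj, AddSubgroup (W.H X)}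

/-- There is a family of primitive classes of codimension `j`, pairwise orthogonal, with the
squares `a i`. -/
def Diag (W : WeilCohomology.{u, v} ops) (Z : ∀ X : 𝒱.Obj, AddSubgroup (W.H X))
    (P : Polarized 𝒱) (j : ℕ) {ι : Type} (a : ι → ℚ) : Prop :=
  ∃ x : ι → W.H P.X, (∀ i, Prm W Z P j (x i)) ∧ (∀ i, frm W P j (x i) (x i) = (a i : W.K)) ∧
    ∀ i i', i ≠ i' → frm W P j (x i) (x i') = 0

lemma frm_one {P : Polarized 𝒱} (hP : Good ops P) :
    frm W P 0 1 1 = ((dg ops P : ℚ) : W.K) := by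
  rw [frm, pow_zero, one_mul, one_mul, one_mul, mul_zero, Nat.sub_zero, tr_lef hP]

lemma frm_comm {P : Polarized 𝒱} {j l : ℕ} {x y : W.H P.X} (hx : x ∈ algClasses W P.X l) :
    frm W P j x y = frm W P j y x := by
  rw [frm, frm, alg_central hx]

/-- Families on the two factors of a product. -/
lemma Diag.box (hZ : Adeq W Z) {P Q : Polarized 𝒱} (hP : Good ops P) (hQ : Good ops Q) {j : ℕ}
    (hj0 : 1 ≤ j) (hj : 2 * j ≤ P.X.dim) (hj' : 2 * j ≤ Q.X.dim) {ι κ : Type} {a : ι → ℚ}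
    {b : κ → ℚ} (ha : Diag W Z P j a) (hb : Diag W Z Q j b) :
    Diag W Z (P.prod ops Q) j (Sum.elim
      (fun i => ((P.X.dim + Q.X.dim - 2 * j).choose (P.X.dim - 2 * j) : ℚ) * (dg ops Q * a i))
      (fun i => ((P.X.dim + Q.X.dim - 2 * j).choose P.X.dim : ℚ) * (dg ops P * b i))) := by
  obtain ⟨x, hx, hx1, hx2⟩ := ha
  obtain ⟨y, hy, hy1, hy2⟩ := hb
  have e1 : ∀ i, Prm W Z (P.prod ops Q) j
      (W.map (fst P.X Q.X) (x i) * W.map (snd P.X Q.X) (1 : W.H Q.X)) := fun i =>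
    (hx i).ext hZ hP hQ (prm_one hQ) hj (by omega)
  have e2 : ∀ i, Prm W Z (P.prod ops Q) j
      (W.map (fst P.X Q.X) (1 : W.H P.X) * W.map (snd P.X Q.X) (y i)) := fun i => by
    have := (prm_one (Z := Z) hP).ext hZ hP hQ (hy i) (by omega) hj'
    rwa [zero_add] at this
  have f1 : ∀ i i', frm W (P.prod ops Q) j
      (W.map (fst P.X Q.X) (x i) * W.map (snd P.X Q.X) (1 : W.H Q.X))
      (W.map (fst P.X Q.X) (x i') * W.map (snd P.X Q.X) (1 : W.H Q.X)) =
      ((P.X.dim + Q.X.dim - 2 * j).choose (P.X.dim - 2 * j) : W.K) *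
        (frm W P j (x i) (x i') * ((dg ops Q : ℚ) : W.K)) := by
    intro i i'
    have := frm_ext (W := W) (Q := Q) (j' := 0) (y := 1) (y' := 1) hP (hx i).1 (hx i').1
      (alg_one _) hj (by omega)
    rw [frm_one hQ] at this
    exact this
  have f2 : ∀ i i', frm W (P.prod ops Q) j
      (W.map (fst P.X Q.X) (1 : W.H P.X) * W.map (snd P.X Q.X) (y i))
      (W.map (fst P.X Q.X) (1 : W.H P.X) * W.map (snd P.X Q.X) (y i')) =
      ((P.X.dim + Q.X.dim - 2 * j).choose P.X.dim : W.K) *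
        (((dg ops P : ℚ) : W.K) * frm W Q j (y i) (y i')) := by
    intro i i'
    have := frm_ext (W := W) (P := P) (Q := Q) (j := 0) (j' := j) (x := 1) (x' := 1)
      (y' := y i') hP (alg_one _) (alg_one _) (hy i).1 (by omega) hj'
    rw [frm_one hP, zero_add, mul_zero, Nat.sub_zero] at this
    exact this
  have f3 : ∀ i i', frm W (P.prod ops Q) j
      (W.map (fst P.X Q.X) (x i) * W.map (snd P.X Q.X) (1 : W.H Q.X))
      (W.map (fst P.X Q.X) (1 : W.H P.X) * W.map (snd P.X Q.X) (y i')) = 0 := by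
    intro i i'
    have h0 := frm_cross hZ (Q := Q) hP (y := y i') (hx i) hj0 hj hj'
    have key : ∀ L : W.H (P.X.prod Q.X), L = lp W P Q → (-1) ^ j * W.tr (P.X.prod Q.X)
        (W.map (fst P.X Q.X) (x i) * W.map (snd P.X Q.X) (1 : W.H Q.X) *
        (W.map (fst P.X Q.X) (1 : W.H P.X) * W.map (snd P.X Q.X) (y i')) *
          L ^ (P.X.dim + Q.X.dim - 2 * j)) = 0 := by
      rintro _ rfl
      rw [map_one, map_one, mul_one, one_mul, h0, mul_zero]
    exact key _ (lef_prod P Q)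
  refine ⟨Sum.elim
    (fun i => W.map (fst P.X Q.X) (x i) * W.map (snd P.X Q.X) (1 : W.H Q.X))
    (fun i => W.map (fst P.X Q.X) (1 : W.H P.X) * W.map (snd P.X Q.X) (y i)), ?_, ?_, ?_⟩
  · rintro (i | i)
    · exact e1 i
    · exact e2 i
  · rintro (i | i)
    · refine (f1 i i).trans ?_
      rw [hx1, Sum.elim_inl]
      push_cast
      ring
    · refine (f2 i i).trans ?_
      rw [hy1, Sum.elim_inr]
      push_cast
      ring
  · rintro (i | i) (i' | i') hne
    · refine (f1 i i').trans ?_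
      rw [hx2 i i' fun h => hne (congrArg _ h), zero_mul, mul_zero]
    · exact f3 i i'
    · refine (frm_comm (e2 i).1).trans ?_
      exact f3 i' i
    · refine (f2 i i').trans ?_
      rw [hy2 i i' fun h => hne (congrArg _ h), mul_zero, mul_zero]

/-- Products with one positive class. -/
lemma Diag.times (hZ : Adeq W Z) {P Q : Polarized 𝒱} (hP : Good ops P) (hQ : Good ops Q)
    {j j' : ℕ} (hj : 2 * j ≤ P.X.dim) (hj' : 2 * j' ≤ Q.X.dim) {ι : Type} {a : ι → ℚ} {b : ℚ}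
    (ha : Diag W Z P j a) (hb : Diag W Z Q j' fun _ : Unit => b) :
    Diag W Z (P.prod ops Q) (j + j') (fun i =>
      ((P.X.dim + Q.X.dim - 2 * (j + j')).choose (P.X.dim - 2 * j) : ℚ) * (a i * b)) := by
  obtain ⟨x, hx, hx1, hx2⟩ := ha
  obtain ⟨y, hy, hy1, hy2⟩ := hb
  refine ⟨fun i => W.map (fst P.X Q.X) (x i) * W.map (snd P.X Q.X) (y ()), fun i =>
    (hx i).ext hZ hP hQ (hy ()) hj hj', fun i => ?_, fun i i' hne => ?_⟩
  · refine (frm_ext hP (hx i).1 (hx i).1 (hy ()).1 hj hj').trans ?_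
    rw [hx1, hy1]
    push_cast
    rfl
  · refine (frm_ext hP (hx i).1 (hx i').1 (hy ()).1 hj hj').trans ?_
    rw [hx2 i i' hne, zero_mul, mul_zero]

/-- The reduction to the middle codimension. -/
lemma Diag.mid (hZ : Adeq W Z) {P Q : Polarized 𝒱} (hP : Good ops P) (hQ : Good ops Q) {j : ℕ}
    (hd : P.X.dim = 2 * j + Q.X.dim) {ι : Type} {a : ι → ℚ} (ha : Diag W Z P j a) :
    Diag W Z (P.prod ops Q) (j + Q.X.dim) (fun i => ((Q.X.dim + 1 : ℕ) : ℚ) * dg ops Q * a i) := by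
  obtain ⟨x, hx, hx1, hx2⟩ := ha
  refine ⟨fun i => R907.mid W P Q (x i), fun i => (hx i).mid hZ hP hQ hd, fun i => ?_,
    fun i i' hne => ?_⟩
  · refine (frm_mid hP hQ (hx i).1 (hx i).1 hd).trans ?_
    rw [hx1]
    push_cast
    rfl
  · refine (frm_mid hP hQ (hx i).1 (hx i').1 hd).trans ?_
    rw [hx2 i i' hne, mul_zero]

lemma Diag.reindex {P : Polarized 𝒱} {j : ℕ} {ι κ : Type} {a : ι → ℚ} (e : κ → ι)
    (he : Function.Injective e) (ha : Diag W Z P j a) : Diag W Z P j fun i => a (e i) := by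
  obtain ⟨x, hx, hx1, hx2⟩ := ha
  exact ⟨fun i => x (e i), fun i => hx _, fun i => hx1 _, fun i i' h => hx2 _ _ fun h' => h (he h')⟩

/-- Two different copies. -/
lemma Diag.double (hZ : Adeq W Z) {P : Polarized 𝒱} (hP : Good ops P) {j : ℕ}
    (hj0 : 1 ≤ j) (hj : 2 * j ≤ P.X.dim) {ι : Type} {b : ℚ}
    (ha : Diag W Z P j fun _ : ι => b) :
    ∃ c : ℚ, 0 < c ∧ Diag W Z (P.prod ops P) j fun _ : ι ⊕ ι => c * b := by
  refine ⟨((P.X.dim + P.X.dim - 2 * j).choose P.X.dim : ℚ) * dg ops P, ?_, ?_⟩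
  · refine mul_pos ?_ hP.degree
    exact_mod_cast Nat.choose_pos (by omega)
  · have h := ha.box hZ hP hP hj0 hj hj ha
    have h1 : (P.X.dim + P.X.dim - 2 * j).choose (P.X.dim - 2 * j) =
        (P.X.dim + P.X.dim - 2 * j).choose P.X.dim := by
      rw [← Nat.choose_symm (by omega)]
      congr 1
      omega
    rw [h1] at h
    have h2 : (fun _ : ι ⊕ ι => ((P.X.dim + P.X.dim - 2 * j).choose P.X.dim : ℚ) * dg ops P * b) =
      Sum.elim
      (fun i => ((P.X.dim + P.X.dim - 2 * j).choose P.X.dim : ℚ) * (dg ops P * b))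
      (fun i => ((P.X.dim + P.X.dim - 2 * j).choose P.X.dim : ℚ) * (dg ops P * b)) := by
      funext i
      rcases i with i | i <;> simp [mul_assoc]
    rw [h2]
    exact h

/-- Two positive rational numbers are proportional to sums of four squares. -/
lemma four_squares {s t : ℚ} (hs : 0 < s) (ht : 0 < t) :
    ∃ m n : (Unit ⊕ Unit) ⊕ (Unit ⊕ Unit) → ℤ, (∃ i, n i ≠ 0) ∧
      t * ∑ i, (n i : ℚ) ^ 2 = s * ∑ i, (m i : ℚ) ^ 2 := by
  obtain ⟨a, b, c, d, h⟩ := Nat.sum_four_squares (s.num.toNat * t.den)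
  obtain ⟨a', b', c', d', h'⟩ := Nat.sum_four_squares (t.num.toNat * s.den)
  have hsn : 0 < s.num := Rat.num_pos.2 hs
  have htn : 0 < t.num := Rat.num_pos.2 ht
  have hsn' : ((s.num.toNat : ℕ) : ℤ) = s.num := Int.toNat_of_nonneg hsn.le
  have htn' : ((t.num.toNat : ℕ) : ℤ) = t.num := Int.toNat_of_nonneg htn.le
  refine ⟨Sum.elim (Sum.elim (fun _ => a') fun _ => b') (Sum.elim (fun _ => c') fun _ => d'),
    Sum.elim (Sum.elim (fun _ => a) fun _ => b) (Sum.elim (fun _ => c) fun _ => d), ?_, ?_⟩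
  · by_contra hc
    push Not at hc
    have ha : (a : ℤ) = 0 := hc (Sum.inl (Sum.inl ()))
    have hb : (b : ℤ) = 0 := hc (Sum.inl (Sum.inr ()))
    have hc' : (c : ℤ) = 0 := hc (Sum.inr (Sum.inl ()))
    have hd : (d : ℤ) = 0 := hc (Sum.inr (Sum.inr ()))
    have h1 : s.num.toNat * t.den = 0 := by
      rw [← h]
      have ha' : a = 0 := by exact_mod_cast ha
      have hb' : b = 0 := by exact_mod_cast hb
      have hc'' : c = 0 := by exact_mod_cast hc'
      have hd' : d = 0 := by exact_mod_cast hd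
      rw [ha', hb', hc'', hd']
      rfl
    rcases Nat.mul_eq_zero.1 h1 with h2 | h2
    · omega
    · exact t.den_nz h2
  · have e1 : ((a : ℚ) ^ 2 + b ^ 2 + c ^ 2 + d ^ 2) = s.num * t.den := by
      have : ((a ^ 2 + b ^ 2 + c ^ 2 + d ^ 2 : ℕ) : ℚ) = ((s.num.toNat * t.den : ℕ) : ℚ) := by
        rw [h]
      push_cast at this
      rw [this]
      congr 1
      exact_mod_cast hsn'
    have e2 : ((a' : ℚ) ^ 2 + b' ^ 2 + c' ^ 2 + d' ^ 2) = t.num * s.den := by
      have : ((a' ^ 2 + b' ^ 2 + c' ^ 2 + d' ^ 2 : ℕ) : ℚ) =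
        ((t.num.toNat * s.den : ℕ) : ℚ) := by rw [h']
      push_cast at this
      rw [this]
      congr 1
      exact_mod_cast htn'
    have hsd : (s.den : ℚ) ≠ 0 := by exact_mod_cast s.den_nz
    have htd : (t.den : ℚ) ≠ 0 := by exact_mod_cast t.den_nz
    have es : s * s.den = s.num := Rat.mul_den_eq_num s
    have et : t * t.den = t.num := Rat.mul_den_eq_num t
    simp only [Fintype.sum_sum_type, Finset.univ_unique, Finset.sum_singleton, Sum.elim_inl,
      Sum.elim_inr, Int.cast_natCast]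
    have e3 : ((a : ℚ) ^ 2 + b ^ 2 + (c ^ 2 + d ^ 2)) = s.num * t.den := by
      rw [← e1]; ring
    have e4 : ((a' : ℚ) ^ 2 + b' ^ 2 + (c' ^ 2 + d' ^ 2)) = t.num * s.den := by
      rw [← e2]; ring
    rw [e3, e4, ← es, ← et]
    ring

end Pool.Agent.R907
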