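import Pool.Agent.R907.Ani4

/-!
# Isotropic primitive classes on products: the main theorem
-/

open CategoryTheory AlgebraicGeometry Finset

set_option linter.unusedSectionVars false

universe u v

namespace Pool.Agent.R907

open Pool.Agent.H914 Pool.Agent.H281R3.HT VarClass Obj WeilCohomology

variable {k : Type u} [Field k] {𝒱 : VarClass k} {ops : CycleOps 𝒱}
  {W : WeilCohomology.{u, v} ops} {Z : ∀ X : 𝒱.Obj, AddSubgroup (W.H X)}

section lin

variable {P : Polarized 𝒱} {j : ℕ}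

lemma frm_add_left (x x' y : W.H P.X) : frm W P j (x + x') y = frm W P j x y + frm W P j x' y := by
  rw [frm, frm, frm, add_mul, add_mul, map_add, mul_add]

lemma frm_smul_left (c : W.K) (x y : W.H P.X) : frm W P j (c • x) y = c * frm W P j x y := by
  rw [frm, frm, smul_mul_assoc, smul_mul_assoc, map_smul, smul_eq_mul]
  ring

lemma frm_sum_left {κ : Type*} (s : Finset κ) (x : κ → W.H P.X) (y : W.H P.X) :
    frm W P j (∑ i ∈ s, x i) y = ∑ i ∈ s, frm W P j (x i) y := by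
  rw [frm, sum_mul, sum_mul, map_sum, mul_sum]
  rfl

lemma frm_add_right (x y y' : W.H P.X) : frm W P j x (y + y') = frm W P j x y + frm W P j x y' := by
  rw [frm, frm, frm, mul_add, add_mul, map_add, mul_add]

lemma frm_smul_right (c : W.K) (x y : W.H P.X) : frm W P j x (c • y) = c * frm W P j x y := by
  rw [frm, frm, mul_smul_comm, smul_mul_assoc, map_smul, smul_eq_mul]
  ring

lemma frm_sum_right {κ : Type*} (s : Finset κ) (x : W.H P.X) (y : κ → W.H P.X) :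
    frm W P j x (∑ i ∈ s, y i) = ∑ i ∈ s, frm W P j x (y i) := by
  rw [frm, mul_sum, sum_mul, map_sum, mul_sum]
  rfl

lemma prm_smul (hZ : Adeq W Z) (q : ℚ) {x : W.H P.X} (hx : Prm W Z P j x) :
    Prm W Z P j ((q : W.K) • x) :=
  ⟨alg_smul q hx.1, by rw [mul_smul_comm]; exact hZ.smul q hx.2⟩

lemma prm_sum {κ : Type*} (s : Finset κ) (x : κ → W.H P.X) (hx : ∀ i ∈ s, Prm W Z P j (x i)) :
    Prm W Z P j (∑ i ∈ s, x i) :=
  ⟨alg_sum' s x fun i hi => (hx i hi).1, by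
    rw [mul_sum]
    exact AddSubgroup.sum_mem _ fun i hi => (hx i hi).2⟩

lemma frm_eq_zero (hZ : Adeq W Z) (hP : Good ops P) {z : W.H P.X} {l : ℕ} {y : W.H P.X}
    (hz : z ∈ Z P.X) (hy : y ∈ algClasses W P.X l) : frm W P j z y = 0 := by
  rw [frm]
  have h1 : W.tr P.X (z * y * lef W P ^ (P.X.dim - 2 * j)) = 0 := by
    rw [← alg_central hy, ← alg_central (lef_pow_alg hP _)]
    exact hZ.tr (hZ.mul_alg (hZ.mul_alg hz hy) (lef_pow_alg hP _))
  rw [h1, mul_zero]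

end lin

/-- There is a nonzero isotropic primitive class. -/
def Iso (W : WeilCohomology.{u, v} ops) (Z : ∀ X : 𝒱.Obj, AddSubgroup (W.H X))
    (P : Polarized 𝒱) (j : ℕ) : Prop :=
  ∃ z, Prm W Z P j z ∧ frm W P j z z = 0 ∧ z ∉ Z P.X

/-- **Lagrange.** -/
lemma iso_of_diag (hZ : Adeq W Z) {P : Polarized 𝒱} (hP : Good ops P) {j : ℕ} {s t : ℚ}
    (hs : 0 < s) (ht : 0 < t)
    (h : Diag W Z P j (Sum.elim (fun _ : (Unit ⊕ Unit) ⊕ (Unit ⊕ Unit) => -s)
      (fun _ : (Unit ⊕ Unit) ⊕ (Unit ⊕ Unit) => t))) : Iso W Z P j := by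
  classical
  obtain ⟨x, hx, hx1, hx2⟩ := h
  obtain ⟨m, n, ⟨i₀, hi₀⟩, hmn⟩ := four_squares hs ht
  set c : ((Unit ⊕ Unit) ⊕ (Unit ⊕ Unit)) ⊕ ((Unit ⊕ Unit) ⊕ (Unit ⊕ Unit)) → ℚ :=
    Sum.elim (fun i => (m i : ℚ)) (fun i => (n i : ℚ)) with hc
  set z := ∑ i, ((c i : ℚ) : W.K) • x i with hz
  have hzx : ∀ i, frm W P j z (x i) = (c i : W.K) * frm W P j (x i) (x i) := by
    intro i
    rw [hz, frm_sum_left, Finset.sum_eq_single i]
    · rw [frm_smul_left]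
    · intro i' _ hne
      rw [frm_smul_left, hx2 i' i hne, mul_zero]
    · intro h
      exact absurd (Finset.mem_univ i) h
  refine ⟨z, prm_sum _ _ fun i _ => prm_smul hZ _ (hx i), ?_, ?_⟩
  · have h1 : frm W P j z z = ∑ i, (c i : W.K) * ((c i : W.K) * frm W P j (x i) (x i)) := by
      conv_lhs => rw [hz, ← hz]
      nth_rewrite 2 [hz]
      rw [frm_sum_right]
      refine Finset.sum_congr rfl fun i _ => ?_
      rw [frm_smul_right, hzx]
    rw [h1, Fintype.sum_sum_type]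
    simp only [hx1, hc, Sum.elim_inl, Sum.elim_inr]
    have h2 : (((∑ i, (m i : ℚ) * ((m i : ℚ) * -s)) + ∑ i, (n i : ℚ) * ((n i : ℚ) * t) : ℚ)) = 0 := by
      have e1 : (∑ i, (m i : ℚ) * ((m i : ℚ) * -s)) = -(s * ∑ i, (m i : ℚ) ^ 2) := by
        rw [mul_sum, ← Finset.sum_neg_distrib]
        exact Finset.sum_congr rfl fun i _ => by ring
      have e2 : (∑ i, (n i : ℚ) * ((n i : ℚ) * t)) = t * ∑ i, (n i : ℚ) ^ 2 := by
        rw [mul_sum]
        exact Finset.sum_congr rfl fun i _ => by ring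
      rw [e1, e2, hmn]
      ring
    have h3 := congrArg (fun q : ℚ => (q : W.K)) h2
    push_cast at h3 ⊢
    exact h3
  · intro hzZ
    have h1 := frm_eq_zero (j := j) hZ hP hzZ (hx (Sum.inr i₀)).1
    rw [hzx, hx1] at h1
    have h2 : (n i₀ : ℚ) * t = 0 := by
      have : (((n i₀ : ℚ) * t : ℚ) : W.K) = ((0 : ℚ) : W.K) := by
        rw [Rat.cast_zero, ← h1]
        simp only [hc, Sum.elim_inr]
        push_cast
        rfl
      exact_mod_cast this
    rcases mul_eq_zero.1 h2 with h3 | h3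
    · exact hi₀ (by exact_mod_cast h3)
    · exact ht.ne' h3

lemma iso_of_diag' (hZ : Adeq W Z) {P : Polarized 𝒱} (hP : Good ops P) {j : ℕ} {s t : ℚ}
    (hs : s < 0) (ht : 0 < t)
    (h : Diag W Z P j (Sum.elim (fun _ : (Unit ⊕ Unit) ⊕ (Unit ⊕ Unit) => s)
      (fun _ : (Unit ⊕ Unit) ⊕ (Unit ⊕ Unit) => t))) : Iso W Z P j :=
  iso_of_diag hZ hP (neg_pos.2 hs) ht (by rw [neg_neg]; exact h)

variable {𝓟 : Set (Polarized 𝒱)}

lemma IsPolarizedClass.good (h : IsPolarizedClass ops 𝓟) {P : Polarized 𝒱} (hP : P ∈ 𝓟) :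
    Good ops P := ⟨h.divisor P hP, h.degree P hP⟩

lemma IsPolarizedClass.exists_dim (h : IsPolarizedClass ops 𝓟) (m : ℕ) :
    ∃ Q ∈ 𝓟, Q.X.dim = m + 1 := by
  obtain ⟨E, hE, hE1⟩ := h.curve
  induction m with
  | zero => exact ⟨E, hE, hE1⟩
  | succ m ih =>
    obtain ⟨Q, hQ, hQ1⟩ := ih
    refine ⟨_, h.prod Q hQ E hE, ?_⟩
    change Q.X.dim + E.X.dim = _
    rw [hQ1, hE1]

lemma exists_pos_two (hZ : Adeq W Z) (h : IsPolarizedClass ops 𝓟) :
    ∃ T ∈ 𝓟, T.X.dim = 2 ∧ ∃ t : ℚ, 0 < t ∧ Diag W Z T 1 fun _ : Unit => t := by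
  obtain ⟨E, hE, hE1⟩ := h.curve
  have hEg := h.good hE
  have h0 : Diag W Z E 0 fun _ : Unit => dg ops E :=
    ⟨fun _ => 1, fun _ => prm_one hEg, fun _ => frm_one hEg, fun i i' hne => absurd rfl hne⟩
  have h1 := h0.mid hZ hEg hEg (by rw [mul_zero, zero_add])
  have h2 : 0 + E.X.dim = 1 := by rw [hE1]
  rw [h2] at h1
  refine ⟨_, h.prod E hE E hE, ?_, _, ?_, h1⟩
  · change E.X.dim + E.X.dim = 2
    rw [hE1]
  · exact mul_pos (mul_pos (by exact_mod_cast Nat.succ_pos _) hEg.degree) hEg.degree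

lemma exists_pos (hZ : Adeq W Z) (h : IsPolarizedClass ops 𝓟) (n : ℕ) :
    ∃ T ∈ 𝓟, T.X.dim = 2 * (n + 1) ∧ ∃ t : ℚ, 0 < t ∧ Diag W Z T (n + 1) fun _ : Unit => t := by
  obtain ⟨S, hS, hS2, s, hs, hSd⟩ := exists_pos_two hZ h
  induction n with
  | zero => exact ⟨S, hS, hS2, s, hs, hSd⟩
  | succ n ih =>
    obtain ⟨T, hT, hT2, t, ht, hTd⟩ := ih
    have h1 := hTd.times hZ (h.good hT) (h.good hS) (by omega) (by omega) hSd
    refine ⟨_, h.prod T hT S hS, ?_, _, ?_, h1⟩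
    · change T.X.dim + S.X.dim = _
      omega
    · refine mul_pos ?_ (mul_pos ht hs)
      exact_mod_cast Nat.choose_pos (by omega)

/-- **A negative primitive class gives an isotropic one.** -/
lemma iso_of_neg (hZ : Adeq W Z) (h : IsPolarizedClass ops 𝓟) {P : Polarized 𝒱} (hP : P ∈ 𝓟)
    {j : ℕ} (hj0 : 1 ≤ j) (hj : 2 * j ≤ P.X.dim) {b : ℚ} (hb : b < 0)
    (hd : Diag W Z P j fun _ : Unit => b) :
    ∃ R ∈ 𝓟, 2 * j ≤ R.X.dim ∧ Iso W Z R j := by
  obtain ⟨n, rfl⟩ : ∃ n, j = n + 1 := ⟨j - 1, by omega⟩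
  obtain ⟨T, hT, hT2, t, ht, hTd⟩ := exists_pos hZ h n
  have hPg := h.good hP
  have hTg := h.good hT
  obtain ⟨c1, hc1, h1⟩ := hd.double hZ hPg hj0 hj
  have hPP := h.prod P hP P hP
  obtain ⟨c2, hc2, h2⟩ := h1.double hZ (h.good hPP) hj0 (by
    change 2 * (n + 1) ≤ P.X.dim + P.X.dim
    omega)
  have hP4 := h.prod _ hPP _ hPP
  obtain ⟨c3, hc3, h3⟩ := hTd.double hZ hTg hj0 (by omega)
  have hTT := h.prod T hT T hT
  obtain ⟨c4, hc4, h4⟩ := h3.double hZ (h.good hTT) hj0 (by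
    change 2 * (n + 1) ≤ T.X.dim + T.X.dim
    omega)
  have hT4 := h.prod _ hTT _ hTT
  have hdP : 2 * (n + 1) ≤ ((P.prod ops P).prod ops (P.prod ops P)).X.dim := by
    change 2 * (n + 1) ≤ (P.X.dim + P.X.dim) + (P.X.dim + P.X.dim)
    omega
  have hdT : 2 * (n + 1) ≤ ((T.prod ops T).prod ops (T.prod ops T)).X.dim := by
    change 2 * (n + 1) ≤ (T.X.dim + T.X.dim) + (T.X.dim + T.X.dim)
    omega
  have h5 := h2.box hZ (h.good hP4) (h.good hT4) hj0 hdP hdT h4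
  refine ⟨_, h.prod _ hP4 _ hT4, hdP.trans (Nat.le_add_right _ _),
    iso_of_diag' hZ (h.good (h.prod _ hP4 _ hT4)) ?_ ?_ h5⟩
  · have e1 : c2 * (c1 * b) < 0 := mul_neg_of_pos_of_neg hc2 (mul_neg_of_pos_of_neg hc1 hb)
    have e2 := mul_neg_of_pos_of_neg (h.good hT4).degree e1
    refine mul_neg_of_pos_of_neg ?_ e2
    exact_mod_cast Nat.choose_pos (by omega)
  · refine mul_pos ?_ (mul_pos (h.good hP4).degree (mul_pos hc4 (mul_pos hc3 ht)))
    exact_mod_cast Nat.choose_pos (by omega)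

/-- The transport of isotropic classes to the middle codimension. -/
lemma iso_mid (hZ : Adeq W Z) (h : IsPolarizedClass ops 𝓟) {P : Polarized 𝒱} (hP : P ∈ 𝓟)
    {j : ℕ} (hj : 2 * j ≤ P.X.dim) (hI : Iso W Z P j) :
    ∃ R ∈ 𝓟, R.X.dim = 2 * (P.X.dim - j) ∧ Iso W Z R (P.X.dim - j) := by
  by_cases hd : P.X.dim = 2 * j
  · rw [show P.X.dim - j = j by omega]
    exact ⟨P, hP, hd, hI⟩
  · obtain ⟨Q, hQ, hQ1⟩ := h.exists_dim (P.X.dim - 2 * j - 1)
    obtain ⟨z, hz, hz0, hzZ⟩ := hI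
    have hd' : P.X.dim = 2 * j + Q.X.dim := by omega
    have hQg := h.good hQ
    have hPg := h.good hP
    rw [show P.X.dim - j = j + Q.X.dim by omega]
    refine ⟨_, h.prod P hP Q hQ, ?_, mid W P Q z, hz.mid hZ hPg hQg hd', ?_, fun hc => hzZ ?_⟩
    · change P.X.dim + Q.X.dim = _
      omega
    · rw [frm_mid hPg hQg hz.1 hz.1 hd', hz0, mul_zero]
    · have h1 := hZ.push (fst P.X Q.X) hc
      rw [push_mid hQg] at h1
      have h2 := hZ.smul (dg ops Q)⁻¹ h1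
      have h3 : (dg ops Q : W.K) ≠ 0 := by
        have := hQg.degree
        exact_mod_cast this.ne'
      rwa [smul_smul, Rat.cast_inv, inv_mul_cancel₀ h3, one_smul] at h2

lemma iso_step (hZ : Adeq W Z) (h : IsPolarizedClass ops 𝓟) {P : Polarized 𝒱} (hP : P ∈ 𝓟)
    {n : ℕ} (hn : P.X.dim = 2 * n) (hI : Iso W Z P n) :
    ∃ R ∈ 𝓟, R.X.dim = 2 * (n + 1) ∧ Iso W Z R (n + 1) := by
  obtain ⟨S, hS, hS2, s, hs, y, hy, hy1, -⟩ := exists_pos_two hZ h
  obtain ⟨z, hz, hz0, hzZ⟩ := hI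
  have hSg := h.good hS
  have hPg := h.good hP
  refine ⟨_, h.prod P hP S hS, ?_, W.map (fst P.X S.X) z * W.map (snd P.X S.X) (y ()),
    hz.ext hZ hPg hSg (hy ()) (by omega) (by omega), ?_, fun hc => hzZ ?_⟩
  · change P.X.dim + S.X.dim = _
    omega
  · refine (frm_ext hPg hz.1 hz.1 (hy ()).1 (by omega) (by omega)).trans ?_
    rw [hz0, zero_mul, mul_zero]
  · have h1 := hZ.push (fst P.X S.X) (hZ.mul_alg hc (alg_map (snd P.X S.X) (hy ()).1))
    rw [alg_central (alg_map (snd P.X S.X) (hy ()).1), mul_assoc, ← map_mul,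
      push_fst_ext z (alg_mul (hy ()).1 (hy ()).1)] at h1
    have h4 : W.tr S.X (y () * y ()) = ((-s : ℚ) : W.K) := by
      have := hy1 ()
      rw [frm, hS2] at this
      simp only [mul_one, Nat.sub_self, pow_zero, pow_one] at this
      rw [Rat.cast_neg, ← this]
      ring
    rw [h4] at h1
    have h2 := hZ.smul (-s)⁻¹ h1
    have h3 : ((-s : ℚ) : W.K) ≠ 0 := by
      have := (neg_neg_of_pos hs).ne
      exact_mod_cast this
    rwa [smul_smul, Rat.cast_inv, inv_mul_cancel₀ h3, one_smul] at h2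

lemma iso_all (hZ : Adeq W Z) (h : IsPolarizedClass ops 𝓟) {P : Polarized 𝒱} (hP : P ∈ 𝓟)
    {j : ℕ} (hj : 2 * j ≤ P.X.dim) (hI : Iso W Z P j) (n : ℕ) (hn : P.X.dim - j ≤ n) :
    ∃ R ∈ 𝓟, R.X.dim = 2 * n ∧ Iso W Z R n := by
  induction n, hn using Nat.le_induction with
  | base => exact iso_mid hZ h hP hj hI
  | succ n _ ih =>
    obtain ⟨R, hR, hRd, hRI⟩ := ih
    exact iso_step hZ h hR hRd hRI

/-- **The conjecture of Hodge type and self-intersections of middle-dimensional cycles.** -/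
theorem hodge_iff (hZ : Adeq W Z) (h : IsPolarizedClass ops 𝓟) :
    (∀ P ∈ 𝓟, ∀ j, 2 * j ≤ P.X.dim → ∀ z, Prm W Z P j z → z ∉ Z P.X →
      ∃ q : ℚ, 0 < q ∧ frm W P j z z = q) ↔
    ∀ N : ℕ, ∃ n ≥ N, ∀ P ∈ 𝓟, P.X.dim = 2 * n → ¬ Iso W Z P n := by
  constructor
  · intro hH N
    refine ⟨N, le_rfl, fun P hP hd ⟨z, hz, hz0, hzZ⟩ => ?_⟩
    obtain ⟨q, hq, hq1⟩ := hH P hP N (by omega) z hz hzZ
    rw [hz0] at hq1
    exact hq.ne' (by exact_mod_cast hq1.symm)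
  · intro hI P hP j hj z hz hzZ
    have hPg := h.good hP
    obtain ⟨q, hq⟩ : ∃ q : ℚ, frm W P j z z = q := by
      obtain ⟨q, hq⟩ := alg_rat' (alg_mul (alg_mul hz.1 hz.1) (lef_pow_alg hPg
        (P.X.dim - 2 * j)))
      refine ⟨(-1) ^ j * q, ?_⟩
      rw [frm, hq]
      push_cast
      rfl
    refine ⟨q, ?_, hq⟩
    by_contra hneg
    rw [not_lt] at hneg
    have hiso : ∃ R ∈ 𝓟, ∃ i, 2 * i ≤ R.X.dim ∧ Iso W Z R i := by
      rcases hneg.lt_or_eq with h1 | h1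
      · rcases Nat.eq_zero_or_pos j with h0 | h0
        · exfalso
          subst h0
          have h2 := alg_gr hz.1
          rw [mul_zero, W.gr_zero, Submodule.mem_span_singleton] at h2
          obtain ⟨t, rfl⟩ := h2
          obtain ⟨s, hs⟩ := alg_rat' (alg_mul hz.1 (lef_pow_alg (W := W) hPg P.X.dim))
          rw [smul_mul_assoc, one_mul, map_smul, smul_eq_mul, tr_lef hPg] at hs
          rw [frm_smul_left, frm_smul_right, frm_one hPg] at hq
          have h3 : 0 < dg ops P := hPg.degree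
          have h4 : q * dg ops P = s ^ 2 := by
            have : ((q * dg ops P : ℚ) : W.K) = ((s ^ 2 : ℚ) : W.K) := by
              push_cast
              rw [← hs, ← hq]
              ring
            exact_mod_cast this
          have h5 := mul_neg_of_neg_of_pos h1 h3
          rw [h4] at h5
          exact absurd h5 (not_lt.2 (sq_nonneg s))
        · obtain ⟨R, hR, h2, h3⟩ := iso_of_neg hZ h hP h0 hj h1
            ⟨fun _ => z, fun _ => hz, fun _ => hq, fun i i' hne => absurd rfl hne⟩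
          exact ⟨R, hR, j, h2, h3⟩
      · refine ⟨P, hP, j, hj, z, hz, ?_, hzZ⟩
        rw [hq, h1, Rat.cast_zero]
    obtain ⟨R, hR, i, hi, hRI⟩ := hiso
    obtain ⟨n, hn, hno⟩ := hI (R.X.dim - i)
    obtain ⟨R', hR', hd', hI'⟩ := iso_all hZ h hR hi hRI n hn
    exact hno R' hR' hd' hI'

end Pool.Agent.R907
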