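import Pool.Agent.R907.Ani5

/-!
# The numerical Hodge standard conjecture and self-intersections of middle-dimensional cycles
-/

open CategoryTheory AlgebraicGeometry Finset

set_option linter.unusedSectionVars false

universe u v

namespace Pool.Agent.R907

open Pool.Agent.H914 Pool.Agent.H281R3.HT VarClass Obj WeilCohomology

variable {k : Type u} [Field k] {𝒱 : VarClass k} {ops : CycleOps 𝒱}

lemma mem_numZ_iff (W : WeilCohomology.{u, v} ops) {X : 𝒱.Obj} {j : ℕ} {z : X.Cycles}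
    (hz : X.IsCyc j z) : W.cl X z ∈ numZ W X ↔
      ∀ i w, j + i = X.dim → X.IsCyc i w → X.V.degCycle (ops.mul z w) = 0 := by
  constructor
  · intro h i w hij hw
    have h1 := h i _ ⟨w, hw, rfl⟩
    rw [← W.cl_mul, W.tr_cl (hij ▸ ops.mul_mem hz hw)] at h1
    exact_mod_cast h1
  · rintro h i _ ⟨w, hw, rfl⟩
    by_cases hij : j + i = X.dim
    · rw [← W.cl_mul, W.tr_cl (hij ▸ ops.mul_mem hz hw), h i w hij hw, Rat.cast_zero]
    · exact W.tr_eq_zero (W.mul_mem (W.cl_mem hz) (W.cl_mem hw)) (by omega)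

lemma numZero_iff (W : WeilCohomology.{u, v} ops) {X : 𝒱.Obj} {j : ℕ} {z : X.Cycles}
    (hz : X.IsCyc j z) (hj : j ≤ X.dim) : NumZero ops X j z ↔ W.cl X z ∈ numZ W X := by
  rw [mem_numZ_iff W hz]
  constructor
  · intro h i w hij hw
    refine h w ?_
    rwa [show X.dim - j = i by omega]
  · intro h w hw
    exact h _ w (by omega) hw

lemma numPrimitive_iff (W : WeilCohomology.{u, v} ops) {P : Polarized 𝒱} (hP : Good ops P)
    {j : ℕ} {z : P.X.Cycles} (hz : P.X.IsCyc j z) (hj : 2 * j ≤ P.X.dim) :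
    NumPrimitive ops P j z ↔ Prm W (numZ W) P j (W.cl P.X z) := by
  have h1 := divPow_mem (ops := ops) hP.divisor (P.X.dim + 1 - 2 * j) hz
  constructor
  · rintro ⟨-, h⟩
    refine ⟨⟨z, hz, rfl⟩, ?_⟩
    rw [← cl_divPow', mem_numZ_iff W h1]
    intro i w hi hw
    exact h i w (by omega) hw
  · rintro ⟨-, h⟩
    refine ⟨hz, fun i w hi hw => ?_⟩
    rw [← cl_divPow', mem_numZ_iff W h1] at h
    exact h i w (by omega) hw

lemma frm_cl (W : WeilCohomology.{u, v} ops) {P : Polarized 𝒱} (hP : Good ops P)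
    {j : ℕ} {z : P.X.Cycles} (hz : P.X.IsCyc j z) (hj : 2 * j ≤ P.X.dim) :
    frm W P j (W.cl P.X z) (W.cl P.X z) = (((-1 : ℚ) ^ j *
      P.X.V.degCycle (ops.mul z (divPow ops P.D (P.X.dim - 2 * j) z)) : ℚ) : W.K) := by
  have h1 := divPow_mem (ops := ops) hP.divisor (P.X.dim - 2 * j) hz
  have h2 := ops.mul_mem hz h1
  rw [show j + (j + (P.X.dim - 2 * j)) = P.X.dim by omega] at h2
  rw [frm, mul_assoc, ← alg_central (lef_pow_alg hP _), ← cl_divPow', ← W.cl_mul, W.tr_cl h2]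
  push_cast
  rfl

lemma frm_cl_mid (W : WeilCohomology.{u, v} ops) {P : Polarized 𝒱}
    {n : ℕ} {z : P.X.Cycles} (hz : P.X.IsCyc n z) (hn : P.X.dim = 2 * n) :
    frm W P n (W.cl P.X z) (W.cl P.X z) = 0 ↔ P.X.V.degCycle (ops.mul z z) = 0 := by
  have h2 := ops.mul_mem hz hz
  rw [show n + n = P.X.dim by omega] at h2
  rw [frm, hn, Nat.sub_self, pow_zero, mul_one, ← W.cl_mul, W.tr_cl h2]
  constructor
  · intro h
    have := (mul_eq_zero.1 h).resolve_left (pow_ne_zero _ (neg_ne_zero.2 one_ne_zero))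
    exact_mod_cast this
  · intro h
    rw [h, Rat.cast_zero, mul_zero]

/-- **The numerical Hodge standard conjecture and self-intersections of cycles of the middle
codimension.** -/
theorem numHodge_iff (W : WeilCohomology.{u, v} ops) {𝓟 : Set (Polarized 𝒱)}
    (h : IsPolarizedClass ops 𝓟) :
    (∀ P ∈ 𝓟, NumHodge ops P) ↔
      ∀ N : ℕ, ∃ n ≥ N, ∀ P ∈ 𝓟, P.X.dim = 2 * n → NoIsotropic ops P n := by
  have h1 : (∀ P ∈ 𝓟, NumHodge ops P) ↔ (∀ P ∈ 𝓟, ∀ j, 2 * j ≤ P.X.dim →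
      ∀ z, Prm W (numZ W) P j z → z ∉ numZ W P.X → ∃ q : ℚ, 0 < q ∧ frm W P j z z = q) := by
    refine forall₂_congr fun P hP => forall₂_congr fun j hj => ?_
    have hPg := h.good hP
    constructor
    · rintro hH x ⟨⟨z, hz, rfl⟩, hx⟩ hxZ
      exact ⟨_, hH z ((numPrimitive_iff W hPg hz hj).2 ⟨⟨z, hz, rfl⟩, hx⟩)
        (fun hc => hxZ ((numZero_iff W hz (by omega)).1 hc)), frm_cl W hPg hz hj⟩
    · intro hH z hzp hz0
      obtain ⟨q, hq, hq1⟩ := hH _ ((numPrimitive_iff W hPg hzp.1 hj).1 hzp)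
        (fun hc => hz0 ((numZero_iff W hzp.1 (by omega)).2 hc))
      rw [frm_cl W hPg hzp.1 hj] at hq1
      have : (-1 : ℚ) ^ j * P.X.V.degCycle (ops.mul z (divPow ops P.D (P.X.dim - 2 * j) z)) =
        q := by exact_mod_cast hq1
      rw [this]
      exact hq
  rw [h1, hodge_iff adeq_num h]
  refine forall_congr' fun N => exists_congr fun n => and_congr_right fun _ =>
    forall₂_congr fun P hP => forall_congr' fun hd => ?_
  have hPg := h.good hP
  constructor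
  · intro hI z hzp hz0
    by_contra hc
    exact hI ⟨_, (numPrimitive_iff W hPg hzp.1 (by omega)).1 hzp, (frm_cl_mid W hzp.1 hd).2 hz0,
      fun h' => hc ((numZero_iff W hzp.1 (by omega)).2 h')⟩
  · rintro hN ⟨x, ⟨⟨z, hz, rfl⟩, hx⟩, hx0, hxZ⟩
    exact hxZ ((numZero_iff W hz (by omega)).1 (hN z
      ((numPrimitive_iff W hPg hz (by omega)).2 ⟨⟨z, hz, rfl⟩, hx⟩)
      ((frm_cl_mid W hz hd).1 hx0)))

/-- No primitive algebraic class `≠ 0` of codimension `n` on `P` has self-intersection zero. -/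
def NoIsotropicHom (W : WeilCohomology.{u, v} ops) (P : Polarized 𝒱) (n : ℕ) : Prop :=
  ∀ z, P.X.IsCyc n z → W.cl P.X (ops.mul P.D z) = 0 → P.X.V.degCycle (ops.mul z z) = 0 →
    W.cl P.X z = 0

/-- **The standard conjecture of Hodge type and self-intersections of cycles of the middle
codimension.** -/
theorem hodgeType_iff (W : WeilCohomology.{u, v} ops) {𝓟 : Set (Polarized 𝒱)}
    (h : IsPolarizedClass ops 𝓟) :
    (∀ P ∈ 𝓟, HodgeType W P.X P.D) ↔
      ∀ N : ℕ, ∃ n ≥ N, ∀ P ∈ 𝓟, P.X.dim = 2 * n → NoIsotropicHom W P n := by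
  have h1 : (∀ P ∈ 𝓟, HodgeType W P.X P.D) ↔ (∀ P ∈ 𝓟, ∀ j, 2 * j ≤ P.X.dim →
      ∀ z, Prm W (fun _ => ⊥) P j z → z ∉ (⊥ : AddSubgroup (W.H P.X)) →
        ∃ q : ℚ, 0 < q ∧ frm W P j z z = q) := by
    refine forall₂_congr fun P hP => forall₂_congr fun j hj => ?_
    have hPg := h.good hP
    have he : P.X.dim - 2 * j + 1 = P.X.dim + 1 - 2 * j := by omega
    constructor
    · rintro hH x ⟨⟨z, hz, rfl⟩, hx⟩ hxZ
      rw [← cl_divPow', AddSubgroup.mem_bot] at hx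
      rw [AddSubgroup.mem_bot] at hxZ
      exact ⟨_, hH z hz (by rw [he]; exact hx) hxZ, frm_cl W hPg hz hj⟩
    · intro hH z hz hzp hz0
      obtain ⟨q, hq, hq1⟩ := hH (W.cl P.X z) ⟨⟨z, hz, rfl⟩, by
        rw [← cl_divPow', AddSubgroup.mem_bot, ← he]; exact hzp⟩ (by
        rw [AddSubgroup.mem_bot]; exact hz0)
      rw [frm_cl W hPg hz hj] at hq1
      have : (-1 : ℚ) ^ j * P.X.V.degCycle (ops.mul z (divPow ops P.D (P.X.dim - 2 * j) z)) =
        q := by exact_mod_cast hq1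
      rw [this]
      exact hq
  rw [h1, hodge_iff adeq_hom h]
  refine forall_congr' fun N => exists_congr fun n => and_congr_right fun _ =>
    forall₂_congr fun P hP => forall_congr' fun hd => ?_
  have hPg := h.good hP
  have he : P.X.dim + 1 - 2 * n = 1 := by omega
  constructor
  · intro hI z hz hzp hz0
    by_contra hc
    refine hI ⟨_, ⟨⟨z, hz, rfl⟩, ?_⟩, (frm_cl_mid W hz hd).2 hz0, ?_⟩
    · rw [he, pow_one, AddSubgroup.mem_bot, ← W.cl_mul]
      exact hzp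
    · rw [AddSubgroup.mem_bot]
      exact hc
  · rintro hN ⟨x, ⟨⟨z, hz, rfl⟩, hx⟩, hx0, hxZ⟩
    rw [he, pow_one, AddSubgroup.mem_bot, ← W.cl_mul] at hx
    exact hxZ (AddSubgroup.mem_bot.2 (hN z hz hx ((frm_cl_mid W hz hd).1 hx0)))

end Pool.Agent.R907
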