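import Pool.Agent.R907.KunDefs
import Pool.Agent.H447R3.SpDefs

/-!
# The sign conjecture in terms of ranks: definitions
-/

universe u v

namespace Pool.Agent.R907

open Pool.Agent.H914 Pool.Agent.H447

/-- `Q` is the projector onto the sum of the `gr j`, `j` odd, along the sum of the `gr j`, `j`
even. -/
def IsOddProj {K V : Type*} [Field K] [AddCommGroup V] [Module K V] (gr : ℕ → Submodule K V)
    (Q : Module.End K V) : Prop :=
  ∀ j, ∀ a ∈ gr j, Q a = if Even j then 0 else a

variable {k : Type u} [Field k] {𝒱 : VarClass k} {ops : CycleOps 𝒱}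

/-- The rank of the form `tr(a ∘ b ∘ P)` on the correspondences of degree zero on `X`. -/
noncomputable def traceFormRank (W : WeilCohomology.{u, v} ops) (X : 𝒱.Obj)
    (P : Module.End W.K (W.H X)) : ℕ :=
  formRank P (corrOps W X)

/-- The dimension of the space of the cycles of codimension `dim X` on `X × X` modulo numerical
equivalence is at most the sum of the ranks of the forms `tr(a ∘ b | H⁺(X))` and
`tr(a ∘ b | H⁻(X))`. -/
def RankAtMostSum (W : WeilCohomology.{u, v} ops) (X : 𝒱.Obj) : Prop :=
  ∀ P Q, IsEvenProj (W.gr X) P → IsOddProj (W.gr X) Q →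
    numCorrRank ops X ≤ traceFormRank W X P + traceFormRank W X Q

/-- The dimension of the space of the cycles of codimension `dim X` on `X × X` modulo numerical
equivalence is the sum of the ranks of the forms `tr(a ∘ b | H⁺(X))` and `tr(a ∘ b | H⁻(X))`. -/
def RankEqualsSum (W : WeilCohomology.{u, v} ops) (X : 𝒱.Obj) : Prop :=
  ∀ P Q, IsEvenProj (W.gr X) P → IsOddProj (W.gr X) Q →
    numCorrRank ops X = traceFormRank W X P + traceFormRank W X Q

end Pool.Agent.R907
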