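import Pool.Agent.R907.Kun
import Pool.Agent.R907.SignRankDefs
import Pool.Agent.TH133.PW.Ev

/-!
# The sign conjecture in terms of ranks
-/

open CategoryTheory AlgebraicGeometry Finset

universe u v

namespace Pool.Agent.R907

open Pool.Agent.H914 Pool.Agent.H447 Pool.Agent.W537 Pool.Agent.Y106.One VarClass Obj
  WeilCohomology Pool.Agent.TH133.PW Pool.Agent.H578R3

section Alg

variable {K : Type*} [Field K] [CharZero K] {V : Type*} [AddCommGroup V] [Module K V]
  [Module.Finite K V]

/-- An idempotent from traces. -/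
lemma idem_of_traces {A : Submodule K (Module.End K V)} {e a : Module.End K V}
    (hee : e * e = e) (hea : e * a = a * e) (ha : a ∈ A) (h1 : (1 : Module.End K V) ∈ A)
    (hmul : ∀ x ∈ A, ∀ y ∈ A, x * y ∈ A)
    (ht1 : ∀ b ∈ A, LinearMap.trace K V (a * b * e) = LinearMap.trace K V (b * e))
    (ht2 : ∀ b ∈ A, LinearMap.trace K V (a * b * (1 - e)) = 0) : e ∈ A := by
  have hpow : ∀ x ∈ A, ∀ r : ℕ, x ^ r ∈ A := by
    intro x hx r
    induction r with
    | zero => rw [pow_zero]; exact h1
    | succ r ih => rw [pow_succ]; exact hmul _ ih _ hx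
  have hcomm1 : Commute e (1 - a) := by
    change e * (1 - a) = (1 - a) * e
    rw [mul_sub, sub_mul, mul_one, one_mul, hea]
  have hcomm2 : Commute (1 - e) a := by
    change (1 - e) * a = a * (1 - e)
    rw [mul_sub, sub_mul, mul_one, one_mul, hea]
  have hee2 : (1 - e) * (1 - e) = 1 - e := by
    rw [mul_sub, mul_one, sub_mul, one_mul, hee, sub_self, sub_zero]
  have hidem : ∀ (f : Module.End K V), f * f = f → ∀ r : ℕ, f ^ (r + 1) = f := by
    intro f hf r
    induction r with
    | zero => rw [zero_add, pow_one]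
    | succ r ih => rw [pow_succ, ih, hf]
  have hn1 : IsNilpotent (e * (1 - a)) := by
    apply isNilpotent_of_trace_pow
    intro r
    have h2 : (e * (1 - a)) ^ (r + 1) = (1 - a) ^ r * e - a * (1 - a) ^ r * e := by
      have h3 : (e * (1 - a)) ^ (r + 1) = e * (1 - a) ^ (r + 1) := by
        rw [hcomm1.mul_pow, hidem e hee]
      rw [h3, (hcomm1.pow_right (r + 1)).eq, pow_succ', sub_mul, one_mul, sub_mul]
    rw [h2, map_sub, ht1 _ (hpow _ (A.sub_mem h1 ha) r), sub_self]
  have hn2 : IsNilpotent ((1 - e) * a) := by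
    apply isNilpotent_of_trace_pow
    intro r
    have h2 : ((1 - e) * a) ^ (r + 1) = a * a ^ r * (1 - e) := by
      rw [hcomm2.mul_pow, hidem _ hee2, (hcomm2.pow_right (r + 1)).eq, pow_succ']
    rw [h2, ht2 _ (hpow _ ha r)]
  obtain ⟨N₁, hN₁⟩ := hn1
  obtain ⟨N₂, hN₂⟩ := hn2
  obtain ⟨N, hN⟩ : ∃ N, N = N₁ + N₂ := ⟨_, rfl⟩
  have hz1 : e * (1 - a) ^ (N + 1) = 0 := by
    rw [← hidem e hee N, ← hcomm1.mul_pow, hN, add_assoc, pow_add, hN₁, zero_mul]
  have hz2 : (1 - e) * a ^ (N + 1) = 0 := by
    rw [← hidem _ hee2 N, ← hcomm2.mul_pow, hN, add_comm N₁ N₂, add_assoc, pow_add, hN₂, zero_mul]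
  -- the polynomial
  have hE1 : e * (1 - (1 - a ^ (N + 1)) ^ (N + 1)) = e := by
    have h2 : (1 - a ^ (N + 1)) ^ (N + 1) =
        (1 - a) ^ (N + 1) * (∑ k ∈ range (N + 1), a ^ k) ^ (N + 1) := by
      have h3 : 1 - a ^ (N + 1) = (1 - a) * (∑ k ∈ range (N + 1), a ^ k) :=
        (mul_neg_geom_sum a (N + 1)).symm
      have h4 : Commute (1 - a) (∑ k ∈ range (N + 1), a ^ k) := by
        apply Commute.sum_right
        intro k _
        exact (Commute.one_left _).sub_left (Commute.self_pow _ _)
      rw [h3, h4.mul_pow]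
    rw [h2, mul_sub, mul_one, ← mul_assoc, hz1, zero_mul, sub_zero]
  have hE2 : (1 - e) * (1 - (1 - a ^ (N + 1)) ^ (N + 1)) = 0 := by
    have h2 : ∀ m : ℕ, (1 - e) * (1 - a ^ (N + 1)) ^ m = 1 - e := by
      intro m
      induction m with
      | zero => rw [pow_zero, mul_one]
      | succ m ih => rw [pow_succ, ← mul_assoc, ih, mul_sub, mul_one, hz2, sub_zero]
    rw [mul_sub, mul_one, h2, sub_self]
  have hE : 1 - (1 - a ^ (N + 1)) ^ (N + 1) = e := by
    have h2 : 1 - (1 - a ^ (N + 1)) ^ (N + 1) = e * (1 - (1 - a ^ (N + 1)) ^ (N + 1)) +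
        (1 - e) * (1 - (1 - a ^ (N + 1)) ^ (N + 1)) := by
      rw [← add_mul, add_sub_cancel, one_mul]
    rw [h2, hE1, hE2, add_zero]
  rw [← hE]
  exact A.sub_mem h1 (hpow _ (A.sub_mem h1 (hpow _ ha _)) _)

end Alg

variable {k : Type u} [Field k] {𝒱 : VarClass k} {ops : CycleOps 𝒱} {X : 𝒱.Obj}
  {W : WeilCohomology.{u, v} ops}

lemma corrOps_eq_cycleOperators (W : WeilCohomology.{u, v} ops) (X : 𝒱.Obj) :
    corrOps W X = cycleOperators W X X.dim := by
  ext T
  constructor
  · rintro ⟨z, hz, rfl⟩
    exact ⟨z, hz, rfl⟩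
  · rintro ⟨z, hz, rfl⟩
    exact ⟨z, hz, rfl⟩

lemma evenProj_comm_span {a : Module.End W.K (W.H X)}
    (ha : a ∈ Submodule.span W.K (corrOps W X)) :
    evenProj (W.isInternal X) * a = a * evenProj (W.isInternal X) := by
  rw [corrOps_eq_cycleOperators, span_cycleOperators0] at ha
  have hx' : IsHom (W.gr X) 0 a := by
    intro i b hb
    have := KOp.isHom ha i b hb
    simpa using this
  exact (Sgn.evenProj_comm _ hx').symm.eq

/-- The two projectors. -/
noncomputable def pm (W : WeilCohomology.{u, v} ops) (X : 𝒱.Obj) (j : ℕ) :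
    Module.End W.K (W.H X) :=
  if j = 0 then evenProj (W.isInternal X) else
    if j = 1 then 1 - evenProj (W.isInternal X) else 0

/-- The weights. -/
def pmc (W : WeilCohomology.{u, v} ops) (j : ℕ) : W.K := if j = 0 then 1 else -1

lemma par_eq_pm (W : WeilCohomology.{u, v} ops) (X : 𝒱.Obj) :
    par (W.isInternal X) = ∑ j ∈ range 2, pmc W j • pm W X j := by
  rw [Finset.sum_range_succ, Finset.sum_range_one, pmc, pmc, pm, pm, if_pos rfl, if_pos rfl,
    if_neg one_ne_zero, if_neg one_ne_zero, if_pos rfl, one_smul]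
  have h : (-1 : W.K) • (1 - evenProj (W.isInternal X)) = -(1 - evenProj (W.isInternal X)) := by
    module
  rw [h, ← sub_eq_add_neg]
  exact Sgn.par_eq _

lemma pm_mul (W : WeilCohomology.{u, v} ops) (X : 𝒱.Obj) (i j : ℕ) :
    pm W X i * pm W X j = if i = j then pm W X i else 0 := by
  have h := Sgn.evenProj_idem (W.isInternal X)
  rcases i with _ | _ | i <;> rcases j with _ | _ | j <;>
    simp [pm, mul_sub, sub_mul, h]

/-- **The sign conjecture in terms of ranks.** -/
theorem sign_rank (W : WeilCohomology.{u, v} ops) (X : 𝒱.Obj) {P : Module.End W.K (W.H X)}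
    (hP : IsEvenProj (W.gr X) P) :
    numCorrRank ops X ≤ formRank P (corrOps W X) + formRank (1 - P) (corrOps W X) ∧
      (SignStd W X ↔
        numCorrRank ops X = formRank P (corrOps W X) + formRank (1 - P) (corrOps W X)) := by
  obtain rfl : P = evenProj (W.isInternal X) := isEvenProj_iff.1 hP
  have hsum : ∑ j ∈ range 2, formRank (pm W X j) (corrOps W X) =
      formRank (evenProj (W.isInternal X)) (corrOps W X) +
        formRank (1 - evenProj (W.isInternal X)) (corrOps W X) := by
    rw [Finset.sum_range_succ, Finset.sum_range_one]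
    rfl
  rw [← hsum, ← formRank_par W X]
  refine ⟨formRank_le_sum _ _ _ _ (par_eq_pm W X), fun h => ?_, fun h => ?_⟩
  · obtain ⟨z, hz, hz'⟩ := h
    have he : evenProj (W.isInternal X) ∈ Submodule.span W.K (corrOps W X) := by
      rw [← isEvenProj_iff.1 hz']
      exact Submodule.subset_span ⟨z, hz, rfl⟩
    refine formRank_eq_sum _ _ _ _ (par_eq_pm W X) (fun j => ?_)
      (fun a ha b hb => span_corrOps_mul ha hb) (fun j hj => ?_) (fun j a ha => ?_)
      (pm_mul W X)
    · rw [pmc]
      split_ifs
      · exact one_ne_zero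
      · exact neg_ne_zero.2 one_ne_zero
    · rw [pm]
      split_ifs
      · exact he
      · exact Submodule.sub_mem _ (Submodule.subset_span one_mem_corrOps) he
      · exact Submodule.zero_mem _
    · rw [pm]
      split_ifs
      · exact evenProj_comm_span ha
      · rw [sub_mul, mul_sub, one_mul, mul_one, evenProj_comm_span ha]
      · rw [zero_mul, mul_zero]
  · obtain ⟨a, ha, ha2⟩ := exists_joint _ _ _ _ (par_eq_pm W X) h
      (fun j => if j = 0 then 1 else 0) (fun j => by
        by_cases hj : j = 0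
        · rw [if_pos hj]; exact Submodule.subset_span one_mem_corrOps
        · rw [if_neg hj]; exact Submodule.zero_mem _)
    have ht1 : ∀ b ∈ Submodule.span W.K (corrOps W X),
        LinearMap.trace W.K _ (a * b * evenProj (W.isInternal X)) =
          LinearMap.trace W.K _ (b * evenProj (W.isInternal X)) := by
      intro b hb
      induction hb using Submodule.span_induction with
      | mem y hy =>
        have h1 := ha2 0 (by norm_num) y hy
        rwa [if_pos rfl, one_mul, pm, if_pos rfl] at h1
      | zero => simp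
      | add x y _ _ hx hy => rw [mul_add, add_mul, map_add, hx, hy, add_mul, map_add]
      | smul c x _ hx =>
        rw [mul_smul_comm, smul_mul_assoc, map_smul, hx, smul_mul_assoc, map_smul]
    have ht2 : ∀ b ∈ Submodule.span W.K (corrOps W X),
        LinearMap.trace W.K _ (a * b * (1 - evenProj (W.isInternal X))) = 0 := by
      intro b hb
      induction hb using Submodule.span_induction with
      | mem y hy =>
        have h1 := ha2 1 (by norm_num) y hy
        rwa [if_neg one_ne_zero, zero_mul, zero_mul, map_zero, pm, if_neg one_ne_zero,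
          if_pos rfl] at h1
      | zero => simp
      | add x y _ _ hx hy => rw [mul_add, add_mul, map_add, hx, hy, add_zero]
      | smul c x _ hx =>
        rw [mul_smul_comm, smul_mul_assoc, map_smul, hx, smul_zero]
    have he := idem_of_traces (Sgn.evenProj_idem (W.isInternal X)) (evenProj_comm_span ha) ha
      (Submodule.subset_span one_mem_corrOps) (fun x hx y hy => span_corrOps_mul hx hy) ht1 ht2
    refine signStd_of_span ⟨_, ?_, hP⟩
    rw [← corrOps_eq_cycleOperators]
    exact he

/-- **The sign conjecture in terms of ranks**, with the definitions. -/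
theorem sign_rank' (W : WeilCohomology.{u, v} ops) (X : 𝒱.Obj) :
    RankAtMostSum W X ∧ (SignStd W X ↔ RankEqualsSum W X) := by
  have hQ : ∀ P Q, IsEvenProj (W.gr X) P → IsOddProj (W.gr X) Q → Q = 1 - P := by
    intro P Q hP hQ
    apply gr_ext (W.isInternal X)
    intro j a ha
    rw [LinearMap.sub_apply, hQ j a ha, hP j a ha]
    split_ifs
    · exact (sub_self a).symm
    · exact (sub_zero a).symm
  refine ⟨?_, ?_, ?_⟩
  · intro P Q hP hQ'
    rw [hQ P Q hP hQ', traceFormRank, traceFormRank]
    exact (sign_rank W X hP).1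
  · intro h P Q hP hQ'
    rw [hQ P Q hP hQ', traceFormRank, traceFormRank]
    exact (sign_rank W X hP).2.1 h
  · intro h
    have hP : IsEvenProj (W.gr X) (evenProj (W.isInternal X)) := isEvenProj_iff.2 rfl
    refine (sign_rank W X hP).2.2 (h _ _ hP ?_)
    intro j a ha
    rw [LinearMap.sub_apply, hP j a ha]
    split_ifs
    · exact sub_self a
    · exact sub_zero a

end Pool.Agent.R907
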