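import Pool.Agent.R907.ClassRankDefs
import Pool.Agent.R907.SignRank

/-!
# Projectors onto sums of Künneth components and ranks
-/

open CategoryTheory AlgebraicGeometry Finset

universe u v

namespace Pool.Agent.R907

open Pool.Agent.H914 Pool.Agent.H447 Pool.Agent.W537 Pool.Agent.Y106.One VarClass Obj
  WeilCohomology

variable {k : Type u} [Field k] {𝒱 : VarClass k} {ops : CycleOps 𝒱} {X : 𝒱.Obj}
  {W : WeilCohomology.{u, v} ops}

/-- The projector onto a class of degrees. -/
noncomputable def cproj (W : WeilCohomology.{u, v} ops) (X : 𝒱.Obj) (t : ℕ → ℕ) (c : ℕ) :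
    Module.End W.K (W.H X) :=
  ∑ j ∈ range (2 * X.dim + 1), if t j = c then proj (W.isInternal X) j else 0

lemma eq_zero_of_gt {j : ℕ} (hj : 2 * X.dim < j) {a : W.H X} (ha : a ∈ W.gr X j) : a = 0 := by
  rwa [W.gr_eq_bot X j hj, Submodule.mem_bot] at ha

lemma cproj_apply (t : ℕ → ℕ) (c : ℕ) {j : ℕ} {a : W.H X} (ha : a ∈ W.gr X j) :
    cproj W X t c a = if t j = c then a else 0 := by
  rw [cproj, LinearMap.sum_apply]
  by_cases hj : 2 * X.dim < j
  · rw [eq_zero_of_gt hj ha, ite_self]
    exact Finset.sum_eq_zero fun i _ => map_zero _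
  · rw [Finset.sum_eq_single j]
    · split_ifs
      · exact proj_same _ ha
      · rfl
    · intro i _ hij
      split_ifs
      · exact proj_ne _ ha (Ne.symm hij)
      · rfl
    · intro h
      exact absurd (Finset.mem_range.2 (by omega)) h

lemma areClassProj_iff {t : ℕ → ℕ} {P : ℕ → Module.End W.K (W.H X)} :
    AreClassProj (W.gr X) t P ↔ P = cproj W X t := by
  constructor
  · intro h
    funext c
    apply gr_ext (W.isInternal X)
    intro j a ha
    rw [h c j a ha, cproj_apply t c ha]
  · rintro rfl c j a ha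
    exact cproj_apply t c ha

lemma cproj_mem {t : ℕ → ℕ} {c j : ℕ} {a : W.H X} (ha : a ∈ W.gr X j) :
    cproj W X t c a ∈ W.gr X j := by
  rw [cproj_apply t c ha]
  split_ifs
  · exact ha
  · exact Submodule.zero_mem _

lemma cproj_mul (W : WeilCohomology.{u, v} ops) (X : 𝒱.Obj) (t : ℕ → ℕ) (c d : ℕ) :
    cproj W X t c * cproj W X t d = if c = d then cproj W X t c else 0 := by
  apply gr_ext (W.isInternal X)
  intro j a ha
  rw [Module.End.mul_apply, cproj_apply t c (cproj_mem ha), cproj_apply t d ha]
  by_cases hcd : c = d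
  · subst hcd
    rw [if_pos rfl, cproj_apply t c ha]
    split_ifs <;> rfl
  · rw [if_neg hcd, LinearMap.zero_apply]
    by_cases h : t j = c
    · rw [if_pos h, if_neg (by omega)]
    · rw [if_neg h]

lemma cproj_comm {t : ℕ → ℕ} {c : ℕ} {a : Module.End W.K (W.H X)}
    (ha : a ∈ Submodule.span W.K (corrOps W X)) :
    cproj W X t c * a = a * cproj W X t c := by
  rw [cproj, Finset.sum_mul, Finset.mul_sum]
  refine Finset.sum_congr rfl fun j _ => ?_
  split_ifs
  · exact corrOps_comm ha
  · rw [zero_mul, mul_zero]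

/-- The signs. -/
noncomputable def csign (W : WeilCohomology.{u, v} ops) (X : 𝒱.Obj) (t : ℕ → ℕ) (c : ℕ) : W.K :=
  open Classical in if ∃ j ≤ 2 * X.dim, t j = c ∧ Odd j then -1 else 1

lemma csign_ne (t : ℕ → ℕ) (c : ℕ) : csign W X t c ≠ 0 := by
  rw [csign]
  split_ifs
  · exact neg_ne_zero.2 one_ne_zero
  · exact one_ne_zero

lemma csign_eq {m : ℕ} {t : ℕ → ℕ} (ht : IsParityPartition X m t) {j : ℕ} (hj : j ≤ 2 * X.dim) :
    csign W X t (t j) = (-1) ^ j := by
  rw [csign]
  split_ifs with h
  · obtain ⟨i, hi, hij, hodd⟩ := h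
    have h1 := ht.2 i hi j hj hij
    have h2 : Odd j := by
      rw [← Nat.not_even_iff_odd, ← h1, Nat.not_even_iff_odd]
      exact hodd
    rw [h2.neg_one_pow]
  · have h2 : Even j := by
      rw [← Nat.not_odd_iff_even]
      exact fun h3 => h ⟨j, hj, rfl, h3⟩
    rw [h2.neg_one_pow]

lemma par_eq_cproj {m : ℕ} {t : ℕ → ℕ} (ht : IsParityPartition X m t) :
    par (W.isInternal X) = ∑ c ∈ range m, csign W X t c • cproj W X t c := by
  apply gr_ext (W.isInternal X)
  intro j a ha
  rw [LinearMap.sum_apply]
  by_cases hj : 2 * X.dim < j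
  · rw [eq_zero_of_gt hj ha, map_zero]
    exact (Finset.sum_eq_zero fun i _ => map_zero _).symm
  · have h1 : par (W.isInternal X) a = ((-1 : W.K) ^ j) • a := by
      rw [par_eq_sum W X, LinearMap.sum_apply, Finset.sum_eq_single j]
      · rw [LinearMap.smul_apply, proj_same _ ha]
      · intro i _ hij
        rw [LinearMap.smul_apply, proj_ne _ ha (Ne.symm hij), smul_zero]
      · intro h
        exact absurd (Finset.mem_range.2 (by omega)) h
    rw [h1, Finset.sum_eq_single (t j)]
    · rw [LinearMap.smul_apply, cproj_apply t _ ha, if_pos rfl, csign_eq ht (by omega)]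
    · intro c _ hc
      rw [LinearMap.smul_apply, cproj_apply t _ ha, if_neg (Ne.symm hc), smul_zero]
    · intro h
      exact absurd (Finset.mem_range.2 (ht.1 j (by omega))) h

lemma one_sub_cproj {m : ℕ} {t : ℕ → ℕ} (ht : IsParityPartition X m t) {c : ℕ} (hc : c < m) :
    1 - cproj W X t c = ∑ d ∈ (range m).erase c, cproj W X t d := by
  rw [sub_eq_iff_eq_add, Finset.sum_erase_add _ _ (Finset.mem_range.2 hc)]
  apply gr_ext (W.isInternal X)
  intro j a ha
  rw [LinearMap.sum_apply]
  by_cases hj : 2 * X.dim < j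
  · rw [eq_zero_of_gt hj ha, map_zero]
    exact (Finset.sum_eq_zero fun i _ => map_zero _).symm
  · rw [Finset.sum_eq_single (t j)]
    · rw [cproj_apply t _ ha, if_pos rfl]
      rfl
    · intro d _ hd
      rw [cproj_apply t _ ha, if_neg (Ne.symm hd)]
    · intro h
      exact absurd (Finset.mem_range.2 (ht.1 j (by omega))) h

/-- **Classes of Künneth components and ranks.** -/
theorem class_rank (W : WeilCohomology.{u, v} ops) (X : 𝒱.Obj) {m : ℕ} {t : ℕ → ℕ}
    (ht : IsParityPartition X m t) :
    numCorrRank ops X ≤ formRankSum (corrOps W X) m (cproj W X t) ∧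
      ((∀ c < m, cproj W X t c ∈ Submodule.span W.K (corrOps W X)) ↔
        numCorrRank ops X = formRankSum (corrOps W X) m (cproj W X t)) := by
  rw [← formRank_par W X, formRankSum]
  refine ⟨formRank_le_sum _ _ _ _ (par_eq_cproj ht), fun h => ?_, fun h c hc => ?_⟩
  · exact formRank_eq_sum _ _ _ _ (par_eq_cproj ht) (csign_ne t)
      (fun a ha b hb => span_corrOps_mul ha hb) h (fun j a ha => cproj_comm ha) (cproj_mul W X t)
  · obtain ⟨a, ha, ha2⟩ := exists_joint _ _ _ _ (par_eq_cproj ht) h
      (fun j => if j = c then 1 else 0) (fun j => by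
        by_cases hj : j = c
        · rw [if_pos hj]; exact Submodule.subset_span one_mem_corrOps
        · rw [if_neg hj]; exact Submodule.zero_mem _)
    have key : ∀ d < m, ∀ b ∈ Submodule.span W.K (corrOps W X),
        LinearMap.trace W.K _ (a * b * cproj W X t d) =
          if d = c then LinearMap.trace W.K _ (b * cproj W X t d) else 0 := by
      intro d hd b hb
      induction hb using Submodule.span_induction with
      | mem y hy =>
        have h1 := ha2 d hd y hy
        by_cases hdc : d = c
        · rw [if_pos hdc, one_mul] at h1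
          rw [h1, if_pos hdc]
        · rw [if_neg hdc, zero_mul, zero_mul, map_zero] at h1
          rw [h1, if_neg hdc]
      | zero => simp
      | add x y _ _ hx hy =>
        rw [mul_add, add_mul, map_add, hx, hy, add_mul, map_add]
        split_ifs
        · rfl
        · rw [add_zero]
      | smul r x _ hx =>
        rw [mul_smul_comm, smul_mul_assoc, map_smul, hx, smul_mul_assoc, map_smul]
        split_ifs
        · rfl
        · rw [smul_zero]
    have hidem : cproj W X t c * cproj W X t c = cproj W X t c := by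
      rw [cproj_mul, if_pos rfl]
    refine idem_of_traces hidem (cproj_comm ha) ha
      (Submodule.subset_span one_mem_corrOps) (fun x hx y hy => span_corrOps_mul hx hy)
      (fun b hb => ?_) (fun b hb => ?_)
    · rw [key c hc b hb, if_pos rfl]
    · rw [one_sub_cproj ht hc, Finset.mul_sum, map_sum]
      refine Finset.sum_eq_zero fun d hd => ?_
      obtain ⟨hdc, hd⟩ := Finset.mem_erase.1 hd
      rw [key d (Finset.mem_range.1 hd) b hb, if_neg hdc]

/-- **Classes of Künneth components and ranks**, with the definitions. -/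
theorem class_rank' (W : WeilCohomology.{u, v} ops) (X : 𝒱.Obj) {m : ℕ} {t : ℕ → ℕ}
    (ht : IsParityPartition X m t) :
    RankAtMostClassSum W X m t ∧ (ClassesAlgebraic W X m t ↔ RankEqualsClassSum W X m t) := by
  obtain ⟨h1, h2⟩ := class_rank W X ht
  refine ⟨?_, ?_, ?_⟩
  · intro P hP
    rw [areClassProj_iff.1 hP]
    exact h1
  · intro h P hP
    rw [areClassProj_iff.1 hP]
    exact h2.1 (h _ (areClassProj_iff.2 rfl))
  · intro h P hP
    rw [areClassProj_iff.1 hP]
    exact h2.2 (h _ (areClassProj_iff.2 rfl))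

end Pool.Agent.R907
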