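import Pool.Agent.R907.KunDefs

/-!
# Projectors onto sums of Künneth components: definitions
-/

universe u v

namespace Pool.Agent.R907

open Pool.Agent.H914

section Abs

variable {K V : Type*} [Field K] [AddCommGroup V] [Module K V]

/-- `P c` is the projector onto the sum of the `gr j` with `t j = c`, for all `c`. -/
def AreClassProj (gr : ℕ → Submodule K V) (t : ℕ → ℕ) (P : ℕ → Module.End K V) : Prop :=
  ∀ c j, ∀ a ∈ gr j, P c a = if t j = c then a else 0

/-- The sum of the ranks of the forms `tr(a ∘ b ∘ P c)`, `c < m`, on the set `S` of operators. -/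
noncomputable def formRankSum (S : Set (Module.End K V)) (m : ℕ) (P : ℕ → Module.End K V) : ℕ :=
  ∑ c ∈ Finset.range m, formRank (P c) S

/-- The operators `P c`, `c < m`, are linear combinations of the operators in `S`. -/
def InSpanBelow (S : Set (Module.End K V)) (m : ℕ) (P : ℕ → Module.End K V) : Prop :=
  ∀ c < m, P c ∈ Submodule.span K S

end Abs

variable {k : Type u} [Field k] {𝒱 : VarClass k} {ops : CycleOps 𝒱}

/-- The function `t` divides the degrees `0, ..., 2 n` of the cohomology of `X` into the classes
`t = 0`, ..., `t = m - 1`, and the degrees in one class have the same parity. -/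
def IsParityPartition (X : 𝒱.Obj) (m : ℕ) (t : ℕ → ℕ) : Prop :=
  (∀ j ≤ 2 * X.dim, t j < m) ∧
    ∀ i ≤ 2 * X.dim, ∀ j ≤ 2 * X.dim, t i = t j → (Even i ↔ Even j)

/-- For all `c < m` the projector onto the sum of the `H^j(X)` with `t j = c` is a linear combination
of operators of cycles of codimension `dim X` on `X × X`, with coefficients in the coefficient field. -/
def ClassesAlgebraic (W : WeilCohomology.{u, v} ops) (X : 𝒱.Obj) (m : ℕ) (t : ℕ → ℕ) : Prop :=
  ∀ P, AreClassProj (W.gr X) t P → InSpanBelow (corrOps W X) m P

/-- The dimension of the space of the cycles of codimension `dim X` on `X × X` modulo numerical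
equivalence is at most the sum of the ranks of the forms `tr(a ∘ b | H_c)`, `c < m`, where `H_c` is the
sum of the `H^j(X)` with `t j = c`. -/
def RankAtMostClassSum (W : WeilCohomology.{u, v} ops) (X : 𝒱.Obj) (m : ℕ) (t : ℕ → ℕ) : Prop :=
  ∀ P, AreClassProj (W.gr X) t P → numCorrRank ops X ≤ formRankSum (corrOps W X) m P

/-- The dimension of the space of the cycles of codimension `dim X` on `X × X` modulo numerical
equivalence is the sum of the ranks of the forms `tr(a ∘ b | H_c)`, `c < m`, where `H_c` is the sum of
the `H^j(X)` with `t j = c`. -/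
def RankEqualsClassSum (W : WeilCohomology.{u, v} ops) (X : 𝒱.Obj) (m : ℕ) (t : ℕ → ℕ) : Prop :=
  ∀ P, AreClassProj (W.gr X) t P → numCorrRank ops X = formRankSum (corrOps W X) m P

end Pool.Agent.R907
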