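import Pool.Agent.Y106.One.Defs

/-!
# Trace forms in one degree: definitions
-/

open CategoryTheory AlgebraicGeometry

universe u₁ v₁ u v

namespace Pool.Agent.R907

open Pool.Agent.H914 Pool.Agent.Y106.One VarClass Obj WeilCohomology

section Alg

variable {K : Type*} [Field K] {V : Type*} [AddCommGroup V] [Module K V]

/-- The function `b ↦ tr(a ∘ b ∘ P)` on the set `S` of operators. -/
noncomputable def formFun (P : Module.End K V) (S : Set (Module.End K V)) (a : Module.End K V) :
    S → K :=
  fun b => LinearMap.trace K V (a * b.1 * P)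

/-- The rank of the form `(a, b) ↦ tr(a ∘ b ∘ P)` on the set `S` of operators: the dimension of the
space spanned by the functions `b ↦ tr(a ∘ b ∘ P)` on `S`, for `a` in `S`. -/
noncomputable def formRank (P : Module.End K V) (S : Set (Module.End K V)) : ℕ :=
  Module.finrank K (Submodule.span K (formFun P S '' S))

/-- The traces `tr(a ∘ y ∘ P)`, for `a` in `T`, detect the trace of `y ∘ P`, for `y` in `S`: if they
all vanish then `tr(y ∘ P) = 0`. -/
def Detects (P : Module.End K V) (S T : Set (Module.End K V)) : Prop :=
  ∀ y ∈ S, (∀ a ∈ T, LinearMap.trace K V (a * y * P) = 0) → LinearMap.trace K V (y * P) = 0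

end Alg

variable {k : Type u} [Field k] {𝒱 : VarClass k} {ops : CycleOps 𝒱}

/-- The operators on `H(X)` induced by the correspondences of degree zero (the cycles of codimension
`dim X` on `X × X`, with rational coefficients). -/
def corrOps (W : WeilCohomology.{u, v} ops) (X : 𝒱.Obj) : Set (Module.End W.K (W.H X)) :=
  {T | ∃ z, (X.prod X).IsCyc X.dim z ∧ T = Pool.Agent.W537.cycOp W X z}

/-- The operators `z ∘ ξ ^ (n - i)` on `H(X)`, for the cycles `z` of codimension `i` on `X × X`
with rational coefficients, where `n = dim X` and `ξ` is the class of `D`. -/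
def lefOps (W : WeilCohomology.{u, v} ops) (X : 𝒱.Obj) (D : X.Cycles) (i : ℕ) :
    Set (Module.End W.K (W.H X)) :=
  {T | ∃ z, (X.prod X).IsCyc i z ∧
    T = Pool.Agent.W537.cycOp W X z ∘ₗ Pool.Agent.W537.lefPow W X D (X.dim - i)}

/-- The form `tr(a ∘ b | H^i(X))` has the same rank on the operators `z ∘ ξ ^ (n - i)`, for the
cycles `z` of codimension `i` on `X × X`, as on all correspondences of degree zero. -/
def SameRank (W : WeilCohomology.{u, v} ops) (X : 𝒱.Obj) (D : X.Cycles) (i : ℕ) : Prop :=
  ∀ P, IsProjector (W.gr X) i P → formRank P (lefOps W X D i) = formRank P (corrOps W X)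

/-- The traces `tr(z ∘ ξ ^ (n - i) ∘ y | H^i(X))`, for the cycles `z` of codimension `i` on
`X × X`, detect the trace on `H^i(X)` of the correspondence `y` of degree zero: if they all vanish
then `tr(y | H^i(X)) = 0`. -/
def DetectsTraces (W : WeilCohomology.{u, v} ops) (X : 𝒱.Obj) (D : X.Cycles) (i : ℕ) : Prop :=
  ∀ P, IsProjector (W.gr X) i P → Detects P (corrOps W X) (lefOps W X D i)

end Pool.Agent.R907
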