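import Pool.Agent.R907.Ideal
import Pool.Agent.R907.CritDefs

/-!
# Trace forms in one degree
-/

open CategoryTheory AlgebraicGeometry Finset Polynomial

set_option linter.unusedSectionVars false

universe u₁ v₁ u v

namespace Pool.Agent.R907

open Pool.Agent.H914 Pool.Agent.H447 Pool.Agent.W537 Pool.Agent.Y106.One VarClass Obj
  WeilCohomology

section Alg

variable {K : Type*} [Field K] {V : Type*} [AddCommGroup V] [Module K V]

/-- The function on `S` attached to an operator. -/
noncomputable def formLin (P : Module.End K V) (S : Set (Module.End K V)) :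
    Module.End K V →ₗ[K] (S → K) where
  toFun a := formFun P S a
  map_add' a a' := by
    funext b
    simp only [Pi.add_apply, formFun]
    rw [add_mul, add_mul, map_add]
  map_smul' c a := by
    funext b
    simp only [Pi.smul_apply, RingHom.id_apply, formFun]
    rw [smul_mul_assoc, smul_mul_assoc, map_smul]

lemma formRank_eq (P : Module.End K V) (S : Set (Module.End K V)) :
    formRank P S = Module.finrank K ((Submodule.span K S).map (formLin P S)) := by
  rw [formRank, Submodule.map_span]
  rfl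

/-- If the form has the same rank on a subset, then the functional of every element is the
functional of a combination of elements of the subset. -/
theorem exists_of_formRank_eq [Module.Finite K V] {P : Module.End K V}
    {S T : Set (Module.End K V)} (hTS : T ⊆ S) (h : formRank P T = formRank P S)
    {x : Module.End K V} (hx : x ∈ Submodule.span K S) :
    ∃ γ ∈ Submodule.span K T, ∀ b ∈ S,
      LinearMap.trace K V (γ * b * P) = LinearMap.trace K V (x * b * P) := by
  set res : (S → K) →ₗ[K] (T → K) := LinearMap.funLeft K K (Set.inclusion hTS) with hres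
  have hcomp : res ∘ₗ formLin P S = formLin P T := by
    apply LinearMap.ext
    intro a
    funext b
    rfl
  have h1 : Module.finrank K ((Submodule.span K T).map (formLin P T)) ≤
      Module.finrank K ((Submodule.span K T).map (formLin P S)) := by
    rw [← hcomp, Submodule.map_comp]
    exact Submodule.finrank_map_le _ _
  have h2 : (Submodule.span K T).map (formLin P S) ≤ (Submodule.span K S).map (formLin P S) :=
    Submodule.map_mono (Submodule.span_mono hTS)
  have h3 : (Submodule.span K T).map (formLin P S) = (Submodule.span K S).map (formLin P S) := by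
    apply Submodule.eq_of_le_of_finrank_le h2
    rw [formRank_eq, formRank_eq] at h
    rw [← h]
    exact h1
  have h4 : formLin P S x ∈ (Submodule.span K T).map (formLin P S) := by
    rw [h3]
    exact Submodule.mem_map_of_mem hx
  obtain ⟨γ, hγ, hγ2⟩ := Submodule.mem_map.1 h4
  exact ⟨γ, hγ, fun b hb => congrFun hγ2 ⟨b, hb⟩⟩

/-- If every element of `S` can be replaced by elements of `T` in the form, the ranks agree. -/
theorem formRank_eq_of_forall [Module.Finite K V] {P : Module.End K V}
    {S T : Set (Module.End K V)} (hTS : T ⊆ S)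
    (h : ∀ a ∈ S, ∃ a' ∈ T, a' * P = a * P) (hP : ∀ a ∈ S, P * a = a * P) :
    formRank P T = formRank P S := by
  have htr : ∀ {x y a : Module.End K V}, a ∈ S → x * P = y * P →
      LinearMap.trace K V (x * a * P) = LinearMap.trace K V (y * a * P) := by
    intro x y a ha hxy
    rw [mul_assoc, ← hP a ha, ← mul_assoc, hxy, mul_assoc, hP a ha, ← mul_assoc]
  have htr2 : ∀ {x a a' : Module.End K V}, a' * P = a * P →
      LinearMap.trace K V (x * a' * P) = LinearMap.trace K V (x * a * P) := by
    intro x a a' haa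
    rw [mul_assoc, haa, ← mul_assoc]
  have h1 : (Submodule.span K T).map (formLin P S) = (Submodule.span K S).map (formLin P S) := by
    apply le_antisymm (Submodule.map_mono (Submodule.span_mono hTS))
    rw [Submodule.map_span, Submodule.map_span, Submodule.span_le]
    rintro _ ⟨a, ha, rfl⟩
    obtain ⟨a', ha', haa⟩ := h a ha
    refine Submodule.subset_span ⟨a', ha', ?_⟩
    funext b
    exact htr b.2 haa
  set res : (S → K) →ₗ[K] (T → K) := LinearMap.funLeft K K (Set.inclusion hTS) with hres
  have hcomp : res ∘ₗ formLin P S = formLin P T := by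
    apply LinearMap.ext
    intro a
    funext b
    rfl
  rw [formRank_eq, formRank_eq, ← h1, ← hcomp, Submodule.map_comp]
  rw [← LinearMap.range_domRestrict]
  apply LinearMap.finrank_range_of_inj
  rw [← LinearMap.ker_eq_bot, LinearMap.ker_eq_bot']
  rintro ⟨f, hf⟩ hf0
  obtain ⟨x, -, rfl⟩ := Submodule.mem_map.1 hf
  ext b
  obtain ⟨b', hb', hbb⟩ := h b.1 b.2
  have h5 : res (formLin P S x) ⟨b', hb'⟩ = 0 := congrFun hf0 ⟨b', hb'⟩
  have h6 : LinearMap.trace K V (x * b' * P) = 0 := h5
  rw [htr2 hbb] at h6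
  exact h6

lemma isProjector_iff {gr : ℕ → Submodule K V} (h : DirectSum.IsInternal gr) (i : ℕ)
    {P : Module.End K V} : IsProjector gr i P ↔ P = proj h i := by
  constructor
  · intro hP
    apply gr_ext h
    intro j a ha
    rw [hP j a ha]
    by_cases hij : j = i
    · subst hij
      rw [proj_same _ ha, if_pos rfl]
    · rw [proj_ne _ ha hij, if_neg hij]
  · rintro rfl j a ha
    by_cases hij : j = i
    · subst hij
      rw [proj_same _ ha, if_pos rfl]
    · rw [proj_ne _ ha hij, if_neg hij]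

end Alg

variable {k : Type u} [Field k] {𝒱 : VarClass k} {ops : CycleOps 𝒱} {X : 𝒱.Obj}
  {W : WeilCohomology.{u, v} ops}

/-- The left ideal of the operators `z ∘ ξ ^ (n - i)`. -/
def lefIdeal (ops : CycleOps 𝒱) (X : 𝒱.Obj) (D : X.Cycles) (i : ℕ) : Set (Fam.{u, v} ops X) :=
  {T | ∃ z, (X.prod X).IsCyc i z ∧
    ∀ W : WeilCohomology.{u, v} ops, T W = W.corr (W.cl _ z) * LL D W ^ (X.dim - i)}

lemma lefIdeal_isLeftIdeal {D : X.Cycles} (hD : X.IsCyc 1 D) {i : ℕ} (hi : i ≤ X.dim) :
    IsLeftIdeal (lefIdeal.{u, v} ops X D i) where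
  real := by
    rintro T ⟨z, hz, hT⟩
    have hzr : Realized.{u, v} ops X (-((X.dim - i : ℕ) : ℤ)) (fun W => W.corr (W.cl _ z)) :=
      Or.inl ⟨i, by omega, z, hz, fun _ => rfl⟩
    have hLr : Realized.{u, v} ops X 1 (LL D) :=
      (Realized.mulLeft hD).cast Nat.cast_one
    exact Realized.congr ((hzr.mul (hLr.pow (X.dim - i))).cast (by ring)) (fun W => hT W)
  zero := ⟨0, SmVar.IsCyc.zero _ _, fun W => by rw [map_zero, corr_zero, zero_mul]⟩
  add := by
    rintro T ⟨z, hz, hT⟩ T' ⟨z', hz', hT'⟩
    refine ⟨z + z', hz.add hz', fun W => ?_⟩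
    beta_reduce
    rw [hT, hT', map_add, corr_add, add_mul]
  smul := by
    rintro c T ⟨z, hz, hT⟩
    refine ⟨c • z, hz.smul c, fun W => ?_⟩
    beta_reduce
    rw [hT, cl_smul, corr_smul, smul_mul_assoc]
  left := by
    rintro S hS T ⟨z, hz, hT⟩
    obtain ⟨s, hs, hsS⟩ : ∃ s, (X.prod X).IsCyc X.dim s ∧
        ∀ W : WeilCohomology.{u, v} ops, S W = W.corr (W.cl _ s) := by
      rcases hS with ⟨p, hp, s, hs, hS⟩ | ⟨hd, _⟩
      · obtain rfl : p = X.dim := by omega
        exact ⟨s, hs, hS⟩
      · omega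
    refine ⟨compCyc ops z s, compCyc_mem hz hs rfl, fun W => ?_⟩
    beta_reduce
    rw [hT, hsS, corr_compCyc W hs]
    rfl

lemma mem_corrOps_iff {T : Module.End W.K (W.H X)} :
    T ∈ corrOps W X ↔ ∃ F : Fam.{u, v} ops X, Realized ops X 0 F ∧ F W = T := by
  constructor
  · rintro ⟨z, hz, rfl⟩
    exact ⟨fun W => W.corr (W.cl _ z), Or.inl ⟨X.dim, by simp, z, hz, fun _ => rfl⟩, rfl⟩
  · rintro ⟨F, ⟨p, hp, z, hz, hF⟩ | ⟨hd, _⟩, rfl⟩
    · obtain rfl : p = X.dim := by omega
      exact ⟨z, hz, hF W⟩
    · omega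

lemma mem_lefOps_iff {D : X.Cycles} {i : ℕ} {T : Module.End W.K (W.H X)} :
    T ∈ lefOps W X D i ↔ ∃ F ∈ lefIdeal.{u, v} ops X D i, F W = T := by
  constructor
  · rintro ⟨z, hz, rfl⟩
    refine ⟨fun W => W.corr (W.cl _ z) * LL D W ^ (X.dim - i), ⟨z, hz, fun _ => rfl⟩, ?_⟩
    beta_reduce
    rw [LinearMap.pow_mulLeft]
    rfl
  · rintro ⟨F, ⟨z, hz, hF⟩, rfl⟩
    refine ⟨z, hz, ?_⟩
    rw [hF, LinearMap.pow_mulLeft]
    rfl

lemma lefOps_subset {D : X.Cycles} (hD : X.IsCyc 1 D) {i : ℕ} (hi : i ≤ X.dim) :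
    lefOps W X D i ⊆ corrOps W X := by
  intro T hT
  obtain ⟨F, hF, rfl⟩ := mem_lefOps_iff.1 hT
  exact mem_corrOps_iff.2 ⟨F, (lefIdeal_isLeftIdeal hD hi).real F hF, rfl⟩

lemma span_lefOps (D : X.Cycles) (i : ℕ) :
    Submodule.span W.K (lefOps W X D i) = KJ (lefIdeal.{u, v} ops X D i) W := by
  rw [KJ]
  congr 1
  ext T
  exact mem_lefOps_iff

/-- The algebra spanned by the correspondences of degree zero. -/
lemma span_corrOps_mul {a b : Module.End W.K (W.H X)}
    (ha : a ∈ Submodule.span W.K (corrOps W X)) (hb : b ∈ Submodule.span W.K (corrOps W X)) :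
    a * b ∈ Submodule.span W.K (corrOps W X) := by
  induction ha using Submodule.span_induction with
  | mem y hy =>
    induction hb using Submodule.span_induction with
    | mem y' hy' =>
      obtain ⟨F, hF, rfl⟩ := mem_corrOps_iff.1 hy
      obtain ⟨F', hF', rfl⟩ := mem_corrOps_iff.1 hy'
      exact Submodule.subset_span (mem_corrOps_iff.2
        ⟨_, (hF.mul hF').cast (zero_add 0), rfl⟩)
    | zero => rw [mul_zero]; exact Submodule.zero_mem _
    | add x y _ _ hx hy => rw [mul_add]; exact Submodule.add_mem _ hx hy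
    | smul c x _ hx => rw [mul_smul_comm]; exact Submodule.smul_mem _ _ hx
  | zero => rw [zero_mul]; exact Submodule.zero_mem _
  | add x y _ _ hx hy => rw [add_mul]; exact Submodule.add_mem _ hx hy
  | smul c x _ hx => rw [smul_mul_assoc]; exact Submodule.smul_mem _ _ hx

lemma one_mem_corrOps : (1 : Module.End W.K (W.H X)) ∈ corrOps W X :=
  mem_corrOps_iff.2 ⟨_, Realized.one, rfl⟩

lemma span_corrOps_pow {a : Module.End W.K (W.H X)}
    (ha : a ∈ Submodule.span W.K (corrOps W X)) (r : ℕ) :
    a ^ r ∈ Submodule.span W.K (corrOps W X) := by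
  induction r with
  | zero => rw [pow_zero]; exact Submodule.subset_span one_mem_corrOps
  | succ r ih => rw [pow_succ]; exact span_corrOps_mul ih ha

lemma corrOps_comm {i : ℕ} {a : Module.End W.K (W.H X)}
    (ha : a ∈ Submodule.span W.K (corrOps W X)) :
    proj (W.isInternal X) i * a = a * proj (W.isInternal X) i := by
  induction ha using Submodule.span_induction with
  | mem y hy =>
    obtain ⟨F, hF, rfl⟩ := mem_corrOps_iff.1 hy
    exact real_comm hF W i
  | zero => rw [mul_zero, zero_mul]
  | add x y _ _ hx hy => rw [mul_add, add_mul, hx, hy]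
  | smul c x _ hx => rw [mul_smul_comm, smul_mul_assoc, hx]

/-- A combination of the operators `z ∘ ξ ^ (n - i)` which has the same traces as the identity is
injective on `H^i(X)`. -/
lemma injective_of_traces {i : ℕ} {γ : Module.End W.K (W.H X)}
    (hγ : γ ∈ Submodule.span W.K (corrOps W X))
    (h : ∀ b ∈ corrOps W X, LinearMap.trace W.K _ (γ * b * proj (W.isInternal X) i) =
      LinearMap.trace W.K _ (1 * b * proj (W.isInternal X) i)) :
    ∀ a ∈ W.gr X i, γ a = 0 → a = 0 := by
  set P := proj (W.isInternal X) i with hP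
  have hPP : P * P = P := proj_mul_proj _ i
  set e := 1 - γ with he
  have he1 : e ∈ Submodule.span W.K (corrOps W X) :=
    Submodule.sub_mem _ (Submodule.subset_span one_mem_corrOps) hγ
  have h' : ∀ b ∈ Submodule.span W.K (corrOps W X), LinearMap.trace W.K _ (e * b * P) = 0 := by
    intro b hb
    induction hb using Submodule.span_induction with
    | mem y hy => rw [he, sub_mul, sub_mul, map_sub, h y hy, sub_self]
    | zero => rw [mul_zero, zero_mul, map_zero]
    | add x y _ _ hx hy => rw [mul_add, add_mul, map_add, hx, hy, add_zero]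
    | smul c x _ hx => rw [mul_smul_comm, smul_mul_assoc, map_smul, hx, smul_zero]
  have hc : Commute P e := corrOps_comm he1
  have hnil : IsNilpotent (e * P) := by
    apply isNilpotent_of_trace_pow
    intro r
    have h1 : (e * P) ^ (r + 1) = e * e ^ r * P := by
      rw [hc.symm.mul_pow, ← pow_succ']
      congr 1
      induction r with
      | zero => simp
      | succ r ih => rw [pow_succ, ih, hPP]
    rw [h1]
    exact h' _ (span_corrOps_pow he1 r)
  obtain ⟨N, hN⟩ := hnil
  intro a ha h0
  have h2 : P a = a := proj_same _ ha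
  have h3 : ∀ m : ℕ, ((e * P) ^ m) a = a := by
    intro m
    induction m with
    | zero => rfl
    | succ m ih =>
      rw [pow_succ, Module.End.mul_apply, Module.End.mul_apply, h2, he, LinearMap.sub_apply,
        Module.End.one_apply, h0, sub_zero]
      exact ih
  rw [← h3 N, hN, LinearMap.zero_apply]

variable {k₀ : Type u₁} [Field k₀] {𝒱₀ : VarClass k₀} {ops₀ : CycleOps 𝒱₀}

/-- An element of the left ideal which is the identity gives one cycle for all theories. -/
lemma oneCycle_of_common {D : X.Cycles} (hD : X.IsCyc 1 D) {i : ℕ} (hi : i ≤ X.dim)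
    {P : WeilCohomology.{u, v} ops → Prop} {T : Fam.{u, v} ops X}
    (hT : T ∈ lefIdeal.{u, v} ops X D i) (h : ∀ W, P W → ∀ a ∈ W.gr X i, T W a = a) :
    OneCycleForAll.{u, v} (ops := ops) P X D i := by
  obtain ⟨z, hz, hTz⟩ := hT
  refine ⟨z, fun W hW => (inverts_iff hD W hi).2 ⟨hz, fun a ha => ?_⟩⟩
  rw [show X.dim - (X.dim - i) = i by omega] at ha
  have := h W hW a ha
  rw [hTz] at this
  exact this

/-- From the span to one cycle. -/
lemma oneCycle_of_inj (R : Reduction X 𝒱₀) {D : X.Cycles} (hD : X.IsCyc 1 D) {i : ℕ}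
    (hi : i ≤ X.dim) (hW : Reduction.Pure.{u₁, v₁} R ops₀ W) {E : Module.End W.K (W.H X)}
    (hE : E ∈ Submodule.span W.K (lefOps W X D i)) (hinj : ∀ a ∈ W.gr X i, E a = 0 → a = 0) :
    OneCycleForAll.{u, v} (ops := ops) (Reduction.Pure.{u₁, v₁} R ops₀) X D i := by
  rw [span_lefOps] at hE
  have hJ := lefIdeal_isLeftIdeal.{u, v} (ops := ops) hD hi
  obtain ⟨z, hz, hz1⟩ := exists_id_of_inj hJ (sameTraces_of_reduction R hW hW i) hE hinj
  obtain ⟨z', hz', hz2⟩ := common_of_id hJ hz hz1
  exact oneCycle_of_common hD hi hz'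
    (fun W' hW' => hz2 W' (sameTraces_of_reduction R hW hW' i))

/-- **Detecting traces.** If the traces `tr(T ∘ y)`, for `T` in the left ideal `J`, detect the
trace of `y`, then `J` contains an element which is the identity. -/
theorem exists_id_of_detects {J : Set (Fam.{u, v} ops X)} (hJ : IsLeftIdeal J) {i : ℕ}
    (hT : SameTraces X i W W)
    (h : ∀ y : Fam.{u, v} ops X, Realized ops X 0 y →
      (∀ T ∈ J, LinearMap.trace W.K _ (T W * y W * proj (W.isInternal X) i) = 0) →
      LinearMap.trace W.K _ (y W * proj (W.isInternal X) i) = 0) :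
    ∃ z ∈ J, ∀ a ∈ W.gr X i, z W a = a := by
  classical
  set P := proj (W.isInternal X) i with hP
  have hrat : ∀ y : Fam.{u, v} ops X, Realized ops X 0 y →
      ∃ q : ℚ, LinearMap.trace W.K _ (y W * P) = q := by
    intro y hy
    obtain ⟨t, ht⟩ := exists_rat hT hy
    exact ⟨t, by rw [LinearMap.trace_mul_comm]; exact ht⟩
  have hfg : (Submodule.span W.K (corrOps W X)).FG := IsNoetherian.noetherian _
  obtain ⟨t, hts, htspan⟩ := (Submodule.fg_span_iff_fg_span_finset_subset _).1 hfg
  have hF : ∀ b : t, ∃ F : Fam.{u, v} ops X, Realized ops X 0 F ∧ F W = b.1 :=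
    fun b => mem_corrOps_iff.1 (hts b.2)
  choose F hFr hFW using hF
  have hv : ∀ T : Fam.{u, v} ops X, Realized ops X 0 T → ∃ v : t → ℚ, ∀ b : t,
      LinearMap.trace W.K _ (T W * b.1 * P) = (v b : W.K) := by
    intro T hTr
    have h1 : ∀ b : t, ∃ q : ℚ, LinearMap.trace W.K _ (T W * b.1 * P) = (q : W.K) := by
      intro b
      obtain ⟨q, hq⟩ := hrat _ ((hTr.mul (hFr b)).cast (zero_add 0))
      beta_reduce at hq
      rw [hFW] at hq
      exact ⟨q, hq⟩
    choose v hv using h1
    exact ⟨v, hv⟩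
  obtain ⟨v₁, hv₁⟩ := hv (fun _ => 1) Realized.one
  let p : Submodule ℚ (t → ℚ) :=
    { carrier := {v | ∃ T ∈ J, ∀ b : t, LinearMap.trace W.K _ (T W * b.1 * P) = (v b : W.K)}
      add_mem' := by
        rintro v v' ⟨T, hTJ, hTv⟩ ⟨T', hTJ', hTv'⟩
        refine ⟨_, hJ.add T hTJ T' hTJ', fun b => ?_⟩
        rw [add_mul, add_mul, map_add, hTv, hTv', Pi.add_apply, Rat.cast_add]
      zero_mem' := ⟨_, hJ.zero, fun b => by
        rw [zero_mul, zero_mul, map_zero, Pi.zero_apply, Rat.cast_zero]⟩
      smul_mem' := by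
        rintro c v ⟨T, hTJ, hTv⟩
        refine ⟨_, hJ.smul c T hTJ, fun b => ?_⟩
        rw [smul_mul_assoc, smul_mul_assoc, map_smul, hTv, Pi.smul_apply, smul_eq_mul,
          smul_eq_mul, Rat.cast_mul] }
  have hmem : v₁ ∈ p := by
    by_contra hnot
    obtain ⟨f, hf1, hf2⟩ := Submodule.exists_le_ker_of_notMem hnot
    have hfsum : ∀ v : t → ℚ, f v = ∑ b : t, f (Pi.single b 1) * v b := by
      intro v
      conv_lhs => rw [← Finset.univ_sum_single v, map_sum]
      refine Finset.sum_congr rfl fun b _ => ?_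
      rw [show (Pi.single b (v b) : t → ℚ) = v b • (Pi.single b 1 : t → ℚ) by
        rw [← Pi.single_smul, smul_eq_mul, mul_one], map_smul, smul_eq_mul, mul_comm]
    set y : Fam.{u, v} ops X := fun W => ∑ b : t, ((f (Pi.single b 1) : ℚ) : W.K) • F b W with hy
    have hyr : Realized ops X 0 y := Realized.sum fun b _ => (hFr b).smul _
    have hyW : ∀ T : Module.End W.K (W.H X), LinearMap.trace W.K _ (T * y W * P) =
        ∑ b : t, ((f (Pi.single b 1) : ℚ) : W.K) * LinearMap.trace W.K _ (T * b.1 * P) := by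
      intro T
      rw [hy]
      beta_reduce
      rw [Finset.mul_sum, Finset.sum_mul, map_sum]
      refine Finset.sum_congr rfl fun b _ => ?_
      rw [mul_smul_comm, smul_mul_assoc, map_smul, hFW, smul_eq_mul]
    have h1 : ∀ T ∈ J, LinearMap.trace W.K _ (T W * y W * P) = 0 := by
      intro T hTJ
      obtain ⟨v, hv⟩ := hv T (hJ.real T hTJ)
      have hvp : v ∈ p := ⟨T, hTJ, hv⟩
      have h2 : f v = 0 := hf2 hvp
      rw [hyW]
      rw [hfsum] at h2
      have h3 : ((∑ b : t, f (Pi.single b 1) * v b : ℚ) : W.K) = 0 := by rw [h2, Rat.cast_zero]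
      rw [← h3]
      push_cast
      exact Finset.sum_congr rfl fun b _ => by rw [hv]
    have h2 := h y hyr h1
    apply hf1
    rw [hfsum]
    have h3 := hyW 1
    rw [one_mul, h2] at h3
    have h4 : ((∑ b : t, f (Pi.single b 1) * v₁ b : ℚ) : W.K) = 0 := by
      rw [h3]
      push_cast
      exact Finset.sum_congr rfl fun b _ => by rw [hv₁]
    exact_mod_cast h4
  obtain ⟨T, hTJ, hTv⟩ := hmem
  refine exists_id_of_traces (W := W) hJ hTJ fun b hb => ?_
  rw [LinearMap.trace_mul_comm, LinearMap.trace_mul_comm W.K P]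
  have hbS : b W ∈ Submodule.span W.K (t : Set (Module.End W.K (W.H X))) := by
    rw [← htspan]
    exact Submodule.subset_span (mem_corrOps_iff.2 ⟨b, hb, rfl⟩)
  generalize b W = b' at hbS
  induction hbS using Submodule.span_induction with
  | mem x hx =>
    have h1 := hTv ⟨x, hx⟩
    have h2 := hv₁ ⟨x, hx⟩
    rw [one_mul] at h2
    rw [h1, h2]
  | zero => rw [mul_zero]
  | add x y _ _ hx hy => rw [mul_add, add_mul, add_mul, map_add, map_add, hx, hy]
  | smul c x _ hx => rw [mul_smul_comm, smul_mul_assoc, smul_mul_assoc, map_smul, map_smul, hx]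

/-- **The trace criterion for the Lefschetz standard conjecture in one degree.** -/
theorem traceCriterion (R : Reduction X 𝒱₀) (hW : Reduction.Pure.{u₁, v₁} R ops₀ W)
    {D : X.Cycles} (hD : X.IsCyc 1 D) {i : ℕ} (hi : i ≤ X.dim) :
    List.TFAE [
      OneCycleForAll.{u, v} (ops := ops) (Reduction.Pure.{u₁, v₁} R ops₀) X D i,
      SameRank W X D i,
      DetectsTraces W X D i] := by
  have hJ := lefIdeal_isLeftIdeal.{u, v} (ops := ops) hD hi
  have hlef : ∀ z, InvertsLefschetz W X D i z → ∃ F ∈ lefIdeal.{u, v} ops X D i,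
      F W * proj (W.isInternal X) i = proj (W.isInternal X) i := by
    intro z hz
    have h2 := (inverts_iff hD W hi).1 hz
    refine ⟨fun W => W.corr (W.cl _ z) * LL D W ^ (X.dim - i), ⟨z, h2.1, fun _ => rfl⟩, ?_⟩
    apply LinearMap.ext
    intro x
    have h3 := h2.2 (proj (W.isInternal X) i x) (by
      rw [show X.dim - (X.dim - i) = i by omega]; exact proj_mem _ i x)
    exact h3
  tfae_have 1 → 2 := by
    rintro ⟨z, hz⟩
    obtain ⟨F, hF, hFP⟩ := hlef z (hz W hW)
    intro P hP
    rw [(isProjector_iff (W.isInternal X) i).1 hP]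
    refine formRank_eq_of_forall (lefOps_subset hD hi) (fun a ha => ?_) (fun a ha => ?_)
    · obtain ⟨G, hG, rfl⟩ := mem_corrOps_iff.1 ha
      refine ⟨G W * F W, mem_lefOps_iff.2 ⟨_, hJ.left G hG F hF, rfl⟩, ?_⟩
      rw [mul_assoc, hFP]
    · exact corrOps_comm (Submodule.subset_span ha)
  tfae_have 2 → 1 := by
    intro h
    replace h := h _ ((isProjector_iff (W.isInternal X) i).2 rfl)
    obtain ⟨γ, hγ, hγ2⟩ := exists_of_formRank_eq (lefOps_subset hD hi) h
      (Submodule.subset_span one_mem_corrOps)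
    refine oneCycle_of_inj R hD hi hW hγ (injective_of_traces
      (Submodule.span_mono (lefOps_subset hD hi) hγ) hγ2)
  tfae_have 1 → 3 := by
    rintro ⟨z, hz⟩ P hP y hy h
    obtain ⟨F, hF, hFP⟩ := hlef z (hz W hW)
    have h1 := h (F W) (mem_lefOps_iff.2 ⟨F, hF, rfl⟩)
    rw [(isProjector_iff (W.isInternal X) i).1 hP] at h1 ⊢
    rwa [mul_assoc, ← corrOps_comm (Submodule.subset_span hy), ← mul_assoc, hFP,
      corrOps_comm (Submodule.subset_span hy)] at h1
  tfae_have 3 → 1 := by
    intro h
    obtain ⟨z, hz, hz1⟩ := exists_id_of_detects hJ (sameTraces_of_reduction R hW hW i) (by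
      intro y hy h1
      exact h _ ((isProjector_iff (W.isInternal X) i).2 rfl) (y W)
        (mem_corrOps_iff.2 ⟨y, hy, rfl⟩) (by
          intro a ha
          obtain ⟨F, hF, rfl⟩ := mem_lefOps_iff.1 ha
          exact h1 F hF))
    obtain ⟨z', hz', hz2⟩ := common_of_id hJ hz hz1
    exact oneCycle_of_common hD hi hz'
      (fun W' hW' => hz2 W' (sameTraces_of_reduction R hW hW' i))
  tfae_finish

end Pool.Agent.R907
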