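import Pool.Agent.R907.SepDefs
import Pool.Agent.TH720.MP.Defs

/-!
# The Künneth projectors and the middle cohomology: definitions
-/

open CategoryTheory AlgebraicGeometry

universe u₁ v₁ u v

namespace Pool.Agent.R907

open Pool.Agent.H914 Pool.Agent.Y106.One VarClass Obj WeilCohomology

variable {k : Type u} [Field k] {𝒱 : VarClass k} {ops : CycleOps 𝒱}
  {k₀ : Type u₁} [Field k₀] {𝒱₀ : VarClass k₀}

/-- The theory `W` is pure with respect to the reductions `R X` of all varieties `X`. -/
def PureForAll (ops₀ : CycleOps 𝒱₀) (R : ∀ X : 𝒱.Obj, Reduction X 𝒱₀)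
    (W : WeilCohomology.{u, v} ops) : Prop :=
  ∀ X : 𝒱.Obj, Reduction.Pure.{u₁, v₁} (R X) ops₀ W

/-- For each `j < n = dim Y` the middle cohomology `H^n(Y)` is separated from `H^j(Y)` by linear
combinations of algebraic correspondences, one pair of classes at a time, for one of the theories
with the property `P`, which may depend on `j`. -/
def MiddleSeparated (P : WeilCohomology.{u, v} ops → Prop) (Y : 𝒱.Obj) : Prop :=
  ∀ j < Y.dim, SeparatesForOne.{u, v} P Y Y.dim j

/-- For arbitrarily large numbers `N` of each parity the statement `S` holds for all varieties of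
dimension `N` in the class `C`. -/
def InManyDimensions (C S : 𝒱.Obj → Prop) : Prop :=
  ∀ N₀ b : ℕ, ∃ N ≥ N₀, N % 2 = b % 2 ∧ ∀ Y : 𝒱.Obj, C Y → Y.dim = N → S Y

/-- `P m` is the projective space of dimension `m` and `h m` is a hyperplane in it (`ProjLike`), for
each of the theories which are pure with respect to the reductions `R X`. -/
structure IsTower (ops₀ : CycleOps 𝒱₀) (R : ∀ X : 𝒱.Obj, Reduction X 𝒱₀) (P : ℕ → 𝒱.Obj)
    (h : ∀ m, (P m).Cycles) : Prop where
  /-- `P m` has dimension `m` -/
  dim_eq : ∀ m, (P m).dim = m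
  /-- `P m` is a projective space and `h m` a hyperplane -/
  proj : ∀ W : WeilCohomology.{u, v} ops, PureForAll.{u₁, v₁} ops₀ R W →
    ∀ m, TH720.LB.ProjLike W (P m) (h m)

/-- Every `X` in the class `C` has one system of cycles with rational coefficients which induces the
Künneth projectors of `X` for all theories which are pure with respect to the reductions. -/
def KunnethForAll (ops : CycleOps 𝒱) (ops₀ : CycleOps 𝒱₀) (R : ∀ X : 𝒱.Obj, Reduction X 𝒱₀)
    (C : 𝒱.Obj → Prop) : Prop :=
  ∀ X, C X → OneKunnethSystem.{u, v} (ops := ops) (PureForAll.{u₁, v₁} ops₀ R) X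

/-- For arbitrarily large even and arbitrarily large odd `N`, the middle cohomology of all varieties
in `C` of dimension `N` is separated from their lower cohomology (`MiddleSeparated`). -/
def MiddleForMany (ops : CycleOps 𝒱) (ops₀ : CycleOps 𝒱₀) (R : ∀ X : 𝒱.Obj, Reduction X 𝒱₀)
    (C : 𝒱.Obj → Prop) : Prop :=
  InManyDimensions C (MiddleSeparated.{u, v} (ops := ops) (PureForAll.{u₁, v₁} ops₀ R))

end Pool.Agent.R907
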