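import Pool.Agent.R907.Sep
import Pool.Agent.R907.MidKDefs

/-!
# The Künneth projectors and the middle cohomology
-/

open CategoryTheory AlgebraicGeometry Finset

set_option linter.unusedSectionVars false

universe u₁ v₁ u v

namespace Pool.Agent.R907

open Pool.Agent.H914 Pool.Agent.H447 Pool.Agent.W537 Pool.Agent.Y106.One VarClass Obj
  WeilCohomology Pool.Agent.TH720.LB Pool.Agent.TH720.MP Pool.Agent.W534 Pool.Agent.TH133.PW

variable {k : Type u} [Field k] {𝒱 : VarClass k} {ops : CycleOps 𝒱} {X Y P : 𝒱.Obj}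
  {W W' : WeilCohomology.{u, v} ops} {h : P.Cycles}

lemma span_corrOps_eq_KOp (W : WeilCohomology.{u, v} ops) (X : 𝒱.Obj) :
    Submodule.span W.K (corrOps W X) = KOp W X X 0 := by
  rw [KOp]
  congr 1
  apply Set.ext
  intro T
  constructor
  · rintro ⟨z, hz, rfl⟩
    exact ⟨X.dim, by simp, z, hz, rfl⟩
  · rintro ⟨p, hp, z, hz, rfl⟩
    obtain rfl : p = X.dim := by omega
    exact ⟨z, hz, rfl⟩

/-- The projector to the middle cohomology. -/
lemma mid_projector {N : ℕ} (hN : Y.dim = N)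
    (h : ∀ j < N, ∃ g ∈ Submodule.span W.K (corrOps W Y), (∀ a ∈ W.gr Y N, g a = a) ∧
      ∀ a ∈ W.gr Y j, g a = 0) :
    ∃ f ∈ Submodule.span W.K (corrOps W Y), (∀ a ∈ W.gr Y N, f a = a) ∧
      ∀ j, j ≠ N → ∀ a ∈ W.gr Y j, f a = 0 := by
  have h1 : (1 : Module.End W.K (W.H Y)) ∈ Submodule.span W.K (corrOps W Y) :=
    Submodule.subset_span one_mem_corrOps
  have key : ∀ m ≤ N, ∃ e ∈ Submodule.span W.K (corrOps W Y), (∀ a ∈ W.gr Y N, e a = a) ∧
      ∀ j < m, ∀ a ∈ W.gr Y j, e a = 0 := by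
    intro m
    induction m with
    | zero => exact fun _ => ⟨1, h1, fun _ _ => rfl, fun j hj => absurd hj (Nat.not_lt_zero _)⟩
    | succ m ih =>
      intro hm
      obtain ⟨e, he, he1, he2⟩ := ih (by omega)
      obtain ⟨g, hg, hg1, hg2⟩ := h m (by omega)
      refine ⟨e * g, span_corrOps_mul he hg, fun a ha => ?_, fun j hj a ha => ?_⟩
      · rw [Module.End.mul_apply, hg1 a ha, he1 a ha]
      · rw [Module.End.mul_apply]
        by_cases hjm : j = m
        · subst hjm
          rw [hg2 a ha, map_zero]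
        · exact he2 j (by omega) _ (span_gr_mem hg j a ha)
  obtain ⟨e, he, he1, he2⟩ := key N le_rfl
  obtain ⟨g, hg, hg1⟩ := exists_adjoint_sep he
  refine ⟨g * e, span_corrOps_mul hg he, fun a ha => ?_, fun j hj a ha => ?_⟩
  · rw [Module.End.mul_apply, he1 a ha]
    refine (hg1 N (by omega)).1 (fun b hb => he1 b ?_) a ha
    rwa [show 2 * Y.dim - N = N by omega] at hb
  · rw [Module.End.mul_apply]
    rcases lt_or_gt_of_ne hj with h2 | h2
    · rw [he2 j h2 a ha, map_zero]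
    · by_cases h3 : j ≤ 2 * Y.dim
      · exact (hg1 j h3).2 (fun b hb => he2 (2 * Y.dim - j) (by omega) b hb) _
          (span_gr_mem he j a ha)
      · rw [W.gr_eq_bot Y j (by omega), Submodule.mem_bot] at ha
        rw [ha, map_zero, map_zero]

/-- The projector of `X` from the projector to the middle cohomology of `X × P`. -/
lemma proj_of_mid (hP : IsProjLike W P h) {i a : ℕ} (ha : a ≤ P.dim)
    (hi : i + 2 * a = (X.prod P).dim) {f : Module.End W.K (W.H (X.prod P))}
    (hf : f ∈ Submodule.span W.K (corrOps W (X.prod P)))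
    (hf1 : ∀ y ∈ W.gr (X.prod P) (X.prod P).dim, f y = y)
    (hf2 : ∀ j, j ≠ (X.prod P).dim → ∀ y ∈ W.gr (X.prod P) j, f y = 0) :
    proj (W.isInternal X) i ∈ Submodule.span W.K (corrOps W X) := by
  rw [span_corrOps_eq_KOp] at hf ⊢
  have h1 : coe W X h a ∘ₗ f ∘ₗ inc W X h a ∈ KOp W X X 0 :=
    KOp.cast (KOp.comp (qop_coe hP ha).kop (KOp.comp hf (qop_inc hP a).kop)) (by ring)
  have h2 : proj (W.isInternal X) i = coe W X h a ∘ₗ f ∘ₗ inc W X h a := by
    apply gr_ext (W.isInternal X)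
    intro j x hx
    have hx' : inc W X h a x ∈ W.gr (X.prod P) (j + 2 * a) :=
      qop_mem (qop_inc hP a) hx (by push_cast; ring)
    rw [LinearMap.comp_apply, LinearMap.comp_apply]
    by_cases hj : j = i
    · subst hj
      rw [hi] at hx'
      rw [proj_same _ hx, hf1 _ hx', coe_inc hP ha, if_pos rfl]
    · rw [proj_ne _ hx hj, hf2 (j + 2 * a) (by omega) _ hx', map_zero]
  rw [h2]
  exact h1

variable {k₀ : Type u₁} [Field k₀] {𝒱₀ : VarClass k₀} {ops₀ : CycleOps 𝒱₀}

/-- **The conjecture of Künneth type is a statement about the middle cohomology.** -/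
theorem kunneth_middle_iff (R : ∀ X : 𝒱.Obj, Reduction X 𝒱₀) (P : ℕ → 𝒱.Obj)
    (h : ∀ m, (P m).Cycles) (hdim : ∀ m, (P m).dim = m)
    (hP : ∀ W : WeilCohomology.{u, v} ops, PureForAll.{u₁, v₁} ops₀ R W →
      ∀ m, ProjLike W (P m) (h m)) (C : 𝒱.Obj → Prop) (hC : ClosedUnder P C) :
    (∀ X, C X → OneKunnethSystem.{u, v} (ops := ops) (PureForAll.{u₁, v₁} ops₀ R) X) ↔
      (∃ W : WeilCohomology.{u, v} ops, PureForAll.{u₁, v₁} ops₀ R W) →
        InManyDimensions C (MiddleSeparated.{u, v} (ops := ops) (PureForAll.{u₁, v₁} ops₀ R)) := by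
  constructor
  · rintro hK ⟨W, hW⟩ N₀ b
    refine ⟨2 * N₀ + b, by omega, by omega, fun Y hY hYd j hj => ?_⟩
    obtain ⟨Δ, hΔ⟩ := hK Y hY
    obtain ⟨hc, hp⟩ := hΔ Y.dim (by omega)
    have h1 : IsProjector (W.gr Y) Y.dim (W.corr (W.cl _ (Δ Y.dim))) := hp W hW
    refine ⟨W, hW, separatesDegrees_iff.2 fun y hy y' hy' =>
      ⟨_, Submodule.subset_span ⟨Δ Y.dim, hc, rfl⟩, ?_, ?_⟩⟩
    · exact (h1 Y.dim y hy).trans (if_pos rfl)
    · exact (h1 j y' hy').trans (if_neg (by omega))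
  · intro hM X hX
    by_cases hex : ∃ W : WeilCohomology.{u, v} ops, PureForAll.{u₁, v₁} ops₀ R W
    · have hM' := hM hex
      obtain ⟨W, hW⟩ := hex
      have hK : KunnethOverK W X := by
        rw [kunnethOverK_iff]
        intro i hi
        obtain ⟨N, hN, hNi, hNC⟩ := hM' (2 * X.dim) i
        have hYd : (X.prod (P (N - X.dim))).dim = N := by
          rw [dim_prod, hdim]
          omega
        have hsep := hNC _ (hC X (N - X.dim) hX) hYd
        obtain ⟨f, hf, hf1, hf2⟩ := mid_projector (W := W) (Y := X.prod (P (N - X.dim))) hYd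
          (fun j hj => by
            obtain ⟨W', hW', hs⟩ := hsep j (by rw [hYd]; exact hj)
            rw [hYd] at hs
            obtain ⟨z, hz, hz1⟩ := separate_all (R _) (hW' _) hs
            exact ⟨z W, Submodule.subset_span (mem_corrOps_iff.2 ⟨z, hz, rfl⟩),
              hz1 W (hW _)⟩)
        refine proj_of_mid (hP W hW (N - X.dim)).to (a := (N - i) / 2) ?_ ?_ hf ?_ ?_
        · rw [hdim]
          omega
        · rw [hYd]
          omega
        · rw [hYd]
          exact hf1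
        · rw [hYd]
          exact hf2
      have h1 := ((kunneth_tfae (R X) (hW X) (fun i => proj (W.isInternal X) i)
        (fun i => (isProjector_iff (W.isInternal X) i).2 rfl)).out 1 0).1 hK
      obtain ⟨Δ, hΔ⟩ := h1
      exact ⟨Δ, fun i hi => ⟨(hΔ i hi).1, fun W' hW' => (hΔ i hi).2 W' (hW' X)⟩⟩
    · exact ⟨fun _ => 0, fun i _ => ⟨SmVar.IsCyc.zero _ _, fun W' hW' => absurd ⟨W', hW'⟩ hex⟩⟩

end Pool.Agent.R907
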