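import Pool.Agent.R907.DetKDefs
import Pool.Agent.R907.MidK
import Pool.Agent.R910.Det.Main

/-!
# The determinants of the cohomology and the Künneth projectors
-/

open CategoryTheory AlgebraicGeometry

set_option linter.unusedSectionVars false

universe u₁ v₁ u v

namespace Pool.Agent.R907

open Module
open Pool.Agent.H914 VarClass Obj WeilCohomology Pool.Agent.R910 Pool.Agent.R910.Det
  Pool.Agent.Y133.Half Pool.Agent.W552 Pool.Agent.Y106.One

variable {k : Type u} [Field k] {𝒱 : VarClass k} {ops : CycleOps 𝒱}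
  {W : WeilCohomology.{u, v} ops} {X : 𝒱.Obj}

/-- External powers of a class on `X × X`, with two degrees. -/
lemma Th_eq2 (W : WeilCohomology.{u, v} ops) (X : 𝒱.Obj) (d e : ℕ) (J : Type) [Fintype J] :
    ∀ m, ∃ ε : W.K, ε ≠ 0 ∧ ∀ x y : J → W.H X, (∀ r, x r ∈ W.gr X d) → (∀ r, y r ∈ W.gr X e) →
      Th W X (∑ j, xp W (x j) (y j)) m =
        ε • ∑ f : Fin (m + 1) → J, xp W (wd W X m (x ∘ f)) (wd W X m (y ∘ f))
  | 0 => ⟨1, one_ne_zero, fun x y _ _ => by
      rw [one_smul, Th]
      refine Fintype.sum_equiv (Equiv.funUnique (Fin 1) J).symm _ _ fun j => ?_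
      rw [wd_zero, wd_zero]
      rfl⟩
  | m + 1 => by
    obtain ⟨ε, hε, H⟩ := Th_eq2 W X d e J m
    refine ⟨ε * (-1 : W.K) ^ (e * (m + 1) * d),
      mul_ne_zero hε (pow_ne_zero _ (neg_ne_zero.2 one_ne_zero)), fun x y hx hy => ?_⟩
    have h0 : Th W X (∑ j, xp W (x j) (y j)) (m + 1) =
        W.map (q1 (pw X m) X) (Th W X (∑ j, xp W (x j) (y j)) m) *
          W.map (q2 (pw X m) X) (∑ j, xp W (x j) (y j)) := rfl
    rw [h0, H x y hx hy, map_smul, map_sum (W.map (q1 (pw X m) X)),
      map_sum (W.map (q2 (pw X m) X)), smul_mul_assoc, Finset.sum_mul_sum,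
      sum_snoc (fun f : Fin (m + 1 + 1) → J => xp W (wd W X (m + 1) (x ∘ f))
        (wd W X (m + 1) (y ∘ f))), mul_smul]
    congr 1
    rw [Finset.smul_sum]
    apply Finset.sum_congr rfl
    intro f _
    rw [Finset.smul_sum]
    apply Finset.sum_congr rfl
    intro j _
    have ex : ∀ z : J → W.H X, wd W X (m + 1) (z ∘ Fin.snoc f j) =
        xp W (X := pw X m) (wd W X m (z ∘ f)) (z j) := by
      intro z
      rw [wd_succ]
      congr 1
      · congr 1
        funext r
        simp
      · simp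
    have e := q_xp (W := W) (A := pw X m) (B := X) (wd W X m (x ∘ f)) (wd W X m (y ∘ f))
      (PH.of (wd_mem m (y ∘ f) fun r => hy _)) (PH.of (hx j)) (y j)
    rw [ex x, ex y]
    exact e

/-- The antisymmetrization of the external power of a class, with two degrees. -/
lemma anti_Th2 (W : WeilCohomology.{u, v} ops) (X : 𝒱.Obj) (d e m : ℕ) :
    ∃ ε : W.K, ε ≠ 0 ∧ ∀ x y : Fin (m + 1) → W.H X, (∀ r, x r ∈ W.gr X d) →
      (∀ r, y r ∈ W.gr X e) → ∑ σ : Equiv.Perm (Fin (m + 1)), sgp W.K (d + 1) σ •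
        W.map (ms X m σ) (Th W X (∑ j, xp W (x j) (y j)) m) =
          ε • xp W (alt W X m x) (alt W X m y) := by
  classical
  obtain ⟨ε, hε, H⟩ := Th_eq2 W X d e (Fin (m + 1)) m
  refine ⟨ε, hε, fun x y hx hy => ?_⟩
  have h1 : ∀ σ : Equiv.Perm (Fin (m + 1)), sgp W.K (d + 1) σ •
        W.map (ms X m σ) (Th W X (∑ j, xp W (x j) (y j)) m) =
      ε • ∑ f : Fin (m + 1) → Fin (m + 1), xp W (sgp W.K (d + 1) σ •
        W.map (tau X m σ) (wd W X m (x ∘ f))) (wd W X m (y ∘ f)) := by
    intro σ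
    rw [H x y hx hy, map_smul, map_sum, smul_comm, Finset.smul_sum]
    congr 1
    refine Finset.sum_congr rfl fun f _ => ?_
    rw [ms_xp, xp_smul_left]
  rw [Finset.sum_congr rfl fun σ _ => h1 σ, ← Finset.smul_sum, Finset.sum_comm]
  congr 1
  have h2 : ∀ f : Fin (m + 1) → Fin (m + 1), ∑ σ : Equiv.Perm (Fin (m + 1)),
      xp W (sgp W.K (d + 1) σ • W.map (tau X m σ) (wd W X m (x ∘ f))) (wd W X m (y ∘ f)) =
        xp W (alt W X m (x ∘ f)) (wd W X m (y ∘ f)) := by
    intro f
    rw [← anti_wd m (x ∘ f) (fun r => hx _)]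
    simp only [xp, map_sum, Finset.sum_mul]
  rw [Finset.sum_congr rfl fun f _ => h2 f]
  have h3 : ∀ f : Fin (m + 1) → Fin (m + 1), ¬ Function.Injective f →
      xp W (alt W X m (x ∘ f)) (wd W X m (y ∘ f)) = 0 := by
    intro f hf
    have h4 : alt W X m (x ∘ f) = 0 := by
      apply AlternatingMap.map_eq_zero_of_not_injective
      intro h5
      exact hf (Function.Injective.of_comp h5)
    rw [h4, xp, map_zero, zero_mul]
  have h5 : ∑ f : Fin (m + 1) → Fin (m + 1), xp W (alt W X m (x ∘ f)) (wd W X m (y ∘ f)) =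
      ∑ σ : Equiv.Perm (Fin (m + 1)), xp W (alt W X m (x ∘ σ)) (wd W X m (y ∘ σ)) := by
    symm
    refine Finset.sum_bij_ne_zero (fun σ _ _ => (σ : Fin (m + 1) → Fin (m + 1)))
      (fun _ _ _ => Finset.mem_univ _) (fun σ _ _ τ _ _ h => Equiv.ext (congrFun h)) ?_
      (fun _ _ _ => rfl)
    intro f _ hf
    have hfi : Function.Injective f := by
      by_contra h6
      exact hf (h3 f h6)
    exact ⟨Equiv.ofBijective f (Finite.injective_iff_bijective.1 hfi), Finset.mem_univ _, hf, rfl⟩
  rw [h5, alt_apply m y]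
  simp only [alt_perm, xp, map_sum, map_smul, Finset.mul_sum, smul_mul_assoc, mul_smul_comm]

lemma kapN_wd2 (W : WeilCohomology.{u, v} ops) (X : 𝒱.Obj) (h : W.H X) (d e : ℕ) :
    ∀ m, ∃ ε : W.K, ε ≠ 0 ∧ ∀ x y : Fin (m + 1) → W.H X, (∀ r, x r ∈ W.gr X d) →
      (∀ r, y r ∈ W.gr X e) → kapN W X h m (xp W (wd W X m x) (wd W X m y)) =
        (ε * ∏ r : Fin m, W.tr X (x r.succ * y r.succ * h)) • xp W (x 0) (y 0)
  | 0 => ⟨1, one_ne_zero, fun x y _ _ => by
      rw [wd_zero, wd_zero, Fin.prod_univ_zero, mul_one, one_smul]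
      rfl⟩
  | m + 1 => by
    obtain ⟨ε, hε, H⟩ := kapN_wd2 W X h d e m
    refine ⟨ε * (-1 : W.K) ^ (d * (e * (m + 1))),
      mul_ne_zero hε (pow_ne_zero _ (neg_ne_zero.2 one_ne_zero)), fun x y hx hy => ?_⟩
    have h1 : kapN W X h (m + 1) (xp W (wd W X (m + 1) x) (wd W X (m + 1) y)) =
        kapN W X h m (kap W (pw X m) (pw X m) X h
          (xp W (xp W (X := pw X m) (wd W X m fun r => x r.castSucc) (x (Fin.last _)))
            (xp W (X := pw X m) (wd W X m fun r => y r.castSucc) (y (Fin.last _))))) := by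
      rw [wd_succ, wd_succ]
      rfl
    rw [h1, kap_xp (A := pw X m) (B := pw X m) _ (PH.of (hx _))
      (PH.of (wd_mem m _ fun r => hy _)), map_smul, H _ _ (fun r => hx _) (fun r => hy _),
      smul_smul, Fin.prod_univ_castSucc]
    congr 1
    simp only [Fin.succ_last, Fin.succ_castSucc]
    ring

/-- The contraction of the antisymmetrized classes of dual families, with two degrees. -/
lemma contr_alt2 (W : WeilCohomology.{u, v} ops) (X : 𝒱.Obj) (h : W.H X) (d e m : ℕ) :
    ∃ ε : W.K, ε ≠ 0 ∧ ∀ x y : Fin (m + 1) → W.H X, (∀ r, x r ∈ W.gr X d) →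
      (∀ r, y r ∈ W.gr X e) → (∀ r s, W.tr X (x r * y s * h) = if s = r then 1 else 0) →
      kapN W X h m (xp W (alt W X m x) (alt W X m y)) =
        ε • ∑ σ : Equiv.Perm (Fin (m + 1)), xp W (x (σ 0)) (y (σ 0)) := by
  classical
  obtain ⟨ε, hε, H⟩ := kapN_wd2 W X h d e m
  refine ⟨ε, hε, fun x y hx hy hxy => ?_⟩
  have h1 : xp W (alt W X m x) (alt W X m y) = ∑ σ : Equiv.Perm (Fin (m + 1)),
      ∑ τ : Equiv.Perm (Fin (m + 1)), (((Equiv.Perm.sign σ : ℤ) : W.K) *
        ((Equiv.Perm.sign τ : ℤ) : W.K)) • xp W (wd W X m (x ∘ σ)) (wd W X m (y ∘ τ)) := by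
    rw [alt_apply, alt_apply, xp, map_sum, map_sum, Finset.sum_mul_sum]
    refine Finset.sum_congr rfl fun σ _ => Finset.sum_congr rfl fun τ _ => ?_
    rw [map_smul, map_smul, smul_mul_smul_comm]
    rfl
  rw [h1, map_sum, Finset.smul_sum]
  refine Finset.sum_congr rfl fun σ _ => ?_
  rw [map_sum, Finset.sum_eq_single σ]
  · rw [map_smul, Pool.Agent.R910.Det.sign_mul_self, one_smul, H (x ∘ σ) (y ∘ σ) (fun r => hx _) (fun r => hy _)]
    have h2 : ∏ r : Fin m, W.tr X ((x ∘ σ) r.succ * (y ∘ σ) r.succ * h) = 1 := by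
      apply Finset.prod_eq_one
      intro r _
      rw [Function.comp_apply, Function.comp_apply, hxy, if_pos rfl]
    rw [h2, mul_one]
    rfl
  · intro τ _ hτ
    rw [map_smul, H (x ∘ σ) (y ∘ τ) (fun r => hx _) (fun r => hy _)]
    have h2 : ∏ r : Fin m, W.tr X ((x ∘ σ) r.succ * (y ∘ τ) r.succ * h) = 0 := by
      by_contra h3
      apply hτ
      have h3 := Finset.prod_ne_zero_iff.1 h3
      have h4 : ∀ r : Fin m, τ r.succ = σ r.succ := by
        intro r
        have h5 := h3 r (Finset.mem_univ _)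
        rw [Function.comp_apply, Function.comp_apply, hxy] at h5
        by_contra h6
        exact h5 (if_neg h6)
      apply Equiv.ext
      intro s
      refine Fin.cases ?_ h4 s
      by_contra h7
      obtain ⟨t, ht⟩ := σ.surjective (τ 0)
      rcases Fin.eq_zero_or_eq_succ t with h8 | ⟨r, rfl⟩
      · subst h8; exact h7 ht.symm
      · rw [← h4 r] at ht
        exact Fin.succ_ne_zero _ (τ.injective ht)
    rw [h2, mul_zero, zero_smul, smul_zero]
  · intro h0; exact absurd (Finset.mem_univ _) h0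

/-- Dual families in the degrees `2 n - i` and `i`. -/
lemma exists_dual2 {i m : ℕ} (hi : i ≤ 2 * X.dim) (y : Basis (Fin (m + 1)) W.K (W.gr X i)) :
    ∃ x : Fin (m + 1) → W.H X, (∀ r, x r ∈ W.gr X (2 * X.dim - i)) ∧
      ∀ r s, W.tr X (x r * (y s : W.H X)) = if s = r then 1 else 0 := by
  classical
  have key : ∀ r, ∃ x ∈ W.gr X (2 * X.dim - i),
      ∀ s, W.tr X (x * (y s : W.H X)) = if s = r then 1 else 0 := by
    intro r
    let p : W.H X →ₗ[W.K] W.gr X i :=
      (proj (W.isInternal X) i).codRestrict (W.gr X i) fun a => proj_mem _ i a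
    obtain ⟨w, hw⟩ := Pool.Agent.TH133.PW.exists_dual (W := W) (X := X) ((y.coord r) ∘ₗ p)
    refine ⟨(-1 : W.K) ^ ((2 * X.dim - i) * i) • proj (W.isInternal X) (2 * X.dim - i) w,
      Submodule.smul_mem _ _ (proj_mem _ _ _), fun s => ?_⟩
    have h1 := hw (y s : W.H X)
    have h2 : p (y s : W.H X) = y s := Subtype.ext (proj_same _ (y s).2)
    rw [LinearMap.comp_apply, h2, Basis.coord_apply, Basis.repr_self,
      Finsupp.single_apply] at h1
    have h3 : W.tr X ((y s : W.H X) * proj (W.isInternal X) (2 * X.dim - i) w) =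
        W.tr X ((y s : W.H X) * w) := Pool.Agent.TH133.PW.tr_mul_proj hi (y s).2 w
    rw [smul_mul_assoc, map_smul, smul_eq_mul, W.comm (proj_mem _ _ _) (y s).2, map_smul,
      smul_eq_mul, ← mul_assoc, ← mul_pow]
    simp only [mul_neg, mul_one, neg_neg, one_pow, one_mul]
    rw [h3, ← h1]
  choose x hx hx2 using key
  exact ⟨x, hx, hx2⟩

/-- The expansion of a class with respect to dual families. -/
lemma expand2 {i m : ℕ} (y : Basis (Fin (m + 1)) W.K (W.gr X i))
    {x : Fin (m + 1) → W.H X}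
    (hxy : ∀ r s, W.tr X (x r * (y s : W.H X)) = if s = r then 1 else 0) {z : W.H X}
    (hz : z ∈ W.gr X i) : z = ∑ r, W.tr X (x r * z) • (y r : W.H X) := by
  classical
  have h1 : z = ∑ r, y.repr ⟨z, hz⟩ r • (y r : W.H X) := by
    have h := congrArg (W.gr X i).subtype (y.sum_repr ⟨z, hz⟩)
    rw [map_sum] at h
    exact h.symm
  have h2 : ∀ s, W.tr X (x s * z) = y.repr ⟨z, hz⟩ s := by
    intro s
    conv_lhs => rw [h1]
    rw [Finset.mul_sum, map_sum]
    simp only [mul_smul_comm, map_smul, hxy, smul_eq_mul, mul_ite, mul_one, mul_zero,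
      Finset.sum_ite_eq', Finset.mem_univ, if_true]
  rw [Finset.sum_congr rfl fun s _ => by rw [h2 s]]
  exact h1

/-- The operator given by dual families. -/
lemma corr_dual {i m : ℕ} (hi : i ≤ 2 * X.dim) (y : Basis (Fin (m + 1)) W.K (W.gr X i))
    {x : Fin (m + 1) → W.H X} (hx : ∀ r, x r ∈ W.gr X (2 * X.dim - i))
    (hxy : ∀ r s, W.tr X (x r * (y s : W.H X)) = if s = r then 1 else 0) :
    W.corr (∑ r, xp W (x r) (y r : W.H X)) = (-1 : W.K) ^ (i * i) • proj (W.isInternal X) i := by
  classical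
  apply gr_ext (W.isInternal X)
  intro l z hz
  have h3 : W.corr (∑ r, xp W (x r) (y r : W.H X)) z =
      ∑ r, ((-1 : W.K) ^ (i * l) * W.tr X (x r * z)) • (y r : W.H X) := by
    have h4 : ∀ c : W.H (X.prod X), W.corr c z = corrL W X X c z := fun _ => rfl
    rw [h4, map_sum, LinearMap.sum_apply]
    refine Finset.sum_congr rfl fun j _ => ?_
    rw [← h4, corr_xp _ (PH.of (y j).2) (PH.of hz)]
  rw [h3, LinearMap.smul_apply]
  by_cases hl : l = i
  · subst hl
    rw [proj_same _ hz]
    conv_rhs => rw [expand2 y hxy hz]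
    rw [Finset.smul_sum]
    exact Finset.sum_congr rfl fun r _ => mul_smul _ _ _
  · rw [proj_ne _ hz hl, smul_zero]
    refine Finset.sum_eq_zero fun r _ => ?_
    rw [W.tr_eq_zero (W.mul_mem (hx r) hz) (by omega), mul_zero, zero_smul]

/-- The dual family is a basis. -/
lemma exists_basis2 {i m : ℕ} (hi : i ≤ 2 * X.dim) (y : Basis (Fin (m + 1)) W.K (W.gr X i))
    {x : Fin (m + 1) → W.H X} (hx : ∀ r, x r ∈ W.gr X (2 * X.dim - i))
    (hxy : ∀ r s, W.tr X (x r * (y s : W.H X)) = if s = r then 1 else 0) :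
    ∃ b : Basis (Fin (m + 1)) W.K (W.gr X (2 * X.dim - i)), ∀ r, (b r : W.H X) = x r := by
  classical
  set v : Fin (m + 1) → W.gr X (2 * X.dim - i) := fun r => ⟨x r, hx r⟩ with hv
  have hsp : ∀ z : W.gr X (2 * X.dim - i),
      z = ∑ s, W.tr X ((z : W.H X) * (y s : W.H X)) • v s := by
    intro z
    rw [← sub_eq_zero]
    apply Subtype.ext
    refine eq_zero_of_tr (i := i) (by omega) (SetLike.coe_mem _) (tr_span y fun r => ?_)
    have h1 : ((z - ∑ s, W.tr X ((z : W.H X) * (y s : W.H X)) • v s :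
        W.gr X (2 * X.dim - i)) : W.H X) =
        (z : W.H X) - ∑ s, W.tr X ((z : W.H X) * (y s : W.H X)) • x s := by
      rw [Submodule.coe_sub, Submodule.coe_sum]
      rfl
    have h2 := W.comm (y r).2 (SetLike.coe_mem (z - ∑ s, W.tr X ((z : W.H X) *
      (y s : W.H X)) • v s))
    rw [h2, map_smul, h1, sub_mul, map_sub, Finset.sum_mul, map_sum]
    simp only [smul_mul_assoc, map_smul, hxy, smul_eq_mul, mul_ite, mul_one, mul_zero,
      Finset.sum_ite_eq, Finset.mem_univ, if_true, sub_self]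
  have hli : LinearIndependent W.K v := by
    rw [Fintype.linearIndependent_iff]
    intro g hg s
    have h1 : ∑ r, g r • x r = 0 := by
      have h := congrArg (W.gr X (2 * X.dim - i)).subtype hg
      rw [map_sum, map_zero] at h
      exact h
    have h2 := congrArg (fun a => W.tr X (a * (y s : W.H X))) h1
    simpa only [Finset.sum_mul, map_sum, smul_mul_assoc, map_smul, hxy, smul_eq_mul, mul_ite,
      mul_one, mul_zero, Finset.sum_ite_eq, Finset.mem_univ, if_true, zero_mul, map_zero] using h2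
  refine ⟨Basis.mk hli ?_, fun r => by rw [Basis.mk_apply]⟩
  intro z _
  rw [hsp z]
  exact Submodule.sum_mem _ fun s _ => Submodule.smul_mem _ _ (Submodule.subset_span ⟨s, rfl⟩)

/-- The space `det H^(2 n - i)(X) ⊗ det H^i(X)`. -/
noncomputable def detPair' (W : WeilCohomology.{u, v} ops) (X : 𝒱.Obj) (i m : ℕ) :
    Submodule W.K (W.H ((pw X m).prod (pw X m))) :=
  Submodule.span W.K {c | ∃ v w : Fin (m + 1) → W.H X, (∀ r, v r ∈ W.gr X (2 * X.dim - i)) ∧
    (∀ r, w r ∈ W.gr X i) ∧ c = xp W (wedge W X m v) (wedge W X m w)}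

lemma detPair_eq {i m : ℕ} : detPair W X i m = detPair' W X i m := by
  have h : {c | IsDetPair W X i m c} = {c | ∃ v w : Fin (m + 1) → W.H X,
    (∀ r, v r ∈ W.gr X (2 * X.dim - i)) ∧ (∀ r, w r ∈ W.gr X i) ∧
      c = xp W (wedge W X m v) (wedge W X m w)} := by
    ext c
    constructor
    · rintro ⟨v, w, hv, hw, h⟩
      exact ⟨v, w, hv, hw, h.symm⟩
    · rintro ⟨v, w, hv, hw, h⟩
      exact ⟨v, w, hv, hw, h.symm⟩
  unfold detPair detPair'
  exact congrArg (Submodule.span W.K) h

lemma mem_detPair {i m : ℕ} {x y : Fin (m + 1) → W.H X}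
    (hx : ∀ r, x r ∈ W.gr X (2 * X.dim - i)) (hy : ∀ r, y r ∈ W.gr X i) :
    xp W (alt W X m x) (alt W X m y) ∈ detPair' W X i m := by
  rw [alt_eq, alt_eq]
  exact Submodule.subset_span ⟨x, y, hx, hy, rfl⟩

lemma detPair_le {i m : ℕ} (x : Basis (Fin (m + 1)) W.K (W.gr X (2 * X.dim - i)))
    (y : Basis (Fin (m + 1)) W.K (W.gr X i)) {c : W.H _}
    (hc : c ∈ detPair' W X i m) : ∃ t : W.K, c = t • xp W (alt W X m (fun r => (x r : W.H X)))
      (alt W X m (fun r => (y r : W.H X))) := by
  rw [detPair'] at hc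
  induction hc using Submodule.span_induction with
  | mem c hc =>
    obtain ⟨v, w, hv, hw, rfl⟩ := hc
    refine ⟨x.det (fun r => ⟨v r, hv r⟩) * y.det (fun r => ⟨w r, hw r⟩), ?_⟩
    have h1 := alt_basis x (fun r => ⟨v r, hv r⟩)
    have h2 := alt_basis y (fun r => ⟨w r, hw r⟩)
    rw [xp, ← alt_eq, ← alt_eq, h1, h2, map_smul, map_smul, smul_mul_smul_comm]
    rfl
  | zero => exact ⟨0, (zero_smul _ _).symm⟩
  | add a b _ _ ha hb =>
    obtain ⟨t, rfl⟩ := ha
    obtain ⟨t', rfl⟩ := hb
    exact ⟨t + t', (add_smul _ _ _).symm⟩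
  | smul s a _ ha =>
    obtain ⟨t, rfl⟩ := ha
    exact ⟨s * t, smul_smul _ _ _⟩

/-- The criterion for the line to be algebraic. -/
lemma detPairAlgebraic_iff {i m : ℕ} : DetPairAlgebraic W X i m ↔
    ∃ c ∈ detPair' W X i m, c ∈ spanCycles W ((pw X m).prod (pw X m)) ((X.dim * (m + 1) : ℕ) : ℤ) ∧
      c ≠ 0 := by
  have h : DetPairAlgebraic W X i m ↔ ∃ c ∈ detPair W X i m,
      c ∈ spanCycles W (pw2 X m) ((X.dim * (m + 1) : ℕ) : ℤ) ∧ c ≠ 0 := Iff.rfl
  rw [h, detPair_eq]
  exact Iff.rfl

lemma spanCycles_le_KA {q : ℤ} {c : W.H X} (hc : c ∈ spanCycles W X q) : c ∈ KA W X := by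
  induction hc using Submodule.span_induction with
  | mem c hc =>
    obtain ⟨p, hp, z, hz, rfl⟩ := hc
    exact KA.of (AS.of ⟨z, hz, rfl⟩)
  | zero => exact Submodule.zero_mem _
  | add x y _ _ hx hy => exact Submodule.add_mem _ hx hy
  | smul a x _ hx => exact Submodule.smul_mem _ _ hx

lemma corr_smul' (a : W.K) (c : W.H (X.prod X)) : W.corr (a • c) = a • W.corr c :=
  map_smul (corrL W X X) a c

lemma corr_sub' (c c' : W.H (X.prod X)) : W.corr (c - c') = W.corr c - W.corr c' :=
  map_sub (corrL W X X) c c'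

/-- The class given by dual families is the class of the projector. -/
lemma dual_mem_iff {i m : ℕ} (hi : i ≤ 2 * X.dim) (y : Basis (Fin (m + 1)) W.K (W.gr X i))
    {x : Fin (m + 1) → W.H X} (hx : ∀ r, x r ∈ W.gr X (2 * X.dim - i))
    (hxy : ∀ r s, W.tr X (x r * (y s : W.H X)) = if s = r then 1 else 0) :
    ∑ r, xp W (x r) (y r : W.H X) ∈ KA W (X.prod X) ↔
      proj (W.isInternal X) i ∈ Submodule.span W.K (corrOps W X) := by
  have hc := corr_dual hi y hx hxy
  have hs : ((-1 : W.K) ^ (i * i)) * ((-1 : W.K) ^ (i * i)) = 1 := by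
    rw [← mul_pow]
    simp
  rw [span_corrOps_eq]
  constructor
  · intro h
    have hgr : ∑ r, xp W (x r) (y r : W.H X) ∈ W.gr (X.prod X) (2 * X.dim) := by
      refine Submodule.sum_mem _ fun r _ => ?_
      have := W.mul_mem (W.map_mem (fst X X) (hx r)) (W.map_mem (snd X X) (y r).2)
      rwa [show 2 * X.dim - i + i = 2 * X.dim by omega] at this
    refine ⟨(-1 : W.K) ^ (i * i) • ∑ r, xp W (x r) (y r : W.H X),
      Submodule.smul_mem _ _ (KA.span h hgr), ?_⟩
    have h1 : corrL W X X ((-1 : W.K) ^ (i * i) • ∑ r, xp W (x r) (y r : W.H X)) =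
        (-1 : W.K) ^ (i * i) • W.corr (∑ r, xp W (x r) (y r : W.H X)) := map_smul _ _ _
    have h2 : Pool.Agent.W534.corrL W X X = corrL W X X := rfl
    rw [h2, h1, hc, smul_smul, hs, one_smul]
  · rintro ⟨γ, hγ, h⟩
    have h1 : W.corr γ = proj (W.isInternal X) i := h
    have h2 : ∑ r, xp W (x r) (y r : W.H X) - (-1 : W.K) ^ (i * i) • γ = 0 := by
      apply corr_inj
      rw [corr_sub', corr_smul', h1, hc, sub_self]
    rw [sub_eq_zero] at h2
    rw [h2]
    exact Submodule.smul_mem _ _ (spanCycles_le_KA hγ)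

lemma sum_xp_perm {m : ℕ} (x y : Fin (m + 1) → W.H X) :
    ∑ σ : Equiv.Perm (Fin (m + 1)), xp W (x (σ 0)) (y (σ 0)) =
      (m.factorial : W.K) • ∑ r, xp W (x r) (y r) := by
  classical
  have h1 : ∀ r : Fin (m + 1), (Finset.univ.filter fun σ : Equiv.Perm (Fin (m + 1)) =>
      σ 0 = r).card = m.factorial := by
    intro r
    have h2 : (Finset.univ : Finset (Equiv.Perm (Fin m))).card =
        (Finset.univ.filter fun σ : Equiv.Perm (Fin (m + 1)) => σ 0 = r).card := by
      refine Finset.card_bij (fun e _ => Equiv.Perm.decomposeFin.symm (r, e)) ?_ ?_ ?_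
      · intro e _
        rw [Finset.mem_filter]
        exact ⟨Finset.mem_univ _, Equiv.Perm.decomposeFin_symm_apply_zero _ _⟩
      · intro e _ e' _ h
        exact (Prod.ext_iff.1 (Equiv.Perm.decomposeFin.symm.injective h)).2
      · intro σ hσ
        rw [Finset.mem_filter] at hσ
        refine ⟨(Equiv.Perm.decomposeFin σ).2, Finset.mem_univ _, ?_⟩
        have h3 : Equiv.Perm.decomposeFin.symm ((Equiv.Perm.decomposeFin σ).1,
            (Equiv.Perm.decomposeFin σ).2) = σ := Equiv.symm_apply_apply _ σ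
        have h4 : (Equiv.Perm.decomposeFin σ).1 = r := by
          rw [← hσ.2]
          conv_rhs => rw [← h3]
          rw [Equiv.Perm.decomposeFin_symm_apply_zero]
        rw [h4] at h3
        exact h3
    rw [← h2, Finset.card_univ, Fintype.card_perm, Fintype.card_fin]
  rw [← Finset.sum_fiberwise (s := Finset.univ)
    (g := fun σ : Equiv.Perm (Fin (m + 1)) => σ 0), Finset.smul_sum]
  refine Finset.sum_congr rfl fun r _ => ?_
  rw [Finset.sum_congr rfl (g := fun _ => xp W (x r) (y r))
    (fun σ hσ => by rw [(Finset.mem_filter.1 hσ).2]), Finset.sum_const, h1,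
    ← Nat.cast_smul_eq_nsmul W.K]

/-- **One degree.** The projector to `H^i(X)` is algebraic (with coefficients in the field of
coefficients) if and only if the line `det H^(2 n - i)(X) ⊗ det H^i(X)` is. -/
theorem proj_iff_det {i m : ℕ} (hi : i ≤ 2 * X.dim) (hb : W.betti X i = m + 1) :
    detPairDim W X i m = 1 ∧
      (proj (W.isInternal X) i ∈ Submodule.span W.K (corrOps W X) ↔
        DetPairAlgebraic W X i m) := by
  classical
  let y : Basis (Fin (m + 1)) W.K (W.gr X i) := Module.finBasisOfFinrankEq W.K _ hb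
  obtain ⟨x, hx, hxy⟩ := exists_dual2 hi y
  obtain ⟨b, hbx⟩ := exists_basis2 hi y hx hxy
  set y' : Fin (m + 1) → W.H X := fun r => (y r : W.H X) with hy'
  have hyy : ∀ r, y' r ∈ W.gr X i := fun r => (y r).2
  have hbx' : (fun r => (b r : W.H X)) = x := funext hbx
  set c := xp W (alt W X m x) (alt W X m y') with hc
  set Q := ∑ r, xp W (x r) (y' r) with hQ
  obtain ⟨ε, hε, H⟩ := contr_alt2 W X 1 (2 * X.dim - i) i m
  have h1 := H x y' hx hyy (fun r s => by rw [mul_one]; exact hxy r s)
  rw [← hc, sum_xp_perm, ← hQ, smul_smul] at h1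
  have hfac : (m.factorial : W.K) ≠ 0 := Nat.cast_ne_zero.2 (Nat.factorial_ne_zero m)
  have hcorr : W.corr Q = (-1 : W.K) ^ (i * i) • proj (W.isInternal X) i :=
    corr_dual hi y hx hxy
  have hc0 : c ≠ 0 := by
    intro h0
    rw [h0, map_zero] at h1
    have h2 : Q = 0 := by
      rcases smul_eq_zero.1 h1.symm with h4 | h4
      · exact absurd h4 (mul_ne_zero hε hfac)
      · exact h4
    rw [h2, corr_zero] at hcorr
    have h3 := congrArg (fun F => F (y 0 : W.H X)) hcorr
    simp only [LinearMap.zero_apply, LinearMap.smul_apply] at h3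
    rw [proj_same _ (y 0).2] at h3
    have h4 : (y 0 : W.H X) = 0 := by
      rcases smul_eq_zero.1 h3.symm with h5 | h5
      · exact absurd h5 (pow_ne_zero _ (neg_ne_zero.2 one_ne_zero))
      · exact h5
    have h5 := hxy 0 0
    rw [h4, mul_zero, map_zero, if_pos rfl] at h5
    exact zero_ne_one h5
  have hle : ∀ a ∈ detPair' W X i m, ∃ t : W.K, a = t • c := by
    intro a ha
    obtain ⟨t, ht⟩ := detPair_le b y ha
    rw [hbx'] at ht
    exact ⟨t, ht⟩
  have hmem : c ∈ detPair' W X i m := mem_detPair hx hyy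
  refine ⟨?_, ?_⟩
  · have h2 : detPair' W X i m = Submodule.span W.K {c} := by
      apply le_antisymm
      · intro a ha
        obtain ⟨t, rfl⟩ := hle a ha
        exact Submodule.smul_mem _ _ (Submodule.mem_span_singleton_self _)
      · rw [Submodule.span_singleton_le_iff_mem]
        exact hmem
    have h3 : finrank W.K (detPair' W X i m) = 1 := by rw [h2, finrank_span_singleton hc0]
    rw [← detPair_eq] at h3
    exact h3
  · rw [← dual_mem_iff hi y hx hxy, detPairAlgebraic_iff]
    constructor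
    · intro hKA
      obtain ⟨ε', hε', H'⟩ := anti_Th2 W X (2 * X.dim - i) i m
      have h2 := H' x y' hx hyy
      have h3 : ∀ m', Th W X Q m' ∈ KA W _ := by
        intro m'
        induction m' with
        | zero => exact hKA
        | succ m' ih => exact KA.mul (KA.map _ ih) (KA.map _ hKA)
      have h4 : c ∈ KA W _ := by
        have h5 : ε' • c ∈ KA W _ := by
          rw [← h2]
          exact Submodule.sum_mem _ fun σ _ => Submodule.smul_mem _ _ (KA.map _ (h3 m))
        have h6 := Submodule.smul_mem _ ε'⁻¹ h5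
        rwa [smul_smul, inv_mul_cancel₀ hε', one_smul] at h6
      refine ⟨c, hmem, ?_, hc0⟩
      have hgr : c ∈ W.gr ((pw X m).prod (pw X m)) (2 * (X.dim * (m + 1))) := by
        have hA : ∀ (j : ℕ) (v : Fin (m + 1) → W.H X), (∀ r, v r ∈ W.gr X j) →
            alt W X m v ∈ W.gr (pw X m) (j * (m + 1)) := by
          intro j v hv
          rw [alt_apply]
          exact Submodule.sum_mem _ fun σ _ => Submodule.smul_mem _ _ (wd_mem m _ fun r => hv _)
        have h7 := W.mul_mem (W.map_mem (fst (pw X m) (pw X m)) (hA _ x hx))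
          (W.map_mem (snd (pw X m) (pw X m)) (hA _ y' hyy))
        have h8 : (2 * X.dim - i) * (m + 1) + i * (m + 1) = 2 * (X.dim * (m + 1)) := by
          rw [← add_mul, show 2 * X.dim - i + i = 2 * X.dim by omega]
          ring
        rw [h8] at h7
        exact h7
      exact KA.span h4 hgr
    · rintro ⟨a, ha, haK, ha0⟩
      obtain ⟨t, rfl⟩ := hle a ha
      have ht : t ≠ 0 := by
        rintro rfl
        exact ha0 (zero_smul _ _)
      have h2 : c ∈ KA W _ := by
        have h6 := Submodule.smul_mem _ t⁻¹ (spanCycles_le_KA haK)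
        rwa [smul_smul, inv_mul_cancel₀ ht, one_smul] at h6
      have h3 := kapN_mem KA.one m h2
      rw [h1] at h3
      have h6 := Submodule.smul_mem _ (ε * (m.factorial : W.K))⁻¹ h3
      rwa [smul_smul, inv_mul_cancel₀ (mul_ne_zero hε hfac), one_smul] at h6

variable {k₀ : Type u₁} [Field k₀] {𝒱₀ : VarClass k₀} {ops₀ : CycleOps 𝒱₀}

/-- **The conjecture of Künneth type and the determinants of the cohomology.** -/
theorem kunneth_det_iff (R : Reduction X 𝒱₀) (hW : Reduction.Pure.{u₁, v₁} R ops₀ W) :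
    OneKunnethSystem.{u, v} (ops := ops) (Reduction.Pure.{u₁, v₁} R ops₀) X ↔
      ∀ i < X.dim, ∀ m, W.betti X i = m + 1 → DetPairAlgebraic W X i m := by
  have htfae := (kunneth_tfae R hW (fun i => proj (W.isInternal X) i)
    (fun i => (isProjector_iff (W.isInternal X) i).2 rfl)).out 0 1
  rw [htfae, kunnethOverK_iff]
  constructor
  · intro h i hi m hm
    exact (proj_iff_det (by omega) hm).2.1 (h i (by omega))
  · intro h
    have hlow : ∀ i < X.dim, proj (W.isInternal X) i ∈ Submodule.span W.K (corrOps W X) := by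
      intro i hi
      rcases Nat.eq_zero_or_pos (W.betti X i) with h0 | h0
      · have h1 : W.gr X i = ⊥ := Submodule.finrank_eq_zero.1 h0
        have h2 : proj (W.isInternal X) i = 0 := by
          apply LinearMap.ext
          intro a
          have := proj_mem (W.isInternal X) i a
          rw [h1, Submodule.mem_bot] at this
          exact this
        rw [h2]
        exact Submodule.zero_mem _
      · obtain ⟨m, hm⟩ : ∃ m, W.betti X i = m + 1 := ⟨W.betti X i - 1, by omega⟩
        exact (proj_iff_det (by omega) hm).2.2 (h i hi m hm)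
    have hhigh : ∀ i, X.dim < i → i ≤ 2 * X.dim →
        proj (W.isInternal X) i ∈ Submodule.span W.K (corrOps W X) := by
      intro i hi hi2
      obtain ⟨g, hg, hg1⟩ := exists_adjoint_sep (hlow (2 * X.dim - i) (by omega))
      have h2 : proj (W.isInternal X) i = g := by
        apply gr_ext (W.isInternal X)
        intro j a ha
        by_cases hj : j = i
        · subst hj
          rw [proj_same _ ha]
          exact ((hg1 j hi2).1 (fun b hb => proj_same _ hb) a ha).symm
        · rw [proj_ne _ ha hj]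
          by_cases hj2 : j ≤ 2 * X.dim
          · exact ((hg1 j hj2).2 (fun b hb => proj_ne _ hb (by omega)) a ha).symm
          · rw [W.gr_eq_bot X j (by omega), Submodule.mem_bot] at ha
            rw [ha, map_zero]
      rw [h2]
      exact hg
    intro i hi
    rcases lt_trichotomy i X.dim with h1 | h1 | h1
    · exact hlow i h1
    · have h2 : proj (W.isInternal X) i = 1 - ∑ j ∈ (Finset.range (2 * X.dim + 1)).erase i,
          proj (W.isInternal X) j := by
        apply gr_ext (W.isInternal X)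
        intro j a ha
        rw [LinearMap.sub_apply, LinearMap.sum_apply, Module.End.one_apply]
        by_cases hj : j = i
        · subst hj
          rw [proj_same _ ha, Finset.sum_eq_zero, sub_zero]
          intro l hl
          exact proj_ne _ ha (Ne.symm (Finset.ne_of_mem_erase hl))
        · rw [proj_ne _ ha hj]
          by_cases hj2 : j ≤ 2 * X.dim
          · rw [Finset.sum_eq_single j, proj_same _ ha, sub_self]
            · intro l _ hl
              exact proj_ne _ ha (Ne.symm hl)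
            · intro hl
              exact absurd (Finset.mem_erase.2 ⟨hj, Finset.mem_range.2 (by omega)⟩) hl
          · rw [W.gr_eq_bot X j (by omega), Submodule.mem_bot] at ha
            rw [ha]
            simp
      rw [h2]
      refine Submodule.sub_mem _ (Submodule.subset_span one_mem_corrOps)
        (Submodule.sum_mem _ fun j hj => ?_)
      rw [Finset.mem_erase, Finset.mem_range] at hj
      rcases lt_or_gt_of_ne (h1 ▸ hj.1 : j ≠ X.dim) with h3 | h3
      · exact hlow j h3
      · exact hhigh j h3 (by omega)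
    · exact hhigh i h1 hi

end Pool.Agent.R907
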