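import Pool.Agent.R907.CritDefs
import Pool.Agent.W534.PoleDefs

/-!
# One system of cycles for the Künneth projectors: definitions
-/

open CategoryTheory AlgebraicGeometry

universe u₁ v₁ u v

namespace Pool.Agent.R907

open Pool.Agent.H914 Pool.Agent.Y106.One VarClass Obj WeilCohomology

variable {k : Type u} [Field k] {𝒱 : VarClass k} {ops : CycleOps 𝒱}

/-- There is one system of cycles `Δ i`, `0 ≤ i ≤ 2 n`, of codimension `n = dim X` on `X × X` with
rational coefficients, such that for all theories with the property `P` the cycle `Δ i` induces the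
projector of `H(X)` onto `H^i(X)`, for all `i`. -/
def OneKunnethSystem (P : WeilCohomology.{u, v} ops → Prop) (X : 𝒱.Obj) : Prop :=
  ∃ Δ : ℕ → (X.prod X).Cycles, ∀ i ≤ 2 * X.dim, (X.prod X).IsCyc X.dim (Δ i) ∧
    ∀ W : WeilCohomology.{u, v} ops, P W → InducesProjector W X i (Δ i)

/-- For the theory `W` the projectors of `H(X)` onto `H^i(X)`, `0 ≤ i ≤ 2 n`, are induced by
linear combinations of classes of cycles of codimension `n = dim X` on `X × X`, with coefficients in
the coefficient field of `W`. -/
def KunnethOverK (W : WeilCohomology.{u, v} ops) (X : 𝒱.Obj) : Prop :=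
  ∀ i ≤ 2 * X.dim, ∃ γ ∈ spanCycles W (X.prod X) X.dim, IsProjector (W.gr X) i (W.corr γ)

/-- The dimension of the space of the cycles of codimension `dim X` on `X × X` with rational
coefficients modulo numerical equivalence. -/
noncomputable def numCorrRank (ops : CycleOps 𝒱) (X : 𝒱.Obj) : ℕ :=
  Pool.Agent.W534.numRank ops (X.prod X) X.dim

end Pool.Agent.R907
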