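import Pool.Agent.R910.Det.Stm
import Pool.Agent.R907.KunDefs

/-!
# The determinants of the cohomology and the Künneth projectors: definitions
-/

open CategoryTheory AlgebraicGeometry

universe u v

namespace Pool.Agent.R907

open Pool.Agent.H914 VarClass Obj WeilCohomology Pool.Agent.R910.Det Pool.Agent.Y133.Half

variable {k : Type u} [Field k] {𝒱 : VarClass k} {ops : CycleOps 𝒱}

/-- `c` is the external product of an antisymmetrized external product of `m + 1` classes in
`H^(2 n - i)(X)` and an antisymmetrized external product of `m + 1` classes in `H^i(X)`, where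
`n = dim X`. -/
def IsDetPair (W : WeilCohomology.{u, v} ops) (X : 𝒱.Obj) (i m : ℕ) (c : W.H (pw2 X m)) : Prop :=
  ∃ v w : Fin (m + 1) → W.H X, AllIn W X (2 * X.dim - i) m v ∧ AllIn W X i m w ∧
    ext2 W X m (wedge W X m v) (wedge W X m w) = c

/-- The space `det H^(2 n - i)(X) ⊗ det H^i(X)` in the cohomology of `X ^ (m + 1) × X ^ (m + 1)`,
where `m + 1 = dim H^i(X)` and `n = dim X`. -/
noncomputable def detPair (W : WeilCohomology.{u, v} ops) (X : 𝒱.Obj) (i m : ℕ) :
    Submodule W.K (W.H (pw2 X m)) :=
  Submodule.span W.K {c | IsDetPair W X i m c}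

/-- The dimension of the space `det H^(2 n - i)(X) ⊗ det H^i(X)`. -/
noncomputable def detPairDim (W : WeilCohomology.{u, v} ops) (X : 𝒱.Obj) (i m : ℕ) : ℕ :=
  Module.finrank W.K (detPair W X i m)

/-- `c` is a nonzero linear combination of classes of algebraic cycles of codimension `q` on `Y`, with
coefficients in the coefficient field of `W`. -/
def NonzeroAlgebraic (W : WeilCohomology.{u, v} ops) (Y : 𝒱.Obj) (q : ℕ) (c : W.H Y) : Prop :=
  c ∈ spanCycles W Y q ∧ c ≠ 0

/-- The space `det H^(2 n - i)(X) ⊗ det H^i(X)`, where `dim H^i(X) = m + 1` and `n = dim X`, contains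
a nonzero linear combination of classes of algebraic cycles of codimension `n (m + 1)` on
`X ^ (m + 1) × X ^ (m + 1)`, with coefficients in the coefficient field of `W`. -/
def DetPairAlgebraic (W : WeilCohomology.{u, v} ops) (X : 𝒱.Obj) (i m : ℕ) : Prop :=
  ∃ c ∈ detPair W X i m, NonzeroAlgebraic W (pw2 X m) (X.dim * (m + 1)) c

end Pool.Agent.R907
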