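import Pool.Agent.Y106.One.Main

/-!
# Left ideals of correspondences acting on one degree of the cohomology
-/

open CategoryTheory AlgebraicGeometry Finset Polynomial

set_option linter.unusedSectionVars false

universe u₁ v₁ u v

namespace Pool.Agent.R907

open Pool.Agent.H914 Pool.Agent.H447 Pool.Agent.W537 Pool.Agent.Y106.One VarClass Obj
  WeilCohomology

variable {k : Type u} [Field k] {𝒱 : VarClass k} {ops : CycleOps 𝒱} {X : 𝒱.Obj}
  {W : WeilCohomology.{u, v} ops}

/-- Families of operators, one for each cohomology theory. -/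
abbrev Fam (ops : CycleOps 𝒱) (X : 𝒱.Obj) : Type _ :=
  ∀ W : WeilCohomology.{u, v} ops, Module.End W.K (W.H X)

/-- A left ideal of correspondences of degree zero. -/
structure IsLeftIdeal (J : Set (Fam.{u, v} ops X)) : Prop where
  real : ∀ T ∈ J, Realized ops X 0 T
  zero : (fun _ => 0) ∈ J
  add : ∀ T ∈ J, ∀ T' ∈ J, (fun W => T W + T' W) ∈ J
  smul : ∀ (c : ℚ), ∀ T ∈ J, (fun W : WeilCohomology.{u, v} ops => (c : W.K) • T W) ∈ J
  left : ∀ S, Realized ops X 0 S → ∀ T ∈ J, (fun W => S W * T W) ∈ J

/-- The span of the operators of the left ideal in one theory. -/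
def KJ (J : Set (Fam.{u, v} ops X)) (W : WeilCohomology.{u, v} ops) :
    Submodule W.K (Module.End W.K (W.H X)) :=
  Submodule.span W.K {T | ∃ F ∈ J, F W = T}

lemma real_comm {T : Fam.{u, v} ops X} (hT : Realized ops X 0 T)
    (W : WeilCohomology.{u, v} ops) (i : ℕ) :
    Commute (proj (W.isInternal X) i) (T W) := by
  have h1 : IsHom (W.gr X) 0 (T W) := by simpa using hT.isHom W
  exact h1.proj_comm (W.isInternal X) i

lemma real_mem {T : Fam.{u, v} ops X} (hT : Realized ops X 0 T)
    (W : WeilCohomology.{u, v} ops) {i : ℕ} {a : W.H X} (ha : a ∈ W.gr X i) :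
    T W a ∈ W.gr X i := by
  have h1 : IsHom (W.gr X) 0 (T W) := by simpa using hT.isHom W
  have := h1 i a (by rwa [grZ_natCast])
  rwa [add_zero, grZ_natCast] at this

/-- A correspondence of degree zero all of whose products have trace zero is nilpotent. -/
lemma nilpotent_of_traces {i : ℕ} {e : Fam.{u, v} ops X} (he : Realized ops X 0 e)
    (h : ∀ b, Realized ops X 0 b →
      LinearMap.trace W.K (W.H X) (proj (W.isInternal X) i * (e W * b W)) = 0) :
    ∃ N : ℕ, ∀ a ∈ W.gr X i, ((e W) ^ N) a = 0 := by
  set P := proj (W.isInternal X) i with hP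
  have hPP : P * P = P := proj_mul_proj _ i
  have hc' : Commute P (e W) := real_comm he W i
  have hnil : IsNilpotent (P * e W) := by
    apply isNilpotent_of_trace_pow
    intro r
    have h1 : (P * e W) ^ (r + 1) = P * (e W * e W ^ r) := by
      rw [hc'.mul_pow, ← pow_succ']
      congr 1
      induction r with
      | zero => simp
      | succ r ih => rw [pow_succ, ih, hPP]
    rw [h1]
    exact h (fun W => e W ^ r) (he.pow0 r)
  obtain ⟨N, hN⟩ := hnil
  refine ⟨N, ?_⟩
  have hPe : ∀ (m : ℕ), ∀ a ∈ W.gr X i, ((e W) ^ m) a = ((P * e W) ^ m) a ∧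
      ((e W) ^ m) a ∈ W.gr X i := by
    intro m
    induction m with
    | zero => intro a ha; exact ⟨rfl, by simpa using ha⟩
    | succ m ih =>
      intro a ha
      obtain ⟨h1, h2⟩ := ih a ha
      have h3 : e W (((e W) ^ m) a) ∈ W.gr X i := real_mem he W h2
      refine ⟨?_, by rw [pow_succ', Module.End.mul_apply]; exact h3⟩
      rw [pow_succ', pow_succ', Module.End.mul_apply, Module.End.mul_apply, ← h1,
        Module.End.mul_apply, hP, proj_same _ h3]
  intro a ha
  rw [(hPe N a ha).1, hN, LinearMap.zero_apply]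

/-- From the identity up to trace zero to the identity. -/
lemma exists_id_of_traces {J : Set (Fam.{u, v} ops X)} (hJ : IsLeftIdeal J) {i : ℕ}
    {y : Fam.{u, v} ops X} (hy : y ∈ J)
    (h : ∀ b, Realized ops X 0 b →
      LinearMap.trace W.K (W.H X) (proj (W.isInternal X) i * (y W * b W)) =
      LinearMap.trace W.K (W.H X) (proj (W.isInternal X) i * b W)) :
    ∃ z ∈ J, ∀ a ∈ W.gr X i, z W a = a := by
  have he : Realized ops X 0 (fun W : WeilCohomology.{u, v} ops => 1 - y W) :=
    Realized.one.sub (hJ.real y hy)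
  obtain ⟨N, hN⟩ := nilpotent_of_traces (W := W) (i := i) he (by
    intro b hb
    beta_reduce
    rw [sub_mul, one_mul, mul_sub, map_sub, h b hb, sub_self])
  refine ⟨fun W => (∑ k ∈ range N, (1 - y W) ^ k) * y W,
    hJ.left _ (Realized.sum fun k _ => he.pow0 k) y hy, fun a ha => ?_⟩
  exact geom_inv (hN a ha)

variable {J : Set (Fam.{u, v} ops X)}

lemma exists_rat {i : ℕ} (hT : SameTraces X i W W) {T : Fam.{u, v} ops X} (h : Realized ops X 0 T) :
    ∃ t : ℚ, LinearMap.trace W.K (W.H X) (proj (W.isInternal X) i * T W) = t := by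
  obtain ⟨t, ht, -⟩ := hT T h
  exact ⟨t, ht⟩

/-- Rational traces descend combinations with coefficients in the coefficient field. -/
lemma exists_ret (hJ : IsLeftIdeal J) {i : ℕ} (hT : SameTraces X i W W) (ret : W.K →ₗ[ℚ] ℚ)
    {A : Module.End W.K (W.H X)} (hA : A ∈ KJ J W) :
    ∀ κ : W.K, ∃ y ∈ J, ∀ b, Realized ops X 0 b →
      LinearMap.trace W.K (W.H X) (proj (W.isInternal X) i * (y W * b W)) =
        ((ret (κ * LinearMap.trace W.K (W.H X)
          (proj (W.isInternal X) i * (A * b W))) : ℚ) : W.K) := by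
  induction hA using Submodule.span_induction with
  | mem y hy =>
    intro κ
    obtain ⟨F, hF, rfl⟩ := hy
    refine ⟨_, hJ.smul (ret κ) F hF, fun b hb => ?_⟩
    obtain ⟨t, ht⟩ := exists_rat hT (((hJ.real F hF).mul hb).cast (zero_add 0))
    rw [smul_mul_assoc, mul_smul_comm, map_smul, ht, ret_mul, smul_eq_mul]
    push_cast
    rfl
  | zero =>
    intro κ
    refine ⟨_, hJ.zero, fun b _ => ?_⟩
    simp
  | add x y _ _ hx hy =>
    intro κ
    obtain ⟨x', hx', hx2⟩ := hx κ
    obtain ⟨y', hy', hy2⟩ := hy κ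
    refine ⟨_, hJ.add x' hx' y' hy', fun b hb => ?_⟩
    rw [add_mul, mul_add, map_add, hx2 b hb, hy2 b hb, add_mul, mul_add, map_add, mul_add,
      map_add]
    push_cast
    rfl
  | smul κ' x _ hx =>
    intro κ
    obtain ⟨x', hx', hx2⟩ := hx (κ * κ')
    refine ⟨x', hx', fun b hb => ?_⟩
    rw [hx2 b hb, smul_mul_assoc, mul_smul_comm, map_smul, smul_eq_mul, mul_assoc]

lemma KJ_mem_gr (hJ : IsLeftIdeal J) {E : Module.End W.K (W.H X)} (hE : E ∈ KJ J W) {i : ℕ} :
    ∀ a ∈ W.gr X i, E a ∈ W.gr X i := by
  induction hE using Submodule.span_induction with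
  | mem y hy =>
    obtain ⟨F, hF, rfl⟩ := hy
    intro a ha
    exact real_mem (hJ.real F hF) W ha
  | zero => intro a _; simp
  | add x y _ _ hx hy => intro a ha; exact Submodule.add_mem _ (hx a ha) (hy a ha)
  | smul c x _ hx => intro a ha; exact Submodule.smul_mem _ _ (hx a ha)

/-- The span is stable under composition on the left with itself. -/
lemma KJ_mul (hJ : IsLeftIdeal J) {E E' : Module.End W.K (W.H X)} (hE : E ∈ KJ J W)
    (hE' : E' ∈ KJ J W) : E * E' ∈ KJ J W := by
  induction hE using Submodule.span_induction with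
  | mem y hy =>
    obtain ⟨F, hF, rfl⟩ := hy
    induction hE' using Submodule.span_induction with
    | mem y' hy' =>
      obtain ⟨F', hF', rfl⟩ := hy'
      exact Submodule.subset_span ⟨_, hJ.left F (hJ.real F hF) F' hF', rfl⟩
    | zero => rw [mul_zero]; exact Submodule.zero_mem _
    | add x y _ _ hx hy => rw [mul_add]; exact Submodule.add_mem _ hx hy
    | smul c x _ hx => rw [mul_smul_comm]; exact Submodule.smul_mem _ _ hx
  | zero => rw [zero_mul]; exact Submodule.zero_mem _
  | add x y _ _ hx hy => rw [add_mul]; exact Submodule.add_mem _ hx hy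
  | smul c x _ hx => rw [smul_mul_assoc]; exact Submodule.smul_mem _ _ hx

lemma aeval_mul_mem (hJ : IsLeftIdeal J) {E : Module.End W.K (W.H X)} (hE : E ∈ KJ J W)
    (g : W.K[X]) : aeval E g * E ∈ KJ J W := by
  induction g using Polynomial.induction_on' with
  | add a b ha hb => rw [map_add, add_mul]; exact Submodule.add_mem _ ha hb
  | monomial r κ =>
    rw [aeval_monomial, Algebra.algebraMap_eq_smul_one, smul_mul_assoc, one_mul, smul_mul_assoc]
    refine Submodule.smul_mem _ _ ?_
    induction r with
    | zero => simpa using hE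
    | succ r ih => rw [pow_succ', mul_assoc]
                   exact KJ_mul hJ hE ih

/-- **Descent of coefficients for left ideals of correspondences.** -/
theorem exists_id_of_inj (hJ : IsLeftIdeal J) {i : ℕ} (hT : SameTraces X i W W)
    {E : Module.End W.K (W.H X)} (hE : E ∈ KJ J W)
    (hinj : ∀ a ∈ W.gr X i, E a = 0 → a = 0) :
    ∃ z ∈ J, ∀ a ∈ W.gr X i, z W a = a := by
  obtain ⟨g, hg⟩ := exists_inv_on (E := E) (S := W.gr X i) (KJ_mem_gr hJ hE) hinj
  set A := aeval E g * E with hA
  have hAK : A ∈ KJ J W := aeval_mul_mem hJ hE g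
  set P := proj (W.isInternal X) i with hP
  have hAP : A * P = P := by
    apply LinearMap.ext
    intro x
    exact hg (P x) (proj_mem _ i x)
  obtain ⟨ret, hret⟩ := exists_retract W.K
  obtain ⟨y, hy, hytr⟩ := exists_ret hJ hT ret hAK 1
  refine exists_id_of_traces (W := W) hJ hy fun b hb => ?_
  obtain ⟨t, ht⟩ := exists_rat hT hb
  have hPA : P * A = A * P := by
    have h1 : ∀ a, P (A a) = A (P a) := by
      intro a
      refine gr_induction (W.isInternal X) (p := fun a => P (A a) = A (P a)) ?_ ?_ a
      · intro j a ha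
        have ha' := KJ_mem_gr hJ hAK a ha
        by_cases hij : j = i
        · subst hij
          rw [hP, proj_same _ ha, proj_same _ ha']
        · rw [hP, proj_ne _ ha hij, proj_ne _ ha' hij, map_zero]
      · intro a b ha hb
        rw [map_add, map_add, ha, hb, map_add, map_add]
    exact LinearMap.ext h1
  have h2 : P * (A * b W) = P * b W := by rw [← mul_assoc, hPA, hAP]
  rw [hytr b hb, h2, ht, one_mul, ret_ratCast hret]

/-- **From one theory to all theories, for left ideals of correspondences.** -/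
theorem common_of_id (hJ : IsLeftIdeal J) {i : ℕ} {z : Fam.{u, v} ops X} (hz : z ∈ J)
    (hid : ∀ a ∈ W.gr X i, z W a = a) :
    ∃ z' ∈ J, ∀ W' : WeilCohomology.{u, v} ops, SameTraces X i W W' →
      ∀ a ∈ W'.gr X i, z' W' a = a := by
  have hzr := hJ.real z hz
  have he : Realized ops X 0 (fun W : WeilCohomology.{u, v} ops => 1 - z W) :=
    Realized.one.sub hzr
  refine ⟨fun W' => (∑ k ∈ range (W.betti X i), (1 - z W') ^ k) * z W',
    hJ.left _ (Realized.sum fun k _ => he.pow0 k) z hz, fun W' hW' a ha => ?_⟩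
  have hbetti : W'.betti X i = W.betti X i := by
    obtain ⟨t, ht, ht'⟩ := hW' _ Realized.one
    rw [mul_one, trace_proj] at ht ht'
    have e1 : (W.betti X i : ℚ) = t := by exact_mod_cast ht
    have e2 : (W'.betti X i : ℚ) = t := by exact_mod_cast ht'
    have : (W'.betti X i : ℚ) = W.betti X i := by rw [e1, e2]
    exact_mod_cast this
  have hcomm := fun W => real_comm hzr W i
  have hpp : ∀ (W : WeilCohomology.{u, v} ops) (r : ℕ),
      (proj (W.isInternal X) i * z W) ^ (r + 1) = proj (W.isInternal X) i * z W ^ (r + 1) := by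
    intro W r
    rw [(hcomm W).mul_pow]
    congr 1
    induction r with
    | zero => simp
    | succ r ih => rw [pow_succ, ih, proj_mul_proj]
  have hTW : ∀ r : ℕ, proj (W.isInternal X) i * z W ^ r = proj (W.isInternal X) i := by
    intro r
    rw [((hcomm W).pow_right r).eq]
    apply LinearMap.ext
    intro x
    rw [Module.End.mul_apply]
    have hx := proj_mem (W.isInternal X) i x
    induction r with
    | zero => simp
    | succ r ih => rw [pow_succ, Module.End.mul_apply, hid _ hx]; exact ih
  set E := proj (W'.isInternal X) i * z W' with hE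
  have hPE : proj (W'.isInternal X) i * E = E := by rw [hE, ← mul_assoc, proj_mul_proj]
  have hEP : E * proj (W'.isInternal X) i = E := by
    rw [hE, mul_assoc, ← (hcomm W').eq, ← mul_assoc, proj_mul_proj]
  have htr : ∀ r : ℕ, LinearMap.trace W'.K (W'.H X) (E ^ (r + 1)) =
      Module.finrank W'.K (W'.gr X i) := by
    intro r
    obtain ⟨t, ht, ht'⟩ := hW' _ (hzr.pow0 (r + 1))
    rw [hTW, trace_proj] at ht
    rw [hE, hpp, ht']
    have e1 : (W.betti X i : ℚ) = t := by exact_mod_cast ht
    rw [← e1, ← hbetti]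
    push_cast
    rfl
  have hun := unipotent_of_trace_pow (W'.isInternal X) hPE hEP htr (M := W.betti X i)
    (le_of_eq hbetti) a ha
  have hkey : ∀ m : ℕ, ((1 - E) ^ m) a = ((1 - z W') ^ m) a ∧
      ((1 - z W') ^ m) a ∈ W'.gr X i := by
    intro m
    induction m with
    | zero => exact ⟨rfl, by simpa using ha⟩
    | succ m ih =>
      obtain ⟨h1, h2⟩ := ih
      have h3 : z W' (((1 - z W') ^ m) a) ∈ W'.gr X i := real_mem hzr W' h2
      refine ⟨?_, ?_⟩
      · rw [pow_succ', pow_succ', Module.End.mul_apply, Module.End.mul_apply, h1,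
          LinearMap.sub_apply, LinearMap.sub_apply, Module.End.one_apply, hE,
          Module.End.mul_apply, proj_same _ h3]
      · rw [pow_succ', Module.End.mul_apply, LinearMap.sub_apply, Module.End.one_apply]
        exact Submodule.sub_mem _ h2 h3
  rw [(hkey _).1] at hun
  exact geom_inv hun

end Pool.Agent.R907
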