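import Pool.Agent.R907.Crit
import Pool.Agent.R907.KunDefs
import Pool.Agent.W534.PoleA

/-!
# The Künneth projectors and trace forms
-/

open CategoryTheory AlgebraicGeometry Finset Polynomial

set_option linter.unusedSectionVars false

universe u₁ v₁ u v

namespace Pool.Agent.R907

open Pool.Agent.H914 Pool.Agent.H447 Pool.Agent.W537 Pool.Agent.Y106.One VarClass Obj
  WeilCohomology

section Alg

variable {K : Type*} [Field K] {V : Type*} [AddCommGroup V] [Module K V] [Module.Finite K V]

/-- The map to the product of the spaces of functionals. -/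
noncomputable def jointMap (P : ℕ → Module.End K V) (S : Set (Module.End K V)) (m : ℕ) :
    Submodule.span K S →ₗ[K] (∀ j : Fin m, (Submodule.span K S).map (formLin (P j) S)) :=
  LinearMap.pi fun j => (formLin (P j) S).restrict fun _ hx => Submodule.mem_map_of_mem hx

/-- The weighted sum of functionals. -/
noncomputable def wsum (P : ℕ → Module.End K V) (S : Set (Module.End K V)) (m : ℕ) (c : ℕ → K) :
    (∀ j : Fin m, (Submodule.span K S).map (formLin (P j) S)) →ₗ[K] (S → K) :=
  ∑ j : Fin m, c j • (((Submodule.span K S).map (formLin (P j) S)).subtype ∘ₗ LinearMap.proj j)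

lemma wsum_jointMap (P : ℕ → Module.End K V) (S : Set (Module.End K V)) (m : ℕ) (c : ℕ → K)
    {Q : Module.End K V} (hQ : Q = ∑ j ∈ range m, c j • P j) :
    wsum P S m c ∘ₗ jointMap P S m = formLin Q S ∘ₗ (Submodule.span K S).subtype := by
  apply LinearMap.ext
  intro a
  funext b
  rw [LinearMap.comp_apply, wsum, LinearMap.sum_apply, Finset.sum_apply]
  change ∑ j : Fin m, c j * LinearMap.trace K V (a.1 * b.1 * P j) =
    LinearMap.trace K V (a.1 * b.1 * Q)
  rw [hQ, Finset.mul_sum, map_sum, ← Fin.sum_univ_eq_sum_range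
    (fun j => LinearMap.trace K V (a.1 * b.1 * c j • P j))]
  refine Finset.sum_congr rfl fun j _ => ?_
  rw [mul_smul_comm, map_smul, smul_eq_mul]

lemma finrank_target (P : ℕ → Module.End K V) (S : Set (Module.End K V)) (m : ℕ) :
    Module.finrank K (∀ j : Fin m, (Submodule.span K S).map (formLin (P j) S)) =
      ∑ j ∈ range m, formRank (P j) S := by
  rw [Module.finrank_pi_fintype, ← Fin.sum_univ_eq_sum_range (fun j => formRank (P j) S)]
  exact Finset.sum_congr rfl fun j _ => (formRank_eq _ _).symm

/-- The rank of a weighted sum of forms. -/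
theorem formRank_le_sum (P : ℕ → Module.End K V) (S : Set (Module.End K V)) (m : ℕ) (c : ℕ → K)
    {Q : Module.End K V} (hQ : Q = ∑ j ∈ range m, c j • P j) :
    formRank Q S ≤ ∑ j ∈ range m, formRank (P j) S := by
  rw [← finrank_target P S m, formRank_eq]
  have h1 : (Submodule.span K S).map (formLin Q S) =
      LinearMap.range (wsum P S m c ∘ₗ jointMap P S m) := by
    rw [wsum_jointMap P S m c hQ, LinearMap.range_comp, Submodule.range_subtype]
  rw [h1, LinearMap.range_comp]
  exact (Submodule.finrank_map_le _ _).trans (Submodule.finrank_le _)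

/-- If the rank of the weighted sum is the sum of the ranks, then functionals can be prescribed
independently. -/
theorem exists_joint (P : ℕ → Module.End K V) (S : Set (Module.End K V)) (m : ℕ) (c : ℕ → K)
    {Q : Module.End K V} (hQ : Q = ∑ j ∈ range m, c j • P j)
    (h : formRank Q S = ∑ j ∈ range m, formRank (P j) S) (x : ℕ → Module.End K V)
    (hx : ∀ j, x j ∈ Submodule.span K S) :
    ∃ a ∈ Submodule.span K S, ∀ j < m, ∀ b ∈ S,
      LinearMap.trace K V (a * b * P j) = LinearMap.trace K V (x j * b * P j) := by
  have h1 : (Submodule.span K S).map (formLin Q S) =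
      LinearMap.range (wsum P S m c ∘ₗ jointMap P S m) := by
    rw [wsum_jointMap P S m c hQ, LinearMap.range_comp, Submodule.range_subtype]
  have h2 : LinearMap.range (jointMap P S m) = ⊤ := by
    apply Submodule.eq_top_of_finrank_eq
    apply le_antisymm (Submodule.finrank_le _)
    rw [finrank_target, ← h, formRank_eq, h1, LinearMap.range_comp]
    exact Submodule.finrank_map_le _ _
  have h3 : (fun j : Fin m => (⟨formLin (P j) S (x j), Submodule.mem_map_of_mem (hx j)⟩ :
      (Submodule.span K S).map (formLin (P j) S))) ∈ LinearMap.range (jointMap P S m) := by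
    rw [h2]; trivial
  obtain ⟨a, ha⟩ := h3
  refine ⟨a.1, a.2, fun j hj b hb => ?_⟩
  have h4 := congrArg Subtype.val (congrFun ha ⟨j, hj⟩)
  exact congrFun h4 ⟨b, hb⟩

/-- If the projectors belong to the span, then the rank of the weighted sum is the sum of the
ranks. -/
theorem formRank_eq_sum (P : ℕ → Module.End K V) (S : Set (Module.End K V)) (m : ℕ) (c : ℕ → K)
    {Q : Module.End K V} (hQ : Q = ∑ j ∈ range m, c j • P j) (hc : ∀ j, c j ≠ 0)
    (hmul : ∀ a ∈ Submodule.span K S, ∀ b ∈ Submodule.span K S, a * b ∈ Submodule.span K S)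
    (hP : ∀ j < m, P j ∈ Submodule.span K S)
    (hcomm : ∀ j, ∀ a ∈ Submodule.span K S, P j * a = a * P j)
    (hPP : ∀ i j, P i * P j = if i = j then P i else 0) :
    formRank Q S = ∑ j ∈ range m, formRank (P j) S := by
  classical
  have h1 : (Submodule.span K S).map (formLin Q S) =
      LinearMap.range (wsum P S m c ∘ₗ jointMap P S m) := by
    rw [wsum_jointMap P S m c hQ, LinearMap.range_comp, Submodule.range_subtype]
  have hsub : ∀ b ∈ S, b ∈ Submodule.span K S := fun b hb => Submodule.subset_span hb
  have h2 : LinearMap.range (jointMap P S m) = ⊤ := by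
    rw [eq_top_iff]
    rintro f -
    have hf : ∀ j : Fin m, ∃ x ∈ Submodule.span K S, formLin (P j) S x = (f j).1 :=
      fun j => Submodule.mem_map.1 (f j).2
    choose x hx hxf using hf
    refine ⟨⟨∑ j : Fin m, x j * P j, Submodule.sum_mem _ fun j _ =>
      hmul _ (hx j) _ (hP j j.2)⟩, ?_⟩
    funext l
    apply Subtype.ext
    rw [← hxf l]
    funext b
    change LinearMap.trace K V ((∑ j : Fin m, x j * P j) * b.1 * P l) =
      LinearMap.trace K V (x l * b.1 * P l)
    rw [Finset.sum_mul, Finset.sum_mul, map_sum, Finset.sum_eq_single l]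
    · rw [mul_assoc (x l), hcomm _ _ (hsub _ b.2), ← mul_assoc, mul_assoc (x l * b.1), hPP,
        if_pos rfl]
    · intro j _ hj
      rw [mul_assoc (x j), hcomm _ _ (hsub _ b.2), ← mul_assoc, mul_assoc (x j * b.1), hPP,
        if_neg (fun h => hj (Fin.ext h)), mul_zero, map_zero]
    · intro h
      exact absurd (Finset.mem_univ l) h
  have h3 : LinearMap.ker (wsum P S m c) = ⊥ := by
    rw [LinearMap.ker_eq_bot']
    intro f hf0
    have hf : ∀ j : Fin m, ∃ x ∈ Submodule.span K S, formLin (P j) S x = (f j).1 :=
      fun j => Submodule.mem_map.1 (f j).2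
    choose x hx hxf using hf
    have h4 : ∀ b ∈ Submodule.span K S,
        ∑ j : Fin m, c j * LinearMap.trace K V (x j * b * P j) = 0 := by
      intro b hb
      induction hb using Submodule.span_induction with
      | mem b hb =>
        have h5 := congrFun hf0 ⟨b, hb⟩
        rw [wsum, LinearMap.sum_apply, Finset.sum_apply] at h5
        refine Eq.trans (Finset.sum_congr rfl fun j _ => ?_) h5
        change _ = c j * (f j).1 ⟨b, hb⟩
        rw [← hxf j]
        rfl
      | zero => simp
      | add b b' _ _ hb hb' =>
        have : ∀ j : Fin m, c j * LinearMap.trace K V (x j * (b + b') * P j) =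
            c j * LinearMap.trace K V (x j * b * P j) +
            c j * LinearMap.trace K V (x j * b' * P j) := by
          intro j
          rw [mul_add, add_mul, map_add, mul_add]
        simp only [this]
        rw [Finset.sum_add_distrib, hb, hb', add_zero]
      | smul r b _ hb =>
        have : ∀ j : Fin m, c j * LinearMap.trace K V (x j * (r • b) * P j) =
            r * (c j * LinearMap.trace K V (x j * b * P j)) := by
          intro j
          rw [mul_smul_comm, smul_mul_assoc, map_smul, smul_eq_mul]
          ring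
        simp only [this]
        rw [← Finset.mul_sum, hb, mul_zero]
    funext l
    apply Subtype.ext
    rw [← hxf l]
    funext b
    have h5 := h4 (b.1 * P l) (hmul _ (hsub _ b.2) _ (hP l l.2))
    rw [Finset.sum_eq_single l] at h5
    · have h6 := (mul_eq_zero.1 h5).resolve_left (hc l)
      rw [← mul_assoc, mul_assoc (x l * b.1), hPP, if_pos rfl] at h6
      exact h6
    · intro j _ hj
      rw [← mul_assoc, mul_assoc (x j * b.1), hPP, if_neg (fun h => hj (Fin.ext h).symm),
        mul_zero, map_zero, mul_zero]
    · intro h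
      exact absurd (Finset.mem_univ l) h
  rw [← finrank_target P S m, formRank_eq, h1, LinearMap.range_comp, h2, Submodule.map_top]
  exact LinearMap.finrank_range_of_inj (LinearMap.ker_eq_bot.1 h3)

end Alg

variable {k : Type u} [Field k] {𝒱 : VarClass k} {ops : CycleOps 𝒱} {X : 𝒱.Obj}
  {W : WeilCohomology.{u, v} ops}

lemma par_eq_sum (W : WeilCohomology.{u, v} ops) (X : 𝒱.Obj) :
    par (W.isInternal X) =
      ∑ j ∈ range (2 * X.dim + 1), (-1 : W.K) ^ j • proj (W.isInternal X) j := by
  apply gr_ext (W.isInternal X)
  intro i a ha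
  rw [par, scal_apply _ _ ha, LinearMap.sum_apply]
  by_cases hi : i < 2 * X.dim + 1
  · rw [Finset.sum_eq_single i]
    · rw [LinearMap.smul_apply, proj_same _ ha]
    · intro j _ hj
      rw [LinearMap.smul_apply, proj_ne _ ha (Ne.symm hj), smul_zero]
    · intro h
      exact absurd (Finset.mem_range.2 hi) h
  · rw [W.gr_eq_bot X i (by omega), Submodule.mem_bot] at ha
    subst ha
    simp

lemma span_corrOps_eq (W : WeilCohomology.{u, v} ops) (X : 𝒱.Obj) :
    Submodule.span W.K (corrOps W X) =
      (spanCycles W (X.prod X) X.dim).map (Pool.Agent.W534.corrL W X X) := by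
  rw [spanCycles, Submodule.map_span]
  congr 1
  apply Set.ext
  intro T
  constructor
  · rintro ⟨z, hz, rfl⟩
    exact ⟨_, ⟨X.dim, rfl, z, hz, rfl⟩, rfl⟩
  · rintro ⟨_, ⟨p, hp, z, hz, rfl⟩, rfl⟩
    obtain rfl : p = X.dim := by exact_mod_cast hp
    exact ⟨z, hz, rfl⟩

lemma spanCycles_swap {c : W.H (X.prod X)} (hc : c ∈ spanCycles W (X.prod X) X.dim) :
    W.map (swap X X) c ∈ spanCycles W (X.prod X) X.dim := by
  induction hc using Submodule.span_induction with
  | mem c hc =>
    obtain ⟨p, hp, z, hz, rfl⟩ := hc
    refine Submodule.subset_span ⟨p, hp, ops.pull (swap X X) z, ops.pull_mem _ hz, ?_⟩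
    rw [W.cl_pull]
  | zero => rw [map_zero]; exact Submodule.zero_mem _
  | add x y _ _ hx hy => rw [map_add]; exact Submodule.add_mem _ hx hy
  | smul a x _ hx => rw [map_smul]; exact Submodule.smul_mem _ _ hx

/-- The rank of the supertrace form is the rank of the cycles modulo numerical equivalence. -/
theorem formRank_par (W : WeilCohomology.{u, v} ops) (X : 𝒱.Obj) :
    formRank (par (W.isInternal X)) (corrOps W X) = numCorrRank ops X := by
  have hdim : (X.prod X).dim - X.dim = X.dim := by rw [dim_prod]; omega
  rw [numCorrRank, Pool.Agent.W534.numRank_eq (W := W) (by rw [dim_prod]; omega), hdim,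
    Pool.Agent.W534.kRank, formRank_eq]
  set A := Submodule.span W.K (corrOps W X) with hA
  set C := spanCycles W (X.prod X) (X.dim : ℤ) with hC
  have hval : ∀ γ ∈ C, ∀ δ ∈ C, W.tr (X.prod X) (γ * δ) =
      LinearMap.trace W.K _ (W.corr γ * W.corr (W.map (swap X X) δ) * par (W.isInternal X)) := by
    intro γ hγ δ _
    rw [tr_mul_eq_trace (p := X.dim) (span_gr hγ), mul_assoc,
      LinearMap.trace_mul_comm]
  -- the map from the classes
  set g : C →ₗ[W.K] (corrOps W X → W.K) :=
    formLin (par (W.isInternal X)) (corrOps W X) ∘ₗ (Pool.Agent.W534.corrL W X X) ∘ₗ C.subtype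
    with hg
  have h1 : A.map (formLin (par (W.isInternal X)) (corrOps W X)) = LinearMap.range g := by
    rw [hA, span_corrOps_eq, hg, LinearMap.range_comp, LinearMap.range_comp,
      Submodule.range_subtype]
  have hker : LinearMap.ker g = LinearMap.ker (Pool.Agent.W534.pair W (X.prod X) X.dim X.dim) := by
    ext γ
    rw [LinearMap.mem_ker, LinearMap.mem_ker]
    constructor
    · intro h0
      have h2 : ∀ b ∈ A, LinearMap.trace W.K _ (W.corr γ.1 * b * par (W.isInternal X)) = 0 := by
        intro b hb
        induction hb using Submodule.span_induction with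
        | mem b hb => exact congrFun h0 ⟨b, hb⟩
        | zero => rw [mul_zero, zero_mul, map_zero]
        | add x y _ _ hx hy => rw [mul_add, add_mul, map_add, hx, hy, add_zero]
        | smul c x _ hx => rw [mul_smul_comm, smul_mul_assoc, map_smul, hx, smul_zero]
      apply LinearMap.ext
      intro δ
      rw [Pool.Agent.W534.pair_apply, LinearMap.zero_apply, hval _ γ.2 _ δ.2]
      apply h2
      rw [hA, span_corrOps_eq]
      exact ⟨_, spanCycles_swap δ.2, rfl⟩
    · intro h0
      funext b
      obtain ⟨z, hz, hb⟩ := b.2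
      have h3 : W.map (swap X X) (W.cl _ z) ∈ C :=
        spanCycles_swap (Submodule.subset_span ⟨X.dim, rfl, z, hz, rfl⟩)
      have h2 := congrArg (fun F => F ⟨_, h3⟩) h0
      beta_reduce at h2
      rw [Pool.Agent.W534.pair_apply, LinearMap.zero_apply, hval _ γ.2 _ h3,
        map_swap_swap] at h2
      change LinearMap.trace W.K _ (W.corr γ.1 * b.1 * par (W.isInternal X)) = 0
      rw [hb]
      exact h2
  have h4 := LinearMap.finrank_range_add_finrank_ker g
  have h5 := LinearMap.finrank_range_add_finrank_ker
    (Pool.Agent.W534.pair W (X.prod X) X.dim X.dim)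
  rw [hker] at h4
  rw [h1]
  exact Nat.add_right_cancel (h4.trans h5.symm)

end Pool.Agent.R907
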