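import Pool.Agent.R907.Kun

/-!
# One system of cycles for the Künneth projectors
-/

open CategoryTheory AlgebraicGeometry Finset Polynomial

set_option linter.unusedSectionVars false

universe u₁ v₁ u v

namespace Pool.Agent.R907

open Pool.Agent.H914 Pool.Agent.H447 Pool.Agent.W537 Pool.Agent.Y106.One VarClass Obj
  WeilCohomology

variable {k : Type u} [Field k] {𝒱 : VarClass k} {ops : CycleOps 𝒱} {X : 𝒱.Obj}
  {W W' : WeilCohomology.{u, v} ops}

lemma betti_eq_of_same {j : ℕ} (hT : SameTraces X j W W') : W'.betti X j = W.betti X j := by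
  obtain ⟨t, ht, ht'⟩ := hT _ Realized.one
  rw [mul_one, trace_proj] at ht ht'
  have e1 : (W.betti X j : ℚ) = t := by exact_mod_cast ht
  have e2 : (W'.betti X j : ℚ) = t := by exact_mod_cast ht'
  have : (W'.betti X j : ℚ) = W.betti X j := by rw [e1, e2]
  exact_mod_cast this

/-- A correspondence all powers of which have the trace of the identity is unipotent, in all
theories. -/
lemma unip_of_traces {j : ℕ} (hT : SameTraces X j W W') {z : Fam.{u, v} ops X}
    (hz : Realized ops X 0 z)
    (h : ∀ r : ℕ, LinearMap.trace W.K (W.H X) (proj (W.isInternal X) j * z W ^ (r + 1)) =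
      (W.betti X j : W.K)) :
    ∀ a ∈ W'.gr X j, ((1 - z W') ^ (W.betti X j)) a = 0 := by
  intro a ha
  have hbetti := betti_eq_of_same hT
  have hcomm := real_comm hz W' j
  have hpp : ∀ r : ℕ, (proj (W'.isInternal X) j * z W') ^ (r + 1) =
      proj (W'.isInternal X) j * z W' ^ (r + 1) := by
    intro r
    rw [hcomm.mul_pow]
    congr 1
    induction r with
    | zero => simp
    | succ r ih => rw [pow_succ, ih, proj_mul_proj]
  set E := proj (W'.isInternal X) j * z W' with hE
  have hPE : proj (W'.isInternal X) j * E = E := by rw [hE, ← mul_assoc, proj_mul_proj]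
  have hEP : E * proj (W'.isInternal X) j = E := by
    rw [hE, mul_assoc, ← hcomm.eq, ← mul_assoc, proj_mul_proj]
  have htr : ∀ r : ℕ, LinearMap.trace W'.K (W'.H X) (E ^ (r + 1)) =
      Module.finrank W'.K (W'.gr X j) := by
    intro r
    obtain ⟨t, ht, ht'⟩ := hT _ (hz.pow0 (r + 1))
    beta_reduce at ht ht'
    rw [h r] at ht
    rw [hpp, ht']
    have e1 : (W.betti X j : ℚ) = t := by exact_mod_cast ht
    rw [← e1, ← hbetti]
    push_cast
    rfl
  have hun := unipotent_of_trace_pow (W'.isInternal X) hPE hEP htr (M := W.betti X j)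
    (le_of_eq hbetti) a ha
  have hkey : ∀ m : ℕ, ((1 - E) ^ m) a = ((1 - z W') ^ m) a ∧
      ((1 - z W') ^ m) a ∈ W'.gr X j := by
    intro m
    induction m with
    | zero => exact ⟨rfl, by simpa using ha⟩
    | succ m ih =>
      obtain ⟨h1, h2⟩ := ih
      have h3 : z W' (((1 - z W') ^ m) a) ∈ W'.gr X j := real_mem hz W' h2
      refine ⟨?_, ?_⟩
      · rw [pow_succ', pow_succ', Module.End.mul_apply, Module.End.mul_apply, h1,
          LinearMap.sub_apply, LinearMap.sub_apply, Module.End.one_apply, hE,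
          Module.End.mul_apply, proj_same _ h3]
      · rw [pow_succ', Module.End.mul_apply, LinearMap.sub_apply, Module.End.one_apply]
        exact Submodule.sub_mem _ h2 h3
  rw [(hkey _).1] at hun
  exact hun

/-- Rational traces descend combinations, in all degrees at the same time. -/
lemma exists_ret_all (hT : ∀ j, SameTraces X j W W) (ret : W.K →ₗ[ℚ] ℚ)
    {A : Module.End W.K (W.H X)} (hA : A ∈ Submodule.span W.K (corrOps W X)) :
    ∀ κ : W.K, ∃ y : Fam.{u, v} ops X, Realized ops X 0 y ∧ ∀ j, ∀ b, Realized ops X 0 b →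
      LinearMap.trace W.K (W.H X) (proj (W.isInternal X) j * (y W * b W)) =
        ((ret (κ * LinearMap.trace W.K (W.H X)
          (proj (W.isInternal X) j * (A * b W))) : ℚ) : W.K) := by
  induction hA using Submodule.span_induction with
  | mem y hy =>
    intro κ
    obtain ⟨F, hF, rfl⟩ := mem_corrOps_iff.1 hy
    refine ⟨_, hF.smul (ret κ), fun j b hb => ?_⟩
    obtain ⟨t, ht⟩ := exists_rat (hT j) ((hF.mul hb).cast (zero_add 0))
    rw [smul_mul_assoc, mul_smul_comm, map_smul, ht, ret_mul, smul_eq_mul]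
    push_cast
    rfl
  | zero =>
    intro κ
    refine ⟨_, Realized.zero 0, fun j b _ => ?_⟩
    simp
  | add x y _ _ hx hy =>
    intro κ
    obtain ⟨x', hx', hx2⟩ := hx κ
    obtain ⟨y', hy', hy2⟩ := hy κ
    refine ⟨_, hx'.add hy', fun j b hb => ?_⟩
    rw [add_mul, mul_add, map_add, hx2 j b hb, hy2 j b hb, add_mul, mul_add, map_add, mul_add,
      map_add]
    push_cast
    rfl
  | smul κ' x _ hx =>
    intro κ
    obtain ⟨x', hx', hx2⟩ := hx (κ * κ')
    refine ⟨x', hx', fun j b hb => ?_⟩
    rw [hx2 j b hb, smul_mul_assoc, mul_smul_comm, map_smul, smul_eq_mul, mul_assoc]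

/-- From traces to the Künneth projector, in all theories. -/
theorem exists_projector {i : ℕ} {y : Fam.{u, v} ops X} (hy : Realized ops X 0 y)
    (h : ∀ j, ∀ b, Realized ops X 0 b →
      LinearMap.trace W.K (W.H X) (proj (W.isInternal X) j * (y W * b W)) =
        if j = i then LinearMap.trace W.K (W.H X) (proj (W.isInternal X) j * b W) else 0) :
    ∃ z : Fam.{u, v} ops X, Realized ops X 0 z ∧
      ∀ W' : WeilCohomology.{u, v} ops, (∀ j, SameTraces X j W W') →
        IsProjector (W'.gr X) i (z W') := by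
  set N := ∑ j ∈ range (2 * X.dim + 1), W.betti X j with hN
  have hle : ∀ j, W.betti X j ≤ N := by
    intro j
    by_cases hj : j < 2 * X.dim + 1
    · exact Finset.single_le_sum (f := fun j => W.betti X j) (fun _ _ => Nat.zero_le _)
        (Finset.mem_range.2 hj)
    · rw [WeilCohomology.betti, W.gr_eq_bot X j (by omega), finrank_bot]
      exact Nat.zero_le _
  have h1 : ∀ r : ℕ, LinearMap.trace W.K (W.H X) (proj (W.isInternal X) i * y W ^ r) =
      (W.betti X i : W.K) := by
    intro r
    induction r with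
    | zero => rw [pow_zero, mul_one, trace_proj]; rfl
    | succ r ih => rw [pow_succ', h i _ (hy.pow0 r), if_pos rfl, ih]
  have he : Realized ops X 0 (fun W : WeilCohomology.{u, v} ops => 1 - y W) :=
    Realized.one.sub hy
  have h2 : ∀ j, j ≠ i → ∀ r : ℕ,
      LinearMap.trace W.K (W.H X) (proj (W.isInternal X) j * (1 - y W) ^ r) =
      (W.betti X j : W.K) := by
    intro j hj r
    induction r with
    | zero => rw [pow_zero, mul_one, trace_proj]; rfl
    | succ r ih =>
      have h3 := h j _ (he.pow0 r)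
      rw [if_neg hj] at h3
      beta_reduce at h3
      rw [pow_succ', sub_mul, one_mul, mul_sub, map_sub, h3, sub_zero, ih]
  refine ⟨fun W => 1 - (1 - y W ^ N) ^ N, Realized.one.sub
    ((Realized.one.sub (hy.pow0 N)).pow0 N), fun W' hT j a ha => ?_⟩
  beta_reduce
  by_cases hj : j = i
  · subst hj
    rw [if_pos rfl]
    have h3 := unip_of_traces (hT j) hy (fun r => h1 (r + 1)) a ha
    have h4 : ((1 - y W') ^ N) a = 0 := by
      rw [← Nat.sub_add_cancel (hle j), pow_add, Module.End.mul_apply, h3, map_zero]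
    have h5 : (1 - y W' ^ N) ^ N = (∑ k ∈ range N, y W' ^ k) ^ N * (1 - y W') ^ N := by
      have h6 : 1 - y W' ^ N = (∑ k ∈ range N, y W' ^ k) * (1 - y W') :=
        (geom_sum_mul_neg (y W') N).symm
      have h7 : Commute (∑ k ∈ range N, y W' ^ k) (1 - y W') := by
        apply Commute.sum_left
        intro k _
        exact (Commute.one_right _).sub_right (Commute.pow_self _ _)
      rw [h6, h7.mul_pow]
    rw [LinearMap.sub_apply, h5, Module.End.mul_apply, h4, map_zero, sub_zero]
    rfl
  · rw [if_neg hj]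
    have h3 := unip_of_traces (hT j) he (fun r => h2 j hj (r + 1)) a ha
    beta_reduce at h3
    rw [sub_sub_cancel] at h3
    have h4 : (y W' ^ N) a = 0 := by
      rw [← Nat.sub_add_cancel (hle j), pow_add, Module.End.mul_apply, h3, map_zero]
    have h5 : ∀ m : ℕ, ((1 - y W' ^ N) ^ m) a = a := by
      intro m
      induction m with
      | zero => rfl
      | succ m ih =>
        rw [pow_succ, Module.End.mul_apply, LinearMap.sub_apply, h4, sub_zero]
        exact ih
    rw [LinearMap.sub_apply, h5, Module.End.one_apply, sub_self]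

variable {k₀ : Type u₁} [Field k₀] {𝒱₀ : VarClass k₀} {ops₀ : CycleOps 𝒱₀}

lemma proj_mul_ne (W : WeilCohomology.{u, v} ops) (X : 𝒱.Obj) {i j : ℕ} (hij : i ≠ j) :
    proj (W.isInternal X) i * proj (W.isInternal X) j = 0 := by
  apply LinearMap.ext
  intro a
  rw [Module.End.mul_apply, proj_ne _ (proj_mem _ j a) (Ne.symm hij), LinearMap.zero_apply]

/-- From traces with coefficients in the coefficient field to one cycle for all theories. -/
theorem oneSystem_of_traces (R : Reduction X 𝒱₀) (hW : Reduction.Pure.{u₁, v₁} R ops₀ W) {i : ℕ}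
    {a : Module.End W.K (W.H X)} (ha : a ∈ Submodule.span W.K (corrOps W X))
    (h : ∀ j, ∀ b ∈ corrOps W X,
      LinearMap.trace W.K _ (a * b * proj (W.isInternal X) j) =
        if j = i then LinearMap.trace W.K _ (b * proj (W.isInternal X) j) else 0) :
    ∃ z, (X.prod X).IsCyc X.dim z ∧ ∀ W' : WeilCohomology.{u, v} ops,
      Reduction.Pure.{u₁, v₁} R ops₀ W' → InducesProjector W' X i z := by
  obtain ⟨ret, hret⟩ := exists_retract W.K
  obtain ⟨y, hy, hytr⟩ := exists_ret_all (fun j => sameTraces_of_reduction R hW hW j) ret ha 1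
  obtain ⟨z, hz, hz2⟩ := exists_projector (W := W) (i := i) hy (by
    intro j b hb
    rw [hytr j b hb, one_mul, LinearMap.trace_mul_comm, h j _ (mem_corrOps_iff.2 ⟨b, hb, rfl⟩)]
    by_cases hj : j = i
    · obtain ⟨t, ht⟩ := exists_rat (sameTraces_of_reduction R hW hW j) hb
      rw [if_pos hj, if_pos hj, LinearMap.trace_mul_comm, ht, ret_ratCast hret]
    · rw [if_neg hj, if_neg hj, map_zero, Rat.cast_zero])
  rcases hz with ⟨p, hp, z', hz', hzz⟩ | ⟨hd, _⟩
  · obtain rfl : p = X.dim := by omega
    refine ⟨z', hz', fun W' hW' => ?_⟩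
    rw [InducesProjector, ← hzz W']
    exact hz2 W' (fun j => sameTraces_of_reduction R hW hW' j)
  · omega

lemma kunnethOverK_iff : KunnethOverK W X ↔
    ∀ i ≤ 2 * X.dim, proj (W.isInternal X) i ∈ Submodule.span W.K (corrOps W X) := by
  refine forall_congr' fun i => forall_congr' fun _ => ?_
  rw [span_corrOps_eq]
  constructor
  · rintro ⟨γ, hγ, h⟩
    exact ⟨γ, hγ, (isProjector_iff (W.isInternal X) i).1 h⟩
  · rintro ⟨γ, hγ, h⟩
    exact ⟨γ, hγ, (isProjector_iff (W.isInternal X) i).2 h⟩

/-- The numerical rank is at most the sum of the ranks of the trace forms. -/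
theorem numCorrRank_le (P : ℕ → Module.End W.K (W.H X))
    (hP : ∀ i, IsProjector (W.gr X) i (P i)) :
    numCorrRank ops X ≤ ∑ i ∈ range (2 * X.dim + 1), formRank (P i) (corrOps W X) := by
  have hP' : P = fun i => proj (W.isInternal X) i :=
    funext fun i => (isProjector_iff (W.isInternal X) i).1 (hP i)
  subst hP'
  rw [← formRank_par W X]
  exact formRank_le_sum _ _ _ _ (par_eq_sum W X)

/-- **The Künneth conjecture in terms of ranks.** -/
theorem kunneth_tfae (R : Reduction X 𝒱₀) (hW : Reduction.Pure.{u₁, v₁} R ops₀ W)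
    (P : ℕ → Module.End W.K (W.H X)) (hP : ∀ i, IsProjector (W.gr X) i (P i)) :
    List.TFAE [
      OneKunnethSystem.{u, v} (ops := ops) (Reduction.Pure.{u₁, v₁} R ops₀) X,
      KunnethOverK W X,
      numCorrRank ops X = ∑ i ∈ range (2 * X.dim + 1), formRank (P i) (corrOps W X)] := by
  classical
  have hP' : P = fun i => proj (W.isInternal X) i :=
    funext fun i => (isProjector_iff (W.isInternal X) i).1 (hP i)
  subst hP'
  have hPP : ∀ i j, proj (W.isInternal X) i * proj (W.isInternal X) j =
      if i = j then proj (W.isInternal X) i else 0 := by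
    intro i j
    by_cases hij : i = j
    · subst hij
      rw [if_pos rfl, proj_mul_proj]
    · rw [if_neg hij, proj_mul_ne W X hij]
  have hcomb : (∀ i ≤ 2 * X.dim, ∃ z, (X.prod X).IsCyc X.dim z ∧
      ∀ W' : WeilCohomology.{u, v} ops, Reduction.Pure.{u₁, v₁} R ops₀ W' →
        InducesProjector W' X i z) →
      OneKunnethSystem.{u, v} (ops := ops) (Reduction.Pure.{u₁, v₁} R ops₀) X := by
    intro h
    choose! Δ hΔ hΔ2 using h
    exact ⟨Δ, fun i hi => ⟨hΔ i hi, hΔ2 i hi⟩⟩
  tfae_have 1 → 2 := by
    rintro ⟨Δ, hΔ⟩ i hi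
    exact ⟨W.cl _ (Δ i), Submodule.subset_span ⟨X.dim, rfl, Δ i, (hΔ i hi).1, rfl⟩,
      (hΔ i hi).2 W hW⟩
  tfae_have 2 → 1 := by
    intro h
    rw [kunnethOverK_iff] at h
    refine hcomb fun i hi => oneSystem_of_traces R hW (h i hi) fun j b hb => ?_
    rw [corrOps_comm (Submodule.subset_span hb), mul_assoc, hPP]
    by_cases hj : j = i
    · rw [if_pos hj, if_pos hj.symm, hj]
    · rw [if_neg hj, if_neg (Ne.symm hj), mul_zero, map_zero]
  tfae_have 2 → 3 := by
    intro h
    rw [kunnethOverK_iff] at h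
    rw [← formRank_par W X]
    exact formRank_eq_sum _ _ _ _ (par_eq_sum W X) (fun j => pow_ne_zero _ (by norm_num))
      (fun a ha b hb => span_corrOps_mul ha hb) (fun j hj => h j (by omega))
      (fun j a ha => corrOps_comm ha) hPP
  tfae_have 3 → 1 := by
    intro h
    refine hcomb fun i hi => ?_
    rw [← formRank_par W X] at h
    obtain ⟨a, ha, ha2⟩ := exists_joint _ _ _ _ (par_eq_sum W X) h
      (fun j => if j = i then 1 else 0) (fun j => by
        by_cases hj : j = i
        · rw [if_pos hj]; exact Submodule.subset_span one_mem_corrOps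
        · rw [if_neg hj]; exact Submodule.zero_mem _)
    refine oneSystem_of_traces R hW ha fun j b hb => ?_
    by_cases hjm : j < 2 * X.dim + 1
    · rw [ha2 j hjm b hb]
      by_cases hj : j = i
      · rw [if_pos hj, if_pos hj, one_mul]
      · rw [if_neg hj, if_neg hj, zero_mul, zero_mul, map_zero]
    · have h0 : proj (W.isInternal X) j = 0 := by
        apply LinearMap.ext
        intro x
        have := proj_mem (W.isInternal X) j x
        rw [W.gr_eq_bot X j (by omega), Submodule.mem_bot] at this
        rw [this, LinearMap.zero_apply]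
      rw [h0, mul_zero, mul_zero, map_zero, ite_self]
  tfae_finish

end Pool.Agent.R907
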