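import Pool.Agent.R907.PartDefs
import Pool.Agent.R907.KunDefs

/-!
# Maximal partial Künneth projectors: definitions
-/

open CategoryTheory AlgebraicGeometry

universe u₁ v₁ u v

namespace Pool.Agent.R907

open Pool.Agent.H914 Pool.Agent.Y106.One VarClass Obj WeilCohomology

variable {k : Type u} [Field k] {𝒱 : VarClass k} {ops : CycleOps 𝒱}

/-- The operator `T` is zero on `H^j(X)` for all `j ≠ i`. -/
def ZeroOutside (W : WeilCohomology.{u, v} ops) (X : 𝒱.Obj) (i : ℕ)
    (T : Module.End W.K (W.H X)) : Prop :=
  ∀ j, j ≠ i → ∀ a ∈ W.gr X j, T a = 0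

/-- The cycle `z` acts as zero on `H^j(X)` for all `j ≠ i`, and as an idempotent operator on
`H^i(X)` with an image of dimension `r`. -/
def ProjectsInto (W : WeilCohomology.{u, v} ops) (X : 𝒱.Obj) (i : ℕ) (z : (X.prod X).Cycles)
    (r : ℕ) : Prop :=
  ZeroOutside W X i (Pool.Agent.W537.cycOp W X z) ∧
    ProjectsRank (W.gr X i) (Pool.Agent.W537.cycOp W X z) r

/-- Every linear combination `γ` of classes of cycles of codimension `dim X` on `X × X`, with
coefficients in the coefficient field of `W`, which acts as zero on `H^j(X)` for all `j ≠ i`, has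
at most `r` nonzero eigenvalues on `H^i(X)`, with multiplicities. -/
def BoundsProjectors (W : WeilCohomology.{u, v} ops) (X : 𝒱.Obj) (i r : ℕ) : Prop :=
  ∀ γ ∈ spanCycles W (X.prod X) X.dim, ZeroOutside W X i (W.corr γ) →
    StableRankLE (W.gr X i) (W.corr γ) r

/-- The cycles `z i`, `0 ≤ i ≤ 2 dim X`, of codimension `dim X` on `X × X` with rational
coefficients, act as idempotents of rank `r i` on `H^i(X)` and as zero on the `H^j(X)` with `j ≠ i`,
for all theories with the property `P`, and for no such theory any combination of cycles with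
coefficients in the coefficient field does better. -/
def MaximalProjectors (P : WeilCohomology.{u, v} ops → Prop) (X : 𝒱.Obj)
    (z : ℕ → (X.prod X).Cycles) (r : ℕ → ℕ) : Prop :=
  ∀ i ≤ 2 * X.dim, (X.prod X).IsCyc X.dim (z i) ∧ ∀ W : WeilCohomology.{u, v} ops, P W →
    ProjectsInto W X i (z i) (r i) ∧ BoundsProjectors W X i (r i)

end Pool.Agent.R907
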