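import Pool.Agent.R907.Part
import Pool.Agent.R907.KunMaxDefs

/-!
# Maximal partial Künneth projectors
-/

open CategoryTheory AlgebraicGeometry Finset Polynomial

set_option linter.unusedSectionVars false

universe u₁ v₁ u v

namespace Pool.Agent.R907

open Pool.Agent.H914 Pool.Agent.H447 Pool.Agent.W537 Pool.Agent.Y106.One VarClass Obj
  WeilCohomology

variable {k : Type u} [Field k] {𝒱 : VarClass k} {ops : CycleOps 𝒱} {X : 𝒱.Obj}
  {W W' : WeilCohomology.{u, v} ops} {i : ℕ}
  {k₀ : Type u₁} [Field k₀] {𝒱₀ : VarClass k₀} {ops₀ : CycleOps 𝒱₀}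

/-- The correspondences whose traces vanish in all degrees different from `i`, for the theory
`W`. -/
def degIdeal (W : WeilCohomology.{u, v} ops) (X : 𝒱.Obj) (i : ℕ) : Set (Fam.{u, v} ops X) :=
  {T | Realized ops X 0 T ∧ ∀ j, j ≠ i → ∀ b : Fam.{u, v} ops X, Realized ops X 0 b →
    LinearMap.trace W.K _ (T W * b W * proj (W.isInternal X) j) = 0}

lemma degIdeal_isLeftIdeal (W : WeilCohomology.{u, v} ops) (X : 𝒱.Obj) (i : ℕ) :
    IsLeftIdeal (degIdeal W X i) where
  real := fun _ h => h.1
  zero := ⟨Realized.zero 0, fun j _ b _ => by rw [zero_mul, zero_mul, map_zero]⟩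
  add := by
    rintro T ⟨hT, h⟩ T' ⟨hT', h'⟩
    refine ⟨hT.add hT', fun j hj b hb => ?_⟩
    rw [add_mul, add_mul, map_add, h j hj b hb, h' j hj b hb, add_zero]
  smul := by
    rintro c T ⟨hT, h⟩
    refine ⟨hT.smul c, fun j hj b hb => ?_⟩
    rw [smul_mul_assoc, smul_mul_assoc, map_smul, h j hj b hb, smul_zero]
  left := by
    rintro S hS T ⟨hT, h⟩
    refine ⟨(hS.mul hT).cast (zero_add 0), fun j hj b hb => ?_⟩
    have h1 := h j hj _ ((hb.mul hS).cast (zero_add 0))
    beta_reduce at h1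
    have hc : proj (W.isInternal X) j * S W = S W * proj (W.isInternal X) j := real_comm hS W j
    rw [mul_assoc, mul_assoc, LinearMap.trace_mul_comm, ← h1]
    congr 1
    rw [← mul_assoc (T W) (b W), mul_assoc, hc, ← mul_assoc, mul_assoc (T W)]

/-- The traces of the elements of the ideal vanish for the other theories. -/
lemma degIdeal_traces (hT : ∀ j, SameTraces X j W W') {T : Fam.{u, v} ops X}
    (h : T ∈ degIdeal W X i) {j : ℕ} (hj : j ≠ i) {b : Fam.{u, v} ops X}
    (hb : Realized ops X 0 b) :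
    LinearMap.trace W'.K _ (T W' * b W' * proj (W'.isInternal X) j) = 0 := by
  have h1 := trace_eq_of_same (hT j) ((h.1.mul hb).cast (zero_add 0)) (Realized.zero (X := X) 0)
    (by beta_reduce; rw [h.2 j hj b hb, zero_mul, map_zero])
  beta_reduce at h1
  rw [h1, zero_mul, map_zero]

/-- **Maximal partial Künneth projectors in one degree.** -/
theorem exists_maximalProjector (R : Reduction X 𝒱₀) {W₁ : WeilCohomology.{u, v} ops}
    (hW₁ : Reduction.Pure.{u₁, v₁} R ops₀ W₁) (i : ℕ) :
    ∃ (z : (X.prod X).Cycles) (r : ℕ), (X.prod X).IsCyc X.dim z ∧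
      ∀ W : WeilCohomology.{u, v} ops, Reduction.Pure.{u₁, v₁} R ops₀ W →
        ProjectsInto W X i z r ∧ BoundsProjectors W X i r := by
  have hsame : ∀ {W W' : WeilCohomology.{u, v} ops}, Reduction.Pure.{u₁, v₁} R ops₀ W →
      Reduction.Pure.{u₁, v₁} R ops₀ W' → ∀ j, SameTraces X j W W' :=
    fun hW hW' j => sameTraces_of_reduction R hW hW' j
  have hJ := degIdeal_isLeftIdeal W₁ X i
  obtain ⟨E, hEJ, hE⟩ := exists_maximal hJ (hsame hW₁ hW₁ i)
  have hEr := hJ.real E hEJ
  have hu : ∀ W : WeilCohomology.{u, v} ops, Reduction.Pure.{u₁, v₁} R ops₀ W →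
      IsUnit' (degIdeal W₁ X i) i E W := fun W hW => hE W (hsame hW₁ hW i)
  set N := ∑ j ∈ range (2 * X.dim + 1), W₁.betti X j with hN
  have hle : ∀ j, W₁.betti X j ≤ N := by
    intro j
    by_cases hj : j < 2 * X.dim + 1
    · exact Finset.single_le_sum (f := fun j => W₁.betti X j) (fun _ _ => Nat.zero_le _)
        (Finset.mem_range.2 hj)
    · rw [WeilCohomology.betti, W₁.gr_eq_bot X j (by omega), finrank_bot]
      exact Nat.zero_le _
  -- nilpotency in the other degrees
  have hez : Realized ops X 0 (fun W : WeilCohomology.{u, v} ops => 1 - E W) :=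
    Realized.one.sub hEr
  have hzero : ∀ W : WeilCohomology.{u, v} ops, Reduction.Pure.{u₁, v₁} R ops₀ W →
      ∀ j, j ≠ i → ∀ a ∈ W.gr X j, (E W ^ (N + 1)) a = 0 := by
    intro W hW j hj a ha
    have hzpow : ∀ r : ℕ, LinearMap.trace W₁.K (W₁.H X)
        (proj (W₁.isInternal X) j * (1 - E W₁) ^ r) = (W₁.betti X j : W₁.K) := by
      intro r
      induction r with
      | zero => rw [pow_zero, mul_one, trace_proj]; rfl
      | succ r ih =>
        have h3 := hEJ.2 j hj _ (hez.pow0 r)
        beta_reduce at h3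
        rw [LinearMap.trace_mul_comm] at h3
        rw [pow_succ', sub_mul, one_mul, mul_sub, map_sub, h3, sub_zero, ih]
    have h3 := unip_of_traces (hsame hW₁ hW j) hez (fun r => hzpow (r + 1)) a ha
    beta_reduce at h3
    rw [sub_sub_cancel] at h3
    have h4 : N + 1 = (N + 1 - W₁.betti X j) + W₁.betti X j := by have := hle j; omega
    rw [h4, pow_add, Module.End.mul_apply, h3, map_zero]
  have hsameE : ∀ W : WeilCohomology.{u, v} ops, Reduction.Pure.{u₁, v₁} R ops₀ W →
      ∀ a ∈ W.gr X i, (E W ^ (N + 1)) a = E W a := by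
    intro W hW a ha
    have h1 : ∀ m : ℕ, (E W ^ (m + 1)) a = E W a := by
      intro m
      induction m with
      | zero => rw [zero_add, pow_one]
      | succ m ih => rw [pow_succ', Module.End.mul_apply, ih, (hu W hW).idem a ha]
    exact h1 N
  have hFr : Realized ops X 0 (fun W : WeilCohomology.{u, v} ops => E W ^ (N + 1)) :=
    hEr.pow0 (N + 1)
  obtain ⟨z, hz, hEz⟩ : ∃ z, (X.prod X).IsCyc X.dim z ∧
      ∀ W : WeilCohomology.{u, v} ops, E W ^ (N + 1) = cycOp W X z := by
    rcases hFr with ⟨p, hp, z, hz, hF⟩ | ⟨hd, _⟩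
    · obtain rfl : p = X.dim := by omega
      exact ⟨z, hz, hF⟩
    · omega
  set r := Module.finrank W₁.K ((W₁.gr X i).map (E W₁)) with hr
  have hrank : ∀ W : WeilCohomology.{u, v} ops, Reduction.Pure.{u₁, v₁} R ops₀ W →
      Module.finrank W.K ((W.gr X i).map (E W)) = r := fun W hW =>
    finrank_eq_of_same hEr (hsame hW₁ hW i) (hu W₁ hW₁).idem (hu W hW).idem
  have hmap : ∀ W : WeilCohomology.{u, v} ops, Reduction.Pure.{u₁, v₁} R ops₀ W →
      (W.gr X i).map (cycOp W X z) = (W.gr X i).map (E W) := by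
    intro W hW
    rw [← hEz]
    apply le_antisymm
    · rintro _ ⟨a, ha, rfl⟩
      exact ⟨a, ha, (hsameE W hW a ha).symm⟩
    · rintro _ ⟨a, ha, rfl⟩
      exact ⟨a, ha, hsameE W hW a ha⟩
  refine ⟨z, r, hz, fun W hW => ⟨⟨?_, ?_, ?_⟩, ?_⟩⟩
  · intro j hj a ha
    rw [← hEz]
    exact hzero W hW j hj a ha
  · intro a ha
    rw [← hEz, hsameE W hW a ha, hsameE W hW _ (real_mem hEr W ha), (hu W hW).idem a ha]
  · rw [hmap W hW]
    exact hrank W hW
  · intro γ hγ hγ0
    have hγA : W.corr γ ∈ Submodule.span W.K (corrOps W X) := by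
      rw [span_corrOps_eq]
      exact ⟨γ, hγ, rfl⟩
    obtain ⟨ret, hret⟩ := exists_retract W.K
    have key : ∀ b : Fam.{u, v} ops X, Realized ops X 0 b →
        LinearMap.trace W.K _ (W.corr γ * (1 - E W) * b W * proj (W.isInternal X) i) = 0 := by
      intro b hb
      by_contra hne
      set τ := LinearMap.trace W.K _ (W.corr γ * (1 - E W) * b W * proj (W.isInternal X) i)
        with hτ
      obtain ⟨y, hy, hytr⟩ := exists_ret_all (fun j => hsame hW hW j) ret hγA τ⁻¹
      have hyJ : y ∈ degIdeal W X i := by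
        refine ⟨hy, fun j hj c hc => ?_⟩
        rw [LinearMap.trace_mul_comm, hytr j c hc]
        have h1 : LinearMap.trace W.K _
            (proj (W.isInternal X) j * (W.corr γ * c W)) = 0 := by
          have h2 : proj (W.isInternal X) j * (W.corr γ * c W) = 0 := by
            rw [← mul_assoc, corrOps_comm hγA, mul_assoc]
            have h3 : W.corr γ * proj (W.isInternal X) j = 0 := by
              apply LinearMap.ext
              intro x
              rw [Module.End.mul_apply, hγ0 j hj _ (proj_mem _ j x), LinearMap.zero_apply]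
            rw [← mul_assoc, h3, zero_mul]
          rw [h2, map_zero]
        rw [h1, mul_zero, map_zero, Rat.cast_zero]
      have hyJ₁ : y ∈ degIdeal W₁ X i :=
        ⟨hy, fun j hj c hc => degIdeal_traces (hsame hW hW₁) hyJ hj hc⟩
      have h4 := (hu W hW).trace_zero hJ (f := y W) (g := b W)
        (Submodule.subset_span ⟨y, hyJ₁, rfl⟩)
        (Submodule.subset_span (mem_corrOps_iff.2 ⟨b, hb, rfl⟩))
      have h5 := hytr i _ ((hez.mul hb).cast (zero_add 0))
      beta_reduce at h5
      have h6 : LinearMap.trace W.K _ (proj (W.isInternal X) i * (y W * ((1 - E W) * b W))) =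
          0 := by
        rw [LinearMap.trace_mul_comm, ← mul_assoc (y W)]
        exact h4
      have h7 : LinearMap.trace W.K _
          (proj (W.isInternal X) i * (W.corr γ * ((1 - E W) * b W))) = τ := by
        rw [LinearMap.trace_mul_comm, ← mul_assoc (W.corr γ)]
      rw [h6, h7, inv_mul_cancel₀ hne, hret, Rat.cast_one] at h5
      exact zero_ne_one h5
    obtain ⟨m, hm⟩ := rank_le_of_trace_zero (i := i) (W := W) hEr hγA (fun g hg => by
      induction hg using Submodule.span_induction with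
      | mem g hg =>
        obtain ⟨b, hb, rfl⟩ := mem_corrOps_iff.1 hg
        exact key b hb
      | zero => rw [mul_zero, zero_mul, map_zero]
      | add x y _ _ hx hy => rw [mul_add, add_mul, map_add, hx, hy, add_zero]
      | smul c x _ hx => rw [mul_smul_comm, smul_mul_assoc, map_smul, hx, smul_zero])
    exact ⟨m, hm.trans (hrank W hW).le⟩

/-- **Maximal partial Künneth projectors for all theories at the same time.** -/
theorem exists_maximalProjectors (R : Reduction X 𝒱₀) :
    ∃ (z : ℕ → (X.prod X).Cycles) (r : ℕ → ℕ),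
      MaximalProjectors.{u, v} (ops := ops) (Reduction.Pure.{u₁, v₁} R ops₀) X z r ∧
      ∀ W : WeilCohomology.{u, v} ops, Reduction.Pure.{u₁, v₁} R ops₀ W →
        (OneKunnethSystem.{u, v} (ops := ops) (Reduction.Pure.{u₁, v₁} R ops₀) X ↔
          ∀ i ≤ 2 * X.dim, r i = W.betti X i) := by
  by_cases hex : ∃ W : WeilCohomology.{u, v} ops, Reduction.Pure.{u₁, v₁} R ops₀ W
  swap
  · push Not at hex
    exact ⟨fun _ => 0, fun _ => 0, fun i _ => ⟨SmVar.IsCyc.zero _ _, fun W hW =>
      absurd hW (hex W)⟩, fun W hW => absurd hW (hex W)⟩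
  obtain ⟨W₁, hW₁⟩ := hex
  choose z r hz hzr using fun i => exists_maximalProjector (ops₀ := ops₀) R hW₁ i
  refine ⟨z, r, fun i _ => ⟨hz i, hzr i⟩, fun W hW => ⟨?_, ?_⟩⟩
  · rintro ⟨Δ, hΔ⟩ i hi
    obtain ⟨hcyc, hproj⟩ := hΔ i hi
    have h1 : IsProjector (W.gr X) i (W.corr (W.cl _ (Δ i))) := hproj W hW
    have h2 : ∀ a ∈ W.gr X i, W.corr (W.cl _ (Δ i)) a = a := fun a ha => by
      rw [h1 i a ha, if_pos rfl]
    obtain ⟨m, hm⟩ := (hzr i W hW).2 (W.cl _ (Δ i))
      (Submodule.subset_span ⟨X.dim, rfl, Δ i, hcyc, rfl⟩)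
      (fun j hj a ha => by rw [h1 j a ha, if_neg hj])
    have h4 : ∀ m : ℕ, ∀ a ∈ W.gr X i, (W.corr (W.cl _ (Δ i)) ^ m) a = a := by
      intro m
      induction m with
      | zero => intro a _; rfl
      | succ m ih => intro a ha; rw [pow_succ, Module.End.mul_apply, h2 a ha, ih a ha]
    have h3 : (W.gr X i).map (W.corr (W.cl _ (Δ i)) ^ m) = W.gr X i := by
      apply le_antisymm
      · rintro _ ⟨a, ha, rfl⟩
        rw [h4 m a ha]
        exact ha
      · intro a ha
        exact ⟨a, ha, h4 m a ha⟩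
    rw [h3] at hm
    apply le_antisymm _ hm
    rw [← (hzr i W hW).1.2.2]
    exact Submodule.finrank_map_le _ _
  · intro h
    refine ⟨z, fun i hi => ⟨hz i, fun W' hW' => ?_⟩⟩
    have hb : r i = W'.betti X i := by
      rw [h i hi, betti_eq_of_same (sameTraces_of_reduction R hW hW' i)]
    obtain ⟨⟨h1, h2, h3⟩, -⟩ := hzr i W' hW'
    have hle : (W'.gr X i).map (cycOp W' X (z i)) ≤ W'.gr X i := by
      rintro _ ⟨b, hb, rfl⟩
      have hr : Realized ops X 0 (fun W : WeilCohomology.{u, v} ops => W.corr (W.cl _ (z i))) :=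
        Or.inl ⟨X.dim, by simp, z i, hz i, fun _ => rfl⟩
      exact real_mem hr W' hb
    have heq : (W'.gr X i).map (cycOp W' X (z i)) = W'.gr X i := by
      apply Submodule.eq_of_le_of_finrank_eq hle
      rw [h3, hb]
      rfl
    intro j a ha
    by_cases hj : j = i
    · subst hj
      rw [if_pos rfl]
      rw [← heq] at ha
      obtain ⟨b, hb, rfl⟩ := ha
      exact h2 b hb
    · rw [if_neg hj]
      exact h1 j hj a ha

end Pool.Agent.R907
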