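import Mathlib

/-!
# Corners of semisimple algebras
-/

namespace Pool.Agent.R907.Two

open Module

section Corner

variable {K S : Type*} [Field K] [Ring S] [Algebra K S]

/-- The corner `e S f`. -/
def corner (K : Type*) {S : Type*} [Field K] [Ring S] [Algebra K S] (e f : S) : Submodule K S :=
  LinearMap.range (LinearMap.mulLeft K e ∘ₗ LinearMap.mulRight K f)

lemma mem_corner {e f x : S} (he : e * e = e) (hf : f * f = f) :
    x ∈ corner K e f ↔ e * x = x ∧ x * f = x := by
  constructor
  · rintro ⟨y, rfl⟩
    simp only [LinearMap.comp_apply, LinearMap.mulLeft_apply, LinearMap.mulRight_apply]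
    constructor
    · rw [← mul_assoc, he]
    · rw [mul_assoc, mul_assoc, hf]
  · rintro ⟨h1, h2⟩
    refine ⟨x, ?_⟩
    simp only [LinearMap.comp_apply, LinearMap.mulLeft_apply, LinearMap.mulRight_apply]
    rw [h2, h1]

lemma corner_mk (e f y : S) : e * y * f ∈ corner K e f :=
  ⟨y, by simp only [LinearMap.comp_apply, LinearMap.mulLeft_apply, LinearMap.mulRight_apply,
    mul_assoc]⟩

variable [FiniteDimensional K S]

lemma finrank_corner_le {a b e f g : S} (hab : a * b = e) (hba : b * a = f) (he : e * e = e)
    (hf : f * f = f) (hg : g * g = g) :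
    finrank K (corner K e g) ≤ finrank K (corner K f g) := by
  have hmem : ∀ x ∈ corner K e g, (LinearMap.mulLeft K b) x ∈ corner K f g := by
    intro x hx
    rw [mem_corner he hg] at hx
    rw [LinearMap.mulLeft_apply, mem_corner hf hg]
    constructor
    · rw [← hba, mul_assoc, ← mul_assoc a b x, hab, hx.1]
    · rw [mul_assoc, hx.2]
  refine LinearMap.finrank_le_finrank_of_injective (f := (LinearMap.mulLeft K b).restrict hmem) ?_
  intro x y h
  have h1 : b * (x : S) = b * (y : S) := congrArg Subtype.val h
  have h2 := congrArg (fun z => a * z) h1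
  beta_reduce at h2
  rw [← mul_assoc, ← mul_assoc, hab, ((mem_corner he hg).1 x.2).1,
    ((mem_corner he hg).1 y.2).1] at h2
  exact Subtype.ext h2

lemma finrank_corner_left {a b e f g : S} (hab : a * b = e) (hba : b * a = f) (he : e * e = e)
    (hf : f * f = f) (hg : g * g = g) :
    finrank K (corner K e g) = finrank K (corner K f g) :=
  le_antisymm (finrank_corner_le hab hba he hf hg) (finrank_corner_le hba hab hf he hg)

/-- Additivity of the dimensions of corners. -/
lemma finrank_corner_add {e e' g : S} (he : e * e = e) (he' : e' * e' = e') (h : e * e' = 0)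
    (h' : e' * e = 0) (hg : g * g = g) :
    finrank K (corner K (e + e') g) = finrank K (corner K e g) + finrank K (corner K e' g) := by
  have hp : (e + e') * (e + e') = e + e' := by
    rw [add_mul, mul_add, mul_add, he, he', h, h', add_zero, zero_add]
  have h1 : corner K e g ⊔ corner K e' g = corner K (e + e') g := by
    apply le_antisymm
    · rw [sup_le_iff]
      constructor
      · intro x hx
        rw [mem_corner he hg] at hx
        rw [mem_corner hp hg]
        refine ⟨?_, hx.2⟩
        rw [← hx.1, ← mul_assoc, add_mul, he, h', add_zero]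
      · intro x hx
        rw [mem_corner he' hg] at hx
        rw [mem_corner hp hg]
        refine ⟨?_, hx.2⟩
        rw [← hx.1, ← mul_assoc, add_mul, he', h, zero_add]
    · intro x hx
      rw [mem_corner hp hg] at hx
      rw [← hx.1, add_mul]
      refine Submodule.add_mem_sup ?_ ?_
      · rw [mem_corner he hg]
        exact ⟨by rw [← mul_assoc, he], by rw [mul_assoc, hx.2]⟩
      · rw [mem_corner he' hg]
        exact ⟨by rw [← mul_assoc, he'], by rw [mul_assoc, hx.2]⟩
  have h2 : corner K e g ⊓ corner K e' g = ⊥ := by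
    rw [eq_bot_iff]
    rintro x ⟨hx, hx'⟩
    rw [SetLike.mem_coe, mem_corner he hg] at hx
    rw [SetLike.mem_coe, mem_corner he' hg] at hx'
    rw [Submodule.mem_bot, ← hx.1, ← hx'.1, ← mul_assoc, h, zero_mul]
  have h3 := Submodule.finrank_sup_add_finrank_inf_eq (corner K e g) (corner K e' g)
  rw [h1, h2, finrank_bot, add_zero] at h3
  exact h3

/-- A symmetric nondegenerate linear form. -/
structure IsSymm' (τ : S →ₗ[K] K) : Prop where
  comm : ∀ x y, τ (x * y) = τ (y * x)
  nondeg : ∀ x, (∀ y, τ (x * y) = 0) → x = 0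

lemma finrank_corner_dual_le {τ : S →ₗ[K] K} (hτ : IsSymm' τ) {e f : S} (he : e * e = e)
    (hf : f * f = f) : finrank K (corner K e f) ≤ finrank K (corner K f e) := by
  let T : corner K e f →ₗ[K] Module.Dual K (corner K f e) :=
    LinearMap.mk₂ K (fun x y => τ ((x : S) * (y : S)))
      (fun x x' y => by rw [Submodule.coe_add, add_mul, map_add])
      (fun c x y => by rw [Submodule.coe_smul, smul_mul_assoc, map_smul])
      (fun x y y' => by rw [Submodule.coe_add, mul_add, map_add])
      (fun c x y => by rw [Submodule.coe_smul, mul_smul_comm, map_smul])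
  have hT : Function.Injective T := by
    rw [← LinearMap.ker_eq_bot, LinearMap.ker_eq_bot']
    intro x hx
    have hx' := (mem_corner he hf).1 x.2
    apply Subtype.ext
    apply hτ.nondeg
    intro s
    have h1 : T x ⟨f * s * e, corner_mk f e s⟩ = 0 := by rw [hx]; rfl
    have h2 : τ ((x : S) * (f * s * e)) = 0 := h1
    calc τ ((x : S) * s) = τ ((e * (x : S)) * s) := by rw [hx'.1]
      _ = τ (((x : S) * s) * e) := by rw [mul_assoc, hτ.comm]
      _ = τ ((x : S) * (f * s * e)) := by
          congr 1
          conv_lhs => rw [← hx'.2]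
          simp only [mul_assoc]
      _ = 0 := h2
  have h := LinearMap.finrank_le_finrank_of_injective hT
  rwa [Subspace.dual_finrank_eq] at h

lemma finrank_corner_dual {τ : S →ₗ[K] K} (hτ : IsSymm' τ) {e f : S} (he : e * e = e)
    (hf : f * f = f) : finrank K (corner K e f) = finrank K (corner K f e) :=
  le_antisymm (finrank_corner_dual_le hτ he hf) (finrank_corner_dual_le hτ hf he)

omit [FiniteDimensional K S] in
/-- Semisimple rings are von Neumann regular. -/
lemma exists_quasi_inverse [IsSemisimpleRing S] (a : S) : ∃ b, a * b * a = a := by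
  obtain ⟨e, he, hI⟩ := IsSemisimpleRing.ideal_eq_span_idempotent (Ideal.span {a})
  have h1 : a ∈ Ideal.span {e} := by rw [← hI]; exact Ideal.mem_span_singleton_self a
  have h2 : e ∈ Ideal.span {a} := by rw [hI]; exact Ideal.mem_span_singleton_self e
  obtain ⟨c, hc⟩ := Ideal.mem_span_singleton'.1 h1
  obtain ⟨b, hb⟩ := Ideal.mem_span_singleton'.1 h2
  refine ⟨b, ?_⟩
  rw [mul_assoc, hb, ← hc, mul_assoc, he]

/-- **Two corners.** The dimension of `p S q` is at most the mean value of the dimensions of `p S p`
and `q S q`; if it is equal to it then the idempotents `p` and `q` are equivalent. -/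
theorem two_corner [IsSemisimpleRing S] {τ : S →ₗ[K] K} (hτ : IsSymm' τ) :
    ∀ (n : ℕ) (p q : S), p * p = p → q * q = q →
      finrank K (corner K p p) + finrank K (corner K q q) ≤ n →
      2 * finrank K (corner K p q) ≤ finrank K (corner K p p) + finrank K (corner K q q) ∧
      (2 * finrank K (corner K p q) = finrank K (corner K p p) + finrank K (corner K q q) →
        ∃ u ∈ corner K p q, ∃ v ∈ corner K q p, u * v = p ∧ v * u = q) := by
  intro n
  induction n with
  | zero =>
    intro p q hp hq hn
    have h1 : finrank K (corner K p p) = 0 := by omega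
    have h2 : finrank K (corner K q q) = 0 := by omega
    have hp0 : p = 0 := by
      have h3 : corner K p p = ⊥ := Submodule.finrank_eq_zero.1 h1
      have h4 : p ∈ corner K p p := (mem_corner hp hp).2 ⟨hp, hp⟩
      rwa [h3, Submodule.mem_bot] at h4
    have hq0 : q = 0 := by
      have h3 : corner K q q = ⊥ := Submodule.finrank_eq_zero.1 h2
      have h4 : q ∈ corner K q q := (mem_corner hq hq).2 ⟨hq, hq⟩
      rwa [h3, Submodule.mem_bot] at h4
    subst hp0
    subst hq0
    refine ⟨by omega, fun _ => ⟨0, Submodule.zero_mem _, 0, Submodule.zero_mem _, by simp, by simp⟩⟩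
  | succ n ih =>
    intro p q hp hq hn
    by_cases h0 : corner K p q = ⊥
    · rw [h0, finrank_bot]
      refine ⟨by omega, fun h => ?_⟩
      have h1 : finrank K (corner K p p) = 0 := by omega
      have h2 : finrank K (corner K q q) = 0 := by omega
      have hp0 : p = 0 := by
        have h3 : corner K p p = ⊥ := Submodule.finrank_eq_zero.1 h1
        have h4 : p ∈ corner K p p := (mem_corner hp hp).2 ⟨hp, hp⟩
        rwa [h3, Submodule.mem_bot] at h4
      have hq0 : q = 0 := by
        have h3 : corner K q q = ⊥ := Submodule.finrank_eq_zero.1 h2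
        have h4 : q ∈ corner K q q := (mem_corner hq hq).2 ⟨hq, hq⟩
        rwa [h3, Submodule.mem_bot] at h4
      subst hp0
      subst hq0
      exact ⟨0, Submodule.zero_mem _, 0, Submodule.zero_mem _, by simp, by simp⟩
    obtain ⟨a, ha, ha0⟩ := Submodule.exists_mem_ne_zero_of_ne_bot h0
    rw [mem_corner hp hq] at ha
    obtain ⟨pa, aq⟩ := ha
    obtain ⟨b₀, hb₀⟩ := exists_quasi_inverse a
    obtain ⟨b₁, hb₁⟩ : ∃ b₁, b₁ = q * b₀ * p := ⟨_, rfl⟩
    obtain ⟨b, hb⟩ : ∃ b, b = b₁ * a * b₁ := ⟨_, rfl⟩
    have h1 : a * b₁ * a = a := by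
      rw [hb₁]
      calc a * (q * b₀ * p) * a = (a * q) * b₀ * (p * a) := by simp only [mul_assoc]
        _ = a := by rw [aq, pa, hb₀]
    have qb₁ : q * b₁ = b₁ := by rw [hb₁, ← mul_assoc, ← mul_assoc, hq]
    have b₁p : b₁ * p = b₁ := by rw [hb₁, mul_assoc, hp]
    have aba : a * b * a = a := by
      rw [hb]
      calc a * (b₁ * a * b₁) * a = (a * b₁ * a) * b₁ * a := by simp only [mul_assoc]
        _ = a := by rw [h1, h1]
    have bab : b * a * b = b := by
      have h2 : b₁ * a * b₁ * a = b₁ * a := by
        rw [mul_assoc (b₁ * a), mul_assoc b₁ a, ← mul_assoc a b₁ a, h1]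
      rw [hb, h2, ← mul_assoc, ← mul_assoc, h2]
    have qb : q * b = b := by rw [hb, ← mul_assoc, ← mul_assoc, qb₁]
    have bp : b * p = b := by rw [hb, mul_assoc, b₁p]
    obtain ⟨e, he⟩ : ∃ e, e = a * b := ⟨_, rfl⟩
    obtain ⟨f, hf⟩ : ∃ f, f = b * a := ⟨_, rfl⟩
    have ee : e * e = e := by rw [he, ← mul_assoc, aba]
    have ff : f * f = f := by rw [hf, ← mul_assoc, bab]
    have pe : p * e = e := by rw [he, ← mul_assoc, pa]
    have ep : e * p = e := by rw [he, mul_assoc, bp]
    have qf : q * f = f := by rw [hf, ← mul_assoc, qb]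
    have fq : f * q = f := by rw [hf, mul_assoc, aq]
    have ea : e * a = a := by rw [he, aba]
    have af : a * f = a := by rw [hf, ← mul_assoc, aba]
    have fb : f * b = b := by rw [hf, bab]
    have be : b * e = b := by rw [he, ← mul_assoc, bab]
    obtain ⟨p', hp'⟩ : ∃ p', p' = p - e := ⟨_, rfl⟩
    obtain ⟨q', hq'⟩ : ∃ q', q' = q - f := ⟨_, rfl⟩
    have pp' : p' * p' = p' := by
      rw [hp', sub_mul, mul_sub, mul_sub, hp, pe, ep, ee]; abel
    have qq' : q' * q' = q' := by
      rw [hq', sub_mul, mul_sub, mul_sub, hq, qf, fq, ff]; abel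
    have ep' : e * p' = 0 := by rw [hp', mul_sub, ep, ee, sub_self]
    have p'e : p' * e = 0 := by rw [hp', sub_mul, pe, ee, sub_self]
    have fq' : f * q' = 0 := by rw [hq', mul_sub, fq, ff, sub_self]
    have q'f : q' * f = 0 := by rw [hq', sub_mul, qf, ff, sub_self]
    have hpe : e + p' = p := by rw [hp']; abel
    have hqf : f + q' = q := by rw [hq']; abel
    have e0 : e ≠ 0 := by
      intro h
      rw [h, zero_mul] at ea
      exact ha0 ea.symm
    -- the dimensions
    have d1 : ∀ {g : S}, g * g = g → finrank K (corner K p g) =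
        finrank K (corner K e g) + finrank K (corner K p' g) := by
      intro g hg
      rw [← finrank_corner_add ee pp' ep' p'e hg, hpe]
    have d2 : ∀ {g : S}, g * g = g → finrank K (corner K q g) =
        finrank K (corner K f g) + finrank K (corner K q' g) := by
      intro g hg
      rw [← finrank_corner_add ff qq' fq' q'f hg, hqf]
    have d3 : ∀ {g : S}, g * g = g → finrank K (corner K e g) = finrank K (corner K f g) :=
      fun hg => finrank_corner_left he.symm hf.symm ee ff hg
    have dl : ∀ {g h : S}, g * g = g → h * h = h →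
        finrank K (corner K g h) = finrank K (corner K h g) :=
      fun hg hh => finrank_corner_dual hτ hg hh
    have A1 := d1 hp
    have A2 := d1 ee
    have A3 := d1 pp'
    have A4 := dl ee hp
    have A5 := dl pp' hp
    have A6 := dl ee pp'
    have B1 := d2 hq
    have B2 := d2 ff
    have B3 := d2 qq'
    have B4 := dl ff hq
    have B5 := dl qq' hq
    have B6 := dl ff qq'
    have C1 := d1 hq
    have C2 := dl ee hq
    have C3 := dl pp' hq
    have C4 := d2 ee
    have C5 := d2 pp'
    have C6 := d3 ee
    have C7 := d3 ff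
    have C8 := d3 pp'
    have C9 := d3 qq'
    have C10 := dl ff ee
    have C11 := dl ff pp'
    have C12 := dl qq' ee
    have C13 := dl qq' pp'
    have hpos : 0 < finrank K (corner K e e) := by
      rw [Module.finrank_pos_iff]
      exact ⟨⟨⟨e, (mem_corner ee ee).2 ⟨ee, ee⟩⟩, 0, fun h => e0 (congrArg Subtype.val h)⟩⟩
    obtain ⟨i1, i2⟩ := ih p' q' pp' qq' (by omega)
    refine ⟨by omega, fun hEq => ?_⟩
    obtain ⟨u, hu, v, hv, huv, hvu⟩ := i2 (by omega)
    rw [mem_corner pp' qq'] at hu
    rw [mem_corner qq' pp'] at hv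
    have av : a * v = 0 := by rw [← af, ← hv.1, mul_assoc, ← mul_assoc f, fq', zero_mul, mul_zero]
    have ub : u * b = 0 := by rw [← hu.2, ← fb, mul_assoc, ← mul_assoc q', q'f, zero_mul, mul_zero]
    have bu : b * u = 0 := by rw [← be, ← hu.1, mul_assoc, ← mul_assoc e, ep', zero_mul, mul_zero]
    have va : v * a = 0 := by rw [← hv.2, ← ea, mul_assoc, ← mul_assoc p', p'e, zero_mul, mul_zero]
    have pp : p * p' = p' := by rw [hp', mul_sub, hp, pe]
    have pp2 : p' * p = p' := by rw [hp', sub_mul, hp, ep]
    have qq : q * q' = q' := by rw [hq', mul_sub, hq, qf]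
    have qq2 : q' * q = q' := by rw [hq', sub_mul, hq, fq]
    refine ⟨a + u, ?_, b + v, ?_, ?_, ?_⟩
    · rw [mem_corner hp hq]
      constructor
      · rw [mul_add, pa, ← hu.1, ← mul_assoc, pp]
      · rw [add_mul, aq, ← hu.2, mul_assoc, qq2]
    · rw [mem_corner hq hp]
      constructor
      · rw [mul_add, qb, ← hv.1, ← mul_assoc, qq]
      · rw [add_mul, bp, ← hv.2, mul_assoc, pp2]
    · rw [add_mul, mul_add, mul_add, av, ub, huv, ← he, add_zero, zero_add, hpe]
    · rw [add_mul, mul_add, mul_add, bu, va, hvu, ← hf, add_zero, zero_add, hqf]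

end Corner

end Pool.Agent.R907.Two
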