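import Pool.Agent.R907.TwoAlg
import Pool.Agent.H914R2.Core0

/-!
# Trace pairings between two degrees
-/

set_option linter.unusedSectionVars false

namespace Pool.Agent.R907.Two

open Module

variable {K V : Type*} [Field K] [CharZero K] [AddCommGroup V] [Module K V] [Module.Finite K V]

/-- Spaces of operators between two direct summands, closed under compositions. -/
structure Quad (p q : End K V) (A B C D : Submodule K (End K V)) : Prop where
  pp : p * p = p
  qq : q * q = q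
  pq : p * q = 0
  qp : q * p = 0
  hA : ∀ a ∈ A, p * a = a ∧ a * p = a
  hB : ∀ a ∈ B, p * a = a ∧ a * q = a
  hC : ∀ a ∈ C, q * a = a ∧ a * p = a
  hD : ∀ a ∈ D, q * a = a ∧ a * q = a
  pA : p ∈ A
  qD : q ∈ D
  AA : ∀ a ∈ A, ∀ b ∈ A, a * b ∈ A
  AB : ∀ a ∈ A, ∀ b ∈ B, a * b ∈ B
  BD : ∀ a ∈ B, ∀ b ∈ D, a * b ∈ B
  BC : ∀ a ∈ B, ∀ b ∈ C, a * b ∈ A
  CA : ∀ a ∈ C, ∀ b ∈ A, a * b ∈ C
  CB : ∀ a ∈ C, ∀ b ∈ B, a * b ∈ D
  DC : ∀ a ∈ D, ∀ b ∈ C, a * b ∈ C
  DD : ∀ a ∈ D, ∀ b ∈ D, a * b ∈ D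

variable {p q : End K V} {A B C D : Submodule K (End K V)}

lemma Quad.split (h : Quad p q A B C D) (e f : End K V) (T T' : End K V)
    (hT' : (p + q) * T' = T' * (p + q)) (hf : (p + q) * f = f) :
    e * (T * T') * f = (e * T * p) * (p * T' * f) + (e * T * q) * (q * T' * f) := by
  have h1 : T' * f = (p + q) * (T' * f) := by
    conv_lhs => rw [← hf, ← mul_assoc, ← hT', mul_assoc]
  calc e * (T * T') * f = e * T * (T' * f) := by simp only [mul_assoc]
    _ = e * T * ((p + q) * (T' * f)) := by rw [← h1]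
    _ = e * T * ((p * p + q * q) * (T' * f)) := by rw [h.pp, h.qq]
    _ = _ := by simp only [add_mul, mul_add, mul_assoc]

/-- The algebra of the operators which are given by the four spaces. -/
def Quad.alg (h : Quad p q A B C D) : Subalgebra K (End K V) where
  carrier := {T | (p + q) * T = T * (p + q) ∧ p * T * p ∈ A ∧ p * T * q ∈ B ∧ q * T * p ∈ C ∧
    q * T * q ∈ D}
  mul_mem' := by
    rintro T T' ⟨h0, h1, h2, h3, h4⟩ ⟨h0', h1', h2', h3', h4'⟩
    have hp : (p + q) * p = p := by rw [add_mul, h.pp, h.qp, add_zero]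
    have hq : (p + q) * q = q := by rw [add_mul, h.qq, h.pq, zero_add]
    refine ⟨by rw [← mul_assoc, h0, mul_assoc, h0', mul_assoc], ?_, ?_, ?_, ?_⟩
    · rw [h.split p p T T' h0' hp]
      exact A.add_mem (h.AA _ h1 _ h1') (h.BC _ h2 _ h3')
    · rw [h.split p q T T' h0' hq]
      exact B.add_mem (h.AB _ h1 _ h2') (h.BD _ h2 _ h4')
    · rw [h.split q p T T' h0' hp]
      exact C.add_mem (h.CA _ h3 _ h1') (h.DC _ h4 _ h3')
    · rw [h.split q q T T' h0' hq]
      exact D.add_mem (h.CB _ h3 _ h2') (h.DD _ h4 _ h4')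
  add_mem' := by
    rintro T T' ⟨h0, h1, h2, h3, h4⟩ ⟨h0', h1', h2', h3', h4'⟩
    refine ⟨by rw [mul_add, h0, h0', add_mul T T'], ?_, ?_, ?_, ?_⟩
    · rw [mul_add, add_mul]; exact A.add_mem h1 h1'
    · rw [mul_add, add_mul]; exact B.add_mem h2 h2'
    · rw [mul_add, add_mul]; exact C.add_mem h3 h3'
    · rw [mul_add, add_mul]; exact D.add_mem h4 h4'
  algebraMap_mem' := by
    intro r
    have e : ∀ x y : End K V, x * algebraMap K (End K V) r * y = r • (x * y) := by
      intro x y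
      rw [← Algebra.commutes, mul_assoc, ← Algebra.smul_def]
    refine ⟨(Algebra.commutes r (p + q)).symm, ?_, ?_, ?_, ?_⟩
    · rw [e, h.pp]; exact A.smul_mem _ h.pA
    · rw [e, h.pq, smul_zero]; exact B.zero_mem
    · rw [e, h.qp, smul_zero]; exact C.zero_mem
    · rw [e, h.qq]; exact D.smul_mem _ h.qD

lemma Quad.memA (h : Quad p q A B C D) {a : End K V} (ha : a ∈ A) : a ∈ h.alg := by
  obtain ⟨h1, h2⟩ := h.hA a ha
  have qa : q * a = 0 := by rw [← h1, ← mul_assoc, h.qp, zero_mul]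
  have aq : a * q = 0 := by rw [← h2, mul_assoc, h.pq, mul_zero]
  refine ⟨by rw [add_mul, mul_add, h1, h2, qa, aq], ?_, ?_, ?_, ?_⟩
  · rw [h1, h2]; exact ha
  · rw [h1, aq]; exact B.zero_mem
  · rw [qa, zero_mul]; exact C.zero_mem
  · rw [qa, zero_mul]; exact D.zero_mem

lemma Quad.memD (h : Quad p q A B C D) {a : End K V} (ha : a ∈ D) : a ∈ h.alg := by
  obtain ⟨h1, h2⟩ := h.hD a ha
  have pa : p * a = 0 := by rw [← h1, ← mul_assoc, h.pq, zero_mul]
  have ap : a * p = 0 := by rw [← h2, mul_assoc, h.qp, mul_zero]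
  refine ⟨by rw [add_mul, mul_add, h1, h2, pa, ap], ?_, ?_, ?_, ?_⟩
  · rw [pa, zero_mul]; exact A.zero_mem
  · rw [pa, zero_mul]; exact B.zero_mem
  · rw [h1, ap]; exact C.zero_mem
  · rw [h1, h2]; exact ha

lemma Quad.memB (h : Quad p q A B C D) {a : End K V} (ha : a ∈ B) : a ∈ h.alg := by
  obtain ⟨h1, h2⟩ := h.hB a ha
  have qa : q * a = 0 := by rw [← h1, ← mul_assoc, h.qp, zero_mul]
  have ap : a * p = 0 := by rw [← h2, mul_assoc, h.qp, mul_zero]
  refine ⟨by rw [add_mul, mul_add, h1, h2, qa, ap, add_zero, zero_add], ?_, ?_, ?_, ?_⟩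
  · rw [h1, ap]; exact A.zero_mem
  · rw [h1, h2]; exact ha
  · rw [qa, zero_mul]; exact C.zero_mem
  · rw [qa, zero_mul]; exact D.zero_mem

lemma Quad.memC (h : Quad p q A B C D) {a : End K V} (ha : a ∈ C) : a ∈ h.alg := by
  obtain ⟨h1, h2⟩ := h.hC a ha
  have pa : p * a = 0 := by rw [← h1, ← mul_assoc, h.pq, zero_mul]
  have aq : a * q = 0 := by rw [← h2, mul_assoc, h.pq, mul_zero]
  refine ⟨by rw [add_mul, mul_add, h1, h2, pa, aq, add_zero, zero_add], ?_, ?_, ?_, ?_⟩
  · rw [pa, zero_mul]; exact A.zero_mem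
  · rw [pa, zero_mul]; exact B.zero_mem
  · rw [h1, h2]; exact ha
  · rw [h1, aq]; exact D.zero_mem

lemma trace_nilpotent {x : End K V} (hx : IsNilpotent x) : LinearMap.trace K V x = 0 := by
  have h := LinearMap.isNilpotent_trace_of_isNilpotent hx
  exact h.eq_zero

/-- The Jacobson radical of an algebra of operators is the radical of the trace form. -/
lemma mem_jac_iff (S : Subalgebra K (End K V)) {x : S} :
    x ∈ Ring.jacobson S ↔ ∀ y : S, LinearMap.trace K V ((x : End K V) * (y : End K V)) = 0 := by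
  have : Module.Finite K S := Module.Finite.of_injective S.val.toLinearMap Subtype.val_injective
  have : IsArtinianRing S := IsArtinianRing.of_finite K S
  constructor
  · intro hx y
    have hxy : x * y ∈ Ring.jacobson S := (Ring.jacobson S).mul_mem_right y hx
    obtain ⟨n, hn⟩ := IsSemiprimaryRing.isNilpotent (R := S)
    have h1 : ∀ m : ℕ, (x * y) ^ m ∈ (Ring.jacobson S) ^ m := fun m => Ideal.pow_mem_pow hxy m
    have h2 : (x * y) ^ n = 0 := by
      have := h1 n
      rw [hn] at this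
      exact this
    apply trace_nilpotent
    refine ⟨n, ?_⟩
    have h3 := congrArg Subtype.val h2
    exact h3
  · intro h
    have hnil : ∀ y : S, IsNilpotent (y * x) := by
      intro y
      have h1 : IsNilpotent ((y : End K V) * (x : End K V)) := by
        apply Pool.Agent.H914.isNilpotent_of_trace_pow
        intro r
        have h2 := h ((y * x) ^ r * y)
        rw [pow_succ, ← mul_assoc, LinearMap.trace_mul_comm]
        exact h2
      obtain ⟨n, hn⟩ := h1
      exact ⟨n, Subtype.ext hn⟩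
    rw [← Ideal.jacobson_bot, Ideal.mem_jacobson_iff]
    intro y
    obtain ⟨z, hz⟩ := (hnil y).isUnit_one_add.exists_left_inv
    refine ⟨z, ?_⟩
    rw [Submodule.mem_bot, ← hz, mul_add, mul_one, mul_assoc]
    abel

/-- The elements of the radical are nilpotent. -/
lemma nilpotent_of_mem_jac (S : Subalgebra K (End K V)) {x : S} (hx : x ∈ Ring.jacobson S) :
    IsNilpotent (x : End K V) := by
  have : Module.Finite K S := Module.Finite.of_injective S.val.toLinearMap Subtype.val_injective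
  have : IsArtinianRing S := IsArtinianRing.of_finite K S
  obtain ⟨n, hn⟩ := IsSemiprimaryRing.isNilpotent (R := S)
  have h1 : ∀ m : ℕ, x ^ m ∈ (Ring.jacobson S) ^ m := fun m => Ideal.pow_mem_pow hx m
  have h2 : x ^ n = 0 := by
    have := h1 n
    rw [hn] at this
    exact this
  exact ⟨n, congrArg Subtype.val h2⟩

/-- The pairing with the elements of `N` given by the trace. -/
noncomputable def pairing (N : Submodule K (End K V)) : End K V →ₗ[K] (N → K) where
  toFun a := fun b => LinearMap.trace K V (a * b)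
  map_add' x y := by funext b; simp [add_mul]
  map_smul' c x := by funext b; simp

/-- The rank of the trace pairing between two spaces of operators. -/
noncomputable def pr (M N : Submodule K (End K V)) : ℕ :=
  finrank K (M.map (pairing N))

/-- Ranks of maps with equal kernels. -/
lemma finrank_range_eq {M E F : Type*} [AddCommGroup M] [Module K M] [AddCommGroup E] [Module K E]
    [AddCommGroup F] [Module K F] [Module.Finite K M] (f : M →ₗ[K] E) (g : M →ₗ[K] F)
    (h : LinearMap.ker f = LinearMap.ker g) :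
    finrank K (LinearMap.range f) = finrank K (LinearMap.range g) := by
  have h1 := LinearMap.finrank_range_add_finrank_ker f
  have h2 := LinearMap.finrank_range_add_finrank_ker g
  rw [h] at h1
  omega

/-- The projection to the quotient by the radical. -/
noncomputable def mkJ (S : Subalgebra K (End K V)) : S →ₗ[K] (S ⧸ Ring.jacobson S) :=
  (Ideal.Quotient.mkₐ K (Ring.jacobson S)).toLinearMap

lemma mkJ_eq_zero {S : Subalgebra K (End K V)} {x : S} : mkJ S x = 0 ↔ x ∈ Ring.jacobson S :=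
  Ideal.Quotient.eq_zero_iff_mem

lemma mkJ_mul {S : Subalgebra K (End K V)} (x y : S) : mkJ S (x * y) = mkJ S x * mkJ S y :=
  map_mul (Ideal.Quotient.mkₐ K (Ring.jacobson S)) x y

lemma mkJ_surj (S : Subalgebra K (End K V)) : Function.Surjective (mkJ S) :=
  Ideal.Quotient.mk_surjective

/-- Corners modulo the radical are computed by the trace pairings. -/
lemma finrank_corner_quot (S : Subalgebra K (End K V)) {e f : End K V} (he : e ∈ S) (hf : f ∈ S)
    {M N : Submodule K (End K V)} (hM : ∀ a ∈ M, e * a = a ∧ a * f = a) (hMS : ∀ a ∈ M, a ∈ S)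
    (hNS : ∀ a ∈ N, a ∈ S) (hSM : ∀ T ∈ S, e * T * f ∈ M) (hSN : ∀ T ∈ S, f * T * e ∈ N) :
    finrank K (corner K (mkJ S ⟨e, he⟩) (mkJ S ⟨f, hf⟩)) = pr M N := by
  let i : M →ₗ[K] S := Submodule.inclusion (p := M) (p' := Subalgebra.toSubmodule S) hMS
  have h1 : LinearMap.range (mkJ S ∘ₗ i) = corner K (mkJ S ⟨e, he⟩) (mkJ S ⟨f, hf⟩) := by
    apply le_antisymm
    · rintro _ ⟨a, rfl⟩
      have h2 : i a = ⟨e, he⟩ * i a * ⟨f, hf⟩ := by
        apply Subtype.ext
        change (a : End K V) = e * a * f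
        rw [(hM _ a.2).1, (hM _ a.2).2]
      rw [LinearMap.comp_apply, h2, mkJ_mul, mkJ_mul]
      exact corner_mk _ _ _
    · rintro _ ⟨y, rfl⟩
      obtain ⟨T, rfl⟩ := mkJ_surj S y
      refine ⟨⟨e * T * f, hSM _ T.2⟩, ?_⟩
      simp only [LinearMap.comp_apply, LinearMap.mulLeft_apply, LinearMap.mulRight_apply]
      rw [← mkJ_mul, ← mkJ_mul]
      exact congrArg _ (Subtype.ext (mul_assoc e (T : End K V) f))
  have h3 : LinearMap.range ((pairing N).domRestrict M) = M.map (pairing N) := by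
    rw [LinearMap.range_domRestrict]
  rw [← h1, pr, ← h3]
  apply finrank_range_eq
  ext a
  rw [LinearMap.mem_ker, LinearMap.mem_ker, LinearMap.comp_apply, mkJ_eq_zero, mem_jac_iff]
  constructor
  · intro h
    funext b
    exact h ⟨b, hNS _ b.2⟩
  · intro h y
    have h4 := congrFun h ⟨f * y * e, hSN _ y.2⟩
    change LinearMap.trace K V ((a : End K V) * (f * y * e)) = 0 at h4
    change LinearMap.trace K V ((a : End K V) * y) = 0
    rw [← h4, ← (hM _ a.2).1, mul_assoc e, LinearMap.trace_mul_comm]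
    congr 1
    rw [(hM _ a.2).1]
    conv_lhs => rw [← (hM _ a.2).2]
    simp only [mul_assoc]

/-- The trace form modulo the radical. -/
lemma exists_form (S : Subalgebra K (End K V)) :
    ∃ τ : (S ⧸ Ring.jacobson S) →ₗ[K] K, IsSymm' τ := by
  obtain ⟨s, hs⟩ := (mkJ S).exists_rightInverse_of_surjective
    (LinearMap.range_eq_top.2 (mkJ_surj S))
  have hs' : ∀ x : S, LinearMap.trace K V ((s (mkJ S x) : S) : End K V) =
      LinearMap.trace K V (x : End K V) := by
    intro x
    have h1 : s (mkJ S x) - x ∈ Ring.jacobson S := by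
      rw [← mkJ_eq_zero, map_sub, sub_eq_zero]
      exact LinearMap.congr_fun hs (mkJ S x)
    have h2 := (mem_jac_iff S).1 h1 1
    change LinearMap.trace K V ((((s (mkJ S x) : S) : End K V) - x) * 1) = 0 at h2
    rw [mul_one, map_sub, sub_eq_zero] at h2
    exact h2
  refine ⟨(LinearMap.trace K V ∘ₗ S.val.toLinearMap) ∘ₗ s, ?_, ?_⟩
  · intro x y
    obtain ⟨x, rfl⟩ := mkJ_surj S x
    obtain ⟨y, rfl⟩ := mkJ_surj S y
    rw [← mkJ_mul, ← mkJ_mul]
    change LinearMap.trace K V ((s (mkJ S (x * y)) : S) : End K V) =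
      LinearMap.trace K V ((s (mkJ S (y * x)) : S) : End K V)
    rw [hs', hs']
    exact LinearMap.trace_mul_comm K _ _
  · intro x h
    obtain ⟨x, rfl⟩ := mkJ_surj S x
    rw [mkJ_eq_zero, mem_jac_iff]
    intro y
    have h1 := h (mkJ S y)
    rw [← mkJ_mul] at h1
    change LinearMap.trace K V ((s (mkJ S (x * y)) : S) : End K V) = 0 at h1
    rw [hs'] at h1
    exact h1

/-- **Trace pairings between two degrees.** -/
theorem two_trace (h : Quad p q A B C D) :
    2 * pr B C ≤ pr A A + pr D D ∧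
    (2 * pr B C = pr A A + pr D D → ∃ u ∈ B, ∀ x, q x = x → u x = 0 → x = 0) := by
  have hpS : p ∈ h.alg := h.memA h.pA
  have hqS : q ∈ h.alg := h.memD h.qD
  have mA : ∀ a ∈ A, a ∈ h.alg := fun a ha => h.memA ha
  have mB : ∀ a ∈ B, a ∈ h.alg := fun a ha => h.memB ha
  have mC : ∀ a ∈ C, a ∈ h.alg := fun a ha => h.memC ha
  have mD : ∀ a ∈ D, a ∈ h.alg := fun a ha => h.memD ha
  have e1 := finrank_corner_quot h.alg hpS hpS h.hA mA mA (fun T hT => hT.2.1)
    (fun T hT => hT.2.1)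
  have e2 := finrank_corner_quot h.alg hqS hqS h.hD mD mD (fun T hT => hT.2.2.2.2)
    (fun T hT => hT.2.2.2.2)
  have e3 := finrank_corner_quot h.alg hpS hqS h.hB mB mC (fun T hT => hT.2.2.1)
    (fun T hT => hT.2.2.2.1)
  have f1 : Module.Finite K h.alg :=
    Module.Finite.of_injective h.alg.val.toLinearMap Subtype.val_injective
  have f2 : IsArtinianRing h.alg := IsArtinianRing.of_finite K h.alg
  have f3 : Module.Finite K (h.alg ⧸ Ring.jacobson h.alg) :=
    Module.Finite.of_surjective _ (mkJ_surj h.alg)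
  obtain ⟨τ, hτ⟩ := exists_form h.alg
  have i1 : (mkJ h.alg ⟨p, hpS⟩) * (mkJ h.alg ⟨p, hpS⟩) = mkJ h.alg ⟨p, hpS⟩ := by
    rw [← mkJ_mul]; exact congrArg _ (Subtype.ext h.pp)
  have i2 : (mkJ h.alg ⟨q, hqS⟩) * (mkJ h.alg ⟨q, hqS⟩) = mkJ h.alg ⟨q, hqS⟩ := by
    rw [← mkJ_mul]; exact congrArg _ (Subtype.ext h.qq)
  obtain ⟨t1, t2⟩ := two_corner hτ _ _ _ i1 i2 le_rfl
  rw [e1, e2, e3] at t1 t2
  refine ⟨t1, fun hEq => ?_⟩
  obtain ⟨u, hu, v, hv, -, hvu⟩ := t2 hEq
  obtain ⟨u', rfl⟩ := mkJ_surj h.alg u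
  obtain ⟨v', rfl⟩ := mkJ_surj h.alg v
  rw [mem_corner i1 i2] at hu
  rw [mem_corner i2 i1] at hv
  refine ⟨p * u' * q, u'.2.2.2.1, fun x hx h0 => ?_⟩
  have hJ : ⟨q, hqS⟩ * v' * (⟨p, hpS⟩ * u' * ⟨q, hqS⟩) - ⟨q, hqS⟩ ∈ Ring.jacobson h.alg := by
    rw [← mkJ_eq_zero, map_sub, mkJ_mul, mkJ_mul, mkJ_mul, mkJ_mul, hv.1, hu.1, hu.2, hvu,
      sub_self]
  obtain ⟨n, hn⟩ := nilpotent_of_mem_jac _ hJ
  have h1 : (q * (v' : End K V) * (p * u' * q) - q) x = - x := by
    rw [LinearMap.sub_apply, Module.End.mul_apply, h0, map_zero, hx, zero_sub]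
  have h2 : ∀ m : ℕ, ((q * (v' : End K V) * (p * u' * q) - q) ^ m) x = (-1 : K) ^ m • x := by
    intro m
    induction m with
    | zero => rw [pow_zero, pow_zero, one_smul]; rfl
    | succ m ih =>
      rw [pow_succ, Module.End.mul_apply, h1, map_neg, ih, pow_succ, mul_neg_one, neg_smul]
  have h3 : ((q * (v' : End K V) * (p * u' * q) - q) ^ n) = 0 := hn
  have h4 := h2 n
  rw [h3, LinearMap.zero_apply] at h4
  exact (smul_eq_zero.1 h4.symm).resolve_left (pow_ne_zero _ (neg_ne_zero.2 one_ne_zero))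

/-- Inverses of injective elements of a subalgebra. -/
lemma exists_inv_mem (S : Subalgebra K (End K V)) {T : End K V} (hT : T ∈ S)
    (h : Function.Injective T) : ∃ w ∈ S, w * T = 1 ∧ T * w = 1 := by
  have f1 : Module.Finite K S :=
    Module.Finite.of_injective S.val.toLinearMap Subtype.val_injective
  let g : S →ₗ[K] S := LinearMap.mulLeft K ⟨T, hT⟩
  have hg : Function.Injective g := by
    rw [← LinearMap.ker_eq_bot, LinearMap.ker_eq_bot']
    intro x hx
    have h1 : T * (x : End K V) = 0 := congrArg Subtype.val hx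
    apply Subtype.ext
    apply LinearMap.ext
    intro a
    apply h
    have h2 := LinearMap.congr_fun h1 a
    rw [Module.End.mul_apply, LinearMap.zero_apply] at h2
    rw [h2]
    exact (map_zero T).symm
  obtain ⟨w, hw⟩ := (LinearMap.injective_iff_surjective.1 hg) 1
  have h1 : T * (w : End K V) = 1 := congrArg Subtype.val hw
  exact ⟨w, w.2, mul_eq_one_comm.1 h1, h1⟩

lemma exists_corner_inv (S : Subalgebra K (End K V)) {q : End K V} (qq : q * q = q) (hq : q ∈ S)
    {T : End K V} (hT : T ∈ S) (h1 : q * T = T) (h2 : T * q = T)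
    (h : ∀ x, q x = x → T x = 0 → x = 0) : ∃ w ∈ S, w * T = q ∧ T * w = q := by
  have hT' : T + (1 - q) ∈ S := S.add_mem hT (S.sub_mem S.one_mem hq)
  have qT' : q * (T + (1 - q)) = T := by rw [mul_add, h1, mul_sub, mul_one, qq, sub_self, add_zero]
  have T'q : (T + (1 - q)) * q = T := by rw [add_mul, h2, sub_mul, one_mul, qq, sub_self, add_zero]
  have hinj : Function.Injective (T + (1 - q) : End K V) := by
    rw [← LinearMap.ker_eq_bot, LinearMap.ker_eq_bot']
    intro x hx
    have h3 : T x = 0 := by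
      rw [← qT', Module.End.mul_apply, hx, map_zero]
    have h4 : q x = x := by
      rw [LinearMap.add_apply, h3, zero_add, LinearMap.sub_apply, Module.End.one_apply,
        sub_eq_zero] at hx
      exact hx.symm
    exact h x h4 h3
  obtain ⟨w, hw, hw1, hw2⟩ := exists_inv_mem S hT' hinj
  refine ⟨w, hw, ?_, ?_⟩
  · rw [← T'q, ← mul_assoc, hw1, one_mul]
  · rw [← qT', mul_assoc, hw2, mul_one]

/-- Injective operators in both directions give the equality. -/
theorem two_trace_conv (h : Quad p q A B C D) {u v : End K V} (hu : u ∈ B) (hv : v ∈ C)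
    (hu0 : ∀ x, q x = x → u x = 0 → x = 0) (hv0 : ∀ x, p x = x → v x = 0 → x = 0) :
    pr B C = pr A A ∧ pr B C = pr D D := by
  have hpS : p ∈ h.alg := h.memA h.pA
  have hqS : q ∈ h.alg := h.memD h.qD
  have mA : ∀ a ∈ A, a ∈ h.alg := fun a ha => h.memA ha
  have mB : ∀ a ∈ B, a ∈ h.alg := fun a ha => h.memB ha
  have mC : ∀ a ∈ C, a ∈ h.alg := fun a ha => h.memC ha
  have mD : ∀ a ∈ D, a ∈ h.alg := fun a ha => h.memD ha
  have e1 := finrank_corner_quot h.alg hpS hpS h.hA mA mA (fun T hT => hT.2.1)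
    (fun T hT => hT.2.1)
  have e2 := finrank_corner_quot h.alg hqS hqS h.hD mD mD (fun T hT => hT.2.2.2.2)
    (fun T hT => hT.2.2.2.2)
  have e3 := finrank_corner_quot h.alg hpS hqS h.hB mB mC (fun T hT => hT.2.2.1)
    (fun T hT => hT.2.2.2.1)
  have f1 : Module.Finite K h.alg :=
    Module.Finite.of_injective h.alg.val.toLinearMap Subtype.val_injective
  have f2 : IsArtinianRing h.alg := IsArtinianRing.of_finite K h.alg
  have f3 : Module.Finite K (h.alg ⧸ Ring.jacobson h.alg) :=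
    Module.Finite.of_surjective _ (mkJ_surj h.alg)
  obtain ⟨τ, hτ⟩ := exists_form h.alg
  have i1 : (mkJ h.alg ⟨p, hpS⟩) * (mkJ h.alg ⟨p, hpS⟩) = mkJ h.alg ⟨p, hpS⟩ := by
    rw [← mkJ_mul]; exact congrArg _ (Subtype.ext h.pp)
  have i2 : (mkJ h.alg ⟨q, hqS⟩) * (mkJ h.alg ⟨q, hqS⟩) = mkJ h.alg ⟨q, hqS⟩ := by
    rw [← mkJ_mul]; exact congrArg _ (Subtype.ext h.qq)
  have hpu := (h.hB u hu).1
  have huq := (h.hB u hu).2
  have hqv := (h.hC v hv).1
  have hvp := (h.hC v hv).2
  -- the inverses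
  obtain ⟨w, hwS, hw1, hw2⟩ : ∃ w ∈ h.alg, w * (v * u) = q ∧ (v * u) * w = q := by
    apply exists_corner_inv h.alg h.qq hqS (h.alg.mul_mem (mC v hv) (mB u hu))
    · rw [← mul_assoc, hqv]
    · rw [mul_assoc, huq]
    · intro x hx h0
      refine hu0 x hx (hv0 (u x) ?_ h0)
      rw [← Module.End.mul_apply, hpu]
  obtain ⟨w', hwS', hw1', hw2'⟩ : ∃ w ∈ h.alg, w * (u * v) = p ∧ (u * v) * w = p := by
    apply exists_corner_inv h.alg h.pp hpS (h.alg.mul_mem (mB u hu) (mC v hv))
    · rw [← mul_assoc, hpu]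
    · rw [mul_assoc, hvp]
    · intro x hx h0
      refine hv0 x hx (hu0 (v x) ?_ h0)
      rw [← Module.End.mul_apply, hqv]
  have k2 : u * (v * w') = p := by rw [← mul_assoc, hw2']
  have k3 : (w * v) * u = q := by rw [mul_assoc, hw1]
  have k4 : q * (v * w') * u = q := by
    have h1 : (w * v) * (u * (v * w')) = q * (v * w') := by rw [← mul_assoc, k3]
    rw [← h1, k2, mul_assoc, mul_assoc, hpu, ← mul_assoc, k3]
  have hS : v * w' ∈ h.alg := h.alg.mul_mem (mC v hv) hwS'
  have j1 : mkJ h.alg ⟨u, mB u hu⟩ * mkJ h.alg ⟨v * w', hS⟩ = mkJ h.alg ⟨p, hpS⟩ := by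
    rw [← mkJ_mul]; exact congrArg _ (Subtype.ext k2)
  have k5 : v * w' * u = q := by rw [← k4, ← mul_assoc q, hqv]
  have j2 : mkJ h.alg ⟨v * w', hS⟩ * mkJ h.alg ⟨u, mB u hu⟩ = mkJ h.alg ⟨q, hqS⟩ := by
    rw [← mkJ_mul]; exact congrArg _ (Subtype.ext k5)
  have l1 := finrank_corner_left (K := K) j1 j2 i1 i2 i2
  have l2 := finrank_corner_left (K := K) j1 j2 i1 i2 i1
  have l3 := finrank_corner_dual hτ i1 i2
  omega

end Pool.Agent.R907.Two
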