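import Pool.Agent.R907.KunMain

/-!
# Maximal idempotents in left ideals of correspondences
-/

open CategoryTheory AlgebraicGeometry Finset Polynomial

set_option linter.unusedSectionVars false

universe u₁ v₁ u v

namespace Pool.Agent.R907

open Pool.Agent.H914 Pool.Agent.H447 Pool.Agent.W537 Pool.Agent.Y106.One VarClass Obj
  WeilCohomology

variable {k : Type u} [Field k] {𝒱 : VarClass k} {ops : CycleOps 𝒱} {X : 𝒱.Obj}
  {W W' : WeilCohomology.{u, v} ops} {J : Set (Fam.{u, v} ops X)} {i : ℕ}

lemma IsLeftIdeal.sum (hJ : IsLeftIdeal J) {ι : Type*} (s : Finset ι)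
    {F : ι → Fam.{u, v} ops X} (h : ∀ b ∈ s, F b ∈ J) : (fun W => ∑ b ∈ s, F b W) ∈ J := by
  classical
  induction s using Finset.induction_on with
  | empty =>
    have h1 : (fun W : WeilCohomology.{u, v} ops => ∑ b ∈ (∅ : Finset ι), F b W) =
        fun _ => 0 := funext fun W => Finset.sum_empty
    rw [h1]
    exact hJ.zero
  | insert a s ha ih =>
    have h1 : (fun W : WeilCohomology.{u, v} ops => ∑ b ∈ insert a s, F b W) =
        fun W => F a W + ∑ b ∈ s, F b W := funext fun W => Finset.sum_insert ha
    rw [h1]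
    exact hJ.add _ (h a (by simp)) _ (ih fun b hb => h b (by simp [hb]))

lemma IsLeftIdeal.pow_succ (hJ : IsLeftIdeal J) {y : Fam.{u, v} ops X} (hy : y ∈ J) (m : ℕ) :
    (fun W => y W ^ (m + 1)) ∈ J := by
  have h1 : (fun W : WeilCohomology.{u, v} ops => y W ^ (m + 1)) =
      fun W => y W ^ m * y W := funext fun W => _root_.pow_succ _ _
  rw [h1]
  exact hJ.left _ ((hJ.real y hy).pow0 m) y hy

lemma rat_trace (hT : SameTraces X i W W) {T : Fam.{u, v} ops X} (h : Realized ops X 0 T) :
    ∃ q : ℚ, LinearMap.trace W.K _ (T W * proj (W.isInternal X) i) = q := by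
  obtain ⟨t, ht⟩ := exists_rat hT h
  exact ⟨t, by rw [LinearMap.trace_mul_comm]; exact ht⟩

/-- A correspondence whose higher powers have trace zero has trace zero. -/
lemma trace_eq_zero_of_pow {y : Fam.{u, v} ops X} (hy : Realized ops X 0 y)
    (h : ∀ m : ℕ, LinearMap.trace W.K _ (y W ^ (m + 2) * proj (W.isInternal X) i) = 0) :
    LinearMap.trace W.K _ (y W * proj (W.isInternal X) i) = 0 := by
  set P := proj (W.isInternal X) i with hP
  have hc : Commute P (y W) := real_comm hy W i
  have hPP : P * P = P := proj_mul_proj _ i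
  have hPpow : ∀ m : ℕ, P ^ (m + 1) = P := by
    intro m
    induction m with
    | zero => simp
    | succ m ih => rw [pow_succ, ih, hPP]
  have hnil : IsNilpotent ((y W * P) ^ 2) := by
    apply isNilpotent_of_trace_pow
    intro r
    rw [← pow_mul, hc.symm.mul_pow, show 2 * (r + 1) = 2 * r + 2 by ring,
      show P ^ (2 * r + 2) = P from hPpow _]
    exact h _
  have hnil' : IsNilpotent (y W * P) := by
    obtain ⟨N, hN⟩ := hnil
    exact ⟨2 * N, by rw [pow_mul]; exact hN⟩
  exact (LinearMap.isNilpotent_trace_of_isNilpotent hnil').eq_zero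

/-- **A left ideal contains an element which acts as a right unit in the traces.** -/
theorem exists_unit (hJ : IsLeftIdeal J) (hT : SameTraces X i W W) :
    ∃ e ∈ J, ∀ c ∈ J, LinearMap.trace W.K _ (e W * c W * proj (W.isInternal X) i) =
      LinearMap.trace W.K _ (c W * proj (W.isInternal X) i) := by
  classical
  set P := proj (W.isInternal X) i with hP
  have hfg : (KJ J W).FG := IsNoetherian.noetherian _
  obtain ⟨t, hts, htspan⟩ := (Submodule.fg_span_iff_fg_span_finset_subset _).1 hfg
  have hF : ∀ b : t, ∃ F ∈ J, F W = b.1 := fun b => hts b.2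
  choose F hFr hFW using hF
  have hv : ∀ T : Fam.{u, v} ops X, Realized ops X 0 T → ∃ v : t → ℚ, ∀ b : t,
      LinearMap.trace W.K _ (T W * b.1 * P) = (v b : W.K) := by
    intro T hTr
    have h1 : ∀ b : t, ∃ q : ℚ, LinearMap.trace W.K _ (T W * b.1 * P) = (q : W.K) := by
      intro b
      obtain ⟨q, hq⟩ := rat_trace hT ((hTr.mul (hJ.real _ (hFr b))).cast (zero_add 0))
      rw [hFW] at hq
      exact ⟨q, hq⟩
    choose v hv using h1
    exact ⟨v, hv⟩
  obtain ⟨v₁, hv₁⟩ := hv (fun _ => 1) Realized.one
  let p : Submodule ℚ (t → ℚ) :=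
    { carrier := {v | ∃ T ∈ J, ∀ b : t, LinearMap.trace W.K _ (T W * b.1 * P) = (v b : W.K)}
      add_mem' := by
        rintro v v' ⟨T, hTJ, hTv⟩ ⟨T', hTJ', hTv'⟩
        refine ⟨_, hJ.add T hTJ T' hTJ', fun b => ?_⟩
        rw [add_mul, add_mul, map_add, hTv, hTv', Pi.add_apply, Rat.cast_add]
      zero_mem' := ⟨_, hJ.zero, fun b => by
        rw [zero_mul, zero_mul, map_zero, Pi.zero_apply, Rat.cast_zero]⟩
      smul_mem' := by
        rintro c v ⟨T, hTJ, hTv⟩
        refine ⟨_, hJ.smul c T hTJ, fun b => ?_⟩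
        rw [smul_mul_assoc, smul_mul_assoc, map_smul, hTv, Pi.smul_apply, smul_eq_mul,
          smul_eq_mul, Rat.cast_mul] }
  have hmem : v₁ ∈ p := by
    by_contra hnot
    obtain ⟨f, hf1, hf2⟩ := Submodule.exists_le_ker_of_notMem hnot
    have hfsum : ∀ v : t → ℚ, f v = ∑ b : t, f (Pi.single b 1) * v b := by
      intro v
      conv_lhs => rw [← Finset.univ_sum_single v, map_sum]
      refine Finset.sum_congr rfl fun b _ => ?_
      rw [show (Pi.single b (v b) : t → ℚ) = v b • (Pi.single b 1 : t → ℚ) by
        rw [← Pi.single_smul, smul_eq_mul, mul_one], map_smul, smul_eq_mul, mul_comm]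
    set y : Fam.{u, v} ops X := fun W => ∑ b : t, ((f (Pi.single b 1) : ℚ) : W.K) • F b W with hy
    have hyJ : y ∈ J := hJ.sum _ fun b _ => hJ.smul _ _ (hFr b)
    have hyr : Realized ops X 0 y := hJ.real y hyJ
    have hyW : ∀ T : Module.End W.K (W.H X), LinearMap.trace W.K _ (T * y W * P) =
        ∑ b : t, ((f (Pi.single b 1) : ℚ) : W.K) * LinearMap.trace W.K _ (T * b.1 * P) := by
      intro T
      rw [hy]
      beta_reduce
      rw [Finset.mul_sum, Finset.sum_mul, map_sum]
      refine Finset.sum_congr rfl fun b _ => ?_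
      rw [mul_smul_comm, smul_mul_assoc, map_smul, hFW, smul_eq_mul]
    have h1 : ∀ T ∈ J, LinearMap.trace W.K _ (T W * y W * P) = 0 := by
      intro T hTJ
      obtain ⟨v, hv⟩ := hv T (hJ.real T hTJ)
      have hvp : v ∈ p := ⟨T, hTJ, hv⟩
      have h2 : f v = 0 := hf2 hvp
      rw [hyW]
      rw [hfsum] at h2
      have h3 : ((∑ b : t, f (Pi.single b 1) * v b : ℚ) : W.K) = 0 := by rw [h2, Rat.cast_zero]
      rw [← h3]
      push_cast
      exact Finset.sum_congr rfl fun b _ => by rw [hv]
    have h2 : LinearMap.trace W.K _ (y W * P) = 0 := by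
      apply trace_eq_zero_of_pow hyr
      intro m
      have h3 := h1 _ (hJ.pow_succ hyJ m)
      beta_reduce at h3
      rw [← _root_.pow_succ] at h3
      exact h3
    apply hf1
    rw [hfsum]
    have h3 := hyW 1
    rw [one_mul, h2] at h3
    have h4 : ((∑ b : t, f (Pi.single b 1) * v₁ b : ℚ) : W.K) = 0 := by
      rw [h3]
      push_cast
      exact Finset.sum_congr rfl fun b _ => by rw [hv₁]
    exact_mod_cast h4
  obtain ⟨T, hTJ, hTv⟩ := hmem
  refine ⟨T, hTJ, fun c hc => ?_⟩
  have hbS : c W ∈ Submodule.span W.K (t : Set (Module.End W.K (W.H X))) := by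
    rw [← htspan]
    exact Submodule.subset_span ⟨c, hc, rfl⟩
  generalize c W = b' at hbS
  induction hbS using Submodule.span_induction with
  | mem x hx =>
    have h1 := hTv ⟨x, hx⟩
    have h2 := hv₁ ⟨x, hx⟩
    rw [one_mul] at h2
    rw [h1, h2]
  | zero => rw [mul_zero]
  | add x y _ _ hx hy => rw [mul_add, add_mul, add_mul, map_add, map_add, hx, hy]
  | smul c x _ hx => rw [mul_smul_comm, smul_mul_assoc, smul_mul_assoc, map_smul, map_smul, hx]

/-- The traces of a family in two theories. -/
lemma trace_eq_of_same (hT : SameTraces X i W W') {T T' : Fam.{u, v} ops X}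
    (h : Realized ops X 0 T) (h' : Realized ops X 0 T')
    (hW : LinearMap.trace W.K _ (T W * proj (W.isInternal X) i) =
      LinearMap.trace W.K _ (T' W * proj (W.isInternal X) i)) :
    LinearMap.trace W'.K _ (T W' * proj (W'.isInternal X) i) =
      LinearMap.trace W'.K _ (T' W' * proj (W'.isInternal X) i) := by
  obtain ⟨t, ht, ht'⟩ := hT T h
  obtain ⟨s, hs, hs'⟩ := hT T' h'
  rw [LinearMap.trace_mul_comm, LinearMap.trace_mul_comm W.K (T' W), ht, hs] at hW
  rw [LinearMap.trace_mul_comm, LinearMap.trace_mul_comm W'.K (T' W'), ht', hs']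
  have : t = s := by exact_mod_cast hW
  rw [this]

/-- `E` is a right unit of the left ideal `J` in the traces on `H^i(X)`, for the theory `W`, and it
is idempotent on `H^i(X)`. -/
structure IsUnit' (J : Set (Fam.{u, v} ops X)) (i : ℕ) (E : Fam.{u, v} ops X)
    (W : WeilCohomology.{u, v} ops) : Prop where
  idem : ∀ a ∈ W.gr X i, E W (E W a) = E W a
  unit : ∀ c ∈ J, LinearMap.trace W.K _ (E W * c W * proj (W.isInternal X) i) =
      LinearMap.trace W.K _ (c W * proj (W.isInternal X) i)

/-- **Maximal idempotents for all theories at the same time.** -/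
theorem exists_maximal (hJ : IsLeftIdeal J) (hT : SameTraces X i W W) :
    ∃ E ∈ J, ∀ W' : WeilCohomology.{u, v} ops, SameTraces X i W W' → IsUnit' J i E W' := by
  obtain ⟨e, he, he1⟩ := exists_unit hJ hT
  have her := hJ.real e he
  set W₁ := W.betti X i with hW₁
  set N := W₁ + 1 with hN
  -- the unit property in the other theories
  have hunit : ∀ W' : WeilCohomology.{u, v} ops, SameTraces X i W W' → ∀ c ∈ J,
      LinearMap.trace W'.K _ (e W' * c W' * proj (W'.isInternal X) i) =
      LinearMap.trace W'.K _ (c W' * proj (W'.isInternal X) i) := by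
    intro W' hW' c hc
    exact trace_eq_of_same hW' ((her.mul (hJ.real c hc)).cast (zero_add 0)) (hJ.real c hc)
      (he1 c hc)
  -- powers
  have hpow : ∀ W' : WeilCohomology.{u, v} ops, SameTraces X i W W' → ∀ m : ℕ, ∀ c ∈ J,
      LinearMap.trace W'.K _ (e W' ^ m * c W' * proj (W'.isInternal X) i) =
      LinearMap.trace W'.K _ (c W' * proj (W'.isInternal X) i) := by
    intro W' hW' m
    induction m with
    | zero => intro c _; rw [pow_zero, one_mul]
    | succ m ih =>
      intro c hc
      rw [pow_succ, mul_assoc (e W' ^ m)]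
      rw [ih _ (hJ.left e her c hc)]
      exact hunit W' hW' c hc
  -- nilpotency of `e (1 - e)`
  set d : Fam.{u, v} ops X := fun W => e W * (1 - e W) with hd
  have hdr : Realized ops X 0 d := (her.mul (Realized.one.sub her)).cast (zero_add 0)
  have hd0 : ∀ b : Fam.{u, v} ops X, Realized ops X 0 b →
      LinearMap.trace W.K _ (d W * b W * proj (W.isInternal X) i) = 0 := by
    intro b hb
    set P := proj (W.isInternal X) i with hP
    have hbe : (fun W => b W * e W) ∈ J := hJ.left b hb e he
    have h1 := he1 _ hbe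
    beta_reduce at h1
    have hPe : P * e W = e W * P := real_comm her W i
    have h2 : LinearMap.trace W.K _ (d W * b W * P) =
        LinearMap.trace W.K _ ((1 - e W) * (b W * e W) * P) := by
      rw [hd]
      beta_reduce
      rw [mul_assoc (e W), mul_assoc (e W), LinearMap.trace_mul_comm]
      congr 1
      rw [mul_assoc ((1 - e W) * b W), hPe]
      simp only [mul_assoc]
    rw [h2, sub_mul, sub_mul, one_mul, map_sub, h1, sub_self]
  have hez : Realized ops X 0 (fun W : WeilCohomology.{u, v} ops => 1 - d W) :=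
    Realized.one.sub hdr
  have hzpow : ∀ r : ℕ, LinearMap.trace W.K (W.H X)
      (proj (W.isInternal X) i * (1 - d W) ^ r) = (W.betti X i : W.K) := by
    intro r
    induction r with
    | zero => rw [pow_zero, mul_one, trace_proj]; rfl
    | succ r ih =>
      have h3 := hd0 _ (hez.pow0 r)
      beta_reduce at h3
      rw [LinearMap.trace_mul_comm] at h3
      rw [pow_succ', sub_mul, one_mul, mul_sub, map_sub, h3, sub_zero, ih]
  have hnil : ∀ W' : WeilCohomology.{u, v} ops, SameTraces X i W W' →
      ∀ a ∈ W'.gr X i, (d W' ^ N) a = 0 := by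
    intro W' hW' a ha
    have h3 := unip_of_traces hW' hez (fun r => hzpow (r + 1)) a ha
    beta_reduce at h3
    rw [sub_sub_cancel] at h3
    rw [hN, pow_succ', Module.End.mul_apply, h3, map_zero]
  -- the idempotent
  set E : Fam.{u, v} ops X := fun W => 1 - (1 - e W ^ N) ^ N with hE
  have hEJ : E ∈ J := by
    have h1 : E = fun W => (∑ k ∈ range N, (1 - e W ^ N) ^ k) * e W ^ (W₁ + 1) := by
      funext W'
      have := geom_sum_mul_neg (1 - e W' ^ N) N
      rw [sub_sub_cancel] at this
      rw [hE]
      beta_reduce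
      rw [← this]
    rw [h1]
    exact hJ.left _ (Realized.sum fun k _ => (Realized.one.sub (her.pow0 N)).pow0 k) _
      (hJ.pow_succ he W₁)
  refine ⟨E, hEJ, fun W' hW' => ⟨fun a ha => ?_, fun c hc => ?_⟩⟩
  · have hdvd : ((Polynomial.X : W'.K[X]) * (1 - Polynomial.X)) ^ N ∣
        (1 - (1 - Polynomial.X ^ N) ^ N) * (1 - Polynomial.X ^ N) ^ N := by
      rw [mul_pow]
      apply mul_dvd_mul
      · have h1 := sub_dvd_pow_sub_pow (1 : W'.K[X]) (1 - Polynomial.X ^ N) N
        rwa [one_pow, sub_sub_cancel] at h1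
      · apply pow_dvd_pow_of_dvd
        have h1 := sub_dvd_pow_sub_pow (1 : W'.K[X]) Polynomial.X N
        rwa [one_pow] at h1
    obtain ⟨q, hq⟩ := hdvd
    have h1 := congrArg (aeval (e W')) hq
    simp only [map_mul, map_pow, map_sub, map_one, aeval_X] at h1
    have h2 : (E W' * (1 - E W')) a = 0 := by
      rw [hE]
      beta_reduce
      rw [sub_sub_cancel, h1]
      have h3 : (e W' * (1 - e W')) ^ N * (aeval (e W')) q =
          (aeval (e W')) q * d W' ^ N := by
        have h4 : d W' = aeval (e W') (Polynomial.X * (1 - Polynomial.X) : W'.K[X]) := by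
          simp [hd]
        rw [hd]
        beta_reduce
        have h5 : e W' * (1 - e W') = aeval (e W') (Polynomial.X * (1 - Polynomial.X) : W'.K[X]) := by simp
        rw [h5, ← map_pow, ← map_mul, ← map_mul, mul_comm]
      rw [h3, Module.End.mul_apply, hnil W' hW' a ha, map_zero]
    rw [mul_sub, mul_one, LinearMap.sub_apply, Module.End.mul_apply, sub_eq_zero] at h2
    exact h2.symm
  · rw [hE]
    beta_reduce
    rw [sub_mul, sub_mul, one_mul, map_sub]
    have hc' : (fun W => (1 - e W ^ N) ^ W₁ * c W) ∈ J :=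
      hJ.left _ ((Realized.one.sub (her.pow0 N)).pow0 W₁) c hc
    have h1 := hpow W' hW' N _ hc'
    beta_reduce at h1
    have h2 : (1 - e W' ^ N) ^ N * c W' = (1 - e W' ^ N) ^ W₁ * c W' -
        e W' ^ N * ((1 - e W' ^ N) ^ W₁ * c W') := by
      have h3 : (1 - e W' ^ N) ^ N = (1 - e W' ^ N) * (1 - e W' ^ N) ^ W₁ := pow_succ' _ _
      rw [h3, sub_mul, one_mul, sub_mul, mul_assoc]
    rw [h2, sub_mul, map_sub, h1, sub_self, sub_zero]

/-- Elements of the left ideal are, up to trace zero, multiples of the maximal idempotent. -/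
lemma IsUnit'.trace_zero {E : Fam.{u, v} ops X} (hJ : IsLeftIdeal J) (hE : IsUnit' J i E W)
    {f g : Module.End W.K (W.H X)} (hf : f ∈ KJ J W)
    (hg : g ∈ Submodule.span W.K (corrOps W X)) :
    LinearMap.trace W.K _ (f * (1 - E W) * g * proj (W.isInternal X) i) = 0 := by
  set P := proj (W.isInternal X) i with hP
  induction hf using Submodule.span_induction with
  | mem f hf =>
    obtain ⟨F, hF, rfl⟩ := hf
    induction hg using Submodule.span_induction with
    | mem g hg =>
      obtain ⟨b, hb, rfl⟩ := mem_corrOps_iff.1 hg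
      have h1 := hE.unit _ (hJ.left b hb F hF)
      beta_reduce at h1
      have hFP : P * F W = F W * P := real_comm (hJ.real F hF) W i
      have h2 : LinearMap.trace W.K _ (F W * (1 - E W) * b W * P) =
          LinearMap.trace W.K _ ((1 - E W) * (b W * F W) * P) := by
        rw [mul_assoc (F W), mul_assoc (F W), LinearMap.trace_mul_comm]
        congr 1
        rw [mul_assoc ((1 - E W) * b W), hFP]
        simp only [mul_assoc]
      rw [h2, sub_mul, sub_mul, one_mul, map_sub, h1, sub_self]
    | zero => rw [mul_zero, zero_mul, map_zero]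
    | add x y _ _ hx hy => rw [mul_add, add_mul, map_add, hx, hy, add_zero]
    | smul c x _ hx => rw [mul_smul_comm, smul_mul_assoc, map_smul, hx, smul_zero]
  | zero => rw [zero_mul, zero_mul, zero_mul, map_zero]
  | add x y _ _ hx hy => rw [add_mul, add_mul, add_mul, map_add, hx, hy, add_zero]
  | smul c x _ hx => rw [smul_mul_assoc, smul_mul_assoc, smul_mul_assoc, map_smul, hx, smul_zero]

/-- The stable rank of an operator is bounded by the rank of a maximal idempotent. -/
theorem rank_le_of_trace_zero {E : Fam.{u, v} ops X} (hEr : Realized ops X 0 E)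
    {f : Module.End W.K (W.H X)} (hf : f ∈ Submodule.span W.K (corrOps W X))
    (hz : ∀ g ∈ Submodule.span W.K (corrOps W X),
      LinearMap.trace W.K _ (f * (1 - E W) * g * proj (W.isInternal X) i) = 0) :
    ∃ m : ℕ, Module.finrank W.K ((W.gr X i).map (f ^ m)) ≤
      Module.finrank W.K ((W.gr X i).map (E W)) := by
  set P := proj (W.isInternal X) i with hP
  have hPP : P * P = P := proj_mul_proj _ i
  have hPpow : ∀ m : ℕ, P ^ (m + 1) = P := by
    intro m
    induction m with
    | zero => simp
    | succ m ih => rw [pow_succ, ih, hPP]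
  obtain ⟨w, m, -, hw, hmw, g, hg⟩ := exists_fitting f
  have hevA : ∀ q : W.K[X], aeval f q ∈ Submodule.span W.K (corrOps W X) := by
    intro q
    induction q using Polynomial.induction_on' with
    | add a b ha hb => rw [map_add]; exact Submodule.add_mem _ ha hb
    | monomial r κ =>
      rw [aeval_monomial, Algebra.algebraMap_eq_smul_one, smul_mul_assoc, one_mul]
      exact Submodule.smul_mem _ _ (span_corrOps_pow hf r)
  have hfg : aeval f (1 - w) = aeval f g * f := by
    rw [hg, mul_comm, map_mul, aeval_X]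
  set f' := aeval f (1 - w) with hf'
  have hf'A : f' ∈ Submodule.span W.K (corrOps W X) := hevA _
  have hmem : ∀ {T : Module.End W.K (W.H X)}, T ∈ Submodule.span W.K (corrOps W X) →
      ∀ a ∈ W.gr X i, T a ∈ W.gr X i := by
    intro T hT a ha
    have h1 := congrArg (fun F => F a) (corrOps_comm (i := i) hT)
    beta_reduce at h1
    rw [Module.End.mul_apply, Module.End.mul_apply, proj_same _ ha] at h1
    rw [← h1]
    exact proj_mem _ i _
  have hidem : f' * f' = f' := by
    rw [hf', map_sub, map_one, mul_sub, sub_mul, sub_mul, hw]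
    simp
  have hmf : f ^ m = f ^ m * f' := by
    rw [hf', map_sub, map_one, mul_sub, hmw, mul_one, sub_zero]
  -- `E` is injective on the image of `f'`
  set h := f' * (1 - E W) with hh
  have hEA : E W ∈ Submodule.span W.K (corrOps W X) :=
    Submodule.subset_span (mem_corrOps_iff.2 ⟨E, hEr, rfl⟩)
  have hhA : h ∈ Submodule.span W.K (corrOps W X) :=
    span_corrOps_mul hf'A (Submodule.sub_mem _ (Submodule.subset_span one_mem_corrOps) hEA)
  have hnil : IsNilpotent (h * P) := by
    apply isNilpotent_of_trace_pow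
    intro r
    have hc : Commute P h := corrOps_comm hhA
    rw [hc.symm.mul_pow, hPpow, pow_succ']
    have h1 : LinearMap.trace W.K _ (h * h ^ r * P) =
        LinearMap.trace W.K _ (f * (1 - E W) * (h ^ r * aeval f g) * P) := by
      rw [hh, hfg]
      have hcg : P * aeval f g = aeval f g * P := corrOps_comm (hevA g)
      have h2 : aeval f g * f * (1 - E W) * (aeval f g * f * (1 - E W)) ^ r * P =
          aeval f g * (f * (1 - E W) * (aeval f g * f * (1 - E W)) ^ r * P) := by
        simp only [mul_assoc]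
      rw [h2, LinearMap.trace_mul_comm]
      congr 1
      simp only [mul_assoc, hcg]
    rw [h1]
    exact hz _ (span_corrOps_mul (span_corrOps_pow hhA r) (hevA g))
  obtain ⟨N, hN⟩ := hnil
  have hinj : ∀ x ∈ (W.gr X i).map f', E W x = 0 → x = 0 := by
    rintro _ ⟨a, ha, rfl⟩ h0
    have hx : f' a ∈ W.gr X i := hmem hf'A a ha
    have h1 : (h * P) (f' a) = f' a := by
      rw [Module.End.mul_apply, proj_same _ hx, hh, Module.End.mul_apply, LinearMap.sub_apply,
        Module.End.one_apply, h0, sub_zero, ← Module.End.mul_apply, hidem]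
    have h2 : ∀ r : ℕ, ((h * P) ^ r) (f' a) = f' a := by
      intro r
      induction r with
      | zero => rfl
      | succ r ih => rw [pow_succ, Module.End.mul_apply, h1, ih]
    rw [← h2 N, hN, LinearMap.zero_apply]
  refine ⟨m, ?_⟩
  have e1 : (W.gr X i).map (f ^ m) = ((W.gr X i).map f').map (f ^ m) := by
    conv_lhs => rw [hmf]
    exact Submodule.map_comp f' (f ^ m) (W.gr X i)
  rw [e1]
  refine (Submodule.finrank_map_le _ _).trans ?_
  have e2 : Module.finrank W.K ((W.gr X i).map f') =
      Module.finrank W.K (((W.gr X i).map f').map (E W)) := by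
    have hker : LinearMap.ker ((E W).domRestrict ((W.gr X i).map f')) = ⊥ := by
      rw [LinearMap.ker_eq_bot']
      rintro ⟨x, hx⟩ h0
      exact Subtype.ext (hinj x hx h0)
    have h1 := LinearMap.finrank_range_of_inj (LinearMap.ker_eq_bot.1 hker)
    rw [LinearMap.range_domRestrict] at h1
    exact h1.symm
  rw [e2]
  apply Submodule.finrank_mono
  apply Submodule.map_mono
  rintro _ ⟨a, ha, rfl⟩
  exact hmem hf'A a ha

/-- The rank of an idempotent is its trace. -/
lemma finrank_eq_trace {E : Fam.{u, v} ops X} (hEr : Realized ops X 0 E)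
    (hE : ∀ a ∈ W.gr X i, E W (E W a) = E W a) :
    (Module.finrank W.K ((W.gr X i).map (E W)) : W.K) =
      LinearMap.trace W.K _ (proj (W.isInternal X) i * E W) := by
  have hc : Commute (proj (W.isInternal X) i) (E W) := real_comm hEr W i
  have hproj : LinearMap.IsProj ((W.gr X i).map (E W)) (E W * proj (W.isInternal X) i) := by
    constructor
    · intro x
      exact ⟨_, proj_mem _ i x, rfl⟩
    · rintro _ ⟨a, ha, rfl⟩
      rw [Module.End.mul_apply, proj_same _ (real_mem hEr W ha), hE a ha]
  rw [hc.eq]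
  exact hproj.trace.symm

end Pool.Agent.R907
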