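import Pool.Agent.R907.NcRankDefs
import Pool.Agent.R907.SignRank

/-!
# The noncommutative Künneth standard conjecture in terms of ranks
-/

set_option autoImplicit false

open CategoryTheory Limits MonoidalCategory Finset
open Pool.Agent.Y112.SR Pool.Agent.Y112.KD Pool.Agent.R484.NC Pool.Agent.R255.NcSep

namespace Pool.Agent.R907

universe v u w

section Abs

variable {K : Type*} [Field K] {V : Type*} [AddCommGroup V] [Module K V]

/-- The two projectors. -/
def pm' (p : Module.End K V) (j : ℕ) : Module.End K V :=
  if j = 0 then p else if j = 1 then 1 - p else 0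

/-- The weights. -/
def pmc' (K : Type*) [Field K] (j : ℕ) : K := if j = 0 then 1 else -1

lemma pm'_sum (p : Module.End K V) :
    p - (1 - p) = ∑ j ∈ range 2, pmc' K j • pm' p j := by
  rw [Finset.sum_range_succ, Finset.sum_range_one, pmc', pmc', pm', pm', if_pos rfl, if_pos rfl,
    if_neg one_ne_zero, if_neg one_ne_zero, if_pos rfl, one_smul]
  have h : (-1 : K) • (1 - p) = -(1 - p) := by
    module
  rw [h, ← sub_eq_add_neg]

lemma pm'_mul {p : Module.End K V} (h : p * p = p) (i j : ℕ) :
    pm' p i * pm' p j = if i = j then pm' p i else 0 := by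
  rcases i with _ | _ | i <;> rcases j with _ | _ | j <;>
    simp [pm', mul_sub, sub_mul, h]

/-- **Ranks and projectors.** -/
theorem abs_rank [CharZero K] [Module.Finite K V] {A : Set (Module.End K V)} {p : Module.End K V}
    (hpp : p * p = p) (hcomm : ∀ a ∈ Submodule.span K A, p * a = a * p)
    (h1 : (1 : Module.End K V) ∈ Submodule.span K A)
    (hmul : ∀ x ∈ Submodule.span K A, ∀ y ∈ Submodule.span K A, x * y ∈ Submodule.span K A) :
    formRank (p - (1 - p)) A ≤ formRank p A + formRank (1 - p) A ∧
      (p ∈ Submodule.span K A ↔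
        formRank (p - (1 - p)) A = formRank p A + formRank (1 - p) A) := by
  have hsum : ∑ j ∈ range 2, formRank (pm' p j) A = formRank p A + formRank (1 - p) A := by
    rw [Finset.sum_range_succ, Finset.sum_range_one]
    rfl
  rw [← hsum]
  refine ⟨formRank_le_sum _ _ _ _ (pm'_sum p), fun he => ?_, fun h => ?_⟩
  · refine formRank_eq_sum _ _ _ _ (pm'_sum p) (fun j => ?_)
      hmul (fun j hj => ?_) (fun j a ha => ?_) (pm'_mul hpp)
    · rw [pmc']
      split_ifs
      · exact one_ne_zero
      · exact neg_ne_zero.2 one_ne_zero
    · rw [pm']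
      split_ifs
      · exact he
      · exact Submodule.sub_mem _ h1 he
      · exact Submodule.zero_mem _
    · rw [pm']
      split_ifs
      · exact hcomm a ha
      · rw [sub_mul, mul_sub, one_mul, mul_one, hcomm a ha]
      · rw [zero_mul, mul_zero]
  · obtain ⟨a, ha, ha2⟩ := exists_joint _ _ _ _ (pm'_sum p) h
      (fun j => if j = 0 then 1 else 0) (fun j => by
        by_cases hj : j = 0
        · rw [if_pos hj]; exact h1
        · rw [if_neg hj]; exact Submodule.zero_mem _)
    have ht1 : ∀ b ∈ Submodule.span K A,
        LinearMap.trace K _ (a * b * p) = LinearMap.trace K _ (b * p) := by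
      intro b hb
      induction hb using Submodule.span_induction with
      | mem y hy =>
        have h2 := ha2 0 (by norm_num) y hy
        rwa [if_pos rfl, one_mul, pm', if_pos rfl] at h2
      | zero => simp
      | add x y _ _ hx hy => rw [mul_add, add_mul, map_add, hx, hy, add_mul, map_add]
      | smul c x _ hx =>
        rw [mul_smul_comm, smul_mul_assoc, map_smul, hx, smul_mul_assoc, map_smul]
    have ht2 : ∀ b ∈ Submodule.span K A,
        LinearMap.trace K _ (a * b * (1 - p)) = 0 := by
      intro b hb
      induction hb using Submodule.span_induction with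
      | mem y hy =>
        have h2 := ha2 1 (by norm_num) y hy
        rwa [if_neg one_ne_zero, zero_mul, zero_mul, map_zero, pm', if_neg one_ne_zero,
          if_pos rfl] at h2
      | zero => simp
      | add x y _ _ hx hy => rw [mul_add, add_mul, map_add, hx, hy, add_zero]
      | smul c x _ hx =>
        rw [mul_smul_comm, smul_mul_assoc, map_smul, hx, smul_zero]
    exact idem_of_traces hpp (hcomm a ha) ha h1 hmul ht1 ht2

/-- The pullback of functions along a surjective map. -/
lemma finrank_pull {S E : Type*} (π : E → S) (hπ : Function.Surjective π) (T : Set (S → K)) :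
    Module.finrank K (Submodule.span K T) =
      Module.finrank K (Submodule.span K ((fun φ : S → K => φ ∘ π) '' T)) := by
  have h := Submodule.map_span (LinearMap.funLeft K K π) T
  have hinj : Function.Injective (LinearMap.funLeft K K π) :=
    LinearMap.funLeft_injective_of_surjective K K π hπ
  have h2 := LinearEquiv.finrank_eq (Submodule.equivMapOfInjective _ hinj (Submodule.span K T))
  rw [h] at h2
  exact h2

/-- Functions with rational values which are independent over the rational numbers are independent
over `K`. -/
lemma indep_cast [CharZero K] {ι E : Type*} {v : ι → E → ℚ} (hv : LinearIndependent ℚ v) :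
    LinearIndependent K (fun i => fun e => ((v i e : ℚ) : K)) := by
  rw [linearIndependent_iff'] at hv ⊢
  intro s g hg i hi
  rw [← Module.forall_dual_apply_eq_zero_iff ℚ (g i)]
  intro l
  refine hv s (fun j => l (g j)) ?_ i hi
  funext e
  have h1 := congrArg l (congrFun hg e)
  rw [Finset.sum_apply, map_sum, Pi.zero_apply, map_zero] at h1
  rw [Finset.sum_apply, Pi.zero_apply, ← h1]
  refine Finset.sum_congr rfl fun j _ => ?_
  rw [Pi.smul_apply, Pi.smul_apply, smul_eq_mul, smul_eq_mul]
  have h2 : g j * ((v j e : ℚ) : K) = (v j e) • g j := by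
    rw [Rat.smul_def, mul_comm]
  rw [h2, map_smul, smul_eq_mul, mul_comm]

/-- The rank over the rational numbers and the rank over `K`. -/
lemma finrank_cast [CharZero K] {ι E : Type*} (F : ι → E → ℚ) :
    Module.finrank K (Submodule.span K (Set.range fun i => fun e => ((F i e : ℚ) : K))) =
      Module.finrank ℚ (Submodule.span ℚ (Set.range F)) := by
  obtain ⟨b, hb1, hb2, hb3⟩ := exists_linearIndependent ℚ (Set.range F)
  have h1 : Module.finrank ℚ (Submodule.span ℚ (Set.range F)) = Cardinal.toNat (Cardinal.mk b) := by
    rw [← hb2, Module.finrank, rank_span_set hb3]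
  let φ : (E → ℚ) →ₗ[ℚ] (E → K) :=
    { toFun := fun x => fun e => ((x e : ℚ) : K)
      map_add' := fun x y => by funext e; exact Rat.cast_add _ _
      map_smul' := fun q x => by
        funext e
        change ((q * x e : ℚ) : K) = q • ((x e : ℚ) : K)
        rw [Rat.cast_mul, Rat.smul_def] }
  have h2 : LinearIndependent K (fun x : b => φ x.1) := indep_cast hb3
  have h3 : Submodule.span K (Set.range fun i => fun e => ((F i e : ℚ) : K)) =
      Submodule.span K (Set.range fun x : b => φ x.1) := by
    apply le_antisymm
    · rw [Submodule.span_le]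
      rintro _ ⟨i, rfl⟩
      have h4 : F i ∈ Submodule.span ℚ b := by
        rw [hb2]
        exact Submodule.subset_span ⟨i, rfl⟩
      have h5 : ∀ y ∈ Submodule.span ℚ b,
          φ y ∈ Submodule.span K (Set.range fun x : b => φ x.1) := by
        intro y hy
        induction hy using Submodule.span_induction with
        | mem y hy => exact Submodule.subset_span ⟨⟨y, hy⟩, rfl⟩
        | zero => rw [map_zero]; exact Submodule.zero_mem _
        | add x y _ _ hx hy => rw [map_add]; exact Submodule.add_mem _ hx hy
        | smul q x _ hx =>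
          rw [map_smul, ← Rat.cast_smul_eq_qsmul K]
          exact Submodule.smul_mem _ _ hx
      exact h5 _ h4
    · apply Submodule.span_mono
      rintro _ ⟨x, rfl⟩
      obtain ⟨i, hi⟩ := hb1 x.2
      refine ⟨i, ?_⟩
      change (fun e => ((F i e : ℚ) : K)) = φ x.1
      rw [← hi]
      rfl
  have h6 : Function.Injective (fun x : b => φ x.1) := by
    intro x y hxy
    apply Subtype.ext
    funext e
    exact Rat.cast_injective (α := K) (congrFun hxy e)
  have h7 := rank_span h2
  have h8 := congrArg Cardinal.toNat (Cardinal.mk_range_eq_of_injective h6)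
  rw [Cardinal.toNat_lift, Cardinal.toNat_lift] at h8
  rw [h1, h3, Module.finrank, h7]
  exact h8

end Abs

section Cat

variable {C : Type u} [Category.{v} C] [Preadditive C] [Linear ℚ C] [MonoidalCategory C]
  [MonoidalPreadditive C] [MonoidalLinear ℚ C] [SymmetricCategory C] [RightRigidCategory C]
  {K : Type w} [Field K]

/-- The rank of the supertrace form. -/
theorem formRank_parity (R : SuperRealisation C K) (hU : UnitQ C) (M : C) :
    formRank (parity R M) (algOps R M) = numEndRank hU M := by
  have hc := R_charZero R
  have hfin := R.finite M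
  have hπ : Function.Surjective
      (fun f : M ⟶ M => (⟨op R f, mem_algOps R f⟩ : algOps R M)) := by
    rintro ⟨_, f, rfl⟩
    exact ⟨f, rfl⟩
  rw [numEndRank, ratRank, ← finrank_cast (K := K), formRank, finrank_pull _ hπ]
  have hval : ∀ f g : M ⟶ M, LinearMap.trace K _ (op R f * op R g * parity R M) =
      ((ctr hU (f ≫ g) : ℚ) : K) := by
    intro f g
    rw [ctr_eq R, str_comm, str_eq, Pool.Agent.R484.NC.op_comp, parity_eq, LinearMap.trace_mul_comm]
  have hset : ((fun φ : algOps R M → K =>
        φ ∘ (fun f : M ⟶ M => (⟨op R f, mem_algOps R f⟩ : algOps R M))) ''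
      (formFun (parity R M) (algOps R M) '' algOps R M)) =
      Set.range fun f : M ⟶ M => fun g : M ⟶ M => ((ctr hU (f ≫ g) : ℚ) : K) := by
    apply Set.ext
    intro φ
    constructor
    · rintro ⟨_, ⟨_, ⟨f, rfl⟩, rfl⟩, rfl⟩
      exact ⟨f, funext fun g => (hval f g).symm⟩
    · rintro ⟨f, rfl⟩
      exact ⟨_, ⟨_, ⟨f, rfl⟩, rfl⟩, funext fun g => hval f g⟩
  rw [hset]

/-- **The noncommutative Künneth standard conjecture in terms of ranks.** -/
theorem nc_rank (R : SuperRealisation C K) (hU : UnitQ C) (M : C) :
    numEndRank hU M ≤ parityRankSum (parity R M) (algOps R M) ∧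
      (R.CPlus M ↔ numEndRank hU M = parityRankSum (parity R M) (algOps R M)) := by
  have hc := R_charZero R
  have hfin := R.finite M
  rw [← formRank_parity R hU M, parityRankSum, evenProj_eq, parity_eq]
  obtain ⟨h1, h2⟩ := abs_rank (A := algOps R M) (evp_idem R M) (fun a ha => span_comm R ha)
    (Submodule.subset_span (one_mem R M)) (span_mul R)
  refine ⟨h1, ?_, ?_⟩
  · intro h
    rw [cplus_iff_op] at h
    obtain ⟨f, hf⟩ := h
    refine h2.1 ?_
    rw [← hf]
    exact Submodule.subset_span (mem_algOps R f)
  · intro h
    exact cplus_of_span R hU (h2.2 h)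

end Cat

end Pool.Agent.R907
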