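import Pool.Agent.R907.CritDefs
import Pool.Agent.R255.NcSep

/-!
# The noncommutative Künneth standard conjecture in terms of ranks: definitions
-/

set_option autoImplicit false

open CategoryTheory Limits MonoidalCategory
open Pool.Agent.Y112.SR Pool.Agent.Y112.KD Pool.Agent.R484.NC Pool.Agent.R255.NcSep

namespace Pool.Agent.R907

universe v u w

/-- The sum of the ranks of the forms `tr(a ∘ b | V₊)` and `tr(a ∘ b | V₋)` on the set `A` of
operators on `V`, where `V₊` and `V₋` are the parts of `V` on which the involution `s` is `1` and
`-1`. -/
noncomputable def parityRankSum {K : Type w} [Field K] {V : Type w} [AddCommGroup V] [Module K V]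
    (s : Module.End K V) (A : Set (Module.End K V)) : ℕ :=
  formRank (evenProj s) A + formRank (1 - evenProj s) A

/-- The rank of a function `F` of two variables with rational values: the dimension of the space
spanned by the functions `F(f, -)`. -/
noncomputable def ratRank {E : Type*} (F : E → E → ℚ) : ℕ :=
  Module.finrank ℚ (Submodule.span ℚ (Set.range F))

variable {C : Type u} [Category.{v} C] [Preadditive C] [Linear ℚ C] [MonoidalCategory C]
  [MonoidalPreadditive C] [MonoidalLinear ℚ C] [SymmetricCategory C] [RightRigidCategory C]

/-- The dimension of the rational vector space `End(M)` modulo numerical equivalence: the rank of the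
form `tr(f ≫ g)`, where `tr` is the trace in the rigid category. -/
noncomputable def numEndRank (hU : UnitQ C) (M : C) : ℕ :=
  ratRank fun f g : M ⟶ M => ctr hU (f ≫ g)

end Pool.Agent.R907
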