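import Pool.Agent.Y106.One.Defs

/-!
# Partial inverses of the Lefschetz isomorphisms: definitions
-/

open CategoryTheory AlgebraicGeometry

universe u₁ v₁ u v

namespace Pool.Agent.R907

open Pool.Agent.H914 Pool.Agent.Y106.One VarClass Obj WeilCohomology

section Alg

variable {K : Type*} [Field K] {V : Type*} [AddCommGroup V] [Module K V]

/-- The operator `T` is idempotent on the subspace `U`, and the image of `U` has dimension `r`. -/
def ProjectsRank (U : Submodule K V) (T : Module.End K V) (r : ℕ) : Prop :=
  (∀ a ∈ U, T (T a) = T a) ∧ Module.finrank K (U.map T) = r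

/-- The images of `U` under the high powers of `T` have dimension at most `r` (if `T` maps `U` to
itself, this says that `T` has at most `r` nonzero eigenvalues on `U`, with multiplicities). -/
def StableRankLE (U : Submodule K V) (T : Module.End K V) (r : ℕ) : Prop :=
  ∃ m : ℕ, Module.finrank K (U.map (T ^ m)) ≤ r

end Alg

variable {k : Type u} [Field k] {𝒱 : VarClass k} {ops : CycleOps 𝒱}

/-- The operator `z ∘ ξ ^ (n - i)` is idempotent on `H^i(X)`, with an image of dimension `r`, where
`n = dim X` and `ξ` is the class of `D`; so the cycle `z` induces the inverse of `ξ ^ (n - i)` on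
a direct factor of dimension `r` of `H^i(X)`. -/
def InvertsOnFactor (W : WeilCohomology.{u, v} ops) (X : 𝒱.Obj) (D : X.Cycles) (i : ℕ)
    (z : (X.prod X).Cycles) (r : ℕ) : Prop :=
  ProjectsRank (W.gr X i) (corrLef W X D i (W.cl _ z)) r

/-- For every linear combination `γ` of classes of cycles of codimension `i` on `X × X`, with
coefficients in the coefficient field of `W`, the operator `γ ∘ ξ ^ (n - i)` has at most `r` nonzero
eigenvalues on `H^i(X)`, with multiplicities. -/
def BoundsInverses (W : WeilCohomology.{u, v} ops) (X : 𝒱.Obj) (D : X.Cycles) (i r : ℕ) : Prop :=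
  ∀ γ ∈ spanCycles W (X.prod X) (i : ℤ), StableRankLE (W.gr X i) (corrLef W X D i γ) r

/-- One cycle `z` of codimension `i` on `X × X` with rational coefficients induces the inverse of
`ξ ^ (n - i)` on a direct factor of dimension `r` of `H^i(X)`, for all theories with the property
`P`, and for no such theory any combination of cycles with coefficients in the coefficient field
does better: `BoundsInverses` holds with the same `r`. -/
def MaximalPartialInverse (P : WeilCohomology.{u, v} ops → Prop) (X : 𝒱.Obj) (D : X.Cycles)
    (i : ℕ) (z : (X.prod X).Cycles) (r : ℕ) : Prop :=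
  (X.prod X).IsCyc i z ∧ ∀ W : WeilCohomology.{u, v} ops, P W →
    InvertsOnFactor W X D i z r ∧ BoundsInverses W X D i r

end Pool.Agent.R907
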