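import Pool.Agent.R907.Max
import Pool.Agent.R907.PartDefs

/-!
# Maximal partial inverses of the Lefschetz isomorphisms
-/

open CategoryTheory AlgebraicGeometry Finset Polynomial

set_option linter.unusedSectionVars false

universe u₁ v₁ u v

namespace Pool.Agent.R907

open Pool.Agent.H914 Pool.Agent.H447 Pool.Agent.W537 Pool.Agent.Y106.One VarClass Obj
  WeilCohomology

variable {k : Type u} [Field k] {𝒱 : VarClass k} {ops : CycleOps 𝒱} {X : 𝒱.Obj}
  {W W' : WeilCohomology.{u, v} ops} {i : ℕ}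

lemma corrLef_eq (W : WeilCohomology.{u, v} ops) (X : 𝒱.Obj) (D : X.Cycles) (i : ℕ)
    (γ : W.H (X.prod X)) : corrLef W X D i γ = W.corr γ * LL D W ^ (X.dim - i) := by
  rw [LinearMap.pow_mulLeft]
  rfl

lemma corrLef_mem {D : X.Cycles} {γ : W.H (X.prod X)}
    (hγ : γ ∈ spanCycles W (X.prod X) (i : ℤ)) :
    corrLef W X D i γ ∈ KJ (lefIdeal.{u, v} ops X D i) W := by
  rw [corrLef_eq]
  induction hγ using Submodule.span_induction with
  | mem γ hγ =>
    obtain ⟨p, hp, z, hz, rfl⟩ := hγ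
    obtain rfl : p = i := by exact_mod_cast hp
    exact Submodule.subset_span
      ⟨fun W => W.corr (W.cl _ z) * LL D W ^ (X.dim - p), ⟨z, hz, fun _ => rfl⟩, rfl⟩
  | zero => rw [corr_zero, zero_mul]; exact Submodule.zero_mem _
  | add x y _ _ hx hy => rw [corr_add, add_mul]; exact Submodule.add_mem _ hx hy
  | smul κ x _ hx => rw [corr_smul, smul_mul_assoc]; exact Submodule.smul_mem _ _ hx

lemma KJ_le_span {J : Set (Fam.{u, v} ops X)} (hJ : IsLeftIdeal J) :
    KJ J W ≤ Submodule.span W.K (corrOps W X) := by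
  apply Submodule.span_mono
  rintro _ ⟨F, hF, rfl⟩
  exact mem_corrOps_iff.2 ⟨F, hJ.real F hF, rfl⟩

/-- The ranks of idempotents are the same for all theories. -/
lemma finrank_eq_of_same {E : Fam.{u, v} ops X} (hEr : Realized ops X 0 E)
    (hT : SameTraces X i W W') (hE : ∀ a ∈ W.gr X i, E W (E W a) = E W a)
    (hE' : ∀ a ∈ W'.gr X i, E W' (E W' a) = E W' a) :
    Module.finrank W'.K ((W'.gr X i).map (E W')) = Module.finrank W.K ((W.gr X i).map (E W)) := by
  obtain ⟨t, ht, ht'⟩ := hT E hEr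
  rw [← finrank_eq_trace hEr hE] at ht
  rw [← finrank_eq_trace hEr hE'] at ht'
  have e1 : (Module.finrank W.K ((W.gr X i).map (E W)) : ℚ) = t := by exact_mod_cast ht
  have e2 : (Module.finrank W'.K ((W'.gr X i).map (E W')) : ℚ) = t := by exact_mod_cast ht'
  have : (Module.finrank W'.K ((W'.gr X i).map (E W')) : ℚ) =
    Module.finrank W.K ((W.gr X i).map (E W)) := by rw [e1, e2]
  exact_mod_cast this

variable {k₀ : Type u₁} [Field k₀] {𝒱₀ : VarClass k₀} {ops₀ : CycleOps 𝒱₀}

/-- **Maximal partial inverses for all theories at the same time.** -/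
theorem exists_maximalPartialInverse (R : Reduction X 𝒱₀) {D : X.Cycles} (hD : X.IsCyc 1 D)
    (hi : i ≤ X.dim) : ∃ (z : (X.prod X).Cycles) (r : ℕ),
      MaximalPartialInverse.{u, v} (ops := ops) (Reduction.Pure.{u₁, v₁} R ops₀) X D i z r ∧
      ∀ W : WeilCohomology.{u, v} ops, Reduction.Pure.{u₁, v₁} R ops₀ W →
        (OneCycleForAll.{u, v} (ops := ops) (Reduction.Pure.{u₁, v₁} R ops₀) X D i ↔
          r = W.betti X i) := by
  by_cases hex : ∃ W : WeilCohomology.{u, v} ops, Reduction.Pure.{u₁, v₁} R ops₀ W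
  swap
  · push Not at hex
    exact ⟨0, 0, ⟨SmVar.IsCyc.zero _ _, fun W hW => absurd hW (hex W)⟩,
      fun W hW => absurd hW (hex W)⟩
  obtain ⟨W₁, hW₁⟩ := hex
  have hJ := lefIdeal_isLeftIdeal.{u, v} (ops := ops) hD hi
  obtain ⟨E, hEJ, hE⟩ := exists_maximal hJ (sameTraces_of_reduction R hW₁ hW₁ i)
  have hEr := hJ.real E hEJ
  obtain ⟨z, hz, hEz⟩ := hEJ
  have hEz' : ∀ W : WeilCohomology.{u, v} ops, corrLef W X D i (W.cl _ z) = E W := by
    intro W
    rw [corrLef_eq, hEz]
  have hu : ∀ W : WeilCohomology.{u, v} ops, Reduction.Pure.{u₁, v₁} R ops₀ W →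
      IsUnit' (lefIdeal.{u, v} ops X D i) i E W :=
    fun W hW => hE W (sameTraces_of_reduction R hW₁ hW i)
  set r := Module.finrank W₁.K ((W₁.gr X i).map (E W₁)) with hr
  have hrank : ∀ W : WeilCohomology.{u, v} ops, Reduction.Pure.{u₁, v₁} R ops₀ W →
      Module.finrank W.K ((W.gr X i).map (E W)) = r := fun W hW =>
    finrank_eq_of_same hEr (sameTraces_of_reduction R hW₁ hW i) (hu W₁ hW₁).idem (hu W hW).idem
  have hbound : ∀ W : WeilCohomology.{u, v} ops, Reduction.Pure.{u₁, v₁} R ops₀ W →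
      BoundsInverses W X D i r := by
    intro W hW γ hγ
    obtain ⟨m, hm⟩ := rank_le_of_trace_zero (i := i) (W := W) hEr
      (KJ_le_span hJ (corrLef_mem (D := D) hγ))
      (fun g hg => (hu W hW).trace_zero hJ (corrLef_mem hγ) hg)
    exact ⟨m, hm.trans (hrank W hW).le⟩
  refine ⟨z, r, ⟨hz, fun W hW => ⟨⟨?_, ?_⟩, hbound W hW⟩⟩, fun W hW => ⟨?_, ?_⟩⟩
  · rw [hEz']
    exact (hu W hW).idem
  · rw [hEz']
    exact hrank W hW
  · rintro ⟨z', hz'⟩
    have h1 := (inverts_iff hD W hi).1 (hz' W hW)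
    have h2 : ∀ a ∈ W.gr X i, corrLef W X D i (W.cl _ z') a = a := by
      intro a ha
      rw [corrLef_eq]
      exact h1.2 a (by rwa [show X.dim - (X.dim - i) = i by omega])
    obtain ⟨m, hm⟩ := hbound W hW (W.cl _ z') (Submodule.subset_span ⟨i, rfl, z', h1.1, rfl⟩)
    have h3 : ∀ m : ℕ, (W.gr X i).map (corrLef W X D i (W.cl _ z') ^ m) = W.gr X i := by
      intro m
      have h4 : ∀ a ∈ W.gr X i, (corrLef W X D i (W.cl _ z') ^ m) a = a := by
        intro a ha
        induction m with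
        | zero => rfl
        | succ m ih => rw [pow_succ, Module.End.mul_apply, h2 a ha, ih]
      apply le_antisymm
      · rintro _ ⟨a, ha, rfl⟩
        rw [h4 a ha]
        exact ha
      · intro a ha
        exact ⟨a, ha, h4 a ha⟩
    rw [h3] at hm
    apply le_antisymm _ hm
    rw [← hrank W hW]
    exact Submodule.finrank_map_le _ _
  · intro h
    have key : ∀ W' : WeilCohomology.{u, v} ops, Reduction.Pure.{u₁, v₁} R ops₀ W' →
        ∀ a ∈ W'.gr X i, E W' a = a := by
      intro W' hW' a ha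
      have hb : r = W'.betti X i := by
        rw [h, betti_eq_of_same (sameTraces_of_reduction R hW hW' i)]
      have hle : (W'.gr X i).map (E W') ≤ W'.gr X i := by
        rintro _ ⟨b, hb, rfl⟩
        exact real_mem hEr W' hb
      have heq : (W'.gr X i).map (E W') = W'.gr X i := by
        apply Submodule.eq_of_le_of_finrank_eq hle
        rw [hrank W' hW', hb]
        rfl
      rw [← heq] at ha
      obtain ⟨b, hb, rfl⟩ := ha
      exact (hu W' hW').idem b hb
    exact oneCycle_of_common hD hi ⟨z, hz, hEz⟩ key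

end Pool.Agent.R907
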