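import Pool.Agent.R907.CritDefs
import Pool.Agent.H914R2.Graded

/-!
# Ranks of trace pairings between two degrees: definitions
-/

open CategoryTheory AlgebraicGeometry

universe u v

namespace Pool.Agent.R907

open Pool.Agent.H914 Pool.Agent.Y106.One VarClass Obj WeilCohomology

section Alg

variable {K : Type*} [Field K] {V : Type*} [AddCommGroup V] [Module K V]

/-- The function `b ↦ tr(a ∘ b ∘ P)` on the set `T` of operators. -/
noncomputable def pairFun (P : Module.End K V) (T : Set (Module.End K V)) (a : Module.End K V) :
    T → K :=
  fun b => LinearMap.trace K V (a * b.1 * P)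

/-- The rank of the pairing `(a, b) ↦ tr(a ∘ b ∘ P)` between the sets `S` and `T` of operators: the
dimension of the space spanned by the functions `b ↦ tr(a ∘ b ∘ P)` on `T`, for `a` in `S`. -/
noncomputable def pairRank (P : Module.End K V) (S T : Set (Module.End K V)) : ℕ :=
  Module.finrank K (Submodule.span K (pairFun P T '' S))

end Alg

variable {k : Type u} [Field k] {𝒱 : VarClass k} {ops : CycleOps 𝒱}

/-- The operators on `H(X)` induced by the cycles of codimension `p` on `X × X` with rational
coefficients. -/
def cycOps (W : WeilCohomology.{u, v} ops) (X : 𝒱.Obj) (p : ℕ) : Set (Module.End W.K (W.H X)) :=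
  {T | ∃ z, (X.prod X).IsCyc p z ∧ T = Pool.Agent.W537.cycOp W X z}

/-- The rank of the trace form `tr(a ∘ b | H^i(X))` on the correspondences `a`, `b` of degree
zero. -/
noncomputable def selfRank (W : WeilCohomology.{u, v} ops) (X : 𝒱.Obj) (i : ℕ) : ℕ :=
  pairRank (proj (W.isInternal X) i) (cycOps W X X.dim) (cycOps W X X.dim)

/-- The rank of the trace pairing `tr(a ∘ b | H^(n - c)(X))` between the cycles `a` of codimension
`n - c` and the cycles `b` of codimension `n + c` on `X × X`, where `n = dim X`. -/
noncomputable def shiftRank (W : WeilCohomology.{u, v} ops) (X : 𝒱.Obj) (c : ℕ) : ℕ :=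
  pairRank (proj (W.isInternal X) (X.dim - c)) (cycOps W X (X.dim - c)) (cycOps W X (X.dim + c))

end Pool.Agent.R907
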