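import Pool.Agent.R907.TwoTr
import Pool.Agent.R907.MidK
import Pool.Agent.R907.TwoDefs

/-!
# Ranks of trace pairings and the Lefschetz standard conjecture
-/

open CategoryTheory AlgebraicGeometry Finset

set_option linter.unusedSectionVars false

universe u₁ v₁ u v

namespace Pool.Agent.R907

open Pool.Agent.H914 Pool.Agent.H447 Pool.Agent.W537 Pool.Agent.Y106.One VarClass Obj
  WeilCohomology Pool.Agent.R907.Two Module

section Alg

variable {K V : Type*} [Field K] [CharZero K] [AddCommGroup V] [Module K V] [Module.Finite K V]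

/-- The linear map `a ↦ (b ↦ tr(a ∘ b ∘ P))`. -/
noncomputable def pairLin (P : End K V) (T : Set (End K V)) : End K V →ₗ[K] (T → K) where
  toFun a := pairFun P T a
  map_add' x y := by funext b; simp [pairFun, add_mul]
  map_smul' c x := by funext b; simp [pairFun]

lemma pairRank_eq (P : End K V) (S T : Set (End K V)) :
    pairRank P S T = finrank K (LinearMap.range ((pairLin P T).domRestrict
      (Submodule.span K S))) := by
  rw [LinearMap.range_domRestrict, Submodule.map_span]
  rfl

lemma pr_eq_pairRank {S T : Set (End K V)} {p q : End K V}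
    (h : ∀ b ∈ T, q * (b * p) = b * p) :
    pr ((Submodule.span K S).map (LinearMap.mulRight K q))
      ((Submodule.span K T).map (LinearMap.mulRight K p)) = pairRank p S T := by
  rw [pairRank_eq, pr]
  have h1 : ((Submodule.span K S).map (LinearMap.mulRight K q)).map
      (pairing ((Submodule.span K T).map (LinearMap.mulRight K p))) =
      LinearMap.range ((pairing ((Submodule.span K T).map (LinearMap.mulRight K p)) ∘ₗ
        LinearMap.mulRight K q).domRestrict (Submodule.span K S)) := by
    rw [LinearMap.range_domRestrict, Submodule.map_comp]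
  rw [h1]
  apply finrank_range_eq
  ext a
  rw [LinearMap.mem_ker, LinearMap.mem_ker]
  have e : ∀ b ∈ T, LinearMap.trace K V ((a : End K V) * q * (b * p)) =
      LinearMap.trace K V ((a : End K V) * b * p) := by
    intro b hb
    rw [mul_assoc, h b hb, mul_assoc]
  constructor
  · intro h2
    funext b
    have h3 := congrFun h2 ⟨(b : End K V) * p, Submodule.mem_map_of_mem
      (f := LinearMap.mulRight K p) (Submodule.subset_span b.2)⟩
    have h4 : LinearMap.trace K V ((a : End K V) * q * (b * p)) = 0 := h3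
    rw [e b b.2] at h4
    exact h4
  · intro h2
    funext y
    obtain ⟨y, y', hy', rfl⟩ := y
    change LinearMap.trace K V ((a : End K V) * q * (y' * p)) = 0
    induction hy' using Submodule.span_induction with
    | mem b hb =>
      rw [e b hb]
      exact congrFun h2 ⟨b, hb⟩
    | zero => rw [zero_mul, mul_zero, map_zero]
    | add x y _ _ hx hy => rw [add_mul, mul_add, map_add, hx, hy, add_zero]
    | smul c x _ hx => rw [smul_mul_assoc, mul_smul_comm, map_smul, hx, smul_zero]

/-- The trace of the adjoint. -/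
lemma trace_adj {Br : V →ₗ[K] Module.Dual K V} (hBr : Function.Injective Br) {T T' : End K V}
    (h : ∀ b, Br (T' b) = (Br b) ∘ₗ T) : LinearMap.trace K V T' = LinearMap.trace K V T := by
  let e : V ≃ₗ[K] Module.Dual K V :=
    LinearEquiv.ofInjectiveOfFinrankEq Br hBr Subspace.dual_finrank_eq.symm
  have he : ∀ x, e x = Br x := fun x => rfl
  have h1 : e.conj T' = Module.Dual.transpose (R := K) T := by
    apply LinearMap.ext
    intro x
    rw [LinearEquiv.conj_apply_apply, he, h, ← he, LinearEquiv.apply_symm_apply]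
    rfl
  rw [← LinearMap.trace_conj' T' e, h1, LinearMap.trace_transpose']

/-- Adjoint operators. -/
def IsAdj (Br : V →ₗ[K] Module.Dual K V) (φ ψ : End K V) : Prop :=
  ∀ b, Br (ψ b) = (Br b) ∘ₗ φ

lemma IsAdj.mul {Br : V →ₗ[K] Module.Dual K V} {φ ψ φ' ψ' : End K V} (h : IsAdj Br φ ψ)
    (h' : IsAdj Br φ' ψ') : IsAdj Br (φ * φ') (ψ' * ψ) := by
  intro b
  rw [Module.End.mul_apply, h', h]
  rfl

lemma IsAdj.unique {Br : V →ₗ[K] Module.Dual K V} (hBr : Function.Injective Br)
    {φ ψ ψ' : End K V} (h : IsAdj Br φ ψ) (h' : IsAdj Br φ ψ') : ψ = ψ' := by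
  apply LinearMap.ext
  intro b
  apply hBr
  rw [h, h']

lemma IsAdj.unique_left {Br : V →ₗ[K] Module.Dual K V} (hBr : Function.Injective Br)
    {φ φ' ψ : End K V} (h : IsAdj Br φ ψ) (h' : IsAdj Br φ' ψ) : φ = φ' := by
  let e : V ≃ₗ[K] Module.Dual K V :=
    LinearEquiv.ofInjectiveOfFinrankEq Br hBr Subspace.dual_finrank_eq.symm
  apply LinearMap.ext
  intro a
  rw [← sub_eq_zero, ← Module.forall_dual_apply_eq_zero_iff K]
  intro f
  obtain ⟨b, rfl⟩ : ∃ b, Br b = f := e.surjective f
  have h1 := LinearMap.congr_fun (h b) a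
  have h2 := LinearMap.congr_fun (h' b) a
  rw [LinearMap.comp_apply] at h1 h2
  rw [map_sub, ← h1, ← h2, sub_self]

/-- The adjoint as a linear map. -/
lemma exists_adj_lin {Br : V →ₗ[K] Module.Dual K V} (hBr : Function.Injective Br)
    {M : Submodule K (End K V)} (h : ∀ a ∈ M, ∃ b ∈ M, IsAdj Br a b) :
    ∃ adj : M →ₗ[K] M, Function.Injective adj ∧
      ∀ a : M, IsAdj Br (a : End K V) (adj a : End K V) := by
  have h' : ∀ a : M, ∃ b : M, IsAdj Br (a : End K V) (b : End K V) := by
    intro a
    obtain ⟨b, hb, hab⟩ := h a a.2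
    exact ⟨⟨b, hb⟩, hab⟩
  choose f hf using h'
  refine ⟨{ toFun := f, map_add' := ?_, map_smul' := ?_ }, ?_, hf⟩
  · intro a a'
    apply Subtype.ext
    refine (hf (a + a')).unique hBr fun x => ?_
    change Br ((f a : End K V) x + (f a' : End K V) x) = _
    rw [map_add, hf a x, hf a' x]
    apply LinearMap.ext
    intro y
    exact (map_add (Br x) _ _).symm
  · intro c a
    apply Subtype.ext
    refine (hf (c • a)).unique hBr fun x => ?_
    change Br (c • (f a : End K V) x) = _
    rw [map_smul, hf a x]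
    apply LinearMap.ext
    intro y
    exact (map_smul (Br x) _ _).symm
  · intro a a' haa
    have haa' : f a = f a' := haa
    apply Subtype.ext
    have h1 := hf a
    rw [haa'] at h1
    exact h1.unique_left hBr (hf a')

/-- The rank of the trace form in the dual degree. -/
lemma pairRank_adj_le {Br : V →ₗ[K] Module.Dual K V} (hBr : Function.Injective Br)
    {S : Set (End K V)} (h : ∀ a ∈ Submodule.span K S, ∃ b ∈ Submodule.span K S, IsAdj Br a b)
    {p p' : End K V} (hp : IsAdj Br p p') (hc : ∀ a ∈ S, a * p' = p' * a) :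
    pairRank p' S S ≤ pairRank p S S := by
  obtain ⟨adj, hinj, hadj⟩ := exists_adj_lin hBr h
  have hsurj : Function.Surjective adj := LinearMap.injective_iff_surjective.1 hinj
  have key : ∀ a ∈ LinearMap.ker ((pairLin p S).domRestrict (Submodule.span K S)),
      adj a ∈ LinearMap.ker ((pairLin p' S).domRestrict (Submodule.span K S)) := by
    intro a ha
    have h1 : ∀ b ∈ Submodule.span K S, LinearMap.trace K _ ((a : End K V) * b * p) = 0 := by
      intro b hb
      induction hb using Submodule.span_induction with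
      | mem b hb => exact congrFun (LinearMap.mem_ker.1 ha) ⟨b, hb⟩
      | zero => rw [mul_zero, zero_mul, map_zero]
      | add x y _ _ hx hy => rw [mul_add, add_mul, map_add, hx, hy, add_zero]
      | smul c x _ hx => rw [mul_smul_comm, smul_mul_assoc, map_smul, hx, smul_zero]
    rw [LinearMap.mem_ker]
    funext b
    obtain ⟨b', hb'⟩ := hsurj ⟨b, Submodule.subset_span b.2⟩
    have hb'' : IsAdj Br (b' : End K V) (b : End K V) := by
      have := hadj b'
      rw [hb'] at this
      exact this
    have h3 := trace_adj hBr (((hadj a).mul hb'').mul hp)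
    rw [h1 b' b'.2] at h3
    change LinearMap.trace K V ((adj a : End K V) * (b : End K V) * p') = 0
    rw [← h3, mul_assoc, hc b b.2, ← mul_assoc, LinearMap.trace_mul_comm, ← mul_assoc,
      LinearMap.trace_mul_comm, ← mul_assoc]
  have h2 : finrank K (LinearMap.ker ((pairLin p S).domRestrict (Submodule.span K S))) ≤
      finrank K (LinearMap.ker ((pairLin p' S).domRestrict (Submodule.span K S))) := by
    refine LinearMap.finrank_le_finrank_of_injective (f := adj.restrict key) ?_
    intro x y h
    exact Subtype.ext (hinj (congrArg Subtype.val h))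
  have h3 := LinearMap.finrank_range_add_finrank_ker
    ((pairLin p S).domRestrict (Submodule.span K S))
  have h4 := LinearMap.finrank_range_add_finrank_ker
    ((pairLin p' S).domRestrict (Submodule.span K S))
  rw [pairRank_eq, pairRank_eq]
  omega

end Alg

variable {k : Type u} [Field k] {𝒱 : VarClass k} {ops : CycleOps 𝒱} {X : 𝒱.Obj}
  {W : WeilCohomology.{u, v} ops}

/-- The operators on `H^i(X)` given by the correspondences of degree `d`. -/
noncomputable def HomI (W : WeilCohomology.{u, v} ops) (X : 𝒱.Obj) (d : ℤ) (i : ℕ) :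
    Submodule W.K (End W.K (W.H X)) :=
  (KOp W X X d).map (LinearMap.mulRight W.K (proj (W.isInternal X) i))

lemma kop_proj {d : ℤ} {i j : ℕ} (hj : (j : ℤ) = i + 2 * d) {x : End W.K (W.H X)}
    (hx : x ∈ KOp W X X d) :
    proj (W.isInternal X) j * (x * proj (W.isInternal X) i) = x * proj (W.isInternal X) i := by
  apply LinearMap.ext
  intro v
  rw [Module.End.mul_apply, Module.End.mul_apply]
  have h1 := KOp.isHom hx i (proj (W.isInternal X) i v) (by rw [grZ_natCast]; exact proj_mem _ i v)
  rw [← hj, grZ_natCast] at h1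
  exact proj_same _ h1

lemma homI_mk {d : ℤ} (i : ℕ) {x : End W.K (W.H X)} (hx : x ∈ KOp W X X d) :
    x * proj (W.isInternal X) i ∈ HomI W X d i :=
  Submodule.mem_map_of_mem (f := LinearMap.mulRight W.K (proj (W.isInternal X) i)) hx

lemma homI_right {d : ℤ} {i : ℕ} {a : End W.K (W.H X)} (ha : a ∈ HomI W X d i) :
    a * proj (W.isInternal X) i = a := by
  obtain ⟨x, hx, rfl⟩ := ha
  change x * proj (W.isInternal X) i * proj (W.isInternal X) i = x * proj (W.isInternal X) i
  rw [mul_assoc, proj_mul_proj]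

lemma homI_left {d : ℤ} {i j : ℕ} (hj : (j : ℤ) = i + 2 * d) {a : End W.K (W.H X)}
    (ha : a ∈ HomI W X d i) : proj (W.isInternal X) j * a = a := by
  obtain ⟨x, hx, rfl⟩ := ha
  exact kop_proj hj hx

lemma homI_mul {d e : ℤ} {i j : ℕ} (hj : (j : ℤ) = i + 2 * d) {a b : End W.K (W.H X)}
    (ha : a ∈ HomI W X e j) (hb : b ∈ HomI W X d i) : a * b ∈ HomI W X (d + e) i := by
  obtain ⟨x, hx, rfl⟩ := ha
  obtain ⟨y, hy, rfl⟩ := hb
  change x * proj (W.isInternal X) j * (y * proj (W.isInternal X) i) ∈ HomI W X (d + e) i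
  rw [mul_assoc, kop_proj hj hy, ← mul_assoc]
  exact homI_mk i (KOp.comp hx hy)

/-- The four spaces of operators between two degrees. -/
lemma quad_homI {d : ℤ} {i j : ℕ} (hj : (j : ℤ) = i + 2 * d) (hij : i ≠ j) :
    Quad (proj (W.isInternal X) i) (proj (W.isInternal X) j) (HomI W X 0 i) (HomI W X (-d) j)
      (HomI W X d i) (HomI W X 0 j) where
  pp := proj_mul_proj _ i
  qq := proj_mul_proj _ j
  pq := proj_mul_ne W X hij
  qp := proj_mul_ne W X hij.symm
  hA a ha := ⟨homI_left (by ring) ha, homI_right ha⟩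
  hB a ha := ⟨homI_left (by rw [hj]; ring) ha, homI_right ha⟩
  hC a ha := ⟨homI_left hj ha, homI_right ha⟩
  hD a ha := ⟨homI_left (by ring) ha, homI_right ha⟩
  pA := by
    have := homI_mk (W := W) (X := X) i (KOp.id X)
    exact this
  qD := by
    have := homI_mk (W := W) (X := X) j (KOp.id X)
    exact this
  AA a ha b hb := by
    have := homI_mul (by ring) ha hb
    rwa [add_zero] at this
  AB a ha b hb := by
    have := homI_mul (by rw [hj]; ring) ha hb
    rwa [add_zero] at this
  BD a ha b hb := by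
    have := homI_mul (by ring) ha hb
    rwa [zero_add] at this
  BC a ha b hb := by
    have := homI_mul hj ha hb
    rwa [add_neg_cancel] at this
  CA a ha b hb := by
    have := homI_mul (by ring) ha hb
    rwa [zero_add] at this
  CB a ha b hb := by
    have := homI_mul (by rw [hj]; ring) ha hb
    rwa [neg_add_cancel] at this
  DC a ha b hb := by
    have := homI_mul hj ha hb
    rwa [add_zero] at this
  DD a ha b hb := by
    have := homI_mul (by ring) ha hb
    rwa [add_zero] at this

lemma span_cycOps {p : ℕ} {d : ℤ} (hp : (p : ℤ) = X.dim + d) :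
    Submodule.span W.K (cycOps W X p) = KOp W X X d := by
  rw [KOp]
  congr 1
  apply Set.ext
  intro T
  constructor
  · rintro ⟨z, hz, rfl⟩
    exact ⟨p, hp, z, hz, rfl⟩
  · rintro ⟨p', hp', z, hz, rfl⟩
    obtain rfl : p' = p := by omega
    exact ⟨z, hz, rfl⟩

lemma pr_self (i : ℕ) : pr (HomI W X 0 i) (HomI W X 0 i) = selfRank W X i := by
  rw [selfRank, ← pr_eq_pairRank (q := proj (W.isInternal X) i), HomI,
    span_cycOps (d := 0) (by ring)]
  intro b hb
  refine kop_proj (d := 0) (by ring) ?_
  rw [← span_cycOps (p := X.dim) (by ring)]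
  exact Submodule.subset_span hb

lemma pr_shift {c : ℕ} (hc : c ≤ X.dim) :
    pr (HomI W X (-c) (X.dim + c)) (HomI W X c (X.dim - c)) = shiftRank W X c := by
  rw [shiftRank, ← pr_eq_pairRank (q := proj (W.isInternal X) (X.dim + c)), HomI, HomI,
    span_cycOps (p := X.dim - c) (d := -c) (by omega),
    span_cycOps (p := X.dim + c) (d := c) (by push_cast; ring)]
  intro b hb
  refine kop_proj (d := c) (by omega) ?_
  rw [← span_cycOps (p := X.dim + c) (by push_cast; ring)]
  exact Submodule.subset_span hb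

/-- The bilinear form of the duality. -/
noncomputable def dualForm (W : WeilCohomology.{u, v} ops) (X : 𝒱.Obj) :
    W.H X →ₗ[W.K] Module.Dual W.K (W.H X) :=
  LinearMap.mk₂ W.K (fun b a => W.tr X (a * b))
    (fun b b' a => by rw [mul_add, map_add])
    (fun c b a => by rw [mul_smul_comm, map_smul, smul_eq_mul])
    (fun b a a' => by rw [add_mul, map_add])
    (fun c b a => by rw [smul_mul_assoc, map_smul, smul_eq_mul])

lemma dualForm_inj : Function.Injective (dualForm W X) := by
  rw [← LinearMap.ker_eq_bot, LinearMap.ker_eq_bot']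
  intro b hb
  exact nondeg_right fun a => LinearMap.congr_fun hb a

lemma isAdj_iff {φ ψ : End W.K (W.H X)} :
    IsAdj (dualForm W X) φ ψ ↔ ∀ a b, W.tr X (φ a * b) = W.tr X (a * ψ b) := by
  constructor
  · intro h a b
    exact (LinearMap.congr_fun (h b) a).symm
  · intro h b
    apply LinearMap.ext
    intro a
    exact (h a b).symm

lemma isAdj_proj {i : ℕ} (hi : i ≤ 2 * X.dim) :
    IsAdj (dualForm W X) (proj (W.isInternal X) i)
      (proj (W.isInternal X) (2 * X.dim - i)) := by
  rw [isAdj_iff]
  intro a b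
  refine gr_induction (W.isInternal X) (p := fun a => W.tr X (proj (W.isInternal X) i a * b) =
    W.tr X (a * proj (W.isInternal X) (2 * X.dim - i) b)) ?_ ?_ a
  · intro l a ha
    refine gr_induction (W.isInternal X) (p := fun b => W.tr X (proj (W.isInternal X) i a * b) =
      W.tr X (a * proj (W.isInternal X) (2 * X.dim - i) b)) ?_ ?_ b
    · intro m b hb
      by_cases hl : l = i
      · subst hl
        rw [proj_same _ ha]
        by_cases hm : m = 2 * X.dim - l
        · subst hm
          rw [proj_same _ hb]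
        · rw [proj_ne _ hb hm, mul_zero, map_zero]
          exact W.tr_eq_zero (W.mul_mem ha hb) (by omega)
      · rw [proj_ne _ ha hl, zero_mul, map_zero]
        by_cases hm : m = 2 * X.dim - i
        · subst hm
          rw [proj_same _ hb]
          exact (W.tr_eq_zero (W.mul_mem ha hb) (by omega)).symm
        · rw [proj_ne _ hb hm, mul_zero, map_zero]
    · intro b b' h1 h2
      rw [map_add, mul_add, mul_add, map_add, map_add, h1, h2]
  · intro a a' h1 h2
    rw [map_add, add_mul, add_mul, map_add, map_add, h1, h2]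

lemma exists_adj_span : ∀ a ∈ Submodule.span W.K (cycOps W X X.dim),
    ∃ b ∈ Submodule.span W.K (cycOps W X X.dim), IsAdj (dualForm W X) a b := by
  intro a ha
  rw [span_cycOps (p := X.dim) (d := 0) (by ring)] at ha ⊢
  obtain ⟨ψ, hψ, hadj⟩ := KOp.exists_adjoint ha
  exact ⟨ψ, KOp.cast hψ (by ring), isAdj_iff.2 hadj⟩

lemma cycOps_comm {i : ℕ} {a : End W.K (W.H X)} (ha : a ∈ cycOps W X X.dim) :
    a * proj (W.isInternal X) i = proj (W.isInternal X) i * a := by
  have h1 : a ∈ Submodule.span W.K (corrOps W X) := Submodule.subset_span ha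
  exact (corrOps_comm h1).symm

/-- The ranks in the dual degrees. -/
lemma selfRank_dual {i : ℕ} (hi : i ≤ 2 * X.dim) :
    selfRank W X (2 * X.dim - i) = selfRank W X i := by
  apply le_antisymm
  · exact pairRank_adj_le dualForm_inj exists_adj_span (isAdj_proj hi)
      fun a ha => cycOps_comm ha
  · have h1 := isAdj_proj (W := W) (X := X) (i := 2 * X.dim - i) (Nat.sub_le _ _)
    rw [show 2 * X.dim - (2 * X.dim - i) = i by omega] at h1
    exact pairRank_adj_le dualForm_inj exists_adj_span h1 fun a ha => cycOps_comm ha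

lemma shiftRank_zero : shiftRank W X 0 = selfRank W X X.dim := rfl

/-- The Cauchy–Schwarz inequality for the ranks. -/
theorem shiftRank_le {c : ℕ} (hc : c ≤ X.dim) : shiftRank W X c ≤ selfRank W X (X.dim - c) := by
  rcases Nat.eq_zero_or_pos c with rfl | hc0
  · exact le_of_eq rfl
  have h1 := (two_trace (quad_homI (W := W) (X := X) (d := c) (i := X.dim - c) (j := X.dim + c)
    (by omega) (by omega))).1
  rw [pr_shift hc, pr_self, pr_self] at h1
  have h2 := selfRank_dual (W := W) (X := X) (i := X.dim - c) (by omega)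
  rw [show 2 * X.dim - (X.dim - c) = X.dim + c by omega] at h2
  omega

/-- The equality of the ranks gives an injective operator. -/
theorem exists_inj_of_rank {c : ℕ} (hc : c ≤ X.dim)
    (h : shiftRank W X c = selfRank W X (X.dim - c)) :
    ∃ ν ∈ KOp W X X (-c), ∀ a ∈ W.gr X (X.dim + c), ν a = 0 → a = 0 := by
  rcases Nat.eq_zero_or_pos c with rfl | hc0
  · exact ⟨LinearMap.id, KOp.cast (KOp.id X) (by simp), fun a _ h => h⟩
  have h1 := (two_trace (quad_homI (W := W) (X := X) (d := c) (i := X.dim - c) (j := X.dim + c)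
    (by omega) (by omega))).2
  have h2 := selfRank_dual (W := W) (X := X) (i := X.dim - c) (by omega)
  rw [show 2 * X.dim - (X.dim - c) = X.dim + c by omega] at h2
  rw [pr_shift hc, pr_self, pr_self] at h1
  obtain ⟨u, ⟨ν, hν, rfl⟩, hinj⟩ := h1 (by omega)
  refine ⟨ν, hν, fun a ha h0 => hinj a (proj_same _ ha) ?_⟩
  change ν (proj (W.isInternal X) (X.dim + c) a) = 0
  rw [proj_same _ ha, h0]

/-- Injective operators in both directions give the equality of the ranks. -/
theorem rank_of_inj {c : ℕ} (hc : c ≤ X.dim)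
    (hν : ∃ ν ∈ KOp W X X (-c), ∀ a ∈ W.gr X (X.dim + c), ν a = 0 → a = 0)
    (hμ : ∃ μ ∈ KOp W X X c, ∀ a ∈ W.gr X (X.dim - c), μ a = 0 → a = 0) :
    shiftRank W X c = selfRank W X (X.dim - c) := by
  rcases Nat.eq_zero_or_pos c with rfl | hc0
  · rfl
  obtain ⟨ν, hν, hν0⟩ := hν
  obtain ⟨μ, hμ, hμ0⟩ := hμ
  have h1 := (two_trace_conv (quad_homI (W := W) (X := X) (d := c) (i := X.dim - c)
    (j := X.dim + c) (by omega) (by omega)) (homI_mk (X.dim + c) hν) (homI_mk (X.dim - c) hμ)
    ?_ ?_).1
  · rwa [pr_shift hc, pr_self] at h1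
  · intro x hx h0
    refine hν0 x ?_ ?_
    · rw [← hx]; exact proj_mem _ _ x
    · rwa [Module.End.mul_apply, hx] at h0
  · intro x hx h0
    refine hμ0 x ?_ ?_
    · rw [← hx]; exact proj_mem _ _ x
    · rwa [Module.End.mul_apply, hx] at h0

/-- The powers of the Lefschetz operator. -/
lemma exists_inj_lef {D : X.Cycles} (hD : X.IsCyc 1 D) (hHL : HardLefschetz W X D) {c : ℕ}
    (hc : c ≤ X.dim) : ∃ μ ∈ KOp W X X c, ∀ a ∈ W.gr X (X.dim - c), μ a = 0 → a = 0 := by
  refine ⟨(LinearMap.mulLeft W.K (W.cl X D)) ^ c, ?_, ?_⟩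
  · rw [← mem_KS_iff]
    exact rop_opAlg.kspan.cast (rop_opAlg.kspan.pow (Submodule.subset_span (rop_mulLeft hD)) c)
      (by ring)
  · intro a ha h0
    have h1 := (hHL (X.dim - c) (by omega)).1 a ha
    rw [show X.dim - (X.dim - c) = c by omega] at h1
    exact h1 h0

lemma selfRank_dual' {c : ℕ} (hc : c ≤ X.dim) :
    selfRank W X (X.dim + c) = selfRank W X (X.dim - c) := by
  have h2 := selfRank_dual (W := W) (X := X) (i := X.dim - c) (by omega)
  rwa [show 2 * X.dim - (X.dim - c) = X.dim + c by omega] at h2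

/-- The equality of the ranks for one degree. -/
theorem shiftRank_eq_iff {D : X.Cycles} (hD : X.IsCyc 1 D) (hHL : HardLefschetz W X D) {c : ℕ}
    (hc : c ≤ X.dim) :
    shiftRank W X c = selfRank W X (X.dim - c) ↔ SpanInjective W X c := by
  constructor
  · intro h
    obtain ⟨ν, hν, hinj⟩ := exists_inj_of_rank hc h
    obtain ⟨γ, hγ, rfl⟩ := mem_KOp_iff.1 hν
    exact ⟨γ, hγ, hinj⟩
  · rintro ⟨γ, hγ, hinj⟩
    exact rank_of_inj hc ⟨_, mem_KOp_iff.2 ⟨γ, hγ, rfl⟩, hinj⟩ (exists_inj_lef hD hHL hc)

/-- **The Lefschetz standard conjecture is an equality of ranks of trace pairings.** -/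
theorem lefschetzB_iff_rank {D : X.Cycles} (hD : X.IsCyc 1 D) (hHL : HardLefschetz W X D) :
    LefschetzB W X D ↔ ∀ c ≤ X.dim, shiftRank W X c = selfRank W X (X.dim - c) :=
  ⟨fun hB c hc => rank_of_inj hc (inj_of_lefschetzB hD hHL hB c hc) (exists_inj_lef hD hHL hc),
    fun h => lefschetzB_of_inj hD hHL fun c hc => exists_inj_of_rank hc (h c hc)⟩

end Pool.Agent.R907
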