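import Pool.Agent.R907.PureDefs
import Pool.Agent.R907.TwoW

/-!
# The Lefschetz standard conjecture and pure tensors
-/

open CategoryTheory AlgebraicGeometry Finset

set_option linter.unusedSectionVars false

universe u₁ v₁ u v

namespace Pool.Agent.R907

open Pool.Agent.H914 Pool.Agent.H447 Pool.Agent.W537 Pool.Agent.Y106.One VarClass Obj
  WeilCohomology Pool.Agent.R907.Two Module

section Alg

variable {K V : Type*} [Field K] [AddCommGroup V] [Module K V] [Module.Finite K V]

/-- **From one vector at a time to all vectors.** -/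
lemma pointwise_to_global {I : Submodule K (End K V)} (hI : ∀ x ∈ I, ∀ y ∈ I, x * y ∈ I)
    {H : Submodule K V} (hH : ∀ x ∈ I, ∀ a ∈ H, x a ∈ H) (hp : ∀ a ∈ H, ∃ x ∈ I, x a = a) :
    ∃ x ∈ I, ∀ a ∈ H, x a = a := by
  have key : ∀ m : ℕ, ∃ x ∈ I, m ≤ finrank K (H ⊓ LinearMap.ker (1 - x) : Submodule K V) ∨
      ∀ a ∈ H, x a = a := by
    intro m
    induction m with
    | zero => exact ⟨0, Submodule.zero_mem _, Or.inl (Nat.zero_le _)⟩
    | succ m ih =>
      obtain ⟨x, hx, h | h⟩ := ih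
      · by_cases hall : ∀ a ∈ H, x a = a
        · exact ⟨x, hx, Or.inr hall⟩
        push Not at hall
        obtain ⟨a, ha, hxa⟩ := hall
        have hu : a - x a ∈ H := H.sub_mem ha (hH x hx a ha)
        obtain ⟨y, hy, hyu⟩ := hp _ hu
        refine ⟨y + x - y * x, I.sub_mem (I.add_mem hy hx) (hI y hy x hx), Or.inl ?_⟩
        have hle : H ⊓ LinearMap.ker (1 - x) < H ⊓ LinearMap.ker (1 - (y + x - y * x)) := by
          have e : ∀ b, (1 - (y + x - y * x)) b = (b - x b) - y (b - x b) := by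
            intro b
            simp only [LinearMap.sub_apply, LinearMap.add_apply, Module.End.one_apply,
              Module.End.mul_apply, map_sub]
            abel
          rw [SetLike.lt_iff_le_and_exists]
          refine ⟨?_, a, ?_, ?_⟩
          · rintro b ⟨hb, hb'⟩
            refine ⟨hb, ?_⟩
            have hb0 : b - x b = 0 := hb'
            change (1 - (y + x - y * x)) b = 0
            rw [e, hb0, map_zero, sub_zero]
          · refine ⟨ha, ?_⟩
            change (1 - (y + x - y * x)) a = 0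
            rw [e, hyu, sub_self]
          · rintro ⟨-, h0⟩
            have h0' : a - x a = 0 := h0
            exact hxa (sub_eq_zero.1 h0').symm
        exact Nat.succ_le_of_lt (h.trans_lt (Submodule.finrank_lt_finrank_of_lt hle))
      · exact ⟨x, hx, Or.inr h⟩
  obtain ⟨x, hx, h | h⟩ := key (finrank K V + 1)
  · have := Submodule.finrank_le (H ⊓ LinearMap.ker (1 - x))
    omega
  · exact ⟨x, hx, h⟩

end Alg

variable {k : Type u} [Field k] {𝒱 : VarClass k} {ops : CycleOps 𝒱} {X : 𝒱.Obj}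
  {W : WeilCohomology.{u, v} ops}

lemma lef_kop (W : WeilCohomology.{u, v} ops) {D : X.Cycles} (hD : X.IsCyc 1 D) (c : ℕ) :
    (LinearMap.mulLeft W.K (W.cl X D)) ^ c ∈ KOp W X X c := by
  rw [← mem_KS_iff]
  exact rop_opAlg.kspan.cast (rop_opAlg.kspan.pow (Submodule.subset_span (rop_mulLeft hD)) c)
    (by ring)

lemma lef_apply (D : X.Cycles) (c : ℕ) (a : W.H X) :
    ((LinearMap.mulLeft W.K (W.cl X D)) ^ c) a = W.cl X D ^ c * a := by
  rw [LinearMap.pow_mulLeft, LinearMap.mulLeft_apply]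

lemma cl_pow_comm {D : X.Cycles} (hD : X.IsCyc 1 D) (m : ℕ) (a : W.H X) :
    W.cl X D ^ m * a = a * W.cl X D ^ m :=
  ((show Commute (W.cl X D) a from W.even_comm (W.cl_mem hD) a).pow_left m).eq

lemma tensorNumber_eq (z : (X.prod X).Cycles) (a b : W.H X) :
    tensorNumber W X z a b = W.tr X (W.corr (W.cl _ z) a * b) := by
  rw [tensorNumber, pureTensor, corr_apply, W.tr_push, mul_assoc]

/-- The operators of degree zero `γ ∘ ξ ^ c`. -/
noncomputable def lefAlg (W : WeilCohomology.{u, v} ops) (X : 𝒱.Obj) (D : X.Cycles) (c : ℕ) :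
    Submodule W.K (End W.K (W.H X)) :=
  (KOp W X X (-c)).map (LinearMap.mulRight W.K ((LinearMap.mulLeft W.K (W.cl X D)) ^ c))

lemma lefAlg_mk {D : X.Cycles} {c : ℕ} {γ : End W.K (W.H X)} (hγ : γ ∈ KOp W X X (-c)) :
    γ * (LinearMap.mulLeft W.K (W.cl X D)) ^ c ∈ lefAlg W X D c :=
  Submodule.mem_map_of_mem
    (f := LinearMap.mulRight W.K ((LinearMap.mulLeft W.K (W.cl X D)) ^ c)) hγ

lemma lefAlg_mul {D : X.Cycles} (hD : X.IsCyc 1 D) {c : ℕ} {x y : End W.K (W.H X)}
    (hx : x ∈ lefAlg W X D c) (hy : y ∈ lefAlg W X D c) : x * y ∈ lefAlg W X D c := by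
  obtain ⟨γ, hγ, rfl⟩ := hx
  obtain ⟨δ, hδ, rfl⟩ := hy
  have h1 : γ * ((LinearMap.mulLeft W.K (W.cl X D)) ^ c) * δ ∈ KOp W X X (-c) :=
    KOp.cast (KOp.comp (KOp.comp hγ (lef_kop W hD c)) hδ) (by ring)
  have h2 := lefAlg_mk (D := D) h1
  rwa [mul_assoc] at h2

lemma lefAlg_mem {D : X.Cycles} (hD : X.IsCyc 1 D) {c i : ℕ} {x : End W.K (W.H X)}
    (hx : x ∈ lefAlg W X D c) {a : W.H X} (ha : a ∈ W.gr X i) : x a ∈ W.gr X i := by
  obtain ⟨γ, hγ, rfl⟩ := hx
  have h1 := KOp.isHom (KOp.comp hγ (lef_kop W hD c)) i a (by rw [grZ_natCast]; exact ha)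
  rw [show (i : ℤ) + 2 * ((c : ℤ) + -c) = (i : ℤ) by ring, grZ_natCast] at h1
  exact h1

/-- A functional on `H^i(X)` which separates a vector from a subspace is given by a class. -/
lemma exists_dual_class {i : ℕ} (hi : i ≤ 2 * X.dim) {M : Submodule W.K (W.H X)}
    (hM : M ≤ W.gr X i) {v : W.H X} (hv : v ∈ W.gr X i) (hvM : v ∉ M) :
    ∃ b ∈ W.gr X (2 * X.dim - i), (∀ m ∈ M, W.tr X (m * b) = 0) ∧ W.tr X (v * b) ≠ 0 := by
  obtain ⟨f, hf1, hf2⟩ := Submodule.exists_le_ker_of_notMem hvM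
  let e : W.H X ≃ₗ[W.K] Module.Dual W.K (W.H X) :=
    LinearEquiv.ofInjectiveOfFinrankEq (dualForm W X) dualForm_inj
      Subspace.dual_finrank_eq.symm
  obtain ⟨b, rfl⟩ : ∃ b, dualForm W X b = f := e.surjective f
  have h1 : ∀ a ∈ W.gr X i, W.tr X (a * proj (W.isInternal X) (2 * X.dim - i) b) =
      W.tr X (a * b) := by
    intro a ha
    have := isAdj_iff.1 (isAdj_proj (W := W) hi) a b
    rw [proj_same _ ha] at this
    exact this.symm
  refine ⟨proj (W.isInternal X) (2 * X.dim - i) b, proj_mem _ _ _, fun m hm => ?_, ?_⟩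
  · rw [h1 m (hM hm)]
    exact hf2 hm
  · rw [h1 v hv]
    exact hf1

/-- **Induction step.** The pure tensor test in degree `i = n - c`, and the inverse of
`ξ ^ (c + 2)` on `H^(i - 2)(X)`, give the inverse of `ξ ^ c` on `H^i(X)`. -/
lemma pure_step {D : X.Cycles} (hD : X.IsCyc 1 D) (hHL : HardLefschetz W X D) {i c : ℕ}
    (hic : i + c = X.dim)
    (hlow : 2 ≤ i → ∃ γ ∈ KOp W X X (-(c + 2 : ℕ)), ∀ a ∈ W.gr X (i - 2),
      γ (W.cl X D ^ (c + 2) * a) = a)
    (htest : ∀ a b, IsPrimClass W X D i a → IsPrimClass W X D i b →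
      W.tr X (a * lefTo W X D i b) ≠ 0 →
        ∃ z, (X.prod X).IsCyc i z ∧
          tensorNumber W X z (lefTo W X D i a) (lefTo W X D i b) ≠ 0) :
    ∃ γ ∈ KOp W X X (-c), ∀ a ∈ W.gr X i, γ (W.cl X D ^ c * a) = a := by
  set ξ := W.cl X D with hξ
  have hξm : ∀ m : ℕ, ξ ^ m ∈ W.gr X (2 * m) := by
    intro m
    induction m with
    | zero => simpa using W.one_mem X
    | succ m ih =>
      rw [pow_succ]
      have := W.mul_mem ih (W.cl_mem hD)
      rwa [show 2 * m + 2 * 1 = 2 * (m + 1) by ring] at this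
  have hprim : X.dim - i + 1 = c + 1 := by omega
  have hlefTo : ∀ b, lefTo W X D i b = ξ ^ c * b := by
    intro b
    rw [lefTo, show X.dim - i = c by omega]
  -- the projector onto the complement of the primitive classes
  obtain ⟨y, hy, hy1, hy2⟩ : ∃ y ∈ lefAlg W X D c,
      (∀ a ∈ W.gr X i, ∃ t, y a = ξ * t) ∧ ∀ a ∈ W.gr X i, ξ ^ (c + 1) * (a - y a) = 0 := by
    by_cases hi : 2 ≤ i
    · obtain ⟨γ, hγ, hγ1⟩ := hlow hi
      refine ⟨(LinearMap.mulLeft W.K ξ * γ * LinearMap.mulLeft W.K ξ) *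
        (LinearMap.mulLeft W.K ξ) ^ c, lefAlg_mk ?_, ?_, ?_⟩
      · have h1 : LinearMap.mulLeft W.K ξ ∈ KOp W X X 1 := by
          have := lef_kop W hD 1
          rw [pow_one] at this
          exact KOp.cast this (by simp)
        exact KOp.cast (KOp.comp (KOp.comp h1 hγ) h1) (by push_cast; ring)
      · intro a _
        exact ⟨γ (ξ * (((LinearMap.mulLeft W.K ξ) ^ c) a)), rfl⟩
      · intro a ha
        have h2 : ξ ^ (c + 1) * a ∈ W.gr X (2 * (c + 1) + i) := W.mul_mem (hξm _) ha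
        obtain ⟨a', ha', ha''⟩ := (hHL (i - 2) (by omega)).2 (ξ ^ (c + 1) * a)
          (by rw [show 2 * X.dim - (i - 2) = 2 * (c + 1) + i by omega]; exact h2)
        rw [show X.dim - (i - 2) = c + 2 by omega, lef_apply] at ha''
        have h3 : ((LinearMap.mulLeft W.K ξ * γ * LinearMap.mulLeft W.K ξ) *
            (LinearMap.mulLeft W.K ξ) ^ c) a = ξ * γ (ξ ^ (c + 1) * a) := by
          rw [Module.End.mul_apply, Module.End.mul_apply, Module.End.mul_apply, lef_apply,
            LinearMap.mulLeft_apply, LinearMap.mulLeft_apply, ← mul_assoc, ← pow_succ']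
        rw [h3, mul_sub, ← ha'', hγ1 a' ha', ← mul_assoc, ← pow_succ, sub_self]
    · refine ⟨0, Submodule.zero_mem _, fun a _ => ⟨0, by rw [mul_zero]; rfl⟩, fun a ha => ?_⟩
      have h2 : ξ ^ (c + 1) * a ∈ W.gr X (2 * (c + 1) + i) := W.mul_mem (hξm _) ha
      rw [W.gr_eq_bot X _ (by omega), Submodule.mem_bot] at h2
      rw [LinearMap.zero_apply, sub_zero, h2]
  -- orthogonality
  have horth : ∀ t b, IsPrimClass W X D i b → W.tr X ((ξ * t) * (ξ ^ c * b)) = 0 := by
    intro t b hb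
    have h1 : ξ ^ (c + 1) * b = 0 := by
      have := hb.2
      rwa [hprim] at this
    have h2 : (ξ * t) * (ξ ^ c * b) = t * (ξ ^ (c + 1) * b) := by
      have h3 : ξ * t = t * ξ := by
        have := cl_pow_comm (W := W) hD 1 t
        rwa [pow_one] at this
      rw [h3, mul_assoc, ← mul_assoc ξ, ← pow_succ']
    rw [h2, h1, mul_zero, map_zero]
  have horth' : ∀ t a, IsPrimClass W X D i a → W.tr X (a * (ξ ^ c * (ξ * t))) = 0 := by
    intro t a ha
    have h1 : ξ ^ (c + 1) * a = 0 := by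
      have := ha.2
      rwa [hprim] at this
    have h2 : a * (ξ ^ c * (ξ * t)) = ξ ^ (c + 1) * a * t := by
      rw [← mul_assoc (ξ ^ c), ← pow_succ, ← mul_assoc, ← cl_pow_comm hD]
    rw [h2, h1, zero_mul, map_zero]
  have hyprim : ∀ a ∈ W.gr X i, IsPrimClass W X D i (a - y a) := by
    intro a ha
    refine ⟨Submodule.sub_mem _ ha (lefAlg_mem hD hy ha), ?_⟩
    rw [hprim]
    exact hy2 a ha
  -- one primitive class at a time
  have hone : ∀ v, IsPrimClass W X D i v → ∃ x ∈ lefAlg W X D c, x v = v := by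
    intro v hv
    let M : Submodule W.K (W.H X) := (lefAlg W X D c).map
      ((1 - y) ∘ₗ (LinearMap.applyₗ v : End W.K (W.H X) →ₗ[W.K] W.H X))
    by_cases hvM : v ∈ M
    · obtain ⟨x, hx, hxv⟩ := hvM
      refine ⟨x - y * x, Submodule.sub_mem _ hx (lefAlg_mul hD hy hx), ?_⟩
      exact hxv
    · exfalso
      have hMi : M ≤ W.gr X i := by
        rintro _ ⟨x, hx, rfl⟩
        have h1 := lefAlg_mem hD hx hv.1
        exact Submodule.sub_mem _ h1 (lefAlg_mem hD hy h1)
      obtain ⟨b, hb, hb1, hb2⟩ := exists_dual_class (by omega) hMi hv.1 hvM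
      obtain ⟨b', hb', hb''⟩ := (hHL i (by omega)).2 b hb
      rw [show X.dim - i = c by omega, lef_apply] at hb''
      obtain ⟨t, ht⟩ := hy1 b' hb'
      have hw : IsPrimClass W X D i (b' - y b') := hyprim b' hb'
      have hsplit : ∀ a, IsPrimClass W X D i a →
          W.tr X (a * b) = W.tr X (a * (ξ ^ c * (b' - y b'))) := by
        intro a ha
        rw [mul_sub, mul_sub, map_sub, hb'', ht, horth' t a ha, sub_zero]
      have h2 : W.tr X (v * (ξ ^ c * (b' - y b'))) ≠ 0 := by
        rw [← hsplit v hv]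
        exact hb2
      rw [← hlefTo] at h2
      obtain ⟨z, hz, hzn⟩ := htest v _ hv hw h2
      apply hzn
      rw [tensorNumber_eq, hlefTo, hlefTo]
      have hzk : W.corr (W.cl _ z) ∈ KOp W X X (-c) := KOp.gen (p := i) (by omega) hz
      have hx := lefAlg_mk (D := D) hzk
      have hxv : (W.corr (W.cl _ z) * (LinearMap.mulLeft W.K (W.cl X D)) ^ c) v =
          W.corr (W.cl _ z) (ξ ^ c * v) := by
        rw [Module.End.mul_apply, lef_apply]
      have h3 := lefAlg_mem hD hx hv.1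
      rw [hxv] at h3
      obtain ⟨t', ht'⟩ := hy1 _ h3
      have h4 : W.tr X ((W.corr (W.cl _ z) (ξ ^ c * v) - y (W.corr (W.cl _ z) (ξ ^ c * v))) * b) =
          0 := by
        apply hb1
        refine ⟨_, hx, ?_⟩
        change ((1 - y) ((W.corr (W.cl _ z) * (LinearMap.mulLeft W.K (W.cl X D)) ^ c) v)) = _
        rw [hxv]
        rfl
      rw [hsplit _ (hyprim _ h3), sub_mul, map_sub, ht', horth t' _ hw, sub_zero] at h4
      exact h4
  -- all classes at a time
  obtain ⟨x, hx, hx1⟩ := pointwise_to_global (I := lefAlg W X D c) (H := W.gr X i)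
    (fun x hx y hy => lefAlg_mul hD hx hy) (fun x hx a ha => lefAlg_mem hD hx ha)
    (fun a ha => by
      obtain ⟨x, hx, hxa⟩ := hone _ (hyprim a ha)
      refine ⟨x + y - x * y, Submodule.sub_mem _ (Submodule.add_mem _ hx hy)
        (lefAlg_mul hD hx hy), ?_⟩
      rw [LinearMap.sub_apply, LinearMap.add_apply, Module.End.mul_apply]
      rw [map_sub] at hxa
      rw [add_sub_right_comm, hxa, sub_add_cancel])
  obtain ⟨γ, hγ, rfl⟩ := hx
  refine ⟨γ, hγ, fun a ha => ?_⟩
  have h1 := hx1 a ha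
  change γ (((LinearMap.mulLeft W.K (W.cl X D)) ^ c) a) = a at h1
  rwa [lef_apply] at h1

/-- The pure tensor test implies the inverses in all degrees. -/
lemma inverse_of_test {D : X.Cycles} (hD : X.IsCyc 1 D) (hHL : HardLefschetz W X D)
    (htest : PureTensorTest W X D) :
    ∀ i c : ℕ, i + c = X.dim → ∃ γ ∈ KOp W X X (-c), ∀ a ∈ W.gr X i,
      γ (W.cl X D ^ c * a) = a := by
  intro i
  induction i using Nat.strong_induction_on with
  | _ i ih =>
    intro c hic
    apply pure_step hD hHL hic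
    · intro hi
      exact ih (i - 2) (by omega) (c + 2) (by omega)
    · exact htest i (by omega)

/-- **The Lefschetz standard conjecture, one class at a time and with pure tensors.** -/
theorem lefschetzB_pure_tfae {D : X.Cycles} (hD : X.IsCyc 1 D) (hHL : HardLefschetz W X D) :
    List.TFAE [LefschetzB W X D, OneClassAtATime W X D, PureTensorTest W X D] := by
  tfae_have 1 → 2 := by
    intro hB i hi a ha
    obtain ⟨Φ, hΦ, hLam⟩ := lefschetzB_iff_rop.1 hB
    have hLh : IsHom (W.gr X) 2 (LinearMap.mulLeft W.K (W.cl X D)) := by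
      simpa using rop_opAlg.hom (rop_mulLeft (W := W) hD)
    have h1 : Φ ^ (X.dim - i) ∈ KOp W X X (-(X.dim - i : ℕ)) := by
      rw [← mem_KS_iff]
      exact rop_opAlg.kspan.cast (rop_opAlg.kspan.pow (Submodule.subset_span hΦ) _) (by ring)
    obtain ⟨γ, hγ, hγ'⟩ := mem_KOp_iff.1 h1
    refine ⟨γ, ?_, ?_⟩
    · rwa [show ((X.dim : ℤ) + -(X.dim - i : ℕ)) = (i : ℤ) by omega] at hγ
    · rw [hγ', lefTo, ← lef_apply]
      exact lam_pow_L_pow hLh W_hbd hHL hLam (Nat.sub_le _ _)
        (by rw [show X.dim - (X.dim - i) = i by omega]; exact ha.1)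
  tfae_have 2 → 3 := by
    intro h i hi a b ha hb hab
    obtain ⟨γ, hγ, hγa⟩ := h i hi a ha
    by_contra hno
    push Not at hno
    apply hab
    have key : ∀ γ ∈ spanCycles W (X.prod X) (i : ℤ),
        W.tr X (W.corr γ (lefTo W X D i a) * lefTo W X D i b) = 0 := by
      intro γ hγ
      induction hγ using Submodule.span_induction with
      | mem x hx =>
        obtain ⟨p, hp, z, hz, rfl⟩ := hx
        obtain rfl : p = i := by omega
        have := hno z hz
        rwa [tensorNumber_eq] at this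
      | zero => rw [corr_zero, LinearMap.zero_apply, zero_mul, map_zero]
      | add x y _ _ hx hy => rw [corr_add, LinearMap.add_apply, add_mul, map_add, hx, hy, add_zero]
      | smul c x _ hx => rw [corr_smul, LinearMap.smul_apply, smul_mul_assoc, map_smul, hx,
          smul_zero]
    have := key γ hγ
    rwa [hγa] at this
  tfae_have 3 → 1 := by
    intro h
    apply lefschetzB_of_inj hD hHL
    intro c hc
    obtain ⟨γ, hγ, hγ1⟩ := inverse_of_test hD hHL h (X.dim - c) c (by omega)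
    refine ⟨γ, hγ, fun b hb h0 => ?_⟩
    obtain ⟨a, ha, ha'⟩ := (hHL (X.dim - c) (by omega)).2 b
      (by rw [show 2 * X.dim - (X.dim - c) = X.dim + c by omega]; exact hb)
    rw [show X.dim - (X.dim - c) = c by omega, lef_apply] at ha'
    have h1 := hγ1 a ha
    rw [ha', h0] at h1
    rw [← ha', ← h1, mul_zero]
  tfae_finish

end Pool.Agent.R907
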