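import Pool.Agent.H914R2.KDefs2

/-!
# The Lefschetz standard conjecture and pure tensors: definitions
-/

open CategoryTheory AlgebraicGeometry

universe u v

namespace Pool.Agent.R907

open Pool.Agent.H914 VarClass Obj WeilCohomology

variable {k : Type u} [Field k] {𝒱 : VarClass k} {ops : CycleOps 𝒱}

/-- `a` is a primitive class of degree `i` on `X`: it lies in `H^i(X)` and is killed by
`ξ ^ (n - i + 1)`, where `n = dim X` and `ξ` is the class of `D`. -/
def IsPrimClass (W : WeilCohomology.{u, v} ops) (X : 𝒱.Obj) (D : X.Cycles) (i : ℕ)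
    (a : W.H X) : Prop :=
  a ∈ W.gr X i ∧ W.cl X D ^ (X.dim - i + 1) * a = 0

/-- The class `ξ ^ (n - i) a`, where `n = dim X` and `ξ` is the class of `D`. -/
noncomputable def lefTo (W : WeilCohomology.{u, v} ops) (X : 𝒱.Obj) (D : X.Cycles) (i : ℕ)
    (a : W.H X) : W.H X :=
  W.cl X D ^ (X.dim - i) * a

/-- The pure tensor `a ⊗ b` in `H(X × X)`. -/
noncomputable def pureTensor (W : WeilCohomology.{u, v} ops) (X : 𝒱.Obj) (a b : W.H X) :
    W.H (X.prod X) :=
  W.map (fst X X) a * W.map (snd X X) b

/-- The intersection number of the cycle `z` on `X × X` with the pure tensor `a ⊗ b`. -/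
noncomputable def tensorNumber (W : WeilCohomology.{u, v} ops) (X : 𝒱.Obj)
    (z : (X.prod X).Cycles) (a b : W.H X) : W.K :=
  W.tr (X.prod X) (W.cl (X.prod X) z * pureTensor W X a b)

/-- The class `b` on `X` is a linear combination of the classes `z a`, for the cycles `z` of
codimension `i` on `X × X`, with coefficients in the coefficient field: `b = γ a` for a linear
combination `γ` of the classes of such cycles. -/
def IsCombination (W : WeilCohomology.{u, v} ops) (X : 𝒱.Obj) (i : ℕ) (a b : W.H X) : Prop :=
  ∃ γ ∈ spanCycles W (X.prod X) (i : ℤ), W.corr γ a = b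

/-- Every primitive class `a` of degree `i ≤ n` on `X` is a linear combination of the classes
`z (ξ ^ (n - i) a)`, for the cycles `z` of codimension `i` on `X × X`, with coefficients in the
coefficient field (which may depend on `a`). -/
def OneClassAtATime (W : WeilCohomology.{u, v} ops) (X : 𝒱.Obj) (D : X.Cycles) : Prop :=
  ∀ i ≤ X.dim, ∀ a, IsPrimClass W X D i a → IsCombination W X i (lefTo W X D i a) a

/-- If `a` and `b` are primitive classes of degree `i ≤ n` on `X` such that the number
`a ∪ b ∪ ξ ^ (n - i)` is not zero then the pure tensor `ξ ^ (n - i) a ⊗ ξ ^ (n - i) b` is not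
orthogonal to all algebraic cycles of codimension `i` on `X × X`. -/
def PureTensorTest (W : WeilCohomology.{u, v} ops) (X : 𝒱.Obj) (D : X.Cycles) : Prop :=
  ∀ i ≤ X.dim, ∀ a b, IsPrimClass W X D i a → IsPrimClass W X D i b →
    W.tr X (a * lefTo W X D i b) ≠ 0 →
      ∃ z, (X.prod X).IsCyc i z ∧ tensorNumber W X z (lefTo W X D i a) (lefTo W X D i b) ≠ 0

end Pool.Agent.R907
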