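import Pool.Agent.H914R2.Core0

/-!
# Operators of rank one in an algebra which acts transitively on an eigenspace
-/

set_option linter.unusedSectionVars false

namespace Pool.Agent.R907.PureLA

open Module Polynomial

variable {K V : Type*} [Field K] [AddCommGroup V] [Module K V] [Module.Finite K V]

/-- The projector onto a generalised eigenspace is a polynomial. -/
lemma exists_projector (F : End K V) (lam : K) :
    ∃ w : K[X], (∀ v, aeval F w v ∈ F.maxGenEigenspace lam) ∧
      ∀ v ∈ F.maxGenEigenspace lam, aeval F w v = v := by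
  obtain ⟨w, k, -, hw, hkw, g, hg⟩ := Pool.Agent.H914.exists_fitting (F - algebraMap K _ lam)
  have h0 : ∀ f : K[X], aeval F (f.comp (X - C lam)) = aeval (F - algebraMap K _ lam) f := by
    intro f
    rw [aeval_comp, map_sub, aeval_X, aeval_C]
  refine ⟨w.comp (X - C lam), fun v => ?_, fun v hv => ?_⟩
  · rw [h0, Module.End.mem_maxGenEigenspace]
    refine ⟨k, ?_⟩
    have h1 := LinearMap.congr_fun hkw v
    rw [Module.End.mul_apply, LinearMap.zero_apply] at h1
    rw [← Algebra.algebraMap_eq_smul_one]
    exact h1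
  · rw [h0]
    obtain ⟨m, hm⟩ := (Module.End.mem_maxGenEigenspace _ _ _).1 hv
    rw [← Algebra.algebraMap_eq_smul_one] at hm
    set y := F - algebraMap K (End K V) lam with hy
    set e := aeval y w with he
    have h1 : 1 - e = y * aeval y g := by
      rw [he]
      have := congrArg (aeval y) hg
      rwa [map_sub, map_one, map_mul, aeval_X] at this
    have hid : (1 - e) * (1 - e) = 1 - e := by
      rw [mul_sub, sub_mul, sub_mul, hw]
      simp
    have hpow : ∀ r : ℕ, (1 - e) ^ (r + 1) = 1 - e := by
      intro r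
      induction r with
      | zero => rw [zero_add, pow_one]
      | succ r ih => rw [pow_succ, ih, hid]
    have hcomm : Commute y (aeval y g) := by
      have h2 := congrArg (aeval y) (mul_comm X g)
      rw [map_mul, map_mul, aeval_X] at h2
      exact h2
    have h3 : (1 - e) v = 0 := by
      rw [← hpow m, h1, hcomm.mul_pow, (hcomm.pow_pow (m + 1) (m + 1)).eq, Module.End.mul_apply,
        pow_succ' y, Module.End.mul_apply, hm, map_zero, map_zero]
    rw [LinearMap.sub_apply, Module.End.one_apply, sub_eq_zero] at h3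
    exact h3.symm

/-- A transitive algebra over an algebraically closed field kills what is orthogonal to it. -/
lemma kill_of_orthogonal [IsAlgClosed K] {C : Subalgebra K (End K V)} {E : Submodule K V}
    (htrans : ∀ a ∈ E, a ≠ 0 → ∀ e ∈ E, ∃ y ∈ C, y a = e) {q : End K V} (hqC : q ∈ C)
    (hq1 : ∀ v, q v ∈ E) (hq2 : ∀ v ∈ E, q v = v) (hqc : ∀ x ∈ C, q * x = x * q)
    {P S : End K V} {ε : K} (hε : ε ≠ 0) (hP : ∀ a ∈ E, P a = ε • a) (hS : ∀ a ∈ E, S a ∈ E)
    (htr : ∀ x ∈ C, LinearMap.trace K V (P * x * S) = 0) : ∀ a ∈ E, S a = 0 := by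
  intro a ha
  by_contra hSa
  have ha0 : a ≠ 0 := by
    rintro rfl
    exact hSa (map_zero S)
  -- an operator of minimal rank
  let T : Set (End K V) := {x | x ∈ C ∧ q * x = x ∧ x ≠ 0}
  have hT : T.Nonempty := by
    refine ⟨q, hqC, ?_, ?_⟩
    · apply LinearMap.ext
      intro v
      exact hq2 _ (hq1 v)
    · intro h0
      apply ha0
      rw [← hq2 a ha, h0, LinearMap.zero_apply]
  obtain ⟨x, ⟨hxC, hqx, hx0⟩, hmin⟩ := WellFounded.has_min
    (measure (fun x : End K V => finrank K (LinearMap.range x))).wf T hT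
  have hxE : ∀ v, x v ∈ E := by
    intro v
    rw [← hqx, Module.End.mul_apply]
    exact hq1 _
  have hxq : ∀ v, x (q v) = x v := by
    intro v
    have h1 := LinearMap.congr_fun (hqc x hxC) v
    rw [Module.End.mul_apply, Module.End.mul_apply] at h1
    rw [← h1]
    exact hq2 _ (hxE v)
  obtain ⟨e₁, he₁⟩ : ∃ e, x e ≠ 0 := by
    by_contra h
    push Not at h
    exact hx0 (LinearMap.ext h)
  set w₁ := x e₁ with hw₁
  -- the rank is one
  have hrank : ∀ v, ∃ c : K, x v = c • w₁ := by
    intro v
    by_contra hv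
    push Not at hv
    obtain ⟨y, hyC, hy⟩ := htrans w₁ (hxE e₁) he₁ (q v) (hq1 v)
    set W := LinearMap.range x with hW
    have hres : ∀ u ∈ W, (x * y) u ∈ W := fun u _ => ⟨y u, rfl⟩
    have hnt : Nontrivial W := ⟨⟨⟨w₁, ⟨e₁, rfl⟩⟩, 0, fun h => he₁ (congrArg Subtype.val h)⟩⟩
    obtain ⟨ν, hν⟩ := Module.End.exists_eigenvalue ((x * y).restrict hres)
    obtain ⟨u, hu⟩ := hν.exists_hasEigenvector
    have hu0 : (u : V) ≠ 0 := fun h => hu.2 (Subtype.ext h)
    have hu1 : (x * y) (u : V) = ν • (u : V) := congrArg Subtype.val hu.apply_eq_smul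
    apply hmin ((x * y - algebraMap K _ ν) * x)
    · refine ⟨C.mul_mem (C.sub_mem (C.mul_mem hxC hyC) (C.algebraMap_mem ν)) hxC, ?_, ?_⟩
      · rw [sub_mul, mul_sub, ← mul_assoc, ← mul_assoc, hqx, Algebra.algebraMap_eq_smul_one,
          smul_mul_assoc, one_mul, mul_smul_comm, hqx, mul_assoc]
      · intro h0
        have h1 := LinearMap.congr_fun h0 e₁
        rw [Module.End.mul_apply, LinearMap.sub_apply, Module.End.mul_apply, ← hw₁, hy, hxq,
          LinearMap.zero_apply, sub_eq_zero, Module.algebraMap_end_apply] at h1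
        exact hv ν h1
    · change finrank K (LinearMap.range ((x * y - algebraMap K (End K V) ν) * x)) <
        finrank K W
      have h1 : LinearMap.range ((x * y - algebraMap K (End K V) ν) * x) =
          LinearMap.range ((x * y - algebraMap K (End K V) ν).domRestrict W) := by
        rw [LinearMap.range_domRestrict]
        exact LinearMap.range_comp _ _
      rw [h1]
      have h2 := LinearMap.finrank_range_add_finrank_ker
        ((x * y - algebraMap K (End K V) ν).domRestrict W)
      have h3 : 0 < finrank K (LinearMap.ker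
          ((x * y - algebraMap K (End K V) ν).domRestrict W)) := by
        rw [Module.finrank_pos_iff]
        refine ⟨⟨⟨u, ?_⟩, 0, fun h => hu.2 (congrArg Subtype.val h)⟩⟩
        rw [LinearMap.mem_ker, LinearMap.domRestrict_apply, LinearMap.sub_apply, hu1,
          Module.algebraMap_end_apply, sub_self]
      omega
  -- a functional
  obtain ⟨g, hg⟩ := Module.Projective.exists_dual_eq_one K he₁
  have hgx : ∀ v, x v = g (x v) • w₁ := by
    intro v
    obtain ⟨c, hc⟩ := hrank v
    rw [hc, map_smul, hg, smul_eq_mul, mul_one]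
  obtain ⟨y, hyC, hy⟩ := htrans w₁ (hxE e₁) he₁ a ha
  obtain ⟨z, hzC, hz⟩ := htrans (S a) (hS a ha) hSa (q e₁) (hq1 e₁)
  have h1 := htr (y * x * z) (C.mul_mem (C.mul_mem hyC hxC) hzC)
  have h2 : P * (y * x * z) * S = (g ∘ₗ (x * z * S)).smulRight (P a) := by
    apply LinearMap.ext
    intro v
    rw [LinearMap.smulRight_apply, LinearMap.comp_apply]
    simp only [Module.End.mul_apply]
    rw [hgx (z (S v)), map_smul, map_smul, hy, map_smul, hg, smul_eq_mul, mul_one]
  rw [h2, LinearMap.trace_smulRight, LinearMap.comp_apply, hP a ha, map_smul, map_smul] at h1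
  simp only [Module.End.mul_apply] at h1
  rw [hz, hxq, ← hw₁, hg, smul_eq_mul, mul_one] at h1
  exact hε h1

end Pool.Agent.R907.PureLA
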