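import Pool.Agent.R907.PureDefs
import Pool.Agent.W534.PoleDefs

/-!
# The Tate conjecture for `X × X` and pure tensors: definitions
-/

open CategoryTheory AlgebraicGeometry

universe u v

namespace Pool.Agent.R907

open Pool.Agent.H914 Pool.Agent.W534 VarClass Obj WeilCohomology

variable {k : Type u} [Field k] {𝒱 : VarClass k} {ops : CycleOps 𝒱}

/-- `a` is an eigenvector, with eigenvalue `lam`, of the Frobenius endomorphism of the model of `X`
over the field with `card Φ X s` elements. -/
def FrobEig {W : WeilCohomology.{u, v} ops} {p : ℕ} (Φ : FrobSystem W p) (X : 𝒱.Obj) (s : ℕ)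
    (lam : W.K) (a : W.H X) : Prop :=
  a ≠ 0 ∧ W.map (Pool.Agent.W534.iter (Φ.Fr X) s) a = lam • a

/-- Let `a` in `H^i(X)` and `b` in `H^(2 n - i)(X)`, where `n = dim X`, be eigenvectors of the
Frobenius endomorphism of a model of `X` over a field with `q` elements, such that the product of
the eigenvalues is `q ^ n`. Then there is a cycle of codimension `n` on `X × X` whose intersection
number with the pure tensor `a ⊗ b` is not zero. -/
def PureTateTest {W : WeilCohomology.{u, v} ops} {p : ℕ} (Φ : FrobSystem W p) (X : 𝒱.Obj) : Prop :=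
  ∀ s, 0 < s → ∀ i j, i + j = 2 * X.dim → ∀ lam mu, lam * mu = (card Φ X s : W.K) ^ X.dim →
    ∀ a ∈ W.gr X i, ∀ b ∈ W.gr X j, FrobEig Φ X s lam a → FrobEig Φ X s mu b →
      ∃ z, (X.prod X).IsCyc X.dim z ∧ tensorNumber W X z a b ≠ 0

end Pool.Agent.R907
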