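import Pool.Agent.R907.PureLA
import Pool.Agent.R907.PureB
import Pool.Agent.R907.PureTateDefs
import Pool.Agent.W534.PoleD
import Pool.Agent.H447R3.NumB

/-!
# The Tate conjecture for `X × X` and pure tensors
-/

open CategoryTheory AlgebraicGeometry Polynomial

set_option linter.unusedSectionVars false

universe u v

namespace Pool.Agent.R907

open Pool.Agent.H914 Pool.Agent.H447 Pool.Agent.W534 VarClass Obj WeilCohomology Module

variable {k : Type u} [Field k] {𝒱 : VarClass k} {ops : CycleOps 𝒱} {X : 𝒱.Obj}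
  {W : WeilCohomology.{u, v} ops} {p : ℕ} (Φ : FrobSystem W p)

/-- A pair of levels for `X × X` and `X` which correspond to the same finite field. -/
structure Lvl (X : 𝒱.Obj) (r m : ℕ) : Prop where
  hr : 0 < r
  hm : 0 < m
  he : Φ.e (X.prod X) * r = Φ.e X * m
  f1 : ∀ x, frob Φ (X.prod X) r (W.map (fst X X) x) = W.map (fst X X) (frob Φ X m x)
  f2 : ∀ x, frob Φ (X.prod X) r (W.map (snd X X) x) = W.map (snd X X) (frob Φ X m x)

lemma exists_level (X : 𝒱.Obj) : ∃ A B : ℕ, 0 < A ∧ 0 < B ∧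
    ∀ s, 0 < s → Lvl Φ X (A * s) (B * s) := by
  obtain ⟨a, b, ha, hb, hab, h⟩ := Pool.Agent.W534.frob_comm Φ (fst X X)
  obtain ⟨a', b', ha', hb', hab', h'⟩ := Pool.Agent.W534.frob_comm Φ (snd X X)
  have hE : b * a' = b' * a := by
    have : (b * a') * Φ.e X = (b' * a) * Φ.e X := by
      calc (b * a') * Φ.e X = (b * Φ.e X) * a' := by ring
        _ = (a' * Φ.e (X.prod X)) * a := by rw [← hab]; ring
        _ = (b' * a) * Φ.e X := by rw [hab']; ring
    exact Nat.eq_of_mul_eq_mul_right (Φ.e_pos X) this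
  refine ⟨a * a', b * a', Nat.mul_pos ha ha', Nat.mul_pos hb ha', fun s hs =>
    ⟨Nat.mul_pos (Nat.mul_pos ha ha') hs, Nat.mul_pos (Nat.mul_pos hb ha') hs, ?_, ?_, ?_⟩⟩
  · calc Φ.e (X.prod X) * (a * a' * s) = (a * Φ.e (X.prod X)) * (a' * s) := by ring
      _ = Φ.e X * (b * a' * s) := by rw [hab]; ring
  · intro x
    rw [frob_apply, mul_assoc, h, frob_apply, mul_assoc]
  · intro x
    rw [frob_apply, mul_comm a a', mul_assoc, h', frob_apply, hE, mul_assoc]

variable {Φ} {r m : ℕ}

lemma Lvl.card_eq (L : Lvl Φ X r m) : card Φ (X.prod X) r = card Φ X m := by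
  rw [card, card, L.he]

lemma Lvl.frob_tensor (L : Lvl Φ X r m) (a b : W.H X) :
    frob Φ (X.prod X) r (pureTensor W X a b) =
      pureTensor W X (frob Φ X m a) (frob Φ X m b) := by
  rw [pureTensor, frob_apply, map_mul, ← frob_apply, ← frob_apply, L.f1, L.f2, pureTensor]

lemma tr_tensor (c : W.H (X.prod X)) (a b : W.H X) :
    W.tr (X.prod X) (c * pureTensor W X a b) = W.tr X (W.corr c a * b) := by
  rw [pureTensor, corr_apply, W.tr_push, mul_assoc]

lemma frob_tr {Z : 𝒱.Obj} (s : ℕ) (x y : W.H Z) :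
    W.tr Z (frob Φ Z s x * frob Φ Z s y) = (card Φ Z s : W.K) ^ Z.dim * W.tr Z (x * y) := by
  rw [frob_apply, frob_apply, ← map_mul, tr_iter, card_pow]

lemma Lvl.corr_frob (L : Lvl Φ X r m) (c : W.H (X.prod X)) (a : W.H X) :
    W.corr (frob Φ (X.prod X) r c) (frob Φ X m a) =
      ((card Φ X m : W.K) ^ X.dim) • frob Φ X m (W.corr c a) := by
  apply W.tr_ext
  intro b'
  obtain ⟨b, hb⟩ := map_iter_surjective Φ m b'
  rw [← hb, ← frob_apply, ← tr_tensor, ← L.frob_tensor, frob_tr, tr_tensor, smul_mul_assoc,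
    map_smul, frob_tr, smul_eq_mul, L.card_eq, dim_prod, pow_add, mul_assoc]

lemma Lvl.commute (L : Lvl Φ X r m) {c : W.H (X.prod X)}
    (hc : frob Φ (X.prod X) r c = ((card Φ (X.prod X) r : W.K) ^ X.dim) • c) (a : W.H X) :
    W.corr c (frob Φ X m a) = frob Φ X m (W.corr c a) := by
  have h := L.corr_frob c a
  rw [hc, L.card_eq, W.corr_smul, LinearMap.smul_apply] at h
  exact smul_right_injective _ (pow_ne_zero X.dim (card_ne Φ m)) h

/-- The algebra of the correspondences of degree zero. -/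
noncomputable def algC (W : WeilCohomology.{u, v} ops) (X : 𝒱.Obj) :
    Subalgebra W.K (End W.K (W.H X)) where
  carrier := KOp W X X 0
  mul_mem' := fun ha hb => KOp.cast (KOp.comp ha hb) (by ring)
  one_mem' := KOp.id X
  add_mem' := fun ha hb => Submodule.add_mem _ ha hb
  zero_mem' := Submodule.zero_mem _
  algebraMap_mem' := fun r => by
    rw [Algebra.algebraMap_eq_smul_one]
    exact Submodule.smul_mem _ _ (KOp.id X)

lemma mem_algC {x : End W.K (W.H X)} : x ∈ algC W X ↔ x ∈ KOp W X X 0 := Iff.rfl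

lemma Lvl.comm_algC (L : Lvl Φ X r m)
    (hspan : ∀ c ∈ spanCycles W (X.prod X) X.dim,
      frob Φ (X.prod X) r c = ((card Φ (X.prod X) r : W.K) ^ X.dim) • c)
    {x : End W.K (W.H X)} (hx : x ∈ algC W X) (a : W.H X) :
    x (frob Φ X m a) = frob Φ X m (x a) := by
  obtain ⟨γ, hγ, rfl⟩ := mem_KOp_iff.1 (mem_algC.1 hx)
  rw [add_zero] at hγ
  exact L.commute (hspan γ hγ) a

lemma algC_gr {x : End W.K (W.H X)} (hx : x ∈ algC W X) {i : ℕ} {a : W.H X}
    (ha : a ∈ W.gr X i) : x a ∈ W.gr X i := by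
  have h1 := KOp.isHom (mem_algC.1 hx) i a (by rw [grZ_natCast]; exact ha)
  rwa [mul_zero, add_zero, grZ_natCast] at h1

lemma frob_mem_algC (m : ℕ) : frob Φ X m ∈ algC W X :=
  mem_KS_iff.1 (Submodule.subset_span (rop_map _))

/-- Vectors of the generalised eigenspace are orthogonal to images. -/
lemma tr_gen {Z : 𝒱.Obj} {s : ℕ} {μ μ' : W.K} (hμ : μ * μ' = (card Φ Z s : W.K) ^ Z.dim)
    {v : W.H Z} (hv : v ∈ (frob Φ Z s).maxGenEigenspace μ) :
    ∃ n : ℕ, ∀ u, W.tr Z (v * ((frob Φ Z s - μ' • (1 : End W.K (W.H Z))) ^ n) u) = 0 := by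
  obtain ⟨n, hn⟩ := (Module.End.mem_maxGenEigenspace _ _ _).1 hv
  refine ⟨n, fun u => ?_⟩
  obtain ⟨v', rfl⟩ := frob_pow_surjective Φ s n v
  have hv0 : ((frob Φ Z s - μ • (1 : End W.K (W.H Z))) ^ n) v' = 0 := by
    apply frob_pow_injective Φ s n
    have hc : Commute (frob Φ Z s) (frob Φ Z s - μ • (1 : End W.K (W.H Z))) :=
      (Commute.refl _).sub_right ((Commute.one_right _).smul_right _)
    rw [map_zero, ← Module.End.mul_apply, (hc.pow_pow n n).eq, Module.End.mul_apply]
    exact hn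
  rw [tr_adj_pow Φ hμ, hv0, zero_mul, map_zero, mul_zero]

/-- **One eigenvector generates.** -/
lemma eig_span (L : Lvl Φ X r m)
    (hspan : ∀ c ∈ spanCycles W (X.prod X) X.dim,
      frob Φ (X.prod X) r c = ((card Φ (X.prod X) r : W.K) ^ X.dim) • c)
    (htest : PureTateTest Φ X) {i : ℕ} {lam : W.K} {a : W.H X} (ha : a ∈ W.gr X i) (ha0 : a ≠ 0)
    (hFa : frob Φ X m a = lam • a) {v : W.H X} (hv : v ∈ W.gr X i)
    (hv' : v ∈ (frob Φ X m).maxGenEigenspace lam) : ∃ x ∈ algC W X, x a = v := by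
  by_contra hno
  have hi : i ≤ 2 * X.dim := by
    by_contra hcon
    rw [W.gr_eq_bot X i (by omega)] at ha
    exact ha0 ((Submodule.mem_bot _).1 ha)
  have hlam : lam ≠ 0 := by
    rintro rfl
    rw [zero_smul] at hFa
    exact ha0 (map_iter_injective Φ m (hFa.trans (map_zero (frob Φ X m)).symm))
  let U : Submodule W.K (W.H X) := (Subalgebra.toSubmodule (algC W X)).map
    (LinearMap.applyₗ a : End W.K (W.H X) →ₗ[W.K] W.H X)
  have hUi : U ≤ W.gr X i := by
    rintro _ ⟨x, hx, rfl⟩
    exact algC_gr hx ha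
  have hvU : v ∉ U := by
    rintro ⟨x, hx, hxv⟩
    exact hno ⟨x, hx, hxv⟩
  obtain ⟨b, hb, hb1, hb2⟩ := exists_dual_class hi hUi hv hvU
  -- the orthogonal complement
  let N : Submodule W.K (W.H X) :=
    { carrier := {b | b ∈ W.gr X (2 * X.dim - i) ∧ ∀ u ∈ U, W.tr X (u * b) = 0}
      add_mem' := fun {x y} hx hy => ⟨Submodule.add_mem _ hx.1 hy.1, fun u hu => by
        rw [mul_add, map_add, hx.2 u hu, hy.2 u hu, add_zero]⟩
      zero_mem' := ⟨Submodule.zero_mem _, fun u _ => by rw [mul_zero, map_zero]⟩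
      smul_mem' := fun c x hx => ⟨Submodule.smul_mem _ _ hx.1, fun u hu => by
        rw [mul_smul_comm, map_smul, hx.2 u hu, smul_zero]⟩ }
  have hFu : ∀ u ∈ U, frob Φ X m u = lam • u := by
    rintro _ ⟨x, hx, rfl⟩
    change frob Φ X m (x a) = lam • x a
    rw [← L.comm_algC hspan hx, hFa, map_smul]
  have hFN : ∀ b ∈ N, frob Φ X m b ∈ N := by
    rintro b ⟨hb, hb'⟩
    refine ⟨W.map_mem _ hb, fun u hu => ?_⟩
    have h1 := frob_tr (Φ := Φ) m u b
    rw [hb' u hu, mul_zero, hFu u hu, smul_mul_assoc, map_smul, smul_eq_mul] at h1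
    exact (mul_eq_zero.1 h1).resolve_left hlam
  set mu := lam⁻¹ * (card Φ X m : W.K) ^ X.dim with hmu
  have hlm : lam * mu = (card Φ X m : W.K) ^ X.dim := by
    rw [hmu, ← mul_assoc, mul_inv_cancel₀ hlam, one_mul]
  obtain ⟨n, hn⟩ := tr_gen hlm hv'
  set g := frob Φ X m - mu • (1 : End W.K (W.H X)) with hg
  have hgN : ∀ b ∈ N, g b ∈ N := by
    intro b hb
    rw [hg, LinearMap.sub_apply, LinearMap.smul_apply, Module.End.one_apply]
    exact Submodule.sub_mem _ (hFN b hb) (Submodule.smul_mem _ _ hb)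
  by_cases hinj : ∀ b ∈ N, g b = 0 → b = 0
  · have hinj' : Function.Injective (g.restrict hgN) := by
      rw [injective_iff_map_eq_zero]
      rintro ⟨b, hb⟩ h0
      exact Subtype.ext (hinj b hb (congrArg Subtype.val h0))
    have hsurj : Function.Surjective (g.restrict hgN) :=
      LinearMap.injective_iff_surjective.1 hinj'
    have hpow : ∀ (n : ℕ), ∀ b ∈ N, ∃ u ∈ N, (g ^ n) u = b := by
      intro n
      induction n with
      | zero => exact fun b hb => ⟨b, hb, rfl⟩
      | succ n ih =>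
        intro b hb
        obtain ⟨⟨u, hu⟩, hu'⟩ := hsurj ⟨b, hb⟩
        obtain ⟨u', hu'', hu3⟩ := ih u hu
        refine ⟨u', hu'', ?_⟩
        rw [pow_succ', Module.End.mul_apply, hu3]
        exact congrArg Subtype.val hu'
    obtain ⟨u, -, hu⟩ := hpow n b ⟨hb, hb1⟩
    apply hb2
    rw [← hu]
    exact hn u
  · push Not at hinj
    obtain ⟨b', hb', hgb, hb0⟩ := hinj
    have hFb : frob Φ X m b' = mu • b' := by
      rw [hg, LinearMap.sub_apply, LinearMap.smul_apply, Module.End.one_apply, sub_eq_zero] at hgb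
      exact hgb
    obtain ⟨z, hz, hzn⟩ := htest m L.hm i (2 * X.dim - i) (by omega) lam mu hlm a ha b' hb'.1
      ⟨ha0, hFa⟩ ⟨hb0, hFb⟩
    apply hzn
    rw [tensorNumber_eq]
    apply hb'.2
    exact ⟨W.corr (W.cl _ z), KOp.gen (p := X.dim) (by ring) hz, rfl⟩

/-- A nonzero vector of the generalised eigenspace gives an eigenvector. -/
lemma exists_eigvec {V K : Type*} [Field K] [AddCommGroup V] [Module K V] {F : End K V} {lam : K}
    {S : Submodule K V} (hS : ∀ x ∈ S, F x ∈ S) {v : V} (hv : v ∈ F.maxGenEigenspace lam)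
    (hvS : v ∈ S) (hv0 : v ≠ 0) : ∃ a ∈ S, a ≠ 0 ∧ F a = lam • a := by
  obtain ⟨n, hn⟩ := (Module.End.mem_maxGenEigenspace _ _ _).1 hv
  induction n generalizing v with
  | zero =>
    rw [pow_zero, Module.End.one_apply] at hn
    exact absurd hn hv0
  | succ n ih =>
    by_cases h : (F - lam • (1 : End K V)) v = 0
    · refine ⟨v, hvS, hv0, ?_⟩
      rw [LinearMap.sub_apply, LinearMap.smul_apply, Module.End.one_apply, sub_eq_zero] at h
      exact h
    · have h1 : ((F - lam • (1 : End K V)) ^ n) ((F - lam • (1 : End K V)) v) = 0 := by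
        rw [← Module.End.mul_apply, ← pow_succ]
        exact hn
      refine ih ((Module.End.mem_maxGenEigenspace _ _ _).2 ⟨n, h1⟩) ?_ h h1
      rw [LinearMap.sub_apply, LinearMap.smul_apply, Module.End.one_apply]
      exact Submodule.sub_mem _ (hS v hvS) (Submodule.smul_mem _ _ hvS)

variable {σ : W.K →+* ℂ}

/-- The absolute value of an eigenvalue determines the degree. -/
lemma norm_eig (hRH : RiemannHyp Φ σ X) {m : ℕ} (hm : 0 < m) {i : ℕ} {lam : W.K} {a : W.H X}
    (ha : a ∈ W.gr X i) (ha0 : a ≠ 0) (hFa : frob Φ X m a = lam • a) :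
    ‖σ lam‖ ^ 2 = (Pool.Agent.W534.card Φ X m : ℝ) ^ i := by
  apply hRH m hm i
  rw [frobPoly_eq]
  apply IsRoot.map
  rw [← Module.End.hasEigenvalue_iff_isRoot_charpoly]
  apply Module.End.hasEigenvalue_of_hasEigenvector (x := (⟨a, ha⟩ : W.gr X i))
  rw [Module.End.hasEigenvector_iff, Module.End.mem_eigenspace_iff]
  exact ⟨Subtype.ext hFa, fun h => ha0 (congrArg Subtype.val h)⟩

lemma frob_proj (m i : ℕ) (a : W.H X) :
    frob Φ X m (proj (W.isInternal X) i a) = proj (W.isInternal X) i (frob Φ X m a) := by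
  refine gr_induction (W.isInternal X) (p := fun a =>
    frob Φ X m (proj (W.isInternal X) i a) = proj (W.isInternal X) i (frob Φ X m a)) ?_ ?_ a
  · intro l a ha
    have h1 : frob Φ X m a ∈ W.gr X l := W.map_mem _ ha
    by_cases hl : l = i
    · subst hl
      rw [proj_same _ ha, proj_same _ h1]
    · rw [proj_ne _ ha hl, proj_ne _ h1 hl, map_zero]
  · intro a b ha hb
    rw [map_add, map_add, map_add, map_add, ha, hb]

lemma gen_proj {m : ℕ} {lam : W.K} (i : ℕ) {v : W.H X}
    (hv : v ∈ (frob Φ X m).maxGenEigenspace lam) :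
    proj (W.isInternal X) i v ∈ (frob Φ X m).maxGenEigenspace lam := by
  obtain ⟨n, hn⟩ := (Module.End.mem_maxGenEigenspace _ _ _).1 hv
  refine (Module.End.mem_maxGenEigenspace _ _ _).2 ⟨n, ?_⟩
  have key : ∀ (n : ℕ) (v : W.H X),
      ((frob Φ X m - lam • (1 : End W.K (W.H X))) ^ n) (proj (W.isInternal X) i v) =
      proj (W.isInternal X) i (((frob Φ X m - lam • (1 : End W.K (W.H X))) ^ n) v) := by
    intro n
    induction n with
    | zero => intro v; rfl
    | succ n ih =>
      intro v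
      rw [pow_succ, Module.End.mul_apply, Module.End.mul_apply, ← ih]
      congr 1
      rw [LinearMap.sub_apply, LinearMap.sub_apply, LinearMap.smul_apply, LinearMap.smul_apply,
        Module.End.one_apply, Module.End.one_apply, map_sub, map_smul, frob_proj]
  rw [key, hn, map_zero]

/-- A generalised eigenspace lies in one degree. -/
lemma gen_le_gr (hp : 1 < p) (hRH : RiemannHyp Φ σ X) {m : ℕ} (hm : 0 < m) (lam : W.K) :
    ∃ i, (frob Φ X m).maxGenEigenspace lam ≤ W.gr X i := by
  have hF : ∀ i, ∀ x ∈ W.gr X i, frob Φ X m x ∈ W.gr X i := fun i x hx => W.map_mem _ hx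
  by_cases h0 : ∃ i, ∃ a ∈ W.gr X i, a ≠ 0 ∧ frob Φ X m a = lam • a
  · obtain ⟨i, a, ha, ha0, hFa⟩ := h0
    refine ⟨i, fun v hv => ?_⟩
    have hone : 1 < Pool.Agent.W534.card Φ X m :=
      Nat.one_lt_pow (Nat.mul_pos (Φ.e_pos X) hm).ne' hp
    have hz : ∀ l, l ≠ i → proj (W.isInternal X) l v = 0 := by
      intro l hl
      by_contra hne
      obtain ⟨b, hb, hb0, hFb⟩ := exists_eigvec (hF l) (gen_proj l hv) (proj_mem _ l v) hne
      apply hl
      have h1 := norm_eig hRH hm ha ha0 hFa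
      rw [norm_eig hRH hm hb hb0 hFb] at h1
      exact Nat.pow_right_injective hone (by exact_mod_cast h1)
    have h2 := sum_proj (W.isInternal X) (N := 2 * X.dim + 1 + i)
      (fun l hl => W.gr_eq_bot X l (by omega))
    have h3 := congrArg (fun F => F v) h2
    rw [LinearMap.sum_apply, Finset.sum_eq_single i, Module.End.one_apply] at h3
    · rw [← h3]
      exact proj_mem _ i v
    · intro l _ hl
      exact hz l hl
    · intro h'
      exact absurd (Finset.mem_range.2 (by omega)) h'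
  · refine ⟨0, fun v hv => ?_⟩
    by_cases hv0 : v = 0
    · rw [hv0]; exact Submodule.zero_mem _
    exfalso
    have h2 := sum_proj (W.isInternal X) (N := 2 * X.dim + 1)
      (fun l hl => W.gr_eq_bot X l (by omega))
    apply hv0
    have h3 := congrArg (fun F => F v) h2
    rw [Module.End.one_apply] at h3
    rw [← h3, LinearMap.sum_apply]
    apply Finset.sum_eq_zero
    intro l _
    by_contra hne
    obtain ⟨b, hb, hb0, hFb⟩ := exists_eigvec (hF l) (gen_proj l hv) (proj_mem _ l v) hne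
    exact h0 ⟨l, b, hb, hb0, hFb⟩

/-- Generalised Tate classes preserve the generalised eigenspaces. -/
lemma Lvl.corr_gen (L : Lvl Φ X r m) {lam : W.K} {a : W.H X} (hFa : frob Φ X m a = lam • a)
    {d : W.H (X.prod X)} (hd : d ∈ genTate Φ (X.prod X) r X.dim) :
    W.corr d a ∈ (frob Φ X m).maxGenEigenspace lam := by
  obtain ⟨⟨n, hn⟩, -⟩ := (mem_genTate Φ).1 hd
  set q := (Pool.Agent.W534.card Φ X m : W.K) ^ X.dim with hq
  have hq0 : q ≠ 0 := pow_ne_zero X.dim (card_ne Φ m)
  have key : ∀ (n : ℕ) (d : W.H (X.prod X)),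
      (q ^ n) • ((frob Φ X m - lam • (1 : End W.K (W.H X))) ^ n) (W.corr d a) =
      (lam ^ n) • W.corr (((frob Φ (X.prod X) r -
        ((Pool.Agent.W534.card Φ (X.prod X) r : W.K) ^ X.dim) •
          (1 : End W.K (W.H (X.prod X)))) ^ n) d) a := by
    intro n
    induction n with
    | zero => intro d; simp
    | succ n ih =>
      intro d
      have h1 : q • (frob Φ X m - lam • (1 : End W.K (W.H X))) (W.corr d a) =
          lam • W.corr ((frob Φ (X.prod X) r -
            ((Pool.Agent.W534.card Φ (X.prod X) r : W.K) ^ X.dim) •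
              (1 : End W.K (W.H (X.prod X)))) d) a := by
        have h2 := L.corr_frob d a
        rw [hFa, map_smul] at h2
        have e1 : W.corr ((frob Φ (X.prod X) r - q • (1 : End W.K (W.H (X.prod X)))) d) a =
            W.corr (frob Φ (X.prod X) r d) a - q • W.corr d a := by
          rw [LinearMap.sub_apply, LinearMap.smul_apply, Module.End.one_apply, sub_eq_add_neg,
            W.corr_add, LinearMap.add_apply, ← neg_smul, W.corr_smul, LinearMap.smul_apply,
            neg_smul, ← sub_eq_add_neg]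
        rw [L.card_eq, ← hq, e1, smul_sub, h2, LinearMap.sub_apply, LinearMap.smul_apply,
          Module.End.one_apply, smul_sub, ← hq, smul_comm lam q]
      rw [pow_succ q, pow_succ (frob Φ X m - lam • (1 : End W.K (W.H X))), Module.End.mul_apply,
        mul_smul, ← map_smul ((frob Φ X m - lam • (1 : End W.K (W.H X))) ^ n), h1, map_smul,
        smul_comm, ih, ← mul_smul, ← pow_succ', pow_succ (frob Φ (X.prod X) r -
          ((Pool.Agent.W534.card Φ (X.prod X) r : W.K) ^ X.dim) •
            (1 : End W.K (W.H (X.prod X)))),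
        Module.End.mul_apply]
  refine (Module.End.mem_maxGenEigenspace _ _ _).2 ⟨n, ?_⟩
  have h3 := key n d
  rw [hn, W.corr_zero, LinearMap.zero_apply, smul_zero] at h3
  exact (smul_eq_zero.1 h3).resolve_left (pow_ne_zero n hq0)

/-- **A generalised Tate class which is orthogonal to all cycles vanishes.** -/
lemma Lvl.eq_zero_of_orth [IsAlgClosed W.K] (hp : 1 < p) (hRH : RiemannHyp Φ σ X)
    (htest : PureTateTest Φ X) (L : Lvl Φ X r m)
    (hspan : ∀ c ∈ spanCycles W (X.prod X) X.dim,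
      frob Φ (X.prod X) r c = ((Pool.Agent.W534.card Φ (X.prod X) r : W.K) ^ X.dim) • c)
    {d : W.H (X.prod X)} (hd : d ∈ genTate Φ (X.prod X) r X.dim)
    (horth : ∀ c ∈ spanCycles W (X.prod X) X.dim, W.tr (X.prod X) (d * c) = 0) : d = 0 := by
  apply corr_inj
  have hdg : d ∈ W.gr (X.prod X) (2 * X.dim) := ((mem_genTate Φ).1 hd).2
  -- the traces
  have htr : ∀ x ∈ algC W X, LinearMap.trace W.K (W.H X)
      (par (W.isInternal X) * x * W.corr d) = 0 := by
    intro x hx
    obtain ⟨γ, hγ, rfl⟩ := mem_KOp_iff.1 (mem_algC.1 hx)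
    rw [add_zero] at hγ
    have h1 := tr_mul_eq_trace hdg (W.map (swap X X) γ)
    rw [map_swap_swap, horth _ (swap_span hγ)] at h1
    have h2 : IsHom (W.gr X) (2 * 0) (W.corr d) := by
      have := W.corr_isHom hdg
      intro i a ha
      have h3 := this i a ha
      rwa [sub_self] at h3
    have h3 := h2.par_comm (W.isInternal X)
    rw [h3, mul_assoc, LinearMap.trace_mul_comm] at h1
    exact h1.symm
  have hker : ∀ lam : W.K, (frob Φ X m).maxGenEigenspace lam ≤ LinearMap.ker (W.corr d) := by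
    intro lam v hv
    obtain ⟨i, hi⟩ := gen_le_gr hp hRH L.hm lam
    have hEig : ∀ v ∈ (frob Φ X m).maxGenEigenspace lam, frob Φ X m v = lam • v := by
      intro v hv
      by_cases hv0 : v = 0
      · rw [hv0, map_zero, smul_zero]
      obtain ⟨a, ha, ha0, hFa⟩ := exists_eigvec (S := W.gr X i)
        (fun x hx => W.map_mem _ hx) hv (hi hv) hv0
      obtain ⟨x, hx, rfl⟩ := eig_span L hspan htest ha ha0 hFa (hi hv) hv
      rw [← L.comm_algC hspan hx, hFa, map_smul]
    obtain ⟨w, hw1, hw2⟩ := PureLA.exists_projector (frob Φ X m) lam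
    have hwC : aeval (frob Φ X m) w ∈ algC W X :=
      (Algebra.adjoin_le (Set.singleton_subset_iff.2 (frob_mem_algC m)) :
        Algebra.adjoin W.K {frob Φ X m} ≤ algC W X) (aeval_mem_adjoin_singleton _ _)
    have hwc : ∀ x ∈ algC W X, aeval (frob Φ X m) w * x = x * aeval (frob Φ X m) w := by
      intro x hx
      have h1 : frob Φ X m ∈ Subalgebra.centralizer W.K ({x} : Set (End W.K (W.H X))) := by
        rw [Subalgebra.mem_centralizer_iff]
        rintro _ rfl
        apply LinearMap.ext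
        intro a
        exact L.comm_algC hspan hx a
      have h2 := (Algebra.adjoin_le (Set.singleton_subset_iff.2 h1)) (aeval_mem_adjoin_singleton
        W.K (frob Φ X m) (p := w))
      exact ((Subalgebra.mem_centralizer_iff _).1 h2 x rfl).symm
    exact PureLA.kill_of_orthogonal (C := algC W X) (E := (frob Φ X m).maxGenEigenspace lam)
      (fun a ha ha0 e he => eig_span L hspan htest (hi ha) ha0 (hEig a ha) (hi he) he)
      hwC hw1 hw2 hwc (ε := (-1) ^ i) (pow_ne_zero _ (neg_ne_zero.2 one_ne_zero))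
      (fun a ha => scal_apply _ _ (hi ha)) (fun a ha => L.corr_gen (hEig a ha) hd) htr v hv
  rw [← LinearMap.ker_eq_top, eq_top_iff, ← Module.End.iSup_maxGenEigenspace_eq_top (frob Φ X m)]
  exact iSup_le hker

/-- **The pure tensor test implies the Tate conjecture and semisimplicity.** -/
theorem semisimple_of_test [IsAlgClosed W.K] (hp : 1 < p) (hRH : RiemannHyp Φ σ X)
    (htest : PureTateTest Φ X) : SemisimpleTateIn Φ (X.prod X) X.dim := by
  intro s hs c hc
  obtain ⟨A, B, hA, hB, hlev⟩ := exists_level Φ X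
  obtain ⟨t, ht, ht1⟩ := exists_span_eig Φ (X.prod X) X.dim
  have L := hlev (s * t) (Nat.mul_pos hs ht)
  set r := A * (s * t) with hr
  have hspan : ∀ c ∈ spanCycles W (X.prod X) X.dim,
      frob Φ (X.prod X) r c = ((Pool.Agent.W534.card Φ (X.prod X) r : W.K) ^ X.dim) • c := by
    intro c hc
    have := span_eig_mul Φ (ht1 c hc) (A * s)
    rwa [show t * (A * s) = r by rw [hr]; ring] at this
  have hle : spanCycles W (X.prod X) X.dim ≤ genTate Φ (X.prod X) r X.dim :=
    fun c hc => mem_genTate_of_eig Φ (span_gr hc) (hspan c hc)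
  let φ : genTate Φ (X.prod X) r X.dim →ₗ[W.K] Module.Dual W.K (spanCycles W (X.prod X) X.dim) :=
    { toFun := fun a => W.tr (X.prod X) ∘ₗ LinearMap.mulLeft W.K (a : W.H (X.prod X)) ∘ₗ
        (spanCycles W (X.prod X) X.dim).subtype
      map_add' := by
        intro a b
        ext c
        simp [add_mul]
      map_smul' := by
        intro a b
        ext c
        simp }
  have hφ : Function.Injective φ := by
    rw [← LinearMap.ker_eq_bot, LinearMap.ker_eq_bot']
    rintro ⟨a, ha⟩ h0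
    apply Subtype.ext
    exact L.eq_zero_of_orth hp hRH htest hspan ha
      fun w hw => congrArg (fun F => F ⟨w, hw⟩) h0
  have h1 := LinearMap.finrank_le_finrank_of_injective hφ
  rw [Subspace.dual_finrank_eq] at h1
  have h2 := Submodule.eq_of_le_of_finrank_le hle h1
  rw [h2, hr, show A * (s * t) = s * (A * t) by ring]
  exact genTate_mono Φ s (A * t) X.dim hc

lemma tensor_ne {a b : W.H X} {i j : ℕ} (ha : a ∈ W.gr X i) (hb : b ∈ W.gr X j) (ha0 : a ≠ 0)
    (hb0 : b ≠ 0) : pureTensor W X a b ≠ 0 := by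
  intro h0
  have h1 := corr_swap_tmul (W := W) (X := X) (Y := X) ha hb
  rw [pureTensor] at h0
  rw [h0, map_zero, W.corr_zero] at h1
  obtain ⟨y, hy⟩ : ∃ y, W.tr X (b * y) ≠ 0 := by
    by_contra hno
    push Not at hno
    exact hb0 (W.nondeg _ hno)
  have h2 := LinearMap.congr_fun h1 y
  rw [LinearMap.zero_apply, LinearMap.smulRight_apply] at h2
  exact (smul_ne_zero hy ha0) h2.symm

/-- Classes not orthogonal to the span of the cycles. -/
lemma exists_cyc_of_ne {Z : 𝒱.Obj} {j : ℕ} {x w : W.H Z} (hw : w ∈ spanCycles W Z j)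
    (h : W.tr Z (w * x) ≠ 0) : ∃ z, Z.IsCyc j z ∧ W.tr Z (W.cl Z z * x) ≠ 0 := by
  by_contra hno
  push Not at hno
  apply h
  induction hw using Submodule.span_induction with
  | mem y hy =>
    obtain ⟨r, hr, z, hz, rfl⟩ := hy
    obtain rfl : r = j := by exact_mod_cast hr
    exact hno z hz
  | zero => rw [zero_mul, map_zero]
  | add a b _ _ ha hb =>
    rw [add_mul, map_add]
    by_cases h1 : W.tr Z (a * x) = 0
    · by_cases h2 : W.tr Z (b * x) = 0
      · rw [h1, h2, add_zero]
      · exact absurd (hb h2) h2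
    · exact absurd (ha h1) h1
  | smul a b _ hb =>
    rw [smul_mul_assoc, map_smul]
    by_cases h2 : W.tr Z (b * x) = 0
    · rw [h2, smul_zero]
    · exact absurd (hb h2) h2

/-- **The Tate conjecture and semisimplicity imply the pure tensor test.** -/
theorem test_of_semisimple (h : SemisimpleTateIn Φ (X.prod X) X.dim) : PureTateTest Φ X := by
  rintro s hs i j hij lam mu hlm a ha b hb ⟨ha0, hFa⟩ ⟨hb0, hFb⟩
  obtain ⟨A, B, hA, hB, hlev⟩ := exists_level Φ X
  have L := hlev s hs
  have hpow : ∀ {lam : W.K} {a : W.H X}, frob Φ X s a = lam • a →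
      frob Φ X (B * s) a = (lam ^ B) • a := by
    intro lam a h1
    rw [mul_comm, frob_mul_eq]
    have : ∀ n : ℕ, (frob Φ X s ^ n) a = (lam ^ n) • a := by
      intro n
      induction n with
      | zero => simp
      | succ n ih => rw [pow_succ', Module.End.mul_apply, ih, map_smul, h1, smul_smul, pow_succ]
    exact this B
  have h1 : frob Φ (X.prod X) (A * s) (pureTensor W X a b) =
      ((Pool.Agent.W534.card Φ (X.prod X) (A * s) : W.K) ^ X.dim) • pureTensor W X a b := by
    rw [L.frob_tensor, hpow hFa, hpow hFb, L.card_eq, mul_comm B s, card_mul_eq, Nat.cast_pow,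
      ← pow_mul, mul_comm B, pow_mul, ← hlm, pureTensor, pureTensor, map_smul, map_smul,
      smul_mul_smul_comm, mul_pow]
  have hgr : pureTensor W X a b ∈ W.gr (X.prod X) (2 * X.dim) := by
    rw [← hij]
    exact W.mul_mem (W.map_mem _ ha) (W.map_mem _ hb)
  have hmem := mem_genTate_of_eig Φ hgr h1
  have hne := tensor_ne ha hb ha0 hb0
  by_contra hno
  push Not at hno
  apply hne
  apply genTate_nondeg Φ (s := A * s) (by rw [dim_prod]) hmem
  intro y hy
  by_contra hy0
  have hys : y ∈ spanCycles W (X.prod X) X.dim := h _ L.hr hy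
  rw [← W.even_comm (span_gr hys)] at hy0
  obtain ⟨z, hz, hz0⟩ := exists_cyc_of_ne hys hy0
  exact hz0 (hno z hz)

/-- Semisimplicity and the Tate conjecture imply the conjecture D. -/
lemma homEqNum_of_semisimple (h : SemisimpleTateIn Φ (X.prod X) X.dim) :
    HomEqNumIn W (X.prod X) X.dim := by
  have hdim : X.dim + X.dim = (X.prod X).dim := by rw [dim_prod]
  obtain ⟨t, ht, h1⟩ := exists_span_eig Φ (X.prod X) X.dim
  intro z hz h2
  have horth : ∀ y ∈ spanCycles W (X.prod X) X.dim, W.tr (X.prod X) (W.cl _ z * y) = 0 := by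
    intro y hy
    induction hy using Submodule.span_induction with
    | mem y hy =>
      obtain ⟨r, hr, w, hw, rfl⟩ := hy
      obtain rfl : r = X.dim := by exact_mod_cast hr
      rw [tr_mul_cl' hz hw hdim, h2 w (by
        rwa [show (X.prod X).dim - X.dim = X.dim by rw [dim_prod]; omega]), Rat.cast_zero]
    | zero => rw [mul_zero, map_zero]
    | add a b _ _ ha hb => rw [mul_add, map_add, ha, hb, add_zero]
    | smul a b _ hb => rw [mul_smul_comm, map_smul, hb, smul_zero]
  exact genTate_nondeg Φ (s := t) hdim (mem_genTate_of_eig Φ (W.cl_mem hz)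
    (h1 _ (mem_span_cl hz))) (fun y hy => horth y (h t ht hy))

/-- **The Tate conjecture for `X × X`, the order of the pole and pure tensors.** -/
theorem pure_tate_tfae [IsAlgClosed W.K] (hp : 1 < p) (hRH : ∀ Z, RiemannHyp Φ σ Z)
    (X : 𝒱.Obj) :
    List.TFAE [PoleFormula Φ σ (X.prod X) X.dim, SemisimpleTateIn Φ (X.prod X) X.dim,
      PureTateTest Φ X] := by
  have hdim : X.dim + X.dim = (X.prod X).dim := by rw [dim_prod]
  tfae_have 1 → 2 := fun h => (semisimple_of_pole hp (hRH _) hdim h).1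
  tfae_have 2 → 1 := by
    intro h
    refine (pole_iff_tate hp (hRH _) (by omega)).2 ⟨?_, homEqNum_of_semisimple h⟩
    intro c hc
    obtain ⟨s, hs, h1⟩ := IsTate.mem Φ hc
    exact h s hs h1
  tfae_have 2 → 3 := test_of_semisimple
  tfae_have 3 → 2 := semisimple_of_test hp (hRH X)
  tfae_finish

end Pool.Agent.R907
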