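import Pool.Agent.R907.KunDefs

/-!
# Separation of degrees by correspondences: definitions
-/

open CategoryTheory AlgebraicGeometry

universe u₁ v₁ u v

namespace Pool.Agent.R907

open Pool.Agent.H914 Pool.Agent.Y106.One VarClass Obj WeilCohomology

variable {k : Type u} [Field k] {𝒱 : VarClass k} {ops : CycleOps 𝒱}

/-- The operator `f` fixes `y`. -/
def Fixes (W : WeilCohomology.{u, v} ops) (X : 𝒱.Obj) (f : Module.End W.K (W.H X)) (y : W.H X) :
    Prop := f y = y

/-- The operator `f` kills `y`. -/
def Kills (W : WeilCohomology.{u, v} ops) (X : 𝒱.Obj) (f : Module.End W.K (W.H X)) (y : W.H X) :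
    Prop := f y = 0

/-- The operator induced by a linear combination of the classes of cycles of codimension `dim X` on
`X × X`, with coefficients in the coefficient field of `W`, fixes `y` and kills `y'`. -/
def SeparatesClasses (W : WeilCohomology.{u, v} ops) (X : 𝒱.Obj) (y y' : W.H X) : Prop :=
  ∃ γ ∈ spanCycles W (X.prod X) X.dim, Fixes W X (W.corr γ) y ∧ Kills W X (W.corr γ) y'

/-- For all `y` in `H^i(X)` and `y'` in `H^j(X)` some linear combination of algebraic
correspondences of degree zero, with coefficients in the coefficient field of `W`, fixes `y` and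
kills `y'` (it may depend on `y` and `y'`). -/
def SeparatesDegrees (W : WeilCohomology.{u, v} ops) (X : 𝒱.Obj) (i j : ℕ) : Prop :=
  ∀ y ∈ W.gr X i, ∀ y' ∈ W.gr X j, SeparatesClasses W X y y'

/-- For one of the theories with the property `P` the degrees `i` and `j` are separated. -/
def SeparatesForOne (P : WeilCohomology.{u, v} ops → Prop) (X : 𝒱.Obj) (i j : ℕ) : Prop :=
  ∃ W : WeilCohomology.{u, v} ops, P W ∧ SeparatesDegrees W X i j

end Pool.Agent.R907
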