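import Pool.Agent.R907.KunMain
import Pool.Agent.R907.SepDefs
import Pool.Agent.TH720.MP.Main

/-!
# Separation of degrees by correspondences
-/

open CategoryTheory AlgebraicGeometry Finset Polynomial

set_option linter.unusedSectionVars false

universe u₁ v₁ u v

namespace Pool.Agent.R907

open Pool.Agent.H914 Pool.Agent.H447 Pool.Agent.W537 Pool.Agent.Y106.One VarClass Obj
  WeilCohomology Pool.Agent.TH720.LB Pool.Agent.W534

variable {k : Type u} [Field k] {𝒱 : VarClass k} {ops : CycleOps 𝒱} {X Y P : 𝒱.Obj}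
  {W W' : WeilCohomology.{u, v} ops}

/-- From traces to exact identities, in all theories. -/
theorem sharpen (W : WeilCohomology.{u, v} ops) {y : Fam.{u, v} ops X}
    (hy : Realized ops X 0 y) :
    ∃ z : Fam.{u, v} ops X, Realized ops X 0 z ∧
      ∀ W' : WeilCohomology.{u, v} ops, ∀ j, SameTraces X j W W' →
        ((∀ b, Realized ops X 0 b →
          LinearMap.trace W.K (W.H X) (proj (W.isInternal X) j * (y W * b W)) =
          LinearMap.trace W.K (W.H X) (proj (W.isInternal X) j * b W)) →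
          ∀ a ∈ W'.gr X j, z W' a = a) ∧
        ((∀ b, Realized ops X 0 b →
          LinearMap.trace W.K (W.H X) (proj (W.isInternal X) j * (y W * b W)) = 0) →
          ∀ a ∈ W'.gr X j, z W' a = 0) := by
  set N := ∑ j ∈ range (2 * X.dim + 1), W.betti X j with hN
  have hle : ∀ j, W.betti X j ≤ N := by
    intro j
    by_cases hj : j < 2 * X.dim + 1
    · exact Finset.single_le_sum (f := fun j => W.betti X j) (fun _ _ => Nat.zero_le _)
        (Finset.mem_range.2 hj)
    · rw [WeilCohomology.betti, W.gr_eq_bot X j (by omega), finrank_bot]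
      exact Nat.zero_le _
  have he : Realized ops X 0 (fun W : WeilCohomology.{u, v} ops => 1 - y W) :=
    Realized.one.sub hy
  refine ⟨fun W => 1 - (1 - y W ^ N) ^ N, Realized.one.sub
    ((Realized.one.sub (hy.pow0 N)).pow0 N), fun W' j hT => ⟨fun h a ha => ?_, fun h a ha => ?_⟩⟩
  · have h1 : ∀ r : ℕ, LinearMap.trace W.K (W.H X) (proj (W.isInternal X) j * y W ^ r) =
        (W.betti X j : W.K) := by
      intro r
      induction r with
      | zero => rw [pow_zero, mul_one, trace_proj]; rfl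
      | succ r ih => rw [pow_succ', h _ (hy.pow0 r), ih]
    have h3 := unip_of_traces hT hy (fun r => h1 (r + 1)) a ha
    have h4 : ((1 - y W') ^ N) a = 0 := by
      rw [← Nat.sub_add_cancel (hle j), pow_add, Module.End.mul_apply, h3, map_zero]
    have h5 : (1 - y W' ^ N) ^ N = (∑ k ∈ range N, y W' ^ k) ^ N * (1 - y W') ^ N := by
      have h6 : 1 - y W' ^ N = (∑ k ∈ range N, y W' ^ k) * (1 - y W') :=
        (geom_sum_mul_neg (y W') N).symm
      have h7 : Commute (∑ k ∈ range N, y W' ^ k) (1 - y W') := by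
        apply Commute.sum_left
        intro k _
        exact (Commute.one_right _).sub_right (Commute.pow_self _ _)
      rw [h6, h7.mul_pow]
    beta_reduce
    rw [LinearMap.sub_apply, h5, Module.End.mul_apply, h4, map_zero, sub_zero]
    rfl
  · have h2 : ∀ r : ℕ,
        LinearMap.trace W.K (W.H X) (proj (W.isInternal X) j * (1 - y W) ^ r) =
        (W.betti X j : W.K) := by
      intro r
      induction r with
      | zero => rw [pow_zero, mul_one, trace_proj]; rfl
      | succ r ih =>
        have h3 := h _ (he.pow0 r)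
        rw [pow_succ', sub_mul, one_mul, mul_sub, map_sub, h3, sub_zero, ih]
    have h3 := unip_of_traces hT he (fun r => h2 (r + 1)) a ha
    beta_reduce at h3
    rw [sub_sub_cancel] at h3
    have h4 : (y W' ^ N) a = 0 := by
      rw [← Nat.sub_add_cancel (hle j), pow_add, Module.End.mul_apply, h3, map_zero]
    have h5 : ∀ m : ℕ, ((1 - y W' ^ N) ^ m) a = a := by
      intro m
      induction m with
      | zero => rfl
      | succ m ih =>
        rw [pow_succ, Module.End.mul_apply, LinearMap.sub_apply, h4, sub_zero]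
        exact ih
    beta_reduce
    rw [LinearMap.sub_apply, h5, Module.End.one_apply, sub_self]

variable {k₀ : Type u₁} [Field k₀] {𝒱₀ : VarClass k₀} {ops₀ : CycleOps 𝒱₀}

lemma span_mul_mem : ∀ a ∈ Submodule.span W.K (corrOps W X),
    ∀ b ∈ Submodule.span W.K (corrOps W X), a * b ∈ Submodule.span W.K (corrOps W X) :=
  fun _ ha _ hb => span_corrOps_mul ha hb

lemma span_gr_mem {a : Module.End W.K (W.H X)} (ha : a ∈ Submodule.span W.K (corrOps W X))
    (i : ℕ) : ∀ y ∈ W.gr X i, a y ∈ W.gr X i := by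
  intro y hy
  have h1 := congrArg (fun F => F y) (corrOps_comm (i := i) ha)
  beta_reduce at h1
  rw [Module.End.mul_apply, Module.End.mul_apply, proj_same _ hy] at h1
  rw [← h1]
  exact proj_mem _ i _

lemma separatesClasses_iff {y y' : W.H X} : SeparatesClasses W X y y' ↔
    ∃ φ ∈ Submodule.span W.K (corrOps W X), φ y = y ∧ φ y' = 0 := by
  rw [span_corrOps_eq]
  constructor
  · rintro ⟨γ, hγ, h1, h2⟩
    exact ⟨_, ⟨γ, hγ, rfl⟩, h1, h2⟩
  · rintro ⟨_, ⟨γ, hγ, rfl⟩, h1, h2⟩
    exact ⟨γ, hγ, h1, h2⟩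

lemma separatesDegrees_iff {i j : ℕ} : SeparatesDegrees W X i j ↔
    ∀ y ∈ W.gr X i, ∀ y' ∈ W.gr X j, ∃ φ ∈ Submodule.span W.K (corrOps W X),
      φ y = y ∧ φ y' = 0 :=
  forall₄_congr fun _ _ _ _ => separatesClasses_iff

/-- The separation of two degrees in one theory is given by one cycle for all theories. -/
theorem separate_all (R : Reduction X 𝒱₀) (hW : Reduction.Pure.{u₁, v₁} R ops₀ W) {i j : ℕ}
    (h : SeparatesDegrees W X i j) :
    ∃ z : Fam.{u, v} ops X, Realized ops X 0 z ∧
      ∀ W' : WeilCohomology.{u, v} ops, Reduction.Pure.{u₁, v₁} R ops₀ W' →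
        (∀ a ∈ W'.gr X i, z W' a = a) ∧ ∀ a ∈ W'.gr X j, z W' a = 0 := by
  have h1 : (1 : Module.End W.K (W.H X)) ∈ Submodule.span W.K (corrOps W X) :=
    Submodule.subset_span one_mem_corrOps
  rw [separatesDegrees_iff] at h
  obtain ⟨c, hc, hc1, hc2⟩ := Pool.Agent.TH133.PW.separate_two h1 span_mul_mem
    (IsNoetherian.noetherian (W.gr X i)) (IsNoetherian.noetherian (W.gr X j))
    (fun b hb => span_gr_mem hb i) (fun b hb => span_gr_mem hb j) h
  set f := 1 - c with hf
  have hfA : f ∈ Submodule.span W.K (corrOps W X) := Submodule.sub_mem _ h1 hc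
  have hf1 : f * proj (W.isInternal X) i = proj (W.isInternal X) i := by
    apply LinearMap.ext
    intro x
    rw [Module.End.mul_apply, hf, LinearMap.sub_apply, Module.End.one_apply,
      hc1 _ (proj_mem _ i x), sub_zero]
  have hf2 : f * proj (W.isInternal X) j = 0 := by
    apply LinearMap.ext
    intro x
    rw [Module.End.mul_apply, hf, LinearMap.sub_apply, Module.End.one_apply,
      hc2 _ (proj_mem _ j x), sub_self, LinearMap.zero_apply]
  obtain ⟨ret, hret⟩ := exists_retract W.K
  obtain ⟨y, hy, hytr⟩ := exists_ret_all (fun j => sameTraces_of_reduction R hW hW j) ret hfA 1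
  obtain ⟨z, hz, hz2⟩ := sharpen W hy
  refine ⟨z, hz, fun W' hW' => ⟨?_, ?_⟩⟩
  · refine (hz2 W' i (sameTraces_of_reduction R hW hW' i)).1 fun b hb => ?_
    obtain ⟨t, ht⟩ := exists_rat (sameTraces_of_reduction R hW hW i) hb
    rw [hytr i b hb, one_mul, ← mul_assoc, corrOps_comm hfA, hf1, ht, ret_ratCast hret]
  · refine (hz2 W' j (sameTraces_of_reduction R hW hW' j)).2 fun b hb => ?_
    rw [hytr j b hb, one_mul, ← mul_assoc, corrOps_comm hfA, hf2, zero_mul, map_zero, map_zero,
      Rat.cast_zero]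

/-- Adjoints of separating operators. -/
lemma exists_adjoint_sep {f : Module.End W.K (W.H X)}
    (hf : f ∈ Submodule.span W.K (corrOps W X)) :
    ∃ g ∈ Submodule.span W.K (corrOps W X), ∀ i ≤ 2 * X.dim,
      ((∀ a ∈ W.gr X (2 * X.dim - i), f a = a) → ∀ a ∈ W.gr X i, g a = a) ∧
      ((∀ a ∈ W.gr X (2 * X.dim - i), f a = 0) → ∀ a ∈ W.gr X i, g a = 0) := by
  have hspan : Submodule.span W.K (corrOps W X) = KOp W X X 0 := by
    rw [KOp]
    congr 1
    apply Set.ext
    intro T
    constructor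
    · rintro ⟨z, hz, rfl⟩
      exact ⟨X.dim, by simp, z, hz, rfl⟩
    · rintro ⟨p, hp, z, hz, rfl⟩
      obtain rfl : p = X.dim := by omega
      exact ⟨z, hz, rfl⟩
  rw [hspan] at hf
  obtain ⟨ψ, hψ, hadj⟩ := KOp.exists_adjoint hf
  have hψ0 : ψ ∈ KOp W X X 0 := KOp.cast hψ (by ring)
  refine ⟨ψ, by rw [hspan]; exact hψ0, fun i hi => ⟨fun h b hb => ?_, fun h b hb => ?_⟩⟩
  · rw [← sub_eq_zero]
    apply nondeg_right
    intro c
    refine gr_induction (W.isInternal X) (p := fun c => W.tr X (c * (ψ b - b)) = 0) ?_ ?_ c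
    · intro j c hc
      by_cases hj : j = 2 * X.dim - i
      · subst hj
        rw [mul_sub, map_sub, ← hadj, h c hc, sub_self]
      · exact W.tr_eq_zero (W.mul_mem hc (Submodule.sub_mem _ (Pool.Agent.TH133.PW.kop_gr hψ0 _ hb) hb)) (by omega)
    · intro c c' h1 h2
      rw [add_mul, map_add, h1, h2, add_zero]
  · apply nondeg_right
    intro c
    refine gr_induction (W.isInternal X) (p := fun c => W.tr X (c * ψ b) = 0) ?_ ?_ c
    · intro j c hc
      by_cases hj : j = 2 * X.dim - i
      · subst hj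
        rw [← hadj, h c hc, zero_mul, map_zero]
      · exact W.tr_eq_zero (W.mul_mem hc (Pool.Agent.TH133.PW.kop_gr hψ0 _ hb)) (by omega)
    · intro c c' h1 h2
      rw [add_mul, map_add, h1, h2, add_zero]

/-- A projector from pairwise separation. -/
lemma proj_of_pairs {i : ℕ}
    (h : ∀ j, j ≠ i → ∃ g ∈ Submodule.span W.K (corrOps W X), (∀ a ∈ W.gr X i, g a = a) ∧
      ∀ a ∈ W.gr X j, g a = 0) :
    proj (W.isInternal X) i ∈ Submodule.span W.K (corrOps W X) := by
  have h1 : (1 : Module.End W.K (W.H X)) ∈ Submodule.span W.K (corrOps W X) :=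
    Submodule.subset_span one_mem_corrOps
  have key : ∀ m : ℕ, ∃ e ∈ Submodule.span W.K (corrOps W X), (∀ a ∈ W.gr X i, e a = a) ∧
      ∀ j < m, j ≠ i → ∀ a ∈ W.gr X j, e a = 0 := by
    intro m
    induction m with
    | zero => exact ⟨1, h1, fun _ _ => rfl, fun j hj => absurd hj (Nat.not_lt_zero _)⟩
    | succ m ih =>
      obtain ⟨e, he, he1, he2⟩ := ih
      by_cases hm : m = i
      · refine ⟨e, he, he1, fun j hj hji => he2 j ?_ hji⟩
        omega
      · obtain ⟨g, hg, hg1, hg2⟩ := h m hm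
        refine ⟨e * g, span_corrOps_mul he hg, fun a ha => ?_, fun j hj hji a ha => ?_⟩
        · rw [Module.End.mul_apply, hg1 a ha, he1 a ha]
        · rw [Module.End.mul_apply]
          by_cases hjm : j = m
          · subst hjm
            rw [hg2 a ha, map_zero]
          · exact he2 j (by omega) hji _ (span_gr_mem hg j a ha)
  obtain ⟨e, he, he1, he2⟩ := key (2 * X.dim + 1)
  have : proj (W.isInternal X) i = e := by
    apply gr_ext (W.isInternal X)
    intro j a ha
    by_cases hj : j = i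
    · subst hj
      rw [proj_same _ ha, he1 a ha]
    · rw [proj_ne _ ha hj]
      by_cases hjd : j < 2 * X.dim + 1
      · rw [he2 j hjd hj a ha]
      · rw [W.gr_eq_bot X j (by omega), Submodule.mem_bot] at ha
        rw [ha, map_zero]
  rw [this]
  exact he

/-- **Pairwise separation, with a different theory for each pair.** -/
theorem pairwise_iff (R : Reduction X 𝒱₀) {W₁ : WeilCohomology.{u, v} ops}
    (hW₁ : Reduction.Pure.{u₁, v₁} R ops₀ W₁) :
    OneKunnethSystem.{u, v} (ops := ops) (Reduction.Pure.{u₁, v₁} R ops₀) X ↔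
      ∀ i j, i < j → i + j ≤ 2 * X.dim →
        SeparatesForOne.{u, v} (ops := ops) (Reduction.Pure.{u₁, v₁} R ops₀) X i j := by
  constructor
  · rintro ⟨Δ, hΔ⟩ i j hij hijd
    obtain ⟨hc, hp⟩ := hΔ i (by omega)
    have h1 : IsProjector (W₁.gr X) i (W₁.corr (W₁.cl _ (Δ i))) := hp W₁ hW₁
    refine ⟨W₁, hW₁, separatesDegrees_iff.2 fun y hy y' hy' =>
      ⟨_, Submodule.subset_span ⟨Δ i, hc, rfl⟩, ?_, ?_⟩⟩
    · exact (h1 i y hy).trans (if_pos rfl)
    · exact (h1 j y' hy').trans (if_neg (by omega))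
  · intro h
    have h1 : (1 : Module.End W₁.K (W₁.H X)) ∈ Submodule.span W₁.K (corrOps W₁ X) :=
      Submodule.subset_span one_mem_corrOps
    have hpair : ∀ i j, i < j → i + j ≤ 2 * X.dim → ∃ g ∈ Submodule.span W₁.K (corrOps W₁ X),
        (∀ a ∈ W₁.gr X i, g a = a) ∧ ∀ a ∈ W₁.gr X j, g a = 0 := by
      intro i j hij hijd
      obtain ⟨W, hW, hs⟩ := h i j hij hijd
      obtain ⟨z, hz, hz1⟩ := separate_all R hW hs
      exact ⟨z W₁, Submodule.subset_span (mem_corrOps_iff.2 ⟨z, hz, rfl⟩), hz1 W₁ hW₁⟩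
    have hpair2 : ∀ i j, i < j → ∃ g ∈ Submodule.span W₁.K (corrOps W₁ X),
        (∀ a ∈ W₁.gr X i, g a = a) ∧ ∀ a ∈ W₁.gr X j, g a = 0 := by
      intro i j hij
      by_cases hijd : i + j ≤ 2 * X.dim
      · exact hpair i j hij hijd
      by_cases hj : j ≤ 2 * X.dim
      · obtain ⟨f, hf, hf1, hf2⟩ := hpair (2 * X.dim - j) (2 * X.dim - i) (by omega) (by omega)
        obtain ⟨g, hg, hg1⟩ := exists_adjoint_sep hf
        refine ⟨1 - g, Submodule.sub_mem _ h1 hg, fun a ha => ?_, fun a ha => ?_⟩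
        · rw [LinearMap.sub_apply, Module.End.one_apply,
            (hg1 i (by omega)).2 hf2 a ha, sub_zero]
        · rw [LinearMap.sub_apply, Module.End.one_apply, (hg1 j hj).1 hf1 a ha, sub_self]
      · refine ⟨1, h1, fun a _ => rfl, fun a ha => ?_⟩
        rw [W₁.gr_eq_bot X j (by omega), Submodule.mem_bot] at ha
        rw [ha, map_zero]
    have hK : KunnethOverK W₁ X := by
      rw [kunnethOverK_iff]
      intro i _
      apply proj_of_pairs
      intro j hj
      rcases lt_or_gt_of_ne hj with h2 | h2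
      · obtain ⟨g, hg, hg1, hg2⟩ := hpair2 j i h2
        refine ⟨1 - g, Submodule.sub_mem _ h1 hg, fun a ha => ?_, fun a ha => ?_⟩
        · rw [LinearMap.sub_apply, Module.End.one_apply, hg2 a ha, sub_zero]
        · rw [LinearMap.sub_apply, Module.End.one_apply, hg1 a ha, sub_self]
      · exact hpair2 i j h2
    exact ((kunneth_tfae R hW₁ (fun i => proj (W₁.isInternal X) i)
      (fun i => (isProjector_iff (W₁.isInternal X) i).2 rfl)).out 1 0).1 hK

end Pool.Agent.R907
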