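import Pool.Agent.W537.OneCycleDefs
import Pool.Agent.W534.PoleDefs

/-!
# The Tate conjecture for `X × X` and pairs of cycles: definitions
-/

open CategoryTheory AlgebraicGeometry

universe u v

namespace Pool.Agent.R907

open Pool.Agent.H914 Pool.Agent.W534 VarClass Obj WeilCohomology

/-- The only subspaces of `E` which are stable under the operators `S` and `T` are `0` and `E`. -/
def NoCommonSubspace {K V : Type*} [Field K] [AddCommGroup V] [Module K V]
    (S T : Module.End K V) (E : Submodule K V) : Prop :=
  ∀ U : Submodule K V, U ≤ E → (∀ u ∈ U, S u ∈ U) → (∀ u ∈ U, T u ∈ U) → U = ⊥ ∨ U = E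

variable {k : Type u} [Field k] {𝒱 : VarClass k} {ops : CycleOps 𝒱}

/-- There are two cycles of codimension `dim X` on `X × X` such that, over all sufficiently large
finite fields, the only subspaces of the generalised eigenspaces in `H(X)` of the Frobenius
endomorphism which are stable under both cycles are `0` and these generalised eigenspaces. -/
def TwoCycleTest {W : WeilCohomology.{u, v} ops} {p : ℕ} (Φ : FrobSystem W p) (X : 𝒱.Obj) : Prop :=
  ∃ z z', (X.prod X).IsCyc X.dim z ∧ (X.prod X).IsCyc X.dim z' ∧
    ∃ t, 0 < t ∧ ∀ s, 0 < s → t ∣ s → ∀ lam : W.K,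
      NoCommonSubspace (Pool.Agent.W537.cycOp W X z) (Pool.Agent.W537.cycOp W X z')
        (Module.End.maxGenEigenspace
          (W.map (Pool.Agent.W534.iter (Φ.Fr X) s)).toLinearMap lam)

end Pool.Agent.R907
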