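import Pool.Agent.R907.TwoGen
import Pool.Agent.R907.PureTate
import Pool.Agent.R907.TwoCycDefs

/-!
# The Tate conjecture for `X × X` and pairs of cycles
-/

open CategoryTheory AlgebraicGeometry Polynomial

set_option linter.unusedSectionVars false

universe u v

namespace Pool.Agent.R907

open Pool.Agent.H914 Pool.Agent.H447 Pool.Agent.W534 VarClass Obj WeilCohomology Module TwoGen

variable {k : Type u} [Field k] {𝒱 : VarClass k} {ops : CycleOps 𝒱} {X : 𝒱.Obj}
  {W : WeilCohomology.{u, v} ops} {p : ℕ} {Φ : FrobSystem W p} {r m : ℕ} {σ : W.K →+* ℂ}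

/-- The correspondences of degree zero act transitively on the nonzero vectors of the generalised
eigenspaces. -/
def Trans (Φ : FrobSystem W p) (X : 𝒱.Obj) (m : ℕ) : Prop :=
  ∀ lam : W.K, ∀ a ∈ (frob Φ X m).maxGenEigenspace lam, a ≠ 0 →
    ∀ e ∈ (frob Φ X m).maxGenEigenspace lam, ∃ x ∈ algC W X, x a = e

/-- **A generalised Tate class which is orthogonal to all cycles vanishes.** -/
lemma Lvl.eq_zero_of_trans [IsAlgClosed W.K] (hp : 1 < p) (hRH : RiemannHyp Φ σ X)
    (L : Lvl Φ X r m) (htrans : Trans Φ X m)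
    (hspan : ∀ c ∈ spanCycles W (X.prod X) X.dim,
      frob Φ (X.prod X) r c = ((Pool.Agent.W534.card Φ (X.prod X) r : W.K) ^ X.dim) • c)
    {d : W.H (X.prod X)} (hd : d ∈ genTate Φ (X.prod X) r X.dim)
    (horth : ∀ c ∈ spanCycles W (X.prod X) X.dim, W.tr (X.prod X) (d * c) = 0) : d = 0 := by
  apply corr_inj
  have hdg : d ∈ W.gr (X.prod X) (2 * X.dim) := ((mem_genTate Φ).1 hd).2
  have htr : ∀ x ∈ algC W X, LinearMap.trace W.K (W.H X)
      (par (W.isInternal X) * x * W.corr d) = 0 := by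
    intro x hx
    obtain ⟨γ, hγ, rfl⟩ := mem_KOp_iff.1 (mem_algC.1 hx)
    rw [add_zero] at hγ
    have h1 := tr_mul_eq_trace hdg (W.map (swap X X) γ)
    rw [map_swap_swap, horth _ (swap_span hγ)] at h1
    have h2 : IsHom (W.gr X) (2 * 0) (W.corr d) := by
      have := W.corr_isHom hdg
      intro i a ha
      have h3 := this i a ha
      rwa [sub_self] at h3
    have h3 := h2.par_comm (W.isInternal X)
    rw [h3, mul_assoc, LinearMap.trace_mul_comm] at h1
    exact h1.symm
  have hker : ∀ lam : W.K, (frob Φ X m).maxGenEigenspace lam ≤ LinearMap.ker (W.corr d) := by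
    intro lam v hv
    obtain ⟨i, hi⟩ := gen_le_gr hp hRH L.hm lam
    have hEig : ∀ v ∈ (frob Φ X m).maxGenEigenspace lam, frob Φ X m v = lam • v := by
      intro v hv
      by_cases hv0 : v = 0
      · rw [hv0, map_zero, smul_zero]
      obtain ⟨a, ha, ha0, hFa⟩ := exists_eigvec
        (S := (frob Φ X m).maxGenEigenspace lam)
        (fun x hx => Module.End.mapsTo_maxGenEigenspace_of_comm
          (Commute.refl (frob Φ X m)) lam hx) hv hv hv0
      obtain ⟨x, hx, rfl⟩ := htrans lam a ha ha0 v hv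
      rw [← L.comm_algC hspan hx, hFa, map_smul]
    obtain ⟨w, hw1, hw2⟩ := PureLA.exists_projector (frob Φ X m) lam
    have hwC : aeval (frob Φ X m) w ∈ algC W X :=
      (Algebra.adjoin_le (Set.singleton_subset_iff.2 (frob_mem_algC m)) :
        Algebra.adjoin W.K {frob Φ X m} ≤ algC W X) (aeval_mem_adjoin_singleton _ _)
    have hwc : ∀ x ∈ algC W X, aeval (frob Φ X m) w * x = x * aeval (frob Φ X m) w := by
      intro x hx
      have h1 : frob Φ X m ∈ Subalgebra.centralizer W.K ({x} : Set (End W.K (W.H X))) := by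
        rw [Subalgebra.mem_centralizer_iff]
        rintro _ rfl
        apply LinearMap.ext
        intro a
        exact L.comm_algC hspan hx a
      have h2 := (Algebra.adjoin_le (Set.singleton_subset_iff.2 h1)) (aeval_mem_adjoin_singleton
        W.K (frob Φ X m) (p := w))
      exact ((Subalgebra.mem_centralizer_iff _).1 h2 x rfl).symm
    exact PureLA.kill_of_orthogonal (C := algC W X) (E := (frob Φ X m).maxGenEigenspace lam)
      (htrans lam) hwC hw1 hw2 hwc (ε := (-1) ^ i) (pow_ne_zero _ (neg_ne_zero.2 one_ne_zero))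
      (fun a ha => scal_apply _ _ (hi ha)) (fun a ha => L.corr_gen (hEig a ha) hd) htr v hv
  rw [← LinearMap.ker_eq_top, eq_top_iff, ← Module.End.iSup_maxGenEigenspace_eq_top (frob Φ X m)]
  exact iSup_le hker

/-- Levels at which all cycles are eigenvectors. -/
lemma exists_good_level (Φ : FrobSystem W p) (X : 𝒱.Obj) : ∃ A B t : ℕ, 0 < A ∧ 0 < B ∧ 0 < t ∧
    ∀ s, 0 < s → Lvl Φ X (A * (t * s)) (B * (t * s)) ∧
      ∀ c ∈ spanCycles W (X.prod X) X.dim, frob Φ (X.prod X) (A * (t * s)) c =
        ((Pool.Agent.W534.card Φ (X.prod X) (A * (t * s)) : W.K) ^ X.dim) • c := by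
  obtain ⟨A, B, hA, hB, hlev⟩ := exists_level Φ X
  obtain ⟨t, ht, ht1⟩ := exists_span_eig Φ (X.prod X) X.dim
  refine ⟨A, B, t, hA, hB, ht, fun s hs => ⟨hlev (t * s) (Nat.mul_pos ht hs), fun c hc => ?_⟩⟩
  have := span_eig_mul Φ (ht1 c hc) (A * s)
  rwa [show t * (A * s) = A * (t * s) by ring] at this

/-- **Transitivity implies the Tate conjecture and semisimplicity.** -/
theorem semisimple_of_trans [IsAlgClosed W.K] (hp : 1 < p) (hRH : RiemannHyp Φ σ X) {t₁ : ℕ}
    (ht₁ : 0 < t₁) (h : ∀ r m, Lvl Φ X r m → t₁ ∣ m →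
      (∀ c ∈ spanCycles W (X.prod X) X.dim,
        frob Φ (X.prod X) r c = ((Pool.Agent.W534.card Φ (X.prod X) r : W.K) ^ X.dim) • c) →
      Trans Φ X m) :
    SemisimpleTateIn Φ (X.prod X) X.dim := by
  intro s hs c hc
  obtain ⟨A, B, t, hA, hB, ht, hlev⟩ := exists_good_level Φ X
  obtain ⟨L, hspan⟩ := hlev (s * t₁) (Nat.mul_pos hs ht₁)
  have htrans := h _ _ L ⟨B * (t * s), by ring⟩ hspan
  set r := A * (t * (s * t₁)) with hr
  have hle : spanCycles W (X.prod X) X.dim ≤ genTate Φ (X.prod X) r X.dim :=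
    fun c hc => mem_genTate_of_eig Φ (span_gr hc) (hspan c hc)
  let φ : genTate Φ (X.prod X) r X.dim →ₗ[W.K] Module.Dual W.K (spanCycles W (X.prod X) X.dim) :=
    { toFun := fun a => W.tr (X.prod X) ∘ₗ LinearMap.mulLeft W.K (a : W.H (X.prod X)) ∘ₗ
        (spanCycles W (X.prod X) X.dim).subtype
      map_add' := by
        intro a b
        ext c
        simp [add_mul]
      map_smul' := by
        intro a b
        ext c
        simp }
  have hφ : Function.Injective φ := by
    rw [← LinearMap.ker_eq_bot, LinearMap.ker_eq_bot']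
    rintro ⟨a, ha⟩ h0
    apply Subtype.ext
    exact L.eq_zero_of_trans hp hRH htrans hspan ha
      fun w hw => congrArg (fun F => F ⟨w, hw⟩) h0
  have h1 := LinearMap.finrank_le_finrank_of_injective hφ
  rw [Subspace.dual_finrank_eq] at h1
  have h2 := Submodule.eq_of_le_of_finrank_le hle h1
  rw [h2, hr, show A * (t * (s * t₁)) = s * (A * (t * t₁)) by ring]
  exact genTate_mono Φ s _ X.dim hc

/-- **Two cycles without common invariant subspaces imply the Tate conjecture.** -/
theorem semisimple_of_two [IsAlgClosed W.K] (hp : 1 < p) (hRH : RiemannHyp Φ σ X)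
    (htest : TwoCycleTest Φ X) : SemisimpleTateIn Φ (X.prod X) X.dim := by
  obtain ⟨z, z', hz, hz', t₁, ht₁, h⟩ := htest
  refine semisimple_of_trans hp hRH ht₁ fun r m L hm hspan => ?_
  intro lam a ha ha0 e he
  let U : Submodule W.K (W.H X) := (Subalgebra.toSubmodule (algC W X)).map
    (LinearMap.applyₗ a : End W.K (W.H X) →ₗ[W.K] W.H X)
  have hUE : U ≤ (frob Φ X m).maxGenEigenspace lam := by
    rintro _ ⟨x, hx, rfl⟩
    have hc : Commute (frob Φ X m) x := by
      apply LinearMap.ext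
      intro v
      exact (L.comm_algC hspan hx v).symm
    exact Module.End.mapsTo_maxGenEigenspace_of_comm hc lam ha
  have hst : ∀ w, (X.prod X).IsCyc X.dim w → ∀ u ∈ U, Pool.Agent.W537.cycOp W X w u ∈ U := by
    rintro w hw _ ⟨x, hx, rfl⟩
    have h1 : W.corr (W.cl _ w) ∈ algC W X := KOp.gen (p := X.dim) (by ring) hw
    exact ⟨W.corr (W.cl _ w) * x, (algC W X).mul_mem h1 hx, rfl⟩
  rcases h m L.hm hm lam U hUE (hst z hz) (hst z' hz') with h1 | h1
  · exfalso
    apply ha0
    have h2 : a ∈ U := ⟨1, (algC W X).one_mem, rfl⟩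
    rw [h1] at h2
    exact (Submodule.mem_bot _).1 h2
  · have h2 : e ∈ U := by rw [h1]; exact he
    obtain ⟨x, hx, hxe⟩ := h2
    exact ⟨x, hx, hxe⟩

/-- Operators of degree zero. -/
lemma isHom_zero {S : End W.K (W.H X)} (h : ∀ l, ∀ a ∈ W.gr X l, S a ∈ W.gr X l) :
    IsHom (W.gr X) (2 * ((X.dim : ℤ) - X.dim)) S := by
  intro i a ha
  rw [sub_self, mul_zero, add_zero]
  by_cases hi : i < 0
  · rw [grZ_of_neg hi] at ha ⊢
    rw [(Submodule.mem_bot _).1 ha, map_zero]
    exact Submodule.zero_mem _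
  · obtain ⟨l, rfl⟩ := Int.eq_ofNat_of_zero_le (not_lt.1 hi)
    have ha' : a ∈ W.gr X l := by
      rw [← grZ_natCast (gr := W.gr X) l]; exact ha
    have := h l a ha'
    rw [← grZ_natCast (gr := W.gr X) l] at this
    exact this

/-- **The Tate conjecture in terms of operators.** -/
lemma Lvl.full (L : Lvl Φ X r m) (h : SemisimpleTateIn Φ (X.prod X) X.dim)
    {S : End W.K (W.H X)} (hdeg : ∀ l, ∀ a ∈ W.gr X l, S a ∈ W.gr X l)
    (hcomm : ∀ a, S (frob Φ X m a) = frob Φ X m (S a)) : S ∈ algC W X := by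
  obtain ⟨τ, rfl⟩ := exists_corr S
  have hτ : τ ∈ W.gr (X.prod X) (2 * X.dim) := mem_gr_of_isHom (isHom_zero hdeg)
  have h1 : frob Φ (X.prod X) r τ = ((Pool.Agent.W534.card Φ (X.prod X) r : W.K) ^ X.dim) • τ := by
    rw [← sub_eq_zero]
    apply corr_inj
    apply LinearMap.ext
    intro a'
    obtain ⟨a, ha⟩ := map_iter_surjective Φ m a'
    rw [← ha, ← frob_apply, sub_eq_add_neg, W.corr_add, LinearMap.add_apply, ← neg_smul,
      W.corr_smul, LinearMap.smul_apply, neg_smul, L.corr_frob, hcomm, L.card_eq,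
      LinearMap.zero_apply, ← sub_eq_add_neg, sub_self]
  have h2 := h r L.hr (mem_genTate_of_eig Φ hτ h1)
  exact mem_KOp_iff.2 ⟨τ, by rwa [add_zero], rfl⟩

/-- The Tate conjecture with semisimplicity for `X × X` implies the semisimplicity of the Frobenius
endomorphism. -/
lemma Lvl.semisimple (L : Lvl Φ X r m) (h : SemisimpleTateIn Φ (X.prod X) X.dim)
    (hspan : ∀ c ∈ spanCycles W (X.prod X) X.dim,
      frob Φ (X.prod X) r c = ((Pool.Agent.W534.card Φ (X.prod X) r : W.K) ^ X.dim) • c)
    (lam : W.K) : (frob Φ X m).maxGenEigenspace lam = (frob Φ X m).eigenspace lam := by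
  obtain ⟨n, hn, s, -, hnil, hss, hF⟩ :=
    Module.End.exists_isNilpotent_isSemisimple (f := frob Φ X m)
  have hnC : n ∈ algC W X :=
    (Algebra.adjoin_le (Set.singleton_subset_iff.2 (frob_mem_algC m)) :
      Algebra.adjoin W.K {frob Φ X m} ≤ algC W X) hn
  have hnc : ∀ x ∈ algC W X, Commute n x := by
    intro x hx
    have h1 : frob Φ X m ∈ Subalgebra.centralizer W.K ({x} : Set (End W.K (W.H X))) := by
      rw [Subalgebra.mem_centralizer_iff]
      rintro _ rfl
      apply LinearMap.ext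
      intro a
      exact L.comm_algC hspan hx a
    have h2 := (Algebra.adjoin_le (Set.singleton_subset_iff.2 h1)) hn
    exact ((Subalgebra.mem_centralizer_iff _).1 h2 x rfl).symm
  obtain ⟨ν, hν, hνn⟩ := mem_KOp_iff.1 (mem_algC.1 hnC)
  rw [add_zero] at hν
  have horth : ∀ γ ∈ spanCycles W (X.prod X) X.dim, W.tr (X.prod X) (ν * γ) = 0 := by
    intro γ hγ
    have h1 := tr_mul_eq_trace (span_gr hν) γ
    rw [hνn] at h1
    set x := W.corr (W.map (swap X X) γ) with hx
    have hxC : x ∈ algC W X := by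
      refine mem_KOp_iff.2 ⟨W.map (swap X X) γ, ?_, rfl⟩
      rw [add_zero]
      exact swap_span hγ
    have h2 : Commute (par (W.isInternal X)) n := by
      have h3 : IsHom (W.gr X) (2 * 0) n := by
        have := isHom_zero (W := W) (X := X) (S := n) (fun l a ha => algC_gr hnC ha)
        rwa [sub_self] at this
      exact h3.par_comm (W.isInternal X)
    have h4 : par (W.isInternal X) * n * x = n * (par (W.isInternal X) * x) := by
      rw [h2.eq, mul_assoc]
    have h5 : IsNilpotent (n * (par (W.isInternal X) * x)) :=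
      (h2.symm.mul_right (hnc x hxC)).isNilpotent_mul_right hnil
    rw [h1, h4]
    exact (LinearMap.isNilpotent_trace_of_isNilpotent h5).eq_zero
  have hν0 : ν = 0 := by
    refine genTate_nondeg Φ (s := r) (l := X.dim) (by rw [dim_prod])
      (mem_genTate_of_eig Φ (span_gr hν) (hspan ν hν)) (fun y hy => ?_)
    exact horth y (h r L.hr hy)
  have hn0 : n = 0 := by
    rw [← hνn, hν0, W.corr_zero]
  have hss' : (frob Φ X m).IsSemisimple := by
    rw [hF, hn0, zero_add]
    exact hss
  exact (Module.End.isFinitelySemisimple_iff_isSemisimple.2 hss').maxGenEigenspace_eq_eigenspace lam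

/-- There is a correspondence with a cyclic vector. -/
lemma Lvl.exists_cyc [IsAlgClosed W.K] (hp : 1 < p) (hRH : RiemannHyp Φ σ X) (L : Lvl Φ X r m)
    (h : SemisimpleTateIn Φ (X.prod X) X.dim)
    (hspan : ∀ c ∈ spanCycles W (X.prod X) X.dim,
      frob Φ (X.prod X) r c = ((Pool.Agent.W534.card Φ (X.prod X) r : W.K) ^ X.dim) • c) :
    ∃ x ∈ algC W X, ∃ v, Cyc v x := by
  classical
  let S : Set (W.H X) := {v | ∃ (i : ℕ) (lam : W.K), v ∈ W.gr X i ∧ frob Φ X m v = lam • v}
  have hS : Submodule.span W.K S = ⊤ := by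
    rw [eq_top_iff, ← Module.End.iSup_maxGenEigenspace_eq_top (frob Φ X m)]
    refine iSup_le fun lam v hv => ?_
    obtain ⟨i, hi⟩ := gen_le_gr hp hRH L.hm lam
    refine Submodule.subset_span ⟨i, lam, hi hv, ?_⟩
    rw [L.semisimple h hspan] at hv
    exact Module.End.mem_eigenspace_iff.1 hv
  obtain ⟨b, hbS, hspanb, hli⟩ := exists_linearIndependent W.K S
  let B : Basis b W.K (W.H X) := Basis.mk hli (by
    rw [Subtype.range_coe, hspanb, hS])
  have : Fintype b := FiniteDimensional.fintypeBasisIndex B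
  have hcard : Fintype.card b = finrank W.K (W.H X) := (finrank_eq_card_basis B).symm
  let e := Fintype.equivFinOfCardEq hcard
  let B' := B.reindex e
  have hB' : ∀ k, B' k ∈ S := by
    intro k
    have h1 : B' k = ((e.symm k : b) : W.H X) := by
      rw [Basis.reindex_apply]
      exact Basis.mk_apply _ _ _
    rw [h1]
    exact hbS (e.symm k).2
  let c : Fin (finrank W.K (W.H X)) → W.K := fun k => ((k : ℕ) : W.K)
  have hc : Function.Injective c := by
    intro k l hkl
    exact Fin.ext (Nat.cast_injective hkl)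
  let x : End W.K (W.H X) := B'.constr W.K (fun k => c k • B' k)
  have hx : ∀ k, x (B' k) = c k • B' k := fun k => B'.constr_basis _ _ _
  refine ⟨x, ?_, _, cyc_of_diag B' hc hx⟩
  apply L.full h
  · intro l a ha
    have h1 : x ∘ₗ proj (W.isInternal X) l = proj (W.isInternal X) l ∘ₗ x := by
      apply B'.ext
      intro k
      obtain ⟨i, lam, hi, -⟩ := hB' k
      rw [LinearMap.comp_apply, LinearMap.comp_apply, hx, map_smul]
      by_cases hil : i = l
      · subst hil
        rw [proj_same _ hi, hx]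
      · rw [proj_ne _ hi hil, map_zero, smul_zero]
    have h2 := LinearMap.congr_fun h1 a
    rw [LinearMap.comp_apply, LinearMap.comp_apply, proj_same _ ha] at h2
    rw [h2]
    exact proj_mem _ _ _
  · intro a
    have h1 : x ∘ₗ frob Φ X m = frob Φ X m ∘ₗ x := by
      apply B'.ext
      intro k
      obtain ⟨i, lam, -, hlam⟩ := hB' k
      rw [LinearMap.comp_apply, LinearMap.comp_apply, hx, hlam, map_smul, map_smul, hx, hlam,
        smul_comm]
    exact LinearMap.congr_fun h1 a

lemma isRat_cycOps : IsRat (cycOps W X X.dim) where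
  zero := ⟨0, SmVar.IsCyc.zero _ _, by
    rw [Pool.Agent.W537.cycOp, map_zero, W.corr_zero]⟩
  add := by
    rintro _ ⟨z, hz, rfl⟩ _ ⟨w, hw, rfl⟩
    exact ⟨z + w, SmVar.IsCyc.add hz hw, by
      rw [Pool.Agent.W537.cycOp, Pool.Agent.W537.cycOp, Pool.Agent.W537.cycOp, map_add,
        W.corr_add]⟩
  smul := by
    rintro q _ ⟨z, hz, rfl⟩
    exact ⟨q • z, SmVar.IsCyc.smul q hz, by
      rw [Pool.Agent.W537.cycOp, Pool.Agent.W537.cycOp, W.cl_smul, W.corr_smul]⟩

/-- **The Tate conjecture with semisimplicity for `X × X` gives two cycles without common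
invariant subspaces.** -/
theorem two_of_semisimple [IsAlgClosed W.K] (hp : 1 < p) (hRH : RiemannHyp Φ σ X)
    (h : SemisimpleTateIn Φ (X.prod X) X.dim) : TwoCycleTest Φ X := by
  obtain ⟨A, B, t, hA, hB, ht, hlev⟩ := exists_good_level Φ X
  obtain ⟨L₁, hspan₁⟩ := hlev 1 one_pos
  obtain ⟨x₀, hx₀, v, hv⟩ := L₁.exists_cyc hp hRH h hspan₁
  have hsp : Submodule.span W.K (cycOps W X X.dim) = KOp W X X 0 := span_cycOps (by ring)
  obtain ⟨x, ⟨z, hz, rfl⟩, y, ⟨z', hz', rfl⟩, hxy⟩ := two_generators (isRat_cycOps (W := W) (X := X))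
    (v := v) (x₀ := x₀) (by rw [hsp]; exact hx₀) hv
  refine ⟨z, z', hz, hz', B * t, Nat.mul_pos hB ht, ?_⟩
  rintro s hs ⟨c, rfl⟩ lam U hUE hUz hUz'
  have hc : 0 < c := by
    rcases Nat.eq_zero_or_pos c with rfl | h0
    · simp at hs
    · exact h0
  obtain ⟨L, hspan⟩ := hlev c hc
  rw [← mul_assoc B] at L
  have hUC : ∀ c ∈ algC W X, Pres U c := by
    intro c hc
    exact hxy U hUz hUz' c (by rw [hsp]; exact hc)
  by_cases hU0 : U = ⊥
  · exact Or.inl hU0
  right
  obtain ⟨u, hu, hu0⟩ := Submodule.exists_mem_ne_zero_of_ne_bot hU0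
  apply le_antisymm hUE
  intro e he
  obtain ⟨i, hi⟩ := gen_le_gr hp hRH L.hm lam
  obtain ⟨w, hw1, hw2⟩ := PureLA.exists_projector (frob Φ X (B * t * c)) lam
  obtain ⟨φ, hφ⟩ := Module.Projective.exists_dual_eq_one W.K hu0
  have hEig : ∀ a ∈ (frob Φ X (B * t * c)).maxGenEigenspace lam,
      frob Φ X (B * t * c) a = lam • a := by
    intro a ha
    rw [L.semisimple h hspan] at ha
    exact Module.End.mem_eigenspace_iff.1 ha
  set π := aeval (frob Φ X (B * t * c)) w with hπ
  have hπF : ∀ a, π (frob Φ X (B * t * c) a) = frob Φ X (B * t * c) (π a) := by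
    intro a
    have h1 : Commute π (frob Φ X (B * t * c)) := by
      have h2 := congrArg (aeval (frob Φ X (B * t * c))) (mul_comm w Polynomial.X)
      rw [map_mul, map_mul, aeval_X] at h2
      exact h2
    exact LinearMap.congr_fun h1.eq a
  have hS : (φ ∘ₗ π).smulRight e ∈ algC W X := by
    apply L.full h
    · intro l a ha
      rw [LinearMap.smulRight_apply, LinearMap.comp_apply]
      by_cases hl : l = i
      · subst hl
        exact Submodule.smul_mem _ _ (hi he)
      · have h1 : π a ∈ W.gr X l := aeval_mem (U := W.gr X l) (x := frob Φ X (B * t * c))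
          (fun u hu => W.map_mem _ hu) w ha
        have h2 : π a = 0 := by
          have h3 := proj_same (W.isInternal X) (hi (hw1 a))
          rw [← h3]
          exact proj_ne (W.isInternal X) h1 hl
        rw [h2, map_zero, zero_smul]
        exact Submodule.zero_mem _
    · intro a
      rw [LinearMap.smulRight_apply, LinearMap.smulRight_apply, LinearMap.comp_apply,
        LinearMap.comp_apply, hπF, hEig _ (hw1 a), map_smul, map_smul, hEig e he, smul_eq_mul,
        smul_smul, mul_comm]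
  have h1 := hUC _ hS u hu
  rw [LinearMap.smulRight_apply, LinearMap.comp_apply, hw2 u (hUE hu), hφ, one_smul] at h1
  exact h1

/-- **The Tate conjecture for `X × X`, the order of the pole and pairs of cycles.** -/
theorem two_tate_tfae [IsAlgClosed W.K] (hp : 1 < p) (hRH : ∀ Z, RiemannHyp Φ σ Z)
    (X : 𝒱.Obj) :
    List.TFAE [PoleFormula Φ σ (X.prod X) X.dim, SemisimpleTateIn Φ (X.prod X) X.dim,
      TwoCycleTest Φ X] := by
  have h1 := pure_tate_tfae (Φ := Φ) (σ := σ) hp hRH X
  tfae_have 1 ↔ 2 := h1.out 0 1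
  tfae_have 2 → 3 := two_of_semisimple hp (hRH X)
  tfae_have 3 → 2 := semisimple_of_two hp (hRH X)
  tfae_finish

end Pool.Agent.R907
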