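import Pool.Agent.H914R2.Core0

/-!
# Two generic operators have no more invariant subspaces than the whole family
-/

set_option linter.unusedSectionVars false

namespace Pool.Agent.R907.TwoGen

open Module Polynomial

variable {K V : Type*} [Field K] [CharZero K] [AddCommGroup V] [Module K V] [Module.Finite K V]

/-- A set of operators closed under sums and rational multiples. -/
structure IsRat (Z : Set (End K V)) : Prop where
  zero : 0 ∈ Z
  add : ∀ x ∈ Z, ∀ y ∈ Z, x + y ∈ Z
  smul : ∀ (q : ℚ), ∀ x ∈ Z, (q : K) • x ∈ Z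

/-- Properties which hold for almost all members of a line as soon as they hold for one. -/
def Generic (P : End K V → Prop) : Prop :=
  ∀ x w, P x → {t : K | ¬ P (x + t • w)}.Finite

/-- `x` preserves the subspace `U`. -/
def Pres (U : Submodule K V) (x : End K V) : Prop := ∀ u ∈ U, x u ∈ U

lemma exists_rat {S : Set K} (hS : S.Finite) : ∃ q : ℚ, (q : K) ∉ S := by
  by_contra hno
  push Not at hno
  have h1 : (Set.range (fun q : ℚ => (q : K))).Infinite :=
    Set.infinite_range_of_injective (Rat.cast_injective)
  exact h1 (hS.subset (by rintro _ ⟨q, rfl⟩; exact hno q))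

lemma exists_rational {Z : Set (End K V)} (hZ : IsRat Z) {P : End K V → Prop} (hP : Generic P)
    {x₀ : End K V} (hx₀ : x₀ ∈ Submodule.span K Z) (h : P x₀) : ∃ x ∈ Z, P x := by
  classical
  obtain ⟨c, hc, rfl⟩ := Submodule.mem_span_set.1 hx₀
  have key : ∀ s : Finset (End K V), (s : Set (End K V)) ⊆ Z → ∀ z ∈ Z,
      P (z + ∑ i ∈ s, c i • i) → ∃ x ∈ Z, P x := by
    intro s
    induction s using Finset.induction_on with
    | empty =>
      intro _ z hz h
      exact ⟨z, hz, by simpa using h⟩
    | insert j s hj ih =>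
      intro hs z hz h
      rw [Finset.coe_insert, Set.insert_subset_iff] at hs
      rw [Finset.sum_insert hj] at h
      have h1 := hP _ j h
      obtain ⟨q, hq⟩ := exists_rat (h1.image fun t => c j + t)
      have h3 : P (z + (c j • j + ∑ i ∈ s, c i • i) + ((q : K) - c j) • j) := by
        by_contra hno
        exact hq ⟨_, hno, by ring⟩
      refine ih hs.2 (z + (q : K) • j) (hZ.add _ hz _ (hZ.smul q _ hs.1)) ?_
      have e : z + (q : K) • j + ∑ i ∈ s, c i • i =
          z + (c j • j + ∑ i ∈ s, c i • i) + ((q : K) - c j) • j := by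
        rw [sub_smul]; abel
      rw [e]
      exact h3
  exact key c.support hc 0 hZ.zero (by rw [zero_add]; exact h)

/-- `v` is a cyclic vector of `x`. -/
def Cyc (v : V) (x : End K V) : Prop :=
  LinearIndependent K (fun k : Fin (finrank K V) => (x ^ (k : ℕ)) v)

lemma indep_iff (b : Basis (Fin (finrank K V)) K V) (u : Fin (finrank K V) → V) :
    LinearIndependent K u ↔ (b.toMatrix u).det ≠ 0 := by
  rw [← Basis.det_apply, ← isUnit_iff_ne_zero, ← Module.Basis.is_basis_iff_det]
  constructor
  · intro h
    exact ⟨h, h.span_eq_top_of_card_eq_finrank' (Fintype.card_fin _)⟩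
  · exact fun h => h.1

lemma poly_pow (b : Basis (Fin (finrank K V)) K V) (x w : End K V) (v : V) (k : ℕ) :
    ∃ p : Fin (finrank K V) → K[X], ∀ t l, b.repr (((x + t • w) ^ k) v) l = (p l).eval t := by
  induction k with
  | zero => exact ⟨fun l => C (b.repr v l), fun t l => by rw [pow_zero, eval_C]; rfl⟩
  | succ k ih =>
    obtain ⟨p, hp⟩ := ih
    refine ⟨fun l => ∑ m, (C (LinearMap.toMatrix b b x l m) +
      X * C (LinearMap.toMatrix b b w l m)) * p m, fun t l => ?_⟩
    rw [pow_succ', Module.End.mul_apply, ← LinearMap.toMatrix_mulVec_repr b b, Matrix.mulVec,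
      dotProduct, eval_finsetSum]
    apply Finset.sum_congr rfl
    intro m _
    rw [hp, map_add, map_smul, eval_mul, eval_add, eval_C, eval_mul, eval_X, eval_C]
    rfl

lemma generic_cyc (v : V) : Generic (Cyc (K := K) v) := by
  intro x w hx
  set b : Basis (Fin (finrank K V)) K V := finBasis K V
  choose p hp using poly_pow b x w v
  have hdet : ∀ t : K, (b.toMatrix (fun k : Fin (finrank K V) => ((x + t • w) ^ (k : ℕ)) v)).det =
      ((Matrix.of fun l k : Fin (finrank K V) => p k l).det).eval t := by
    intro t
    rw [← coe_evalRingHom, RingHom.map_det]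
    congr 1
    ext l k
    rw [Basis.toMatrix_apply, hp]
    rfl
  have h0 : (Matrix.of fun l k : Fin (finrank K V) => p k l).det ≠ 0 := by
    intro h0
    have h1 := (indep_iff b _).1 hx
    have h2 := hdet 0
    rw [zero_smul, add_zero, h0, eval_zero] at h2
    exact h1 h2
  refine (Polynomial.finite_setOfPred_isRoot h0).subset ?_
  intro t ht
  have h1 : ¬ Cyc v (x + t • w) := ht
  rw [Cyc, indep_iff b, not_not, hdet] at h1
  exact h1

lemma aeval_mem {U : Submodule K V} {x : End K V} (hU : Pres U x) (g : K[X]) {u : V}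
    (hu : u ∈ U) : aeval x g u ∈ U := by
  induction g using Polynomial.induction_on' with
  | add p q hp hq =>
    rw [map_add, LinearMap.add_apply]
    exact U.add_mem hp hq
  | monomial n a =>
    rw [aeval_monomial, Module.algebraMap_end_eq_smul_id, Module.End.mul_apply,
      LinearMap.smul_apply, LinearMap.id_apply]
    apply U.smul_mem
    induction n with
    | zero => exact hu
    | succ n ih =>
      rw [pow_succ', Module.End.mul_apply]
      exact hU _ ih

/-- An operator with a cyclic vector has only finitely many invariant subspaces. -/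
lemma finite_invariant {v : V} {x : End K V} (h : Cyc v x) :
    {U : Submodule K V | Pres U x}.Finite := by
  classical
  have hspan := h.span_eq_top_of_card_eq_finrank' (Fintype.card_fin _)
  have hsurj : ∀ u : V, ∃ g : K[X], aeval x g v = u := by
    intro u
    have hu : u ∈ Submodule.span K (Set.range fun k : Fin (finrank K V) => (x ^ (k : ℕ)) v) := by
      rw [hspan]; trivial
    induction hu using Submodule.span_induction with
    | mem y hy =>
      obtain ⟨k, rfl⟩ := hy
      exact ⟨X ^ (k : ℕ), by rw [map_pow, aeval_X]⟩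
    | zero => exact ⟨0, by rw [map_zero, LinearMap.zero_apply]⟩
    | add y z _ _ hy hz =>
      obtain ⟨g, rfl⟩ := hy
      obtain ⟨g', rfl⟩ := hz
      exact ⟨g + g', by rw [map_add, LinearMap.add_apply]⟩
    | smul a y _ hy =>
      obtain ⟨g, rfl⟩ := hy
      exact ⟨a • g, by rw [map_smul, LinearMap.smul_apply]⟩
  let J : {U : Submodule K V // Pres U x} → Ideal K[X] := fun U =>
    { carrier := {g | aeval x g v ∈ U.1}
      add_mem' := fun {a b} ha hb => by
        have : aeval x (a + b) v ∈ U.1 := by
          rw [map_add, LinearMap.add_apply]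
          exact U.1.add_mem ha hb
        exact this
      zero_mem' := by
        have : aeval x (0 : K[X]) v ∈ U.1 := by
          rw [map_zero, LinearMap.zero_apply]
          exact U.1.zero_mem
        exact this
      smul_mem' := fun c a ha => by
        have : aeval x (c * a) v ∈ U.1 := by
          rw [map_mul, Module.End.mul_apply]
          exact aeval_mem U.2 c ha
        exact this }
  have hJ : ∀ U, J U ∣ Ideal.span {x.charpoly} := by
    intro U
    rw [Ideal.dvd_iff_le, Ideal.span_le, Set.singleton_subset_iff]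
    change aeval x x.charpoly v ∈ U.1
    rw [LinearMap.aeval_self_charpoly, LinearMap.zero_apply]
    exact U.1.zero_mem
  have hne : Ideal.span {x.charpoly} ≠ (0 : Ideal K[X]) := by
    intro h0
    have h1 : Ideal.span {x.charpoly} = ⊥ := h0
    rw [Ideal.span_singleton_eq_bot] at h1
    exact x.charpoly_monic.ne_zero h1
  have : Finite {I : Ideal K[X] // I ∣ Ideal.span {x.charpoly}} :=
    (UniqueFactorizationMonoid.fintypeSubtypeDvd (Ideal.span {x.charpoly}) hne).finite
  have hinj : Function.Injective (fun U : {U : Submodule K V // Pres U x} =>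
      (⟨J U, hJ U⟩ : {I : Ideal K[X] // I ∣ Ideal.span {x.charpoly}})) := by
    intro U U' hUU
    have h1 : J U = J U' := congrArg Subtype.val hUU
    apply Subtype.ext
    ext u
    obtain ⟨g, rfl⟩ := hsurj u
    have h2 : g ∈ J U ↔ g ∈ J U' := by rw [h1]
    exact h2
  have hfin : Finite {U : Submodule K V // Pres U x} := Finite.of_injective _ hinj
  exact Set.finite_coe_iff.1 hfin

lemma pres_sub {U : Submodule K V} {x y : End K V} (hx : Pres U x) (hy : Pres U y) :
    Pres U (x - y) := fun u hu => U.sub_mem (hx u hu) (hy u hu)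

lemma pres_of_smul {U : Submodule K V} {x : End K V} {t : K} (ht : t ≠ 0) (h : Pres U (t • x)) :
    Pres U x := by
  intro u hu
  have h1 := U.smul_mem t⁻¹ (h u hu)
  rwa [LinearMap.smul_apply, smul_smul, inv_mul_cancel₀ ht, one_smul] at h1

lemma generic_not_pres (U : Submodule K V) : Generic (fun x : End K V => ¬ Pres U x) := by
  intro x w hx
  apply Set.Subsingleton.finite
  intro s hs t ht
  have hs' : Pres U (x + s • w) := not_not.1 hs
  have ht' : Pres U (x + t • w) := not_not.1 ht
  by_contra hst
  have h1 := pres_sub hs' ht'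
  rw [add_sub_add_left_eq_sub, ← sub_smul] at h1
  have h2 := pres_of_smul (sub_ne_zero.2 hst) h1
  apply hx
  have h3 := pres_sub hs' (y := s • w) (fun u hu => U.smul_mem s (h2 u hu))
  rwa [add_sub_cancel_right] at h3

lemma generic_finset (S : Finset (Submodule K V)) :
    Generic (fun x : End K V => ∀ U ∈ S, ¬ Pres U x) := by
  intro x w hx
  have h1 : {t : K | ¬ ∀ U ∈ S, ¬ Pres U (x + t • w)} ⊆
      ⋃ U ∈ S, {t : K | ¬ ¬ Pres U (x + t • w)} := by
    intro t ht
    have ht' : ¬ ∀ U ∈ S, ¬ Pres U (x + t • w) := ht
    push Not at ht'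
    obtain ⟨U, hU, hU'⟩ := ht'
    exact Set.mem_biUnion hU (not_not.2 hU')
  exact (S.finite_toSet.biUnion fun U hU => generic_not_pres U x w (hx U hU)).subset h1

lemma exists_avoid {C : Submodule K (End K V)} (S : Finset (Submodule K V))
    (hS : ∀ U ∈ S, ∃ c ∈ C, ¬ Pres U c) : ∃ y ∈ C, ∀ U ∈ S, ¬ Pres U y := by
  classical
  induction S using Finset.induction_on with
  | empty => exact ⟨0, C.zero_mem, fun U hU => absurd hU (by simp)⟩
  | insert U₀ S hU₀ ih =>
    obtain ⟨y, hy, hyS⟩ := ih fun U hU => hS U (Finset.mem_insert_of_mem hU)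
    by_cases h : Pres U₀ y
    · obtain ⟨c, hc, hcU⟩ := hS U₀ (Finset.mem_insert_self _ _)
      have hfin := (generic_finset S y c hyS).union (Set.finite_singleton (0 : K))
      obtain ⟨q, hq⟩ := exists_rat hfin
      rw [Set.mem_union, not_or, Set.mem_singleton_iff] at hq
      refine ⟨y + (q : K) • c, C.add_mem hy (C.smul_mem _ hc), fun U hU => ?_⟩
      rcases Finset.mem_insert.1 hU with rfl | hU
      · intro h1
        have h2 := pres_sub h1 h
        rw [add_sub_cancel_left] at h2
        exact hcU (pres_of_smul hq.2 h2)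
      · exact (not_not.1 hq.1) U hU
    · refine ⟨y, hy, fun U hU => ?_⟩
      rcases Finset.mem_insert.1 hU with rfl | hU
      · exact h
      · exact hyS U hU

/-- **Two rational operators have no more common invariant subspaces than the whole family.** -/
theorem two_generators {Z : Set (End K V)} (hZ : IsRat Z) {v : V} {x₀ : End K V}
    (hx₀ : x₀ ∈ Submodule.span K Z) (hcyc : Cyc v x₀) :
    ∃ x ∈ Z, ∃ y ∈ Z, ∀ U : Submodule K V, Pres U x → Pres U y →
      ∀ c ∈ Submodule.span K Z, Pres U c := by
  classical
  obtain ⟨x, hxZ, hx⟩ := exists_rational hZ (generic_cyc v) hx₀ hcyc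
  have hfin := finite_invariant hx
  set S := hfin.toFinset.filter (fun U => ∃ c ∈ Submodule.span K Z, ¬ Pres U c) with hS
  obtain ⟨y₀, hy₀, hy₀S⟩ := exists_avoid (C := Submodule.span K Z) S
    (fun U hU => (Finset.mem_filter.1 hU).2)
  obtain ⟨y, hyZ, hy⟩ := exists_rational hZ (generic_finset S) hy₀ hy₀S
  refine ⟨x, hxZ, y, hyZ, fun U hUx hUy c hc => ?_⟩
  by_contra hno
  exact hy U (Finset.mem_filter.2 ⟨hfin.mem_toFinset.2 hUx, c, hc, hno⟩) hUy

/-- A diagonal operator with distinct entries has a cyclic vector. -/
lemma cyc_of_diag (b : Basis (Fin (finrank K V)) K V) {x : End K V}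
    {c : Fin (finrank K V) → K} (hc : Function.Injective c) (hx : ∀ i, x (b i) = c i • b i) :
    Cyc (∑ i, b i) x := by
  rw [Cyc, indep_iff b]
  have h1 : ∀ (k : ℕ) (i : Fin (finrank K V)), (x ^ k) (b i) = (c i ^ k) • b i := by
    intro k i
    induction k with
    | zero => simp
    | succ k ih => rw [pow_succ', Module.End.mul_apply, ih, map_smul, hx, smul_smul, pow_succ]
  have h2 : b.toMatrix (fun k : Fin (finrank K V) => (x ^ (k : ℕ)) (∑ i, b i)) =
      Matrix.vandermonde c := by
    ext i k
    rw [Basis.toMatrix_apply, map_sum, Finset.sum_congr rfl (fun i _ => h1 k i), map_sum,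
      Finsupp.finsetSum_apply, Finset.sum_eq_single i, map_smul, Basis.repr_self,
      Finsupp.smul_single, Finsupp.single_eq_same, Matrix.vandermonde_apply, smul_eq_mul, mul_one]
    · intro j _ hj
      rw [map_smul, Basis.repr_self, Finsupp.smul_single, Finsupp.single_eq_of_ne' hj]
    · intro h'
      exact absurd (Finset.mem_univ _) h'
  rw [h2]
  exact Matrix.det_vandermonde_ne_zero_iff.2 hc

end Pool.Agent.R907.TwoGen
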